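import Pool.Agent.Quad.Stmt

set_option autoImplicit false

namespace Pool.Agent.Quad

open Pool.Agent.FareyParity Finset
open scoped ENNReal

namespace C1

/-- at least `R / Q` members of a class in `[1, R]` -/
theorem class_lower (Q : ℕ) (hQ : 0 < Q) (a : ℤ) (R : ℕ) :
    R / Q ≤ ((Icc (1 : ℤ) R).filter (fun x => (Q : ℤ) ∣ x - a)).card := by
  have hQ' : (0 : ℤ) < Q := by exact_mod_cast hQ
  -- the representative in `[1, Q]`
  set a0 : ℤ := (a - 1) % Q + 1 with ha0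
  have h1 : 1 ≤ a0 := by have := Int.emod_nonneg (a - 1) hQ'.ne'; omega
  have h2 : a0 ≤ Q := by have := Int.emod_lt_of_pos (a - 1) hQ'; omega
  have h3 : (Q : ℤ) ∣ a0 - a := by
    have := Int.emod_add_mul_ediv (a - 1) Q
    refine ⟨- ((a - 1) / Q), ?_⟩
    rw [ha0]; linarith
  have hcard : (range (R / Q)).card = R / Q := card_range _
  rw [← hcard]
  apply card_le_card_of_injOn (fun i : ℕ => (i : ℤ) * Q + a0)
  · intro i hi
    have hi' : i < R / Q := by simpa using hi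
    have hi2 : (i + 1) * Q ≤ R := by
      calc (i + 1) * Q ≤ (R / Q) * Q := Nat.mul_le_mul_right _ hi'
        _ ≤ R := Nat.div_mul_le_self _ _
    have hi3 : ((i : ℤ) + 1) * Q ≤ R := by exact_mod_cast hi2
    have hi4 : (0 : ℤ) ≤ (i : ℤ) * Q := by positivity
    simp only [coe_filter, mem_Icc, Set.mem_ofPred_eq]
    refine ⟨⟨by linarith, by nlinarith⟩, ?_⟩
    have : (i : ℤ) * Q + a0 - a = i * Q + (a0 - a) := by ring
    rw [this]
    exact dvd_add (dvd_mul_left _ _) h3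
  · intro i _ j _ h
    simp only at h
    have h5 : (i : ℤ) * Q = j * Q := by linarith
    exact_mod_cast mul_right_cancel₀ hQ'.ne' h5

/-- at most `R / m + 1` members of a class in `[1, R]` -/
theorem class_upper (m : ℕ) (hm : 0 < m) (R : ℕ) (S : Finset ℤ) (hS : S ⊆ Icc (1 : ℤ) R)
    (hd : ∀ x ∈ S, ∀ y ∈ S, (m : ℤ) ∣ x - y) : S.card ≤ R / m + 1 := by
  have hm' : (0 : ℤ) < m := by exact_mod_cast hm
  have hcard : (range (R / m + 1)).card = R / m + 1 := card_range _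
  rw [← hcard]
  apply card_le_card_of_injOn (fun x : ℤ => (x / m).toNat)
  · intro x hx
    have hx' := mem_Icc.mp (hS hx)
    have h0 : 0 ≤ x / m := Int.ediv_nonneg (by linarith) hm'.le
    have h1 : x / m ≤ (R : ℤ) / m := Int.ediv_le_ediv hm' hx'.2
    simp only [coe_range, Set.mem_Iio]
    have h2 : (R : ℤ) / m = ((R / m : ℕ) : ℤ) := by push_cast; rfl
    omega
  · intro x hx y hy h
    have hx' := mem_Icc.mp (hS hx)
    have hy' := mem_Icc.mp (hS hy)
    have h0 : 0 ≤ x / m := Int.ediv_nonneg (by linarith) hm'.le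
    have h1 : 0 ≤ y / m := Int.ediv_nonneg (by linarith) hm'.le
    simp only at h
    have h2 : x / m = y / m := by omega
    have h3 := hd x hx y hy
    have h4 : x % m = y % m := (Int.modEq_iff_dvd.mpr h3 : y ≡ x [ZMOD (m : ℤ)]).symm
    have h5 := Int.emod_add_mul_ediv x m
    have h6 := Int.emod_add_mul_ediv y m
    rw [h2, h4] at h5
    linarith

open Classical in
theorem cop_count (Q : ℕ) (hQ : 0 < Q) (h2 : 2 ∣ Q) (a b : ℤ)
    (hab : ∀ l : ℕ, l.Prime → l ∣ Q → ¬ ((l : ℤ) ∣ a ∧ (l : ℤ) ∣ b)) (R1 R2 : ℕ) :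
    (R1 / Q) * (R2 / Q) ≤
      ((((Icc (1 : ℤ) R1).filter (fun x => (Q : ℤ) ∣ x - a)) ×ˢ
        ((Icc (1 : ℤ) R2).filter (fun x => (Q : ℤ) ∣ x - b))).filter
          (fun z => IsCoprime z.1 z.2)).card +
      ∑ l ∈ Icc 3 R1, (R1 / (Q * l) + 1) * (R2 / (Q * l) + 1) := by
  set A := (Icc (1 : ℤ) R1).filter (fun x => (Q : ℤ) ∣ x - a) with hA
  set B := (Icc (1 : ℤ) R2).filter (fun x => (Q : ℤ) ∣ x - b) with hB
  have hlow : (R1 / Q) * (R2 / Q) ≤ (A ×ˢ B).card := by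
    rw [card_product]
    exact Nat.mul_le_mul (class_lower Q hQ a R1) (class_lower Q hQ b R2)
  have hcov : A ×ˢ B ⊆ (A ×ˢ B).filter (fun z => IsCoprime z.1 z.2) ∪
      ((Icc 3 R1).filter (fun l => Nat.Coprime l Q)).biUnion
        (fun l => (A.filter (fun x => (l : ℤ) ∣ x)) ×ˢ (B.filter (fun x => (l : ℤ) ∣ x))) := by
    intro z hz
    rw [mem_union]
    by_cases hc : IsCoprime z.1 z.2
    · left; exact mem_filter.mpr ⟨hz, hc⟩
    · right
      have hg : Int.gcd z.1 z.2 ≠ 1 := fun h => hc (Int.isCoprime_iff_gcd_eq_one.mpr h)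
      obtain ⟨l, hl, hld⟩ := Nat.exists_prime_and_dvd hg
      have hl1 : (l : ℤ) ∣ z.1 := (Int.natCast_dvd_natCast.mpr hld).trans (Int.gcd_dvd_left _ _)
      have hl2 : (l : ℤ) ∣ z.2 := (Int.natCast_dvd_natCast.mpr hld).trans (Int.gcd_dvd_right _ _)
      have hzA := mem_filter.mp (mem_product.mp hz).1
      have hzB := mem_filter.mp (mem_product.mp hz).2
      have hlQ : ¬ l ∣ Q := by
        intro hlQ
        apply hab l hl hlQ
        have hlQ' : (l : ℤ) ∣ (Q : ℤ) := Int.natCast_dvd_natCast.mpr hlQ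
        constructor
        · have := dvd_sub hl1 (hlQ'.trans hzA.2)
          simpa using this
        · have := dvd_sub hl2 (hlQ'.trans hzB.2)
          simpa using this
      have hl3 : 3 ≤ l := by
        have := hl.two_le
        rcases Nat.lt_or_ge 2 l with h | h
        · omega
        · have : l = 2 := by omega
          rw [this] at hlQ; exact absurd h2 hlQ
      have hlR : l ≤ R1 := by
        have h1 := mem_Icc.mp hzA.1
        have h3 := Int.le_of_dvd (by linarith) hl1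
        have : (l : ℤ) ≤ R1 := h3.trans h1.2
        exact_mod_cast this
      rw [mem_biUnion]
      refine ⟨l, mem_filter.mpr ⟨mem_Icc.mpr ⟨hl3, hlR⟩, (Nat.Prime.coprime_iff_not_dvd hl).mpr hlQ⟩,
        mem_product.mpr ⟨mem_filter.mpr ⟨(mem_product.mp hz).1, hl1⟩,
          mem_filter.mpr ⟨(mem_product.mp hz).2, hl2⟩⟩⟩
  refine hlow.trans ((card_le_card hcov).trans ((card_union_le _ _).trans ?_))
  gcongr
  refine card_biUnion_le.trans ?_
  refine (sum_le_sum (fun l hl => ?_)).trans (sum_le_sum_of_subset (filter_subset _ _))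
  have hl' := mem_filter.mp hl
  have hl3 : 0 < l := by have := (mem_Icc.mp hl'.1).1; omega
  rw [card_product]
  have hkey : ∀ (x y c : ℤ), (Q : ℤ) ∣ x - c → (Q : ℤ) ∣ y - c → (l : ℤ) ∣ x → (l : ℤ) ∣ y →
      ((Q * l : ℕ) : ℤ) ∣ x - y := by
    intro x y c h1 h2 h3 h4
    have h5 : (Q : ℤ) ∣ x - y := by
      have := dvd_sub h1 h2
      simpa using this
    have h6 : (l : ℤ) ∣ x - y := dvd_sub h3 h4
    push_cast
    exact IsCoprime.mul_dvd (Nat.isCoprime_iff_coprime.mpr hl'.2.symm) h5 h6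
  apply Nat.mul_le_mul
  · apply class_upper _ (Nat.mul_pos hQ hl3)
    · intro x hx; exact (mem_filter.mp (mem_filter.mp hx).1).1
    · intro x hx y hy
      exact hkey x y a (mem_filter.mp (mem_filter.mp hx).1).2 (mem_filter.mp (mem_filter.mp hy).1).2
        (mem_filter.mp hx).2 (mem_filter.mp hy).2
  · apply class_upper _ (Nat.mul_pos hQ hl3)
    · intro x hx; exact (mem_filter.mp (mem_filter.mp hx).1).1
    · intro x hx y hy
      exact hkey x y b (mem_filter.mp (mem_filter.mp hx).1).2 (mem_filter.mp (mem_filter.mp hy).1).2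
        (mem_filter.mp hx).2 (mem_filter.mp hy).2

theorem sum_inv_sq (n : ℕ) : ∑ l ∈ Icc 3 n, (1 : ℝ) / (l : ℝ) ^ 2 ≤ 1 / 2 := by
  have key : ∀ n : ℕ, 2 ≤ n → ∑ l ∈ Icc 3 n, (1 : ℝ) / (l : ℝ) ^ 2 ≤ 1 / 2 - 1 / n := by
    intro n hn
    induction n, hn using Nat.le_induction with
    | base => norm_num
    | succ n hn ih =>
      rw [Finset.sum_Icc_succ_top (by omega)]
      have hn' : (2 : ℝ) ≤ n := by exact_mod_cast hn
      have : (1 : ℝ) / ((n + 1 : ℕ) : ℝ) ^ 2 ≤ 1 / n - 1 / ((n + 1 : ℕ) : ℝ) := by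
        push_cast
        rw [div_sub_div _ _ (by positivity) (by positivity), div_le_div_iff₀ (by positivity)
          (by positivity)]
        nlinarith
      linarith
  rcases Nat.lt_or_ge n 2 with h | h
  · have : Icc 3 n = ∅ := Icc_eq_empty (by omega)
    rw [this]; norm_num
  · have := key n h
    have h2 : (0 : ℝ) ≤ 1 / n := by positivity
    linarith

theorem sum_inv (n : ℕ) : ∑ l ∈ Icc 3 n, (1 : ℝ) / (l : ℝ) ≤ 1 + Real.log n := by
  have h1 := harmonic_le_one_add_log n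
  refine le_trans ?_ h1
  rw [harmonic_eq_sum_Icc]
  push_cast
  simp only [one_div]
  apply sum_le_sum_of_subset_of_nonneg
  · intro x hx; rw [mem_Icc] at *; omega
  · intro i _ _; positivity

/-- real form of the counting bound -/
theorem err_bound (Q : ℕ) (hQ : 0 < Q) (R1 R2 Y : ℕ) (h1 : R1 ≤ Y) (h2 : R2 ≤ Y) (hY : 1 ≤ Y) :
    ((∑ l ∈ Icc 3 R1, (R1 / (Q * l) + 1) * (R2 / (Q * l) + 1) : ℕ) : ℝ) ≤
      (R1 : ℝ) * R2 / Q ^ 2 / 2 + 2 * Y * (1 + Real.log Y) + Y := by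
  have hQ' : (1 : ℝ) ≤ Q := by exact_mod_cast hQ
  have hR1 : (R1 : ℝ) ≤ Y := by exact_mod_cast h1
  have hR2 : (R2 : ℝ) ≤ Y := by exact_mod_cast h2
  have hY' : (1 : ℝ) ≤ Y := by exact_mod_cast hY
  push_cast
  have hterm : ∀ l ∈ Icc 3 R1, (((R1 / (Q * l) : ℕ) : ℝ) + 1) * (((R2 / (Q * l) : ℕ) : ℝ) + 1) ≤
      (R1 : ℝ) * R2 / Q ^ 2 * (1 / (l : ℝ) ^ 2) + 2 * Y * (1 / (l : ℝ)) + 1 := by
    intro l hl
    have hl3 : 3 ≤ l := (mem_Icc.mp hl).1
    have hl' : (3 : ℝ) ≤ l := by exact_mod_cast hl3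
    have e1 : ((R1 / (Q * l) : ℕ) : ℝ) ≤ (R1 : ℝ) / (Q * l) := by
      have := @Nat.cast_div_le ℝ _ _ _ R1 (Q * l)
      push_cast at this; exact this
    have e2 : ((R2 / (Q * l) : ℕ) : ℝ) ≤ (R2 : ℝ) / (Q * l) := by
      have := @Nat.cast_div_le ℝ _ _ _ R2 (Q * l)
      push_cast at this; exact this
    have e3 : (R1 : ℝ) / (Q * l) ≤ Y * (1 / l) := by
      rw [mul_one_div]
      apply div_le_div₀ (by positivity) hR1 (by positivity)
      nlinarith
    have e4 : (R2 : ℝ) / (Q * l) ≤ Y * (1 / l) := by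
      rw [mul_one_div]
      apply div_le_div₀ (by positivity) hR2 (by positivity)
      nlinarith
    calc (((R1 / (Q * l) : ℕ) : ℝ) + 1) * (((R2 / (Q * l) : ℕ) : ℝ) + 1)
        ≤ ((R1 : ℝ) / (Q * l) + 1) * ((R2 : ℝ) / (Q * l) + 1) := by gcongr
      _ = (R1 : ℝ) * R2 / Q ^ 2 * (1 / (l : ℝ) ^ 2) + ((R1 : ℝ) / (Q * l) + (R2 : ℝ) / (Q * l)) + 1 := by
          field_simp
          ring
      _ ≤ _ := by linarith
  refine (sum_le_sum hterm).trans ?_
  rw [sum_add_distrib, sum_add_distrib, ← mul_sum, ← mul_sum, sum_const, nsmul_eq_mul, mul_one]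
  have s1 := sum_inv_sq R1
  have s2 := sum_inv R1
  have s3 : Real.log R1 ≤ Real.log Y := by
    rcases Nat.eq_zero_or_pos R1 with h | h
    · rw [h]; simp; exact Real.log_nonneg hY'
    · apply Real.log_le_log (by exact_mod_cast h) hR1
  have s4 : ((Icc 3 R1).card : ℝ) ≤ Y := by
    rw [Nat.card_Icc]
    have : R1 + 1 - 3 ≤ Y := by omega
    exact_mod_cast this
  have s5 : (R1 : ℝ) * R2 / Q ^ 2 * ∑ l ∈ Icc 3 R1, 1 / (l : ℝ) ^ 2 ≤ (R1 : ℝ) * R2 / Q ^ 2 * (1 / 2) :=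
    mul_le_mul_of_nonneg_left s1 (by positivity)
  have s6 : 2 * (Y : ℝ) * ∑ l ∈ Icc 3 R1, 1 / (l : ℝ) ≤ 2 * Y * (1 + Real.log Y) :=
    mul_le_mul_of_nonneg_left (s2.trans (by linarith)) (by positivity)
  linarith

theorem div_lower (R Q : ℕ) (hQ : 0 < Q) : (R : ℝ) / Q - 1 ≤ ((R / Q : ℕ) : ℝ) := by
  have h := Nat.div_add_mod R Q
  have h2 := Nat.mod_lt R hQ
  have hQ' : (0 : ℝ) < Q := by exact_mod_cast hQ
  have h3 : (R : ℝ) = Q * ((R / Q : ℕ) : ℝ) + ((R % Q : ℕ) : ℝ) := by exact_mod_cast h.symm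
  have h4 : ((R % Q : ℕ) : ℝ) < Q := by exact_mod_cast h2
  rw [sub_le_iff_le_add, div_le_iff₀ hQ']
  nlinarith

end C1

open C1 in
theorem cone1_main : P_Cone1 := by
  intro Q D hQ hD
  have hQ' : (1 : ℝ) ≤ Q := by exact_mod_cast hQ
  have hDne : D ≠ 0 := by
    rintro rfl
    simp at hD
    omega
  refine ⟨1 / (64 * Q ^ 2), by positivity, ?_⟩
  intro N e hN he
  obtain ⟨hdt, ⟨hp0, hp1, hp2⟩, ⟨hq0, hq1, hq2⟩⟩ := he
  set xp : ℤ := e.1.1 with hxp
  set yp : ℤ := e.1.2 with hyp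
  set xq : ℤ := e.2.1 with hxq
  set yq : ℤ := e.2.2 with hyq
  have hdt' : xp * yq - xq * yp = 1 := hdt
  have hp0' : (1 : ℝ) ≤ (xp : ℝ) := by exact_mod_cast hp0
  have hq0' : (1 : ℝ) ≤ (xq : ℝ) := by exact_mod_cast hq0
  -- the analytic choice of `Y0`
  have hlog : ∃ Y0 : ℕ, ∀ Y : ℕ, Y0 ≤ Y →
      7 + 2 * Real.log Y ≤ (Y : ℝ) / (64 * xp * xq * Q ^ 2) := by
    have h1 : Filter.Tendsto (fun Y : ℕ => (Y : ℝ)) Filter.atTop Filter.atTop :=
      tendsto_natCast_atTop_atTop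
    have h2 := (Real.isLittleO_log_id_atTop.comp_tendsto h1).def
      (c := 1 / (4 * (64 * xp * xq * Q ^ 2))) (by positivity)
    have h3 : ∀ᶠ Y : ℕ in Filter.atTop, (14 : ℝ) * (64 * xp * xq * Q ^ 2) ≤ Y :=
      h1.eventually_ge_atTop _
    have h4 : ∀ᶠ Y : ℕ in Filter.atTop, 1 ≤ Y := Filter.eventually_ge_atTop 1
    obtain ⟨Y0, hY0⟩ := Filter.eventually_atTop.mp (h2.and (h3.and h4))
    refine ⟨Y0, fun Y hY => ?_⟩
    obtain ⟨a1, a2, a3⟩ := hY0 Y hY
    simp only [Function.comp, id, Real.norm_eq_abs] at a1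
    have a3' : (1 : ℝ) ≤ Y := by exact_mod_cast a3
    rw [abs_of_nonneg (Real.log_nonneg a3'), abs_of_nonneg (by linarith)] at a1
    have hK : 0 < 64 * (xp : ℝ) * xq * Q ^ 2 := by positivity
    have a4 : (7 : ℝ) ≤ (Y : ℝ) / (64 * xp * xq * Q ^ 2) / 2 := by
      rw [div_div, le_div_iff₀ (by positivity)]
      linarith
    have a5 : 2 * Real.log Y ≤ (Y : ℝ) / (64 * xp * xq * Q ^ 2) / 2 := by
      have : 1 / (4 * (64 * (xp : ℝ) * xq * Q ^ 2)) * (Y : ℝ) =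
        (Y : ℝ) / (64 * xp * xq * Q ^ 2) / 4 := by
        field_simp
      rw [this] at a1
      linarith
    linarith
  obtain ⟨Y1, hY1⟩ := hlog
  refine ⟨max Y1 (4 * (xp * xq).toNat + 1), fun Y hY => ?_⟩
  have hYY1 : Y1 ≤ Y := (le_max_left _ _).trans hY
  have hYb : 4 * (xp * xq).toNat + 1 ≤ Y := (le_max_right _ _).trans hY
  have hxx : 0 < xp * xq := mul_pos hp0 hq0
  have hYb' : 4 * (xp * xq) + 1 ≤ (Y : ℤ) := by
    have : ((xp * xq).toNat : ℤ) = xp * xq := Int.toNat_of_nonneg hxx.le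
    omega
  have hY1' : 1 ≤ Y := by omega
  set R1 : ℕ := ((Y : ℤ) / (2 * xp)).toNat with hR1
  set R2 : ℕ := ((Y : ℤ) / (2 * xq)).toNat with hR2
  have hR1i : (R1 : ℤ) = (Y : ℤ) / (2 * xp) :=
    Int.toNat_of_nonneg (Int.ediv_nonneg (by positivity) (by linarith))
  have hR2i : (R2 : ℤ) = (Y : ℤ) / (2 * xq) :=
    Int.toNat_of_nonneg (Int.ediv_nonneg (by positivity) (by linarith))
  have hR1m : (R1 : ℤ) * (2 * xp) ≤ Y := by rw [hR1i]; exact Int.ediv_mul_le _ (by linarith)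
  have hR2m : (R2 : ℤ) * (2 * xq) ≤ Y := by rw [hR2i]; exact Int.ediv_mul_le _ (by linarith)
  have hR1l : (Y : ℤ) < ((R1 : ℤ) + 1) * (2 * xp) := by
    rw [hR1i]; exact Int.lt_ediv_add_one_mul_self _ (by linarith)
  have hR2l : (Y : ℤ) < ((R2 : ℤ) + 1) * (2 * xq) := by
    rw [hR2i]; exact Int.lt_ediv_add_one_mul_self _ (by linarith)
  have hR1Y : R1 ≤ Y := by
    have : (R1 : ℤ) ≤ Y := by nlinarith
    exact_mod_cast this
  have hR2Y : R2 ≤ Y := by
    have : (R2 : ℤ) ≤ Y := by nlinarith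
    exact_mod_cast this
  have h2Q : 2 ∣ Q := by
    have : ((2 : ℕ) : ℤ) ∣ (Q : ℤ) := by
      refine dvd_trans ?_ hD
      exact ⟨4 * D, by push_cast; ring⟩
    exact_mod_cast this
  have hab : ∀ l : ℕ, l.Prime → l ∣ Q → ¬ ((l : ℤ) ∣ yq ∧ (l : ℤ) ∣ -yp) := by
    rintro l hl - ⟨h1, h2⟩
    have : (l : ℤ) ∣ 1 := by
      rw [← hdt']
      have h3 : (l : ℤ) ∣ yp := (dvd_neg).mp h2
      exact dvd_sub (dvd_mul_of_dvd_right h1 _) (dvd_mul_of_dvd_right h3 _)
    have h4 := Int.natAbs_dvd_natAbs.mpr this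
    simp at h4
    exact hl.one_lt.ne' h4
  have hcount := cop_count Q hQ h2Q yq (-yp) hab R1 R2
  have herr := err_bound Q hQ R1 R2 Y hR1Y hR2Y hY1'
  -- injection
  have hinj : ((((Icc (1 : ℤ) R1).filter (fun x => (Q : ℤ) ∣ x - yq)) ×ˢ
        ((Icc (1 : ℤ) R2).filter (fun x => (Q : ℤ) ∣ x - (-yp)))).filter
          (fun z => IsCoprime z.1 z.2)).card ≤ (box Y (fun v => Vp Q D v ∧ Cone e v)).card := by
    classical
    apply card_le_card_of_injOn (fun z : ℤ × ℤ => (z.1 * xp + z.2 * xq, z.1 * yp + z.2 * yq))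
    · intro z hz
      rw [mem_coe, mem_filter, mem_product, mem_filter, mem_filter, mem_Icc, mem_Icc] at hz
      obtain ⟨⟨⟨⟨ha1, ha2⟩, ha3⟩, ⟨⟨hb1, hb2⟩, hb3⟩⟩, hc⟩ := hz
      have hv1pos : 0 < z.1 * xp + z.2 * xq := by positivity
      have hv1le : z.1 * xp + z.2 * xq ≤ Y := by nlinarith
      have hv2 : 0 ≤ z.1 * yp + z.2 * yq := by
        have : 0 ≤ z.1 * yp := mul_nonneg (by linarith) hp1
        have : 0 ≤ z.2 * yq := mul_nonneg (by linarith) hq1
        linarith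
      have hN' : (1 : ℤ) ≤ N := by exact_mod_cast hN
      have hv2le : z.1 * yp + z.2 * yq ≤ z.1 * xp + z.2 * xq := by
        have : yp ≤ xp := by nlinarith
        have : yq ≤ xq := by nlinarith
        nlinarith
      have hcop : IsCoprime (z.1 * xp + z.2 * xq) (z.1 * yp + z.2 * yq) := by
        obtain ⟨u, w, huw⟩ := hc
        refine ⟨u * yq - w * yp, - u * xq + w * xp, ?_⟩
        have : (u * yq - w * yp) * (z.1 * xp + z.2 * xq) + (-u * xq + w * xp) * (z.1 * yp + z.2 * yq)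
          = (u * z.1 + w * z.2) * (xp * yq - xq * yp) := by ring
        rw [this, huw, hdt']; ring
      have hQv : (Q : ℤ) ∣ (z.1 * xp + z.2 * xq) - 1 := by
        have : (z.1 * xp + z.2 * xq) - 1 = (z.1 - yq) * xp + (z.2 - -yp) * xq := by
          rw [← hdt']; ring
        rw [this]
        exact dvd_add (dvd_mul_of_dvd_left ha3 _) (dvd_mul_of_dvd_left hb3 _)
      have hcopQ : IsCoprime (z.1 * xp + z.2 * xq) (Q : ℤ) := by
        obtain ⟨t, ht⟩ := hQv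
        exact ⟨1, -t, by linarith⟩
      have hjac : jacobiSym D (z.1 * xp + z.2 * xq).natAbs = 1 := by
        have hn : ((z.1 * xp + z.2 * xq).natAbs : ℤ) = z.1 * xp + z.2 * xq :=
          Int.natAbs_of_nonneg hv1pos.le
        set n : ℕ := (z.1 * xp + z.2 * xq).natAbs with hndef
        have h4D : ((4 * D.natAbs : ℕ) : ℤ) ∣ (n : ℤ) - 1 := by
          rw [hn]
          refine dvd_trans ?_ hQv
          refine dvd_trans ?_ hD
          push_cast
          exact mul_dvd_mul ⟨2, by norm_num⟩ ((abs_dvd D D).mpr dvd_rfl)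
        have hmod : n % (4 * D.natAbs) = 1 % (4 * D.natAbs) := by
          have : (1 : ℕ) ≡ n [MOD 4 * D.natAbs] := by
            rw [Nat.modEq_iff_dvd]
            exact_mod_cast h4D
          exact this.symm
        have hnodd : Odd n := by
          have h2n : ((2 : ℕ) : ℤ) ∣ (n : ℤ) - 1 := by
            refine dvd_trans ?_ h4D
            exact ⟨2 * D.natAbs, by push_cast; ring⟩
          rw [← Int.odd_coe_nat]
          obtain ⟨t, ht⟩ := h2n
          exact ⟨t, by push_cast at ht; linarith⟩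
        rw [jacobiSym.mod_right D hnodd, hmod, ← jacobiSym.mod_right D odd_one]
        exact jacobiSym.one_right D
      have hcone : Cone e (z.1 * xp + z.2 * xq, z.1 * yp + z.2 * yq) := by
        constructor
        · show 0 < xp * (z.1 * yp + z.2 * yq) - (z.1 * xp + z.2 * xq) * yp
          have : xp * (z.1 * yp + z.2 * yq) - (z.1 * xp + z.2 * xq) * yp =
            z.2 * (xp * yq - xq * yp) := by ring
          rw [this, hdt']; linarith
        · show 0 < (z.1 * xp + z.2 * xq) * yq - xq * (z.1 * yp + z.2 * yq)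
          have : (z.1 * xp + z.2 * xq) * yq - xq * (z.1 * yp + z.2 * yq) =
            z.1 * (xp * yq - xq * yp) := by ring
          rw [this, hdt']; linarith
      simp only [box, coe_filter, mem_product, mem_Icc, Set.mem_ofPred_eq]
      exact ⟨⟨⟨by linarith, hv1le⟩, hv2, by linarith⟩, hcop, ⟨hv1pos, hcop, hcopQ, hjac⟩, hcone⟩
    · intro z _ w _ h
      simp only [Prod.mk.injEq] at h
      obtain ⟨h1, h2⟩ := h
      have e1 : z.1 * (xp * yq - xq * yp) = w.1 * (xp * yq - xq * yp) := by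
        linear_combination yq * h1 - xq * h2
      have e2 : z.2 * (xp * yq - xq * yp) = w.2 * (xp * yq - xq * yp) := by
        linear_combination xp * h2 - yp * h1
      rw [hdt', mul_one, mul_one] at e1 e2
      exact Prod.ext e1 e2
  -- real inequalities
  have hcR : ((R1 / Q : ℕ) : ℝ) * ((R2 / Q : ℕ) : ℝ) ≤
      ((box Y (fun v => Vp Q D v ∧ Cone e v)).card : ℝ) +
        ((∑ l ∈ Icc 3 R1, (R1 / (Q * l) + 1) * (R2 / (Q * l) + 1) : ℕ) : ℝ) := by
    have := hcount.trans (Nat.add_le_add_right hinj _)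
    exact_mod_cast this
  have hR1r : (Y : ℝ) / (4 * xp) ≤ R1 := by
    have h1 : (Y : ℝ) < ((R1 : ℝ) + 1) * (2 * xp) := by exact_mod_cast hR1l
    have h2 : 4 * ((xp : ℝ) * xq) + 1 ≤ Y := by exact_mod_cast hYb'
    rw [div_le_iff₀ (by positivity)]
    nlinarith [mul_nonneg (by linarith : (0:ℝ) ≤ (xp:ℝ)) (by linarith : (0 : ℝ) ≤ (xq:ℝ) - 1)]
  have hR2r : (Y : ℝ) / (4 * xq) ≤ R2 := by
    have h1 : (Y : ℝ) < ((R2 : ℝ) + 1) * (2 * xq) := by exact_mod_cast hR2l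
    have h2 : 4 * ((xp : ℝ) * xq) + 1 ≤ Y := by exact_mod_cast hYb'
    rw [div_le_iff₀ (by positivity)]
    nlinarith [mul_nonneg (by linarith : (0:ℝ) ≤ (xq:ℝ)) (by linarith : (0 : ℝ) ≤ (xp:ℝ) - 1)]
  have hR1u : (R1 : ℝ) ≤ Y := by exact_mod_cast hR1Y
  have hR2u : (R2 : ℝ) ≤ Y := by exact_mod_cast hR2Y
  have hYr : (1 : ℝ) ≤ Y := by exact_mod_cast hY1'
  have hlow : (R1 : ℝ) * R2 / Q ^ 2 - 2 * Y ≤ ((R1 / Q : ℕ) : ℝ) * ((R2 / Q : ℕ) : ℝ) := by
    have d1 := div_lower R1 Q hQ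
    have d2 := div_lower R2 Q hQ
    have f1 : (0 : ℝ) ≤ ((R1 / Q : ℕ) : ℝ) := by positivity
    have f2 : (0 : ℝ) ≤ ((R2 / Q : ℕ) : ℝ) := by positivity
    have g1 : (R1 : ℝ) / Q ≤ Y := (div_le_self (by positivity) hQ').trans hR1u
    have g2 : (R2 : ℝ) / Q ≤ Y := (div_le_self (by positivity) hQ').trans hR2u
    have g3 : (R1 : ℝ) * R2 / Q ^ 2 = (R1 : ℝ) / Q * ((R2 : ℝ) / Q) := by
      field_simp
    have g4 : (0 : ℝ) ≤ (R1 : ℝ) / Q := by positivity
    have g5 : (0 : ℝ) ≤ (R2 : ℝ) / Q := by positivity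
    have u1 : ((R1 / Q : ℕ) : ℝ) ≤ (R1 : ℝ) / Q := Nat.cast_div_le
    rw [g3]
    nlinarith
  have hmain : (Y : ℝ) ^ 2 / (16 * xp * xq) ≤ (R1 : ℝ) * R2 := by
    have : (Y : ℝ) ^ 2 / (16 * xp * xq) = (Y : ℝ) / (4 * xp) * ((Y : ℝ) / (4 * xq)) := by
      field_simp
      ring
    rw [this]
    apply mul_le_mul hR1r hR2r (by positivity) (by positivity)
  have hA := hY1 Y hYY1
  have hmain2 : (Y : ℝ) ^ 2 / (32 * xp * xq * Q ^ 2) ≤ (R1 : ℝ) * R2 / Q ^ 2 / 2 := by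
    have : (Y : ℝ) ^ 2 / (32 * xp * xq * Q ^ 2) = (Y : ℝ) ^ 2 / (16 * xp * xq) / Q ^ 2 / 2 := by
      field_simp
      ring
    rw [this]
    gcongr
  have hB : (Y : ℝ) * (7 + 2 * Real.log Y) ≤ (Y : ℝ) ^ 2 / (64 * xp * xq * Q ^ 2) := by
    have := mul_le_mul_of_nonneg_left hA (by linarith : (0 : ℝ) ≤ (Y : ℝ))
    refine this.trans (le_of_eq ?_)
    ring
  have hfin : 1 / (64 * (Q : ℝ) ^ 2) * theta e * Y ^ 2 = (Y : ℝ) ^ 2 / (64 * xp * xq * Q ^ 2) := by
    unfold theta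
    rw [← hxp, ← hxq]
    field_simp
  rw [hfin]
  have hhalf : (Y : ℝ) ^ 2 / (32 * xp * xq * Q ^ 2) = 2 * ((Y : ℝ) ^ 2 / (64 * xp * xq * Q ^ 2)) := by
    field_simp
    ring
  rw [hhalf] at hmain2
  nlinarith

end Pool.Agent.Quad
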