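import Pool.Agent.Quad.Basic

/-!
# Upper bound for the number of lattice points in a cone (CONE2)
-/

set_option autoImplicit false

namespace Pool.Agent.Quad

open Pool.Agent.FareyParity Finset

theorem cone2_main : P_Cone2 := by
  intro N e _ he Y
  have h1 := he.x1_pos
  have h2 := he.x2_pos
  have hinj : (boxA Y (Cone e)).card ≤
      ((Icc (1 : ℤ) (Y / e.1.1)) ×ˢ (Icc (1 : ℤ) (Y / e.2.1))).card := by
    apply Finset.card_le_card_of_injOn (fun v => (dt v e.2, dt e.1 v))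
    · intro v hv
      simp only [boxA, coe_filter, Set.mem_ofPred_eq, mem_product, mem_Icc] at hv
      obtain ⟨⟨⟨_, hY⟩, _⟩, h3, h4⟩ := hv
      have h5 := coord_fst he v
      simp only [coe_product, coe_Icc, Set.mem_prod, Set.mem_Icc]
      refine ⟨⟨h4, ?_⟩, h3, ?_⟩
      · rw [Int.le_ediv_iff_mul_le h1]; nlinarith
      · rw [Int.le_ediv_iff_mul_le h2]; nlinarith
    · intro v _ w _ hvw
      simp only [Prod.mk.injEq] at hvw
      rw [coord he v, coord he w, hvw.1, hvw.2]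
  have hx : (0 : ℝ) < e.1.1 := by exact_mod_cast h1
  have hy : (0 : ℝ) < e.2.1 := by exact_mod_cast h2
  have h6 : ∀ z : ℤ, 0 < z → (((Icc (1 : ℤ) (Y / z)).card : ℕ) : ℝ) ≤ (Y : ℝ) / z := by
    intro z hz
    rw [Int.card_Icc]
    have h7 : 0 ≤ (Y : ℤ) / z := Int.ediv_nonneg (by positivity) hz.le
    have h8 : ((((Y : ℤ) / z + 1 - 1).toNat : ℕ) : ℤ) = (Y : ℤ) / z := by
      rw [add_sub_cancel_right, Int.toNat_of_nonneg h7]
    have h9 : ((((Y : ℤ) / z + 1 - 1).toNat : ℕ) : ℝ) = (((Y : ℤ) / z : ℤ) : ℝ) := by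
      exact_mod_cast h8
    rw [h9, le_div_iff₀ (by exact_mod_cast hz)]
    exact_mod_cast Int.ediv_mul_le (Y : ℤ) hz.ne'
  calc ((boxA Y (Cone e)).card : ℝ)
      ≤ (((Icc (1 : ℤ) (Y / e.1.1)) ×ˢ (Icc (1 : ℤ) (Y / e.2.1))).card : ℝ) := by
        exact_mod_cast hinj
    _ = ((Icc (1 : ℤ) (Y / e.1.1)).card : ℝ) * ((Icc (1 : ℤ) (Y / e.2.1)).card : ℝ) := by
        rw [card_product]; push_cast; ring
    _ ≤ ((Y : ℝ) / e.1.1) * ((Y : ℝ) / e.2.1) := by
        apply mul_le_mul (h6 _ h1) (h6 _ h2) (by positivity) (by positivity)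
    _ = theta e * Y ^ 2 := by unfold theta; field_simp

end Pool.Agent.Quad
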