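import Pool.Agent.Quad.Basic

/-!
# Only short words matter (CONELEN)
-/

set_option autoImplicit false

namespace Pool.Agent.Quad

open Pool.Agent.FareyParity Finset

theorem conelen_add {N : ℕ} {e : Edge} (he : IsEdge N e) {v : ℤ × ℤ} (hv : Cone e v) :
    e.1.1 + e.2.1 ≤ v.1 := by
  have h1 := he.x1_pos
  have h2 := he.x2_pos
  rw [coord_fst he v]
  obtain ⟨h3, h4⟩ := hv
  nlinarith

theorem conelen_desc {N : ℕ} (w : List Bool) : ∀ {e : Edge}, IsEdge N e →
    (w.length : ℤ) + (e.1.1 + e.2.1) ≤ (desc e w).1.1 + (desc e w).2.1 := by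
  induction w with
  | nil => intro e _; simp [desc]
  | cons t w ih =>
    intro e he
    have h1 := he.x1_pos
    have h2 := he.x2_pos
    have h3 := ih (he.child t)
    have h4 : (e.1.1 + e.2.1) + 1 ≤ (child t e).1.1 + (child t e).2.1 := by
      cases t
      · simp only [child, Bool.false_eq_true, if_false, Prod.fst_add]; omega
      · simp only [child, if_true, Prod.fst_add]; omega
    simp only [desc, List.length_cons, Nat.cast_add, Nat.cast_one]
    omega

theorem conelen_main : P_ConeLen := by
  intro N e _ he w v hv
  have h1 := he.x1_pos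
  have h2 := he.x2_pos
  have h3 := conelen_desc w he
  have h4 := conelen_add (he.desc w) hv
  omega

end Pool.Agent.Quad
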