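import Pool.Agent.Quad.Basic

/-!
# The contradiction
-/

set_option autoImplicit false

namespace Pool.Agent.Quad

open Pool.Agent.FareyParity Finset
open scoped ENNReal

theorem mem_box {Y : ℕ} {P : ℤ × ℤ → Prop} {v : ℤ × ℤ} :
    v ∈ box Y P ↔ (1 ≤ v.1 ∧ v.1 ≤ Y) ∧ (0 ≤ v.2 ∧ v.2 ≤ Y) ∧ IsCoprime v.1 v.2 ∧ P v := by
  simp only [box, mem_filter, mem_product, mem_Icc]
  tauto

theorem mem_boxA {Y : ℕ} {P : ℤ × ℤ → Prop} {v : ℤ × ℤ} :
    v ∈ boxA Y P ↔ (1 ≤ v.1 ∧ v.1 ≤ Y) ∧ (0 ≤ v.2 ∧ v.2 ≤ Y) ∧ P v := by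
  simp only [boxA, mem_filter, mem_product, mem_Icc]
  tauto

theorem box_subset_boxA {Y : ℕ} {P : ℤ × ℤ → Prop} : box Y P ⊆ boxA Y P := by
  intro v hv
  rw [mem_box] at hv
  rw [mem_boxA]
  exact ⟨hv.1, hv.2.1, hv.2.2.2⟩

theorem BigN.pos {a : ℕ} {b c : ℤ} {Q N : ℕ} (h : BigN a b c Q N) : 0 < N := by
  unfold BigN at h
  have : 0 < 16 * (b.natAbs + (a * c).natAbs + 1) * (KK Q + 1) ^ 4 := by positivity
  omega

theorem BigN.ac {a : ℕ} {b c : ℤ} {Q N : ℕ} (h : BigN a b c Q N) : 16 * |(a * c : ℤ)| ≤ N := by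
  unfold BigN at h
  have h1 : 1 ≤ (KK Q + 1) ^ 4 := Nat.one_le_pow _ _ (by omega)
  have h2 : 16 * (a * c).natAbs ≤ N := by
    calc 16 * (a * c).natAbs ≤ 16 * (b.natAbs + (a * c).natAbs + 1) * 1 := by omega
      _ ≤ 16 * (b.natAbs + (a * c).natAbs + 1) * (KK Q + 1) ^ 4 := by gcongr
      _ ≤ N := h
  have h3 : ((16 * (a * c).natAbs : ℕ) : ℤ) ≤ N := by exact_mod_cast h2
  push_cast at h3
  exact h3

/-- the first coordinate of a product in the narrow region -/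
theorem mulv_fst_bounds {a : ℕ} {b c : ℤ} {Q N : ℕ} (h : BigN a b c Q N) {u v : ℤ × ℤ}
    (hu : Reg N u) (hv : Reg N v) :
    0 < (mulv b (a * c) u v).1 ∧ (mulv b (a * c) u v).1 ≤ 2 * (u.1 * v.1) := by
  obtain ⟨h1, h2, h3⟩ := hu
  obtain ⟨h4, h5, h6⟩ := hv
  have hN := h.pos
  have hN1 : (1 : ℤ) ≤ N := by exact_mod_cast hN
  have hac := h.ac
  have e : (mulv b (a * c) u v).1 = u.1 * v.1 - a * c * (u.2 * v.2) := by
    simp only [mulv]; ring
  have hb : |(a * c : ℤ) * (u.2 * v.2)| * 16 ≤ u.1 * v.1 := by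
    rw [abs_mul, abs_of_nonneg (mul_nonneg h2 h5)]
    calc |(a * c : ℤ)| * (u.2 * v.2) * 16 = (16 * |(a * c : ℤ)|) * (u.2 * v.2) := by ring
      _ ≤ N * (u.2 * v.2) := by gcongr
      _ ≤ N * (u.2 * v.2) * N := le_mul_of_one_le_right (by positivity) hN1
      _ = (N * u.2) * (N * v.2) := by ring
      _ ≤ u.1 * v.1 := by gcongr
  have hp : 0 < u.1 * v.1 := mul_pos h1 h4
  rw [e]
  have := abs_le.1 (le_refl |(a * c : ℤ) * (u.2 * v.2)|)
  constructor <;> linarith [this.1, this.2]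

theorem Vp.ne_zero {Q : ℕ} {D : ℤ} {v : ℤ × ℤ} (h : Vp Q D v) : v ≠ 0 := by
  rintro rfl; exact absurd h.1 (lt_irrefl _)

theorem cone_smul {e : Edge} {m : ℤ} (hm : 0 < m) {v : ℤ × ℤ} : Cone e (m • v) ↔ Cone e v := by
  have h1 : dt e.1 (m • v) = m * dt e.1 v := by
    simp only [dt, Prod.smul_fst, Prod.smul_snd, smul_eq_mul]; ring
  have h2 : dt (m • v) e.2 = m * dt v e.2 := by
    simp only [dt, Prod.smul_fst, Prod.smul_snd, smul_eq_mul]; ring
  rw [Cone, Cone, h1, h2, mul_pos_iff_of_pos_left hm, mul_pos_iff_of_pos_left hm]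

open Classical in
/-- the real valued weights -/
noncomputable def gw (B : Edge → Prop) (e : Edge) (w : List Bool) : ℝ :=
  if B (desc e w) then theta (desc e w) else 0

theorem gw_nonneg {N : ℕ} {B : Edge → Prop} {e : Edge} (he : IsEdge N e) (w : List Bool) :
    0 ≤ gw B e w := by
  unfold gw; split_ifs
  · exact (theta_pos (he.desc w)).le
  · exact le_rfl

theorem wt_eq {B : Edge → Prop} {e : Edge} :
    wt B e = ∑' w : List Bool, ENNReal.ofReal (gw B e w) := by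
  unfold wt gw
  apply tsum_congr
  intro w
  split_ifs <;> simp

theorem gw_summable {N : ℕ} {B : Edge → Prop} {e : Edge} (he : IsEdge N e) {r : ℝ} (hr : 0 ≤ r)
    (h : wt B e ≤ ENNReal.ofReal r) : Summable (gw B e) ∧ ∑' w, gw B e w ≤ r := by
  have hn := fun w => gw_nonneg (B := B) he w
  rw [wt_eq] at h
  have hs : Summable (gw B e) := by
    have h1 : ∑' w : List Bool, ENNReal.ofReal (gw B e w) ≠ ⊤ := ne_top_of_le_ne_top (by simp) h
    have h2 := ENNReal.summable_toReal h1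
    refine h2.congr fun w => ?_
    rw [ENNReal.toReal_ofReal (hn w)]
  refine ⟨hs, ?_⟩
  rw [← ENNReal.ofReal_tsum_of_nonneg hn hs] at h
  exact (ENNReal.ofReal_le_ofReal_iff hr).1 h

theorem con_main (hSel : P_Select) (hPath : P_Path) (hC1 : P_Cone1) (hC2 : P_Cone2)
    (hU : P_Umult) (hL : P_ConeLen) (hPV : P_ProdV) (hOv : P_Over) : P_Con := by
  classical
  intro s a b c Q D hs hR N hN hfin hu
  have hN0 := hN.pos
  obtain ⟨κ, hκ, hC1'⟩ := hC1 Q D hR.Q_pos hR.D_Q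
  obtain ⟨η, hη⟩ : ∃ η : ℝ, η = κ / 40 := ⟨_, rfl⟩
  have hη0 : 0 < η := by rw [hη]; positivity
  obtain ⟨w0, hBal, hwt⟩ := hSel N (Bad s a b c Q D) hN0 hfin η hη0
  obtain ⟨J, hJ⟩ : ∃ J, J = desc (root N) w0 := ⟨_, rfl⟩
  rw [← hJ] at hBal hwt
  have hJe : IsEdge N J := hJ ▸ (isEdge_root hN0).desc w0
  obtain ⟨θ, hθ⟩ : ∃ θ, θ = theta J := ⟨_, rfl⟩
  have hθ0 : 0 < θ := hθ ▸ theta_pos hJe
  rw [← hθ] at hwt
  obtain ⟨z, hz, -⟩ := hOv Q D hR.Q_pos hR.D_Q N J hN0 hJe true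
  obtain ⟨Y0, hY0⟩ := hC1' N J hN0 hJe
  rw [← hθ] at hY0
  have hNr : (0 : ℝ) < N := by exact_mod_cast hN0
  obtain ⟨u, huV, hu2, hus, hucl⟩ := hu (min (η * θ) (1 / N)) (by positivity)
  have hu1 : (0 : ℝ) < u.1 := by exact_mod_cast huV.1
  have huReg : Reg N u := by
    refine ⟨huV.1, hu2.le, ?_⟩
    have h1 : (u.2 : ℝ) ≤ 1 / N * u.1 := hus.trans (by gcongr; exact min_le_right _ _)
    have h2 : (N : ℝ) * u.2 ≤ u.1 := by
      rw [one_div, inv_mul_eq_div, le_div_iff₀ hNr] at h1; linarith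
    exact_mod_cast h2
  have huσ : (u.2 : ℝ) / u.1 ≤ η * θ := by
    rw [div_le_iff₀ hu1]
    exact hus.trans (by gcongr; exact min_le_left _ _)
  obtain ⟨hsum, htot⟩ := gw_summable hJe (by positivity) hwt
  have hn := fun w => gw_nonneg (B := Bad s a b c Q D) hJe w
  obtain ⟨g, hg⟩ : ∃ g, g = gw (Bad s a b c Q D) J := ⟨_, rfl⟩
  rw [← hg] at hsum htot hn
  -- the tail
  obtain ⟨ε0, hε0⟩ : ∃ ε0 : ℝ, ε0 = η * θ / (4 * (u.1 : ℝ) ^ 2) := ⟨_, rfl⟩
  have hε00 : 0 < ε0 := by rw [hε0]; positivity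
  obtain ⟨F, hF⟩ : ∃ F : Finset (List Bool), ∀ T : Finset (List Bool), Disjoint T F →
      ∑ w ∈ T, g w < ε0 := by
    have h1 := summable_iff_vanishing_norm.1 hsum ε0 hε00
    obtain ⟨F, hF⟩ := h1
    refine ⟨F, fun T hT => ?_⟩
    have := hF T hT
    rwa [Real.norm_of_nonneg (sum_nonneg fun w _ => hn w)] at this
  -- choose Y
  obtain ⟨Y, hYY0, hY1, hYF⟩ : ∃ Y : ℕ, Y0 ≤ Y ∧ 1 < 21 * (η * θ) * (Y : ℝ) ^ 2 ∧
      ∀ w ∈ F, 1 ≤ theta (desc J w) * (Y : ℝ) ^ 2 := by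
    have key : ∀ x : ℝ, 0 < x → ∀ᶠ Y : ℕ in Filter.atTop, 1 < x * (Y : ℝ) ^ 2 := by
      intro x hx
      have h1 : Filter.Tendsto (fun Y : ℕ => x * (Y : ℝ) ^ 2) Filter.atTop Filter.atTop := by
        apply Filter.Tendsto.const_mul_atTop hx
        exact (Filter.tendsto_pow_atTop two_ne_zero).comp tendsto_natCast_atTop_atTop
      exact h1.eventually_gt_atTop 1
    have e1 := Filter.eventually_ge_atTop Y0
    have e2 := key (21 * (η * θ)) (by positivity)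
    have e3 : ∀ᶠ Y : ℕ in Filter.atTop, ∀ w ∈ F, 1 ≤ theta (desc J w) * (Y : ℝ) ^ 2 := by
      rw [Filter.eventually_all_finset]
      intro w _
      exact (key _ (theta_pos (hJe.desc w))).mono fun Y hY => hY.le
    exact (e1.and (e2.and e3)).exists
  have hV := hY0 Y hYY0
  have hYn : (0 : ℝ) ≤ (Y : ℝ) ^ 2 := by positivity
  -- the relevant words
  obtain ⟨K, hK⟩ : ∃ K : ℕ, K = 2 * (u.1.toNat * Y) + Y + 1 := ⟨_, rfl⟩
  obtain ⟨W, hW⟩ : ∃ W : Finset (List Bool), ∀ w, w ∈ W ↔ w.length < K := by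
    refine ⟨(List.finite_length_lt Bool K).toFinset, fun w => ?_⟩
    simp
  obtain ⟨Bd, hBd⟩ : ∃ Bd : List Bool → Prop, Bd = fun w => Bad s a b c Q D (desc J w) := ⟨_, rfl⟩
  obtain ⟨mu, hmu⟩ : ∃ mu : ℤ × ℤ → ℤ × ℤ, mu = mulv b (a * c) u := ⟨_, rfl⟩
  obtain ⟨R1, hR1⟩ : ∃ R1 : Finset (ℤ × ℤ),
      R1 = (W.filter Bd).biUnion (fun w => box Y (Cone (desc J w))) := ⟨_, rfl⟩
  obtain ⟨R2, hR2⟩ : ∃ R2 : Finset (ℤ × ℤ),
      R2 = box Y (fun v => Cone J v ∧ ¬ Cone J (mulv b (a * c) u v)) := ⟨_, rfl⟩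
  obtain ⟨R3, hR3⟩ : ∃ R3 : Finset (ℤ × ℤ),
      R3 = (W.filter Bd).biUnion
        (fun w => box Y (fun v => Reg N v ∧ Cone (desc J w) (mulv b (a * c) u v))) := ⟨_, rfl⟩
  have hgB : ∀ w ∈ W.filter Bd, g w = theta (desc J w) := by
    intro w hw
    rw [mem_filter, hBd] at hw
    rw [hg, gw, if_pos hw.2]
  have c1 : (R1.card : ℝ) ≤ η * θ * (Y : ℝ) ^ 2 := by
    calc (R1.card : ℝ) ≤ ∑ w ∈ W.filter Bd, ((box Y (Cone (desc J w))).card : ℝ) := by
          rw [hR1]; exact_mod_cast card_biUnion_le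
      _ ≤ ∑ w ∈ W.filter Bd, g w * (Y : ℝ) ^ 2 := by
          apply sum_le_sum
          intro w hw
          rw [hgB w hw]
          refine le_trans ?_ (hC2 N (desc J w) hN0 (hJe.desc w) Y)
          exact_mod_cast card_le_card box_subset_boxA
      _ = (∑ w ∈ W.filter Bd, g w) * (Y : ℝ) ^ 2 := by rw [sum_mul]
      _ ≤ η * θ * (Y : ℝ) ^ 2 := by
          gcongr
          exact (hsum.sum_le_tsum _ fun w _ => hn w).trans htot
  have c2 : (R2.card : ℝ) ≤ 1 + 8 * (η * θ) * (Y : ℝ) ^ 2 := by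
    rw [hR2]
    refine (hU a b c Q N hN u huReg J hJe Y).2.2.trans ?_
    gcongr
  have c3 : (R3.card : ℝ) ≤ 10 * (η * θ) * (Y : ℝ) ^ 2 := by
    have hsplit : ∑ w ∈ W.filter Bd, g w * (Y : ℝ) ^ 2 * (if w ∈ F then 9 else 4 * (u.1 : ℝ) ^ 2)
        ≤ 9 * (η * θ) * (Y : ℝ) ^ 2 + ε0 * (4 * (u.1 : ℝ) ^ 2) * (Y : ℝ) ^ 2 := by
      rw [← sum_filter_add_sum_filter_not (W.filter Bd) (fun w => w ∈ F)]
      apply add_le_add
      · calc ∑ w ∈ (W.filter Bd).filter (fun w => w ∈ F),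
              g w * (Y : ℝ) ^ 2 * (if w ∈ F then 9 else 4 * (u.1 : ℝ) ^ 2)
            = (∑ w ∈ (W.filter Bd).filter (fun w => w ∈ F), g w) * (9 * (Y : ℝ) ^ 2) := by
              rw [sum_mul]
              apply sum_congr rfl
              intro w hw
              rw [mem_filter] at hw
              rw [if_pos hw.2]; ring
          _ ≤ (η * θ) * (9 * (Y : ℝ) ^ 2) := by
              gcongr
              exact (hsum.sum_le_tsum _ fun w _ => hn w).trans htot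
          _ = _ := by ring
      · calc ∑ w ∈ (W.filter Bd).filter (fun w => ¬ w ∈ F),
              g w * (Y : ℝ) ^ 2 * (if w ∈ F then 9 else 4 * (u.1 : ℝ) ^ 2)
            = (∑ w ∈ (W.filter Bd).filter (fun w => ¬ w ∈ F), g w) *
                (4 * (u.1 : ℝ) ^ 2 * (Y : ℝ) ^ 2) := by
              rw [sum_mul]
              apply sum_congr rfl
              intro w hw
              rw [mem_filter] at hw
              rw [if_neg hw.2]; ring
          _ ≤ ε0 * (4 * (u.1 : ℝ) ^ 2 * (Y : ℝ) ^ 2) := by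
              gcongr
              refine (hF _ ?_).le
              rw [Finset.disjoint_left]
              intro w hw
              exact (mem_filter.1 hw).2
          _ = _ := by ring
    calc (R3.card : ℝ) ≤ ∑ w ∈ W.filter Bd,
          ((box Y (fun v => Reg N v ∧ Cone (desc J w) (mulv b (a * c) u v))).card : ℝ) := by
          rw [hR3]; exact_mod_cast card_biUnion_le
      _ ≤ ∑ w ∈ W.filter Bd, g w * (Y : ℝ) ^ 2 * (if w ∈ F then 9 else 4 * (u.1 : ℝ) ^ 2) := by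
          apply sum_le_sum
          intro w hw
          rw [hgB w hw]
          have h1 := hU a b c Q N hN u huReg (desc J w) (hJe.desc w) Y
          split_ifs with hwF
          · have h2 := hYF w hwF
            refine h1.1.trans ?_
            linarith
          · refine h1.2.1.trans (le_of_eq ?_)
            ring
      _ ≤ _ := hsplit
      _ = 10 * (η * θ) * (Y : ℝ) ^ 2 := by
          rw [hε0]; field_simp; ring
  -- a surviving vector
  obtain ⟨v, hvV, hvR⟩ : ∃ v ∈ box Y (fun v => Vp Q D v ∧ Cone J v), v ∉ R1 ∪ R2 ∪ R3 := by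
    by_contra hcon
    push Not at hcon
    have h1 : (box Y (fun v => Vp Q D v ∧ Cone J v)).card ≤ (R1 ∪ R2 ∪ R3).card :=
      card_le_card hcon
    have h2 : (R1 ∪ R2 ∪ R3).card ≤ R1.card + R2.card + R3.card :=
      (card_union_le _ _).trans (by gcongr; exact card_union_le _ _)
    have h3 : ((box Y (fun v => Vp Q D v ∧ Cone J v)).card : ℝ) ≤ R1.card + R2.card + R3.card := by
      exact_mod_cast h1.trans h2
    have h4 : κ = 40 * η := by rw [hη]; ring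
    rw [h4] at hV
    nlinarith
  rw [mem_box] at hvV
  obtain ⟨⟨hv1, hvY⟩, -, -, hvVp, hvJ⟩ := hvV
  simp only [mem_union, not_or] at hvR
  obtain ⟨⟨hvR1, hvR2⟩, hvR3⟩ := hvR
  have hvReg : Reg N v := hvJ.reg hJe
  have hvbox : ∀ P : ℤ × ℤ → Prop, P v → v ∈ box Y P := by
    intro P hP
    rw [mem_box]
    refine ⟨⟨hv1, hvY⟩, ⟨hvReg.2.1, ?_⟩, hvVp.2.1, hP⟩
    have h1 : v.2 ≤ N * v.2 := le_mul_of_one_le_left hvReg.2.1 (by exact_mod_cast hN0)
    linarith [hvReg.2.2]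
  have hmb := mulv_fst_bounds hN huReg hvReg
  obtain ⟨m, w', hm, hmw, hw'⟩ := hPV a b c Q D hR u v huV hvVp hmb.1
  have hJuv : Cone J (mulv b (a * c) u v) := by
    by_contra h
    apply hvR2
    rw [hR2]
    exact hvbox _ ⟨hvJ, h⟩
  -- path lemma for `v`
  have p1 : cl s a b c v = cl s a b c z := by
    apply hPath s a b c Q D hR N J hN0 hJe hBal v hvVp hvJ _ z hz
    intro w hw hc
    by_cases hwK : w.length < K
    · apply hvR1
      rw [hR1, mem_biUnion]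
      refine ⟨w, ?_, hvbox _ hc⟩
      rw [mem_filter, hW, hBd]
      exact ⟨hwK, hw⟩
    · have h1 := hL N J hN0 hJe w v hc
      have h2 : (K : ℤ) ≤ w.length := by exact_mod_cast not_lt.1 hwK
      have h3 : (Y : ℤ) < K := by
        rw [hK]; push_cast
        have : (0 : ℤ) ≤ 2 * (((u.1.toNat : ℕ) : ℤ) * Y) := by positivity
        linarith
      linarith
  have p2 : cl s a b c w' = cl s a b c z := by
    have hJw : Cone J w' := by rw [hmw] at hJuv; exact (cone_smul hm).1 hJuv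
    apply hPath s a b c Q D hR N J hN0 hJe hBal w' hw' hJw _ z hz
    intro w hw hc
    have hc' : Cone (desc J w) (mulv b (a * c) u v) := by rw [hmw]; exact (cone_smul hm).2 hc
    by_cases hwK : w.length < K
    · apply hvR3
      rw [hR3, mem_biUnion]
      refine ⟨w, ?_, hvbox _ ⟨hvReg, hc'⟩⟩
      rw [mem_filter, hW, hBd]
      exact ⟨hwK, hw⟩
    · have h1 := hL N J hN0 hJe w _ hc'
      have h2 : (K : ℤ) ≤ w.length := by exact_mod_cast not_lt.1 hwK
      have h3 : 2 * (u.1 * v.1) < K := by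
        rw [hK]; push_cast
        have h4 : ((u.1.toNat : ℕ) : ℤ) = u.1 := Int.toNat_of_nonneg huV.1.le
        rw [h4]
        have h5 : u.1 * v.1 ≤ u.1 * Y := by
          apply mul_le_mul_of_nonneg_left hvY huV.1.le
        have h6 : (0 : ℤ) ≤ Y := by positivity
        linarith
      linarith [hmb.2]
  have p3 : cl s a b c (mulv b (a * c) u v) = cl s a b c w' := by
    rw [hmw]; exact cl_smul hs hm.ne' w'
  rw [cl_mulv hs, hucl, p1, p2] at p3
  rcases cl_val hs hR (v := z) hz.1.ne_zero with h | h <;> rw [h] at p3 <;> omega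

end Pool.Agent.Quad
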