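import Pool.Agent.Quad.Stmt

/-!
# Module DERIVED
-/

set_option autoImplicit false

namespace Pool.Agent.Quad

open Pool.Agent.FareyParity

namespace DER

variable {a : ℕ} {b c : ℤ} {Q : ℕ} {D : ℤ}

theorem D_dvd (hR : Red a b c Q D) : 8 * D.natAbs ∣ Q := by
  have h := Int.natAbs_dvd_natAbs.mpr hR.D_Q
  rw [Int.natAbs_mul, Int.natAbs_natCast] at h
  exact h

theorem four_D_dvd (hR : Red a b c Q D) : 4 * D.natAbs ∣ Q :=
  Dvd.dvd.trans ⟨2, by ring⟩ (D_dvd hR)

theorem two_dvd (hR : Red a b c Q D) : 2 ∣ Q :=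
  Dvd.dvd.trans ⟨4 * D.natAbs, by ring⟩ (D_dvd hR)

theorem odd_of_coprime (hR : Red a b c Q D) {q : ℕ} (h : Nat.Coprime q Q) : Odd q := by
  rw [← Nat.not_even_iff_odd]
  intro he
  have h2 : 2 ∣ Nat.gcd q Q := Nat.dvd_gcd he.two_dvd (two_dvd hR)
  rw [h] at h2
  omega

theorem jac_congr (hR : Red a b c Q D) {q r : ℕ} (hq : Odd q) (hr : Odd r)
    (h : q ≡ r [MOD Q]) : jacobiSym D q = jacobiSym D r := by
  rw [jacobiSym.mod_right D hq, jacobiSym.mod_right D hr]
  have h1 : q ≡ r [MOD 4 * D.natAbs] := h.of_dvd (four_D_dvd hR)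
  rw [h1]

theorem Phi_ne_zero (hR : Red a b c Q D) {x y : ℤ} (hx : 0 < x) : Phi a b c (x, y) ≠ 0 := by
  intro h
  have h4 : 4 * Phi a b c (x, y) = (2 * x + b * y) ^ 2 - D * ((Q : ℤ) * y) ^ 2 := by
    have := hR.disc
    unfold Phi
    rw [four_nf]
    simp only
    linear_combination (-y ^ 2) * this
  rw [h, mul_zero] at h4
  have h5 : (2 * x + b * y) ^ 2 = D * ((Q : ℤ) * y) ^ 2 := by linarith
  by_cases hy : y = 0
  · rw [hy] at h5
    have : x ^ 2 = 0 := by linarith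
    have hx0 : x = 0 := by simpa using this
    omega
  · have hQ : (Q : ℤ) ≠ 0 := by exact_mod_cast hR.Q_pos.ne'
    have hQy : (Q : ℤ) * y ≠ 0 := mul_ne_zero hQ hy
    have h6 : ((Q : ℤ) * y) ^ 2 ∣ (2 * x + b * y) ^ 2 := ⟨D, by rw [h5]; ring⟩
    rw [Int.pow_dvd_pow_iff (by norm_num)] at h6
    obtain ⟨t, ht⟩ := h6
    apply hR.D_ns
    refine ⟨t, ?_⟩
    rw [ht] at h5
    have h7 : ((Q : ℤ) * y) ^ 2 ≠ 0 := pow_ne_zero 2 hQy
    apply mul_right_cancel₀ h7
    linarith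

end DER

open DER in
theorem derived_main : P_Derived := by
  intro s a b c Q D hs hR k M j hk hj hM hpos
  obtain ⟨hM0, hMk, hMQ, hMJ, hcl⟩ := hM
  set x : ℕ := 1 + Q * k * j * M with hx
  set k' : ℕ := Q * k ^ 2 * j with hk'
  set M2 : ℕ := M + Q * k * j * (Phi a b c ((M : ℤ), (k : ℤ))).toNat with hM2
  have hM2z : (M2 : ℤ) = M + Q * k * j * Phi a b c ((M : ℤ), (k : ℤ)) := by
    rw [hM2]
    push_cast
    rw [Int.toNat_of_nonneg hpos.le]
  have hid : Phi a b c ((x : ℤ), (k' : ℤ)) * Phi a b c ((M : ℤ), (k : ℤ)) =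
      Phi a b c ((M2 : ℤ), (k : ℤ)) := by
    unfold Phi
    rw [nf_mul_nf]
    congr 1
    ext
    · simp only [ip]
      rw [hM2z]
      simp only [Phi, nf]
      rw [hx, hk']
      push_cast
      ring
    · simp only [dt]
      rw [hx, hk']
      push_cast
      ring
  have hid2 : cl s a b c ((x : ℤ), (k' : ℤ)) * cl s a b c ((M : ℤ), (k : ℤ)) =
      cl s a b c ((M2 : ℤ), (k : ℤ)) := by
    have h := congrArg (fun t : ℤ => s t.natAbs) hid
    simp only [Int.natAbs_mul] at h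
    rw [hs.mul] at h
    exact h
  rw [hcl] at hid2
  have hx0 : 0 < x := by omega
  have hval : cl s a b c ((x : ℤ), (k' : ℤ)) = 1 ∨ cl s a b c ((x : ℤ), (k' : ℤ)) = -1 := by
    apply hs.val
    have := Phi_ne_zero hR (x := (x : ℤ)) (y := (k' : ℤ)) (by exact_mod_cast hx0)
    unfold Phi at this
    omega
  rcases hval with h | h
  · right
    have hQM : M2 ≡ M [MOD Q] := by
      have : M + Q * k * j * (Phi a b c ((M : ℤ), (k : ℤ))).toNat ≡ M + 0 [MOD Q] := by
        apply Nat.ModEq.add_left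
        rw [Nat.modEq_zero_iff_dvd]
        exact Dvd.dvd.mul_right (Dvd.dvd.mul_right (Dvd.dvd.mul_right dvd_rfl _) _) _
      exact this
    have hkM : M2 ≡ M [MOD k] := by
      have : M + Q * k * j * (Phi a b c ((M : ℤ), (k : ℤ))).toNat ≡ M + 0 [MOD k] := by
        apply Nat.ModEq.add_left
        rw [Nat.modEq_zero_iff_dvd]
        exact Dvd.dvd.mul_right (Dvd.dvd.mul_right (Dvd.dvd.mul_left dvd_rfl _) _) _
      exact this
    have c1 : Nat.Coprime M2 k := by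
      rw [Nat.coprime_iff_gcd_eq_one, hkM.gcd_eq]; exact hMk
    have c2 : Nat.Coprime M2 Q := by
      rw [Nat.coprime_iff_gcd_eq_one, hQM.gcd_eq]; exact hMQ
    refine ⟨by omega, c1, c2, ?_, ?_⟩
    · rw [jac_congr hR (odd_of_coprime hR c2) (odd_of_coprime hR hMQ) hQM, hMJ]
    · rw [← hid2, h]; norm_num
  · left
    have hQx : x ≡ 1 [MOD Q] := by
      have : 1 + Q * k * j * M ≡ 1 + 0 [MOD Q] := by
        apply Nat.ModEq.add_left
        rw [Nat.modEq_zero_iff_dvd]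
        exact Dvd.dvd.mul_right (Dvd.dvd.mul_right (Dvd.dvd.mul_right dvd_rfl _) _) _
      exact this
    have c2 : Nat.Coprime x Q := by
      rw [Nat.coprime_iff_gcd_eq_one, hQx.gcd_eq, Nat.gcd_one_left]
    have c3 : Nat.Coprime x k := by
      have h3 : x ≡ 1 [MOD k] := by
        have : 1 + Q * k * j * M ≡ 1 + 0 [MOD k] := by
          apply Nat.ModEq.add_left
          rw [Nat.modEq_zero_iff_dvd]
          exact Dvd.dvd.mul_right (Dvd.dvd.mul_right (Dvd.dvd.mul_left dvd_rfl _) _) _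
        exact this
      rw [Nat.coprime_iff_gcd_eq_one, h3.gcd_eq, Nat.gcd_one_left]
    have c4 : Nat.Coprime x j := by
      have h3 : x ≡ 1 [MOD j] := by
        have : 1 + Q * k * j * M ≡ 1 + 0 [MOD j] := by
          apply Nat.ModEq.add_left
          rw [Nat.modEq_zero_iff_dvd]
          exact Dvd.dvd.mul_right (Dvd.dvd.mul_left dvd_rfl _) _
        exact this
      rw [Nat.coprime_iff_gcd_eq_one, h3.gcd_eq, Nat.gcd_one_left]
    refine ⟨hx0, ?_, c2, ?_, h⟩
    · rw [hk']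
      exact ((c2.mul_right (Nat.Coprime.pow_right 2 c3)).mul_right c4)
    · rw [jac_congr hR (odd_of_coprime hR c2) odd_one hQx, jacobiSym.one_right]

end Pool.Agent.Quad
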