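import Pool.Agent.Quad.Stmt

/-!
# EXC: few elements of `NB k` violate `Cond`
-/

set_option autoImplicit false

namespace Pool.Agent.Quad

open Pool.Agent.FareyParity Finset

namespace Exc

/-! ### counting by a relation -/

theorem card_rel (S : Finset ℕ) (U : Set ℕ) (Y : ℕ) (R : ℕ → ℕ → Prop)
    (h : ∀ M ∈ S, ∃ u, u ∈ U ∧ u ≤ Y ∧ R M u)
    (hinj : ∀ M ∈ S, ∀ M' ∈ S, ∀ u, R M u → R M' u → M = M') : S.card ≤ cnt U Y := by
  classical
  choose! g hgU hgY hgR using h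
  unfold cnt
  apply Finset.card_le_card_of_injOn g
  · intro M hM
    simp only [Finset.coe_filter, Finset.mem_range, Set.mem_ofPred_eq]
    have hM' : M ∈ S := by simpa using hM
    exact ⟨Nat.lt_succ_of_le (hgY M hM'), hgU M hM'⟩
  · intro M hM M' hM' heq
    have h1 : M ∈ S := by simpa using hM
    have h2 : M' ∈ S := by simpa using hM'
    have h3 := hgR M' h2
    rw [← heq] at h3
    exact hinj M h1 M' h2 _ (hgR M h1) h3

/-! ### elementary estimates for the quadratic polynomials -/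

theorem neg_natAbs_le (b : ℤ) : -(b.natAbs : ℤ) ≤ b := by omega

theorem pv_pos {a : ℕ} (ha : 0 < a) (b c : ℤ) {n : ℕ} (hn : b.natAbs + c.natAbs + 1 ≤ n) :
    0 < pv a b c n := by
  unfold pv
  have h1 : (b.natAbs : ℤ) + c.natAbs + 1 ≤ n := by exact_mod_cast hn
  have hb := neg_natAbs_le b
  have hc := neg_natAbs_le c
  have ha' : (1 : ℤ) ≤ a := by exact_mod_cast ha
  have hb0 : (0 : ℤ) ≤ b.natAbs := by positivity
  have hc0 : (0 : ℤ) ≤ c.natAbs := by positivity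
  have h2 : (n : ℤ) ^ 2 ≤ a * (n : ℤ) ^ 2 := by nlinarith [sq_nonneg (n : ℤ)]
  have h3 : -(b.natAbs : ℤ) * n ≤ b * n := by nlinarith
  have h4 : ((c.natAbs : ℤ) + 1) * 1 ≤ ((n : ℤ) - b.natAbs) * n := by
    apply mul_le_mul <;> linarith
  nlinarith

theorem pv_lt {a : ℕ} (ha : 0 < a) (b c : ℤ) {n n' : ℕ} (hn : b.natAbs + c.natAbs + 1 ≤ n)
    (h : n < n') : pv a b c n < pv a b c n' := by
  unfold pv
  have h1 : (b.natAbs : ℤ) + c.natAbs + 1 ≤ n := by exact_mod_cast hn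
  have h2 : (n : ℤ) + 1 ≤ n' := by exact_mod_cast h
  have hb := neg_natAbs_le b
  have ha' : (1 : ℤ) ≤ a := by exact_mod_cast ha
  have hb0 : (0 : ℤ) ≤ b.natAbs := by positivity
  have hc0 : (0 : ℤ) ≤ c.natAbs := by positivity
  have h3 : (n : ℤ) + n' ≤ a * ((n : ℤ) + n') := by nlinarith
  have h5 : 0 < (a : ℤ) * ((n : ℤ) + n') + b := by linarith
  nlinarith

theorem pv_le {a : ℕ} (b c : ℤ) {n : ℕ} (hn : 1 ≤ n) :
    pv a b c n ≤ ((a + b.natAbs + c.natAbs : ℕ) : ℤ) * (n : ℤ) ^ 2 := by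
  unfold pv
  have h1 : (1 : ℤ) ≤ n := by exact_mod_cast hn
  have hb : b ≤ b.natAbs := Int.le_natAbs
  have hc : c ≤ c.natAbs := Int.le_natAbs
  have hb0 : (0 : ℤ) ≤ b.natAbs := by positivity
  have hc0 : (0 : ℤ) ≤ c.natAbs := by positivity
  push_cast
  have hnn : (n : ℤ) ≤ (n : ℤ) ^ 2 := by nlinarith
  have h2 : b * n ≤ b.natAbs * (n : ℤ) ^ 2 := by
    calc b * n ≤ b.natAbs * (n : ℤ) := mul_le_mul_of_nonneg_right hb (by positivity)
      _ ≤ b.natAbs * (n : ℤ) ^ 2 := mul_le_mul_of_nonneg_left hnn hb0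
  have h3 : c ≤ c.natAbs * (n : ℤ) ^ 2 := by
    calc c ≤ c.natAbs * (1 : ℤ) := by rw [mul_one]; exact hc
      _ ≤ c.natAbs * (n : ℤ) ^ 2 := mul_le_mul_of_nonneg_left (by nlinarith) hc0
  push_cast at h2 h3
  linarith

theorem Phi_eq (a : ℕ) (b c : ℤ) (M k : ℤ) :
    Phi a b c (M, k) = M ^ 2 + b * M * k + a * c * k ^ 2 := by
  simp only [Phi, nf]

theorem Phi_pos (a : ℕ) (b c : ℤ) (k : ℕ) {M : ℕ}
    (hM : b.natAbs * k + (a * c.natAbs) * k ^ 2 + 1 ≤ M) :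
    0 < Phi a b c ((M : ℤ), (k : ℤ)) := by
  rw [Phi_eq]
  have h1 : (b.natAbs : ℤ) * k + (a * c.natAbs) * (k : ℤ) ^ 2 + 1 ≤ M := by exact_mod_cast hM
  have hb := neg_natAbs_le b
  have hc := neg_natAbs_le c
  have hk0 : (0 : ℤ) ≤ k := by positivity
  have ha0 : (0 : ℤ) ≤ a := by positivity
  have hM0 : (0 : ℤ) ≤ M := by positivity
  have hb0 : (0 : ℤ) ≤ (b.natAbs : ℤ) * k := by positivity
  have hc0 : (0 : ℤ) ≤ (a * c.natAbs) * (k : ℤ) ^ 2 := by positivity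
  have h3 : -((b.natAbs : ℤ) * k) * M ≤ b * M * k := by
    have : -(b.natAbs : ℤ) * (M * k) ≤ b * (M * k) := by
      apply mul_le_mul_of_nonneg_right hb; positivity
    linarith
  have h4 : -((a * c.natAbs) * (k : ℤ) ^ 2) ≤ a * c * (k : ℤ) ^ 2 := by
    have : -(c.natAbs : ℤ) * (a * (k : ℤ) ^ 2) ≤ c * (a * (k : ℤ) ^ 2) := by
      apply mul_le_mul_of_nonneg_right hc; positivity
    linarith
  have h5 : ((a * c.natAbs) * (k : ℤ) ^ 2 + 1) * 1 ≤ ((M : ℤ) - b.natAbs * k) * M := by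
    apply mul_le_mul <;> linarith
  nlinarith

theorem Phi_le_of_lt (a : ℕ) (b c : ℤ) (k : ℕ) {M M' : ℕ}
    (hM : b.natAbs * k + (a * c.natAbs) * k ^ 2 + 1 ≤ M) (h : M < M') :
    Phi a b c ((M : ℤ), (k : ℤ)) ≤ Phi a b c ((M' : ℤ), (k : ℤ)) := by
  rw [Phi_eq, Phi_eq]
  have h1 : (b.natAbs : ℤ) * k + (a * c.natAbs) * (k : ℤ) ^ 2 + 1 ≤ M := by exact_mod_cast hM
  have h2 : (M : ℤ) + 1 ≤ M' := by exact_mod_cast h
  have hb := neg_natAbs_le b
  have hk0 : (0 : ℤ) ≤ k := by positivity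
  have hM0 : (0 : ℤ) ≤ M := by positivity
  have hc0 : (0 : ℤ) ≤ (a * c.natAbs) * (k : ℤ) ^ 2 := by positivity
  have h3 : -((b.natAbs : ℤ) * k) ≤ b * k := by nlinarith
  have h5 : 0 ≤ (M : ℤ) + M' + b * k := by linarith
  nlinarith

theorem Phi_le (a : ℕ) (b c : ℤ) (k : ℕ) {M : ℕ} (hM : 1 ≤ M) :
    Phi a b c ((M : ℤ), (k : ℤ)) ≤
      ((1 + b.natAbs * k + a * c.natAbs * k ^ 2 : ℕ) : ℤ) * (M : ℤ) ^ 2 := by
  rw [Phi_eq]
  have h1 : (1 : ℤ) ≤ M := by exact_mod_cast hM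
  have hb : b ≤ b.natAbs := Int.le_natAbs
  have hc : c ≤ c.natAbs := Int.le_natAbs
  have hb0 : (0 : ℤ) ≤ b.natAbs := by positivity
  have hc0 : (0 : ℤ) ≤ c.natAbs := by positivity
  have hk0 : (0 : ℤ) ≤ k := by positivity
  have ha0 : (0 : ℤ) ≤ a := by positivity
  push_cast
  have hMM : (M : ℤ) ≤ (M : ℤ) ^ 2 := by nlinarith
  have h2 : b * M * k ≤ (b.natAbs * k) * (M : ℤ) ^ 2 := by
    calc b * M * k = b * ((M : ℤ) * k) := by ring
      _ ≤ b.natAbs * ((M : ℤ) * k) := mul_le_mul_of_nonneg_right hb (by positivity)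
      _ = (b.natAbs * k) * (M : ℤ) := by ring
      _ ≤ (b.natAbs * k) * (M : ℤ) ^ 2 := mul_le_mul_of_nonneg_left hMM (by positivity)
  have h3 : a * c * (k : ℤ) ^ 2 ≤ (a * c.natAbs * (k : ℤ) ^ 2) * (M : ℤ) ^ 2 := by
    calc a * c * (k : ℤ) ^ 2 = c * (a * (k : ℤ) ^ 2) := by ring
      _ ≤ c.natAbs * (a * (k : ℤ) ^ 2) := mul_le_mul_of_nonneg_right hc (by positivity)
      _ = (a * c.natAbs * (k : ℤ) ^ 2) * 1 := by ring
      _ ≤ (a * c.natAbs * (k : ℤ) ^ 2) * (M : ℤ) ^ 2 :=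
          mul_le_mul_of_nonneg_left (by nlinarith) (by positivity)
  push_cast at h2 h3
  linarith

/-- `Φ(x, k') Φ(M, k) = Φ(M₂, k)` -/
theorem Phi_mul (a : ℕ) (b c Q k j M : ℤ) :
    Phi a b c (1 + Q * k * j * M, Q * k ^ 2 * j) * Phi a b c (M, k) =
      Phi a b c (M + Q * k * j * Phi a b c (M, k), k) := by
  simp only [Phi_eq]; ring

/-! ### the two sets of one type -/

theorem two_sets {a : ℕ} (ha : 0 < a) (b c : ℤ) (U : Set ℕ) (N : ℕ → ℕ) (k' q M0 Y : ℕ)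
    (hk' : 0 < k') (hN : ∀ M M' : ℕ, M0 ≤ M → M0 ≤ M' → N M = N M' → M = M')
    (hq : 0 < q) (S : Finset ℕ)
    (hS : ∀ M ∈ S, M0 ≤ M ∧ ∃ n r : ℕ, b.natAbs + c.natAbs + 1 ≤ n ∧ N M = a * k' * n + q ∧
      pv a b c n = q * r ∧ (n ∈ U ∨ n + k' * r ∈ U) ∧ n + k' * r ≤ Y) :
    S.card ≤ 2 * cnt U Y := by
  classical
  have hsub : S ⊆ S.filter (fun M => ∃ u, u ∈ U ∧ u ≤ Y ∧ N M = a * k' * u + q) ∪
      S.filter (fun M => ∃ u, u ∈ U ∧ u ≤ Y ∧ ∃ n r : ℕ, b.natAbs + c.natAbs + 1 ≤ n ∧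
        N M = a * k' * n + q ∧ pv a b c n = q * r ∧ u = n + k' * r) := by
    intro M hM
    obtain ⟨hM0, n, r, hn, hNM, hpv, hU, hY⟩ := hS M hM
    rw [Finset.mem_union, Finset.mem_filter, Finset.mem_filter]
    rcases hU with hU | hU
    · left
      exact ⟨hM, n, hU, by nlinarith [Nat.zero_le (k' * r)], hNM⟩
    · right
      exact ⟨hM, n + k' * r, hU, hY, n, r, hn, hNM, hpv, rfl⟩
  have h1 : (S.filter (fun M => ∃ u, u ∈ U ∧ u ≤ Y ∧ N M = a * k' * u + q)).card ≤ cnt U Y := by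
    apply card_rel _ U Y (fun M u => N M = a * k' * u + q)
    · intro M hM
      exact (Finset.mem_filter.mp hM).2
    · intro M hM M' hM' u h h'
      exact hN M M' (hS M (Finset.mem_filter.mp hM).1).1 (hS M' (Finset.mem_filter.mp hM').1).1
        (h.trans h'.symm)
  have h2 : (S.filter (fun M => ∃ u, u ∈ U ∧ u ≤ Y ∧ ∃ n r : ℕ, b.natAbs + c.natAbs + 1 ≤ n ∧
        N M = a * k' * n + q ∧ pv a b c n = q * r ∧ u = n + k' * r)).card ≤ cnt U Y := by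
    apply card_rel _ U Y (fun M u => ∃ n r : ℕ, b.natAbs + c.natAbs + 1 ≤ n ∧
        N M = a * k' * n + q ∧ pv a b c n = q * r ∧ u = n + k' * r)
    · intro M hM
      exact (Finset.mem_filter.mp hM).2
    · rintro M hM M' hM' u ⟨n, r, hn, hNM, hpv, hu⟩ ⟨n', r', hn', hNM', hpv', hu'⟩
      have key : ∀ n r n' r' : ℕ, b.natAbs + c.natAbs + 1 ≤ n → pv a b c n = q * r →
          pv a b c n' = q * r' → n + k' * r = n' + k' * r' → ¬ n < n' := by
        intro n r n' r' hn hpv hpv' he hlt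
        have hp := pv_lt ha b c hn hlt
        rw [hpv, hpv'] at hp
        have hq' : (0 : ℤ) < q := by exact_mod_cast hq
        have hr : r < r' := by
          have := lt_of_mul_lt_mul_left hp hq'.le
          exact_mod_cast this
        have : k' * r < k' * r' := Nat.mul_lt_mul_of_pos_left hr hk'
        omega
      have hnn : n = n' := by
        have he : n + k' * r = n' + k' * r' := by rw [← hu, ← hu']
        have h3 := key n r n' r' hn hpv hpv' he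
        have h4 := key n' r' n r hn' hpv' hpv he.symm
        omega
      apply hN M M' (hS M (Finset.mem_filter.mp hM).1).1 (hS M' (Finset.mem_filter.mp hM').1).1
      rw [hNM, hNM', hnn]
  calc S.card ≤ _ := Finset.card_le_card hsub
    _ ≤ _ := Finset.card_union_le _ _
    _ ≤ cnt U Y + cnt U Y := Nat.add_le_add h1 h2
    _ = 2 * cnt U Y := by ring

/-! ### one use of `NOUSE` -/

theorem use_step (h1 : P_NoUse) {s : ℕ → ℤ} {a : ℕ} {b c : ℤ} {Q : ℕ} {D e : ℤ} {U : Set ℕ}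
    (hR : Red a b c Q D) (hH : Hyp s a b c e U) {k' x q z : ℕ} (hk' : 0 < k')
    (hx : x ∈ NB s a b c Q D k') (hq : q.Prime) (hqz : q ≤ z) (hmod : q ≡ x [MOD a * k'])
    (hdvd : (q : ℤ) ∣ Phi a b c ((x : ℤ), (k' : ℤ)))
    (hbig : a * k' * (b.natAbs + c.natAbs + 1) + z ≤ x) :
    ∃ n r : ℕ, b.natAbs + c.natAbs + 1 ≤ n ∧ x = a * k' * n + q ∧ pv a b c n = q * r ∧
      (n ∈ U ∨ n + k' * r ∈ U) := by
  have hqx : q ≤ x := by
    have : 0 ≤ a * k' * (b.natAbs + c.natAbs + 1) := Nat.zero_le _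
    omega
  obtain ⟨n, hn⟩ := (Nat.modEq_iff_dvd' hqx).mp hmod
  have hxn : x = a * k' * n + q := by omega
  have hn1 : b.natAbs + c.natAbs + 1 ≤ n := by
    by_contra hlt
    push Not at hlt
    have hak : 0 < a * k' := Nat.mul_pos hR.a_pos hk'
    have : a * k' * n < a * k' * (b.natAbs + c.natAbs + 1) := Nat.mul_lt_mul_of_pos_left hlt hak
    omega
  obtain ⟨r, hr, hU⟩ := h1 s a b c Q D e U hR hH k' x n q hk' hx hq hxn hdvd
    (pv_pos hR.a_pos b c hn1)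
  exact ⟨n, r, hn1, hxn, hr, hU⟩

/-- the bound for the element of `U` -/
theorem bound_step {a : ℕ} (ha : 0 < a) (b c : ℤ) {k' K1 n r q x C1 X : ℕ} (hk' : 0 < k')
    (hK : k' ≤ K1) (hq : 0 < q) (hn : b.natAbs + c.natAbs + 1 ≤ n) (hx : x = a * k' * n + q)
    (hpv : pv a b c n = q * r) (hxX : x ≤ C1 * X ^ 2) (hX : 1 ≤ X) :
    n + k' * r ≤ (C1 + K1 * ((a + b.natAbs + c.natAbs) * C1 ^ 2)) * X ^ 4 := by
  have hnx : n ≤ C1 * X ^ 2 := by
    have hak : 1 ≤ a * k' := Nat.mul_pos ha hk'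
    have : n ≤ a * k' * n := by nlinarith
    omega
  have hr : r ≤ (a + b.natAbs + c.natAbs) * n ^ 2 := by
    have h1 := pv_le (a := a) b c (n := n) (by omega)
    rw [hpv] at h1
    have h2 : q * r ≤ (a + b.natAbs + c.natAbs) * n ^ 2 := by exact_mod_cast h1
    nlinarith
  have hXX : X ^ 2 ≤ X ^ 4 := Nat.pow_le_pow_right hX (by norm_num)
  have hn2 : n ^ 2 ≤ C1 ^ 2 * X ^ 4 := by
    calc n ^ 2 ≤ (C1 * X ^ 2) ^ 2 := Nat.pow_le_pow_left hnx 2
      _ = C1 ^ 2 * X ^ 4 := by ring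
  calc n + k' * r ≤ C1 * X ^ 2 + K1 * ((a + b.natAbs + c.natAbs) * n ^ 2) :=
        Nat.add_le_add hnx (Nat.mul_le_mul hK hr)
    _ ≤ C1 * X ^ 4 + K1 * ((a + b.natAbs + c.natAbs) * (C1 ^ 2 * X ^ 4)) := by
        apply Nat.add_le_add
        · exact Nat.mul_le_mul_left _ hXX
        · exact Nat.mul_le_mul_left _ (Nat.mul_le_mul_left _ hn2)
    _ = (C1 + K1 * ((a + b.natAbs + c.natAbs) * C1 ^ 2)) * X ^ 4 := by ring

/-- the combinatorial bound -/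
theorem count (h1 : P_NoUse) (h2 : P_Derived) {s : ℕ → ℤ} {a : ℕ} {b c : ℤ} {Q : ℕ} {D e : ℤ}
    {U : Set ℕ} (hR : Red a b c Q D) (hH : Hyp s a b c e U) (k L : ℕ) (hk : 0 < k) :
    ∃ M1 C2 : ℕ, 0 < C2 ∧ ∀ X z : ℕ, 1 ≤ X →
      cnt {M | M ∈ NB s a b c Q D k ∧ ¬ Cond a b c Q k L z M} X ≤
        M1 * (1 + z) + L * (z * (4 * cnt U (C2 * X ^ 4))) := by
  classical
  obtain ⟨n1, hn1⟩ : ∃ n1, n1 = b.natAbs + c.natAbs + 1 := ⟨_, rfl⟩
  obtain ⟨M0, hM0⟩ : ∃ M0, M0 = b.natAbs * k + (a * c.natAbs) * k ^ 2 + 1 := ⟨_, rfl⟩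
  obtain ⟨P, hP⟩ : ∃ P, P = 1 + b.natAbs * k + a * c.natAbs * k ^ 2 := ⟨_, rfl⟩
  obtain ⟨C1, hC1⟩ : ∃ C1, C1 = 1 + Q * k * L * P := ⟨_, rfl⟩
  obtain ⟨K1, hK1⟩ : ∃ K1, K1 = Q * k ^ 2 * L + k := ⟨_, rfl⟩
  obtain ⟨C2, hC2⟩ : ∃ C2, C2 = C1 + K1 * ((a + b.natAbs + c.natAbs) * C1 ^ 2) := ⟨_, rfl⟩
  obtain ⟨M1, hM1⟩ : ∃ M1, M1 = a * (Q * k ^ 2 * L) * n1 + a * k * n1 + M0 + 1 := ⟨_, rfl⟩
  refine ⟨M1, C2, by rw [hC2, hC1]; positivity, ?_⟩
  intro X z hX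
  have ha := hR.a_pos
  have hQ := hR.Q_pos
  obtain ⟨Y, hY⟩ : ∃ Y, Y = C2 * X ^ 4 := ⟨_, rfl⟩
  rw [← hY]
  obtain ⟨S1, hS1⟩ : ∃ S1 : ℕ → ℕ → Finset ℕ, S1 = fun j q => (range (X + 1)).filter
    (fun M => M0 ≤ M ∧ ∃ n r : ℕ, b.natAbs + c.natAbs + 1 ≤ n ∧
      1 + Q * k * j * M = a * (Q * k ^ 2 * j) * n + q ∧
      pv a b c n = q * r ∧ (n ∈ U ∨ n + (Q * k ^ 2 * j) * r ∈ U) ∧
      n + (Q * k ^ 2 * j) * r ≤ Y) := ⟨_, rfl⟩
  obtain ⟨S2, hS2⟩ : ∃ S2 : ℕ → ℕ → Finset ℕ, S2 = fun j q => (range (X + 1)).filter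
    (fun M => M0 ≤ M ∧ ∃ n r : ℕ, b.natAbs + c.natAbs + 1 ≤ n ∧
      M + Q * k * j * (Phi a b c ((M : ℤ), (k : ℤ))).toNat = a * k * n + q ∧
      pv a b c n = q * r ∧ (n ∈ U ∨ n + k * r ∈ U) ∧ n + k * r ≤ Y) := ⟨_, rfl⟩
  have hc1 : ∀ j ∈ Icc 1 L, ∀ q ∈ Icc 1 z, (S1 j q).card ≤ 2 * cnt U Y := by
    intro j hj q hq
    have hj1 : 1 ≤ j := (Finset.mem_Icc.mp hj).1
    apply two_sets ha b c U (fun M => 1 + Q * k * j * M) (Q * k ^ 2 * j) q M0 Y
      (by positivity) _ (Finset.mem_Icc.mp hq).1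
    · intro M hM
      rw [hS1] at hM
      exact (Finset.mem_filter.mp hM).2
    · intro M M' _ _ h
      have h3 : Q * k * j * M = Q * k * j * M' := Nat.add_left_cancel h
      exact Nat.eq_of_mul_eq_mul_left (by positivity) h3
  have hc2 : ∀ j ∈ Icc 1 L, ∀ q ∈ Icc 1 z, (S2 j q).card ≤ 2 * cnt U Y := by
    intro j hj q hq
    apply two_sets ha b c U
      (fun M => M + Q * k * j * (Phi a b c ((M : ℤ), (k : ℤ))).toNat) k q M0 Y
      hk _ (Finset.mem_Icc.mp hq).1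
    · intro M hM
      rw [hS2] at hM
      exact (Finset.mem_filter.mp hM).2
    · have key : ∀ M M' : ℕ, M0 ≤ M → M < M' →
          M + Q * k * j * (Phi a b c ((M : ℤ), (k : ℤ))).toNat <
          M' + Q * k * j * (Phi a b c ((M' : ℤ), (k : ℤ))).toNat := by
        intro M M' hM hlt
        have h3 := Phi_le_of_lt a b c k (by rw [hM0] at hM; exact hM) hlt
        have h4 : (Phi a b c ((M : ℤ), (k : ℤ))).toNat ≤ (Phi a b c ((M' : ℤ), (k : ℤ))).toNat :=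
          Int.toNat_le_toNat h3
        have h5 := Nat.mul_le_mul_left (Q * k * j) h4
        omega
      intro M M' hM hM' h
      rcases lt_trichotomy M M' with hlt | heq | hlt
      · exact absurd h (key M M' hM hlt).ne
      · exact heq
      · exact absurd h (key M' M hM' hlt).ne'
  have hsub : ((range (X + 1)).filter
      (fun n => n ∈ {M | M ∈ NB s a b c Q D k ∧ ¬ Cond a b c Q k L z M})) ⊆
      range (M1 * (1 + z)) ∪ (Icc 1 L).biUnion (fun j => (Icc 1 z).biUnion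
        (fun q => S1 j q ∪ S2 j q)) := by
    intro M hM
    rw [Finset.mem_filter, Set.mem_ofPred_eq] at hM
    obtain ⟨hMX, hMNB, hMC⟩ := hM
    rw [Finset.mem_union]
    by_cases hsmall : M < M1 * (1 + z)
    · left; exact Finset.mem_range.mpr hsmall
    right
    push Not at hsmall
    have hMM0 : M0 ≤ M := by
      have : M0 ≤ M1 * (1 + z) := by
        have : M1 ≤ M1 * (1 + z) := by nlinarith
        omega
      omega
    have hM1z : M1 + z ≤ M := by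
      have : 1 ≤ M1 := by omega
      have : M1 + z ≤ M1 * (1 + z) := by nlinarith
      omega
    have hMX' : M ≤ X := by rw [Finset.mem_range] at hMX; omega
    have hM1' : 1 ≤ M := by omega
    have hΦ := Phi_pos a b c k (M := M) (by rw [hM0] at hMM0; exact hMM0)
    unfold Cond at hMC
    push Not at hMC
    obtain ⟨j, hj, ⟨q1, hq1, hq1z, hmod1, hdvd1⟩, ⟨q2, hq2, hq2z, hmod2, hdvd2⟩⟩ := hMC
    have hj1 : 1 ≤ j := (Finset.mem_Icc.mp hj).1
    have hjL : j ≤ L := (Finset.mem_Icc.mp hj).2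
    have hk2 : Q * k ^ 2 * j ≤ Q * k ^ 2 * L := Nat.mul_le_mul_left _ hjL
    have hΦle := Phi_le a b c k (M := M) hM1'
    have hΦnat : (Phi a b c ((M : ℤ), (k : ℤ))).toNat ≤ P * M ^ 2 := by
      rw [← hP] at hΦle
      have : (Phi a b c ((M : ℤ), (k : ℤ))) ≤ ((P * M ^ 2 : ℕ) : ℤ) := by
        push_cast; exact hΦle
      omega
    rw [Finset.mem_biUnion]
    refine ⟨j, hj, ?_⟩
    rw [Finset.mem_biUnion]
    rcases h2 s a b c Q D hH.sgn hR k M j hk hj1 hMNB hΦ with hd | hd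
    · -- the first derived integer
      have hkk : 0 < Q * k ^ 2 * j := by positivity
      have hbig : a * (Q * k ^ 2 * j) * (b.natAbs + c.natAbs + 1) + z ≤ 1 + Q * k * j * M := by
        have h3 : a * (Q * k ^ 2 * j) * n1 ≤ a * (Q * k ^ 2 * L) * n1 :=
          Nat.mul_le_mul_right _ (Nat.mul_le_mul_left _ hk2)
        have h4 : M ≤ Q * k * j * M := by
          have : 1 ≤ Q * k * j := Nat.mul_pos (Nat.mul_pos hQ hk) hj1
          nlinarith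
        rw [← hn1]
        omega
      obtain ⟨n, r, hn, hxn, hpv, hU⟩ := use_step h1 hR hH hkk hd hq1 hq1z hmod1 hdvd1 hbig
      refine ⟨q1, Finset.mem_Icc.mpr ⟨hq1.one_lt.le, hq1z⟩, ?_⟩
      rw [Finset.mem_union]
      left
      rw [hS1]
      simp only [Finset.mem_filter]
      refine ⟨hMX, hMM0, n, r, hn, hxn, hpv, hU, ?_⟩
      rw [hY, hC2]
      apply bound_step ha b c hkk _ hq1.pos hn hxn hpv _ hX
      · rw [hK1]; omega
      · rw [hC1]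
        have hP1 : 1 ≤ P := by rw [hP]; omega
        have h3 : Q * k * j * M ≤ Q * k * L * P * X ^ 2 := by
          calc Q * k * j * M ≤ Q * k * L * X := by gcongr
            _ = Q * k * L * 1 * X := by ring
            _ ≤ Q * k * L * P * X ^ 2 := by
                apply Nat.mul_le_mul (Nat.mul_le_mul_left _ hP1)
                nlinarith
        have h4 : 1 ≤ X ^ 2 := Nat.one_le_pow _ _ hX
        calc 1 + Q * k * j * M ≤ X ^ 2 + Q * k * L * P * X ^ 2 := Nat.add_le_add h4 h3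
          _ = (1 + Q * k * L * P) * X ^ 2 := by ring
    · -- the second derived integer
      have hcast : ((M + Q * k * j * (Phi a b c ((M : ℤ), (k : ℤ))).toNat : ℕ) : ℤ) =
          M + Q * k * j * Phi a b c ((M : ℤ), (k : ℤ)) := by
        rw [Nat.cast_add, Nat.cast_mul, Nat.cast_mul, Nat.cast_mul, Int.toNat_of_nonneg hΦ.le]
      have hdvd : (q2 : ℤ) ∣ Phi a b c
          (((M + Q * k * j * (Phi a b c ((M : ℤ), (k : ℤ))).toNat : ℕ) : ℤ), (k : ℤ)) := by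
        rw [hcast, ← Phi_mul]
        apply Dvd.dvd.mul_right
        have h5 : Phi a b c (((1 + Q * k * j * M : ℕ) : ℤ), ((Q * k ^ 2 * j : ℕ) : ℤ)) =
            Phi a b c (1 + Q * k * j * M, Q * k ^ 2 * j) := by push_cast; rfl
        rw [← h5]
        exact hdvd2
      have hbig : a * k * (b.natAbs + c.natAbs + 1) + z ≤
          M + Q * k * j * (Phi a b c ((M : ℤ), (k : ℤ))).toNat := by
        rw [← hn1]
        have : 0 ≤ Q * k * j * (Phi a b c ((M : ℤ), (k : ℤ))).toNat := Nat.zero_le _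
        omega
      obtain ⟨n, r, hn, hxn, hpv, hU⟩ := use_step h1 hR hH hk hd hq2 hq2z hmod2 hdvd hbig
      refine ⟨q2, Finset.mem_Icc.mpr ⟨hq2.one_lt.le, hq2z⟩, ?_⟩
      rw [Finset.mem_union]
      right
      rw [hS2]
      simp only [Finset.mem_filter]
      refine ⟨hMX, hMM0, n, r, hn, hxn, hpv, hU, ?_⟩
      rw [hY, hC2]
      apply bound_step ha b c hk _ hq2.pos hn hxn hpv _ hX
      · rw [hK1]; omega
      · rw [hC1]
        have hMM : M ^ 2 ≤ X ^ 2 := Nat.pow_le_pow_left hMX' 2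
        have h3 : Q * k * j * (Phi a b c ((M : ℤ), (k : ℤ))).toNat ≤ Q * k * L * P * X ^ 2 := by
          calc Q * k * j * (Phi a b c ((M : ℤ), (k : ℤ))).toNat ≤ Q * k * L * (P * X ^ 2) := by
                apply Nat.mul_le_mul
                · exact Nat.mul_le_mul_left _ hjL
                · exact hΦnat.trans (Nat.mul_le_mul_left _ hMM)
            _ = Q * k * L * P * X ^ 2 := by ring
        have h4 : M ≤ X ^ 2 := by nlinarith
        calc M + Q * k * j * (Phi a b c ((M : ℤ), (k : ℤ))).toNat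
            ≤ X ^ 2 + Q * k * L * P * X ^ 2 := Nat.add_le_add h4 h3
          _ = (1 + Q * k * L * P) * X ^ 2 := by ring
  have hb1 : ∀ j ∈ Icc 1 L, ((Icc 1 z).biUnion (fun q => S1 j q ∪ S2 j q)).card ≤
      z * (4 * cnt U Y) := by
    intro j hj
    have h3 := Finset.card_biUnion_le_card_mul (Icc 1 z) (fun q => S1 j q ∪ S2 j q)
      (4 * cnt U Y) (by
        intro q hq
        have h3 := Finset.card_union_le (S1 j q) (S2 j q)
        have h4 := hc1 j hj q hq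
        have h5 := hc2 j hj q hq
        omega)
    rw [Nat.card_Icc] at h3
    simpa using h3
  have hb2 := Finset.card_biUnion_le_card_mul (Icc 1 L)
    (fun j => (Icc 1 z).biUnion (fun q => S1 j q ∪ S2 j q)) (z * (4 * cnt U Y)) hb1
  rw [Nat.card_Icc, Nat.add_sub_cancel] at hb2
  have hb3 : cnt {M | M ∈ NB s a b c Q D k ∧ ¬ Cond a b c Q k L z M} X ≤
      (range (M1 * (1 + z)) ∪ (Icc 1 L).biUnion
        (fun j => (Icc 1 z).biUnion (fun q => S1 j q ∪ S2 j q))).card := by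
    refine le_trans (le_of_eq ?_) (Finset.card_le_card hsub)
    unfold cnt
    congr!
  have hb4 := Finset.card_union_le (range (M1 * (1 + z))) ((Icc 1 L).biUnion
    (fun j => (Icc 1 z).biUnion (fun q => S1 j q ∪ S2 j q)))
  rw [Finset.card_range] at hb4
  exact (hb3.trans hb4).trans (Nat.add_le_add_left hb2 _)

end Exc

theorem exc_main (h1 : P_NoUse) (h2 : P_Derived) : P_Exc := by
  intro s a b c Q D e U hR hH k L hk
  obtain ⟨M1, C2, hC2, hcount⟩ := Exc.count h1 h2 hR hH k L hk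
  obtain ⟨X1, hX1⟩ := hH.sparse
  -- the constant
  obtain ⟨K, hK⟩ : ∃ K : ℝ, K = 2 * M1 + 4 * L * (C2 : ℝ) ^ (6 / 25 : ℝ) := ⟨_, rfl⟩
  have hlim : ∀ᶠ x : ℝ in Filter.atTop, K ≤ x ^ (1 / 50 : ℝ) :=
    (tendsto_rpow_atTop (by norm_num)).eventually_ge_atTop K
  obtain ⟨x0, hx0⟩ := Filter.eventually_atTop.mp hlim
  refine ⟨max (max X1 1) ⌈x0⌉₊, ?_⟩
  intro X hX z hz
  have hXX1 : X1 ≤ X := le_trans (le_trans (le_max_left _ _) (le_max_left _ _)) hX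
  have hX1' : 1 ≤ X := le_trans (le_trans (le_max_right _ _) (le_max_left _ _)) hX
  have hXx0 : x0 ≤ (X : ℝ) := le_trans (Nat.le_ceil x0)
    (by exact_mod_cast le_trans (le_max_right _ _) hX)
  have hXr : (1 : ℝ) ≤ X := by exact_mod_cast hX1'
  have hX0 : (0 : ℝ) < X := by linarith
  have hc := hcount X z hX1'
  have hY : X1 ≤ C2 * X ^ 4 := by
    have h3 : X ≤ X ^ 4 := Nat.le_self_pow (by norm_num) X
    nlinarith
  have hU := hX1 (C2 * X ^ 4) hY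
  have hUr : (cnt U (C2 * X ^ 4) : ℝ) ≤ (C2 : ℝ) ^ (6 / 25 : ℝ) * (X : ℝ) ^ (24 / 25 : ℝ) := by
    refine hU.trans (le_of_eq ?_)
    push_cast
    rw [Real.mul_rpow (by positivity) (by positivity), ← Real.rpow_natCast,
      ← Real.rpow_mul (by positivity)]
    norm_num
  have hcr : (cnt {M | M ∈ NB s a b c Q D k ∧ ¬ Cond a b c Q k L z M} X : ℝ) ≤
      M1 * (1 + z) + L * (z * (4 * (cnt U (C2 * X ^ 4) : ℝ))) := by exact_mod_cast hc
  have hXa : (1 : ℝ) ≤ (X : ℝ) ^ (1 / 100 : ℝ) := Real.one_le_rpow hXr (by norm_num)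
  have e1 : (X : ℝ) ^ (1 / 100 : ℝ) ≤ (X : ℝ) ^ (97 / 100 : ℝ) :=
    Real.rpow_le_rpow_of_exponent_le hXr (by norm_num)
  have e2 : (X : ℝ) ^ (1 / 100 : ℝ) * (X : ℝ) ^ (24 / 25 : ℝ) = (X : ℝ) ^ (97 / 100 : ℝ) := by
    rw [← Real.rpow_add hX0]; norm_num
  have e3 : (X : ℝ) ^ (1 / 50 : ℝ) * (X : ℝ) ^ (97 / 100 : ℝ) = (X : ℝ) ^ (99 / 100 : ℝ) := by
    rw [← Real.rpow_add hX0]; norm_num
  have hz0 : (0 : ℝ) ≤ z := by positivity
  have hp0 : (0 : ℝ) ≤ (X : ℝ) ^ (97 / 100 : ℝ) := by positivity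
  have hM10 : (0 : ℝ) ≤ M1 := by positivity
  have hL0 : (0 : ℝ) ≤ L := by positivity
  have hCC : (0 : ℝ) ≤ (C2 : ℝ) ^ (6 / 25 : ℝ) := by positivity
  have f1 : (M1 : ℝ) * (1 + z) ≤ 2 * M1 * (X : ℝ) ^ (97 / 100 : ℝ) := by
    have : (1 : ℝ) + z ≤ 2 * (X : ℝ) ^ (97 / 100 : ℝ) := by linarith
    nlinarith
  have f2 : (L : ℝ) * (z * (4 * (cnt U (C2 * X ^ 4) : ℝ))) ≤
      4 * L * (C2 : ℝ) ^ (6 / 25 : ℝ) * (X : ℝ) ^ (97 / 100 : ℝ) := by
    have g1 : (z : ℝ) * (4 * (cnt U (C2 * X ^ 4) : ℝ)) ≤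
        (X : ℝ) ^ (1 / 100 : ℝ) * (4 * ((C2 : ℝ) ^ (6 / 25 : ℝ) * (X : ℝ) ^ (24 / 25 : ℝ))) :=
      mul_le_mul hz (by linarith) (by positivity) (by positivity)
    calc (L : ℝ) * (z * (4 * (cnt U (C2 * X ^ 4) : ℝ)))
        ≤ L * ((X : ℝ) ^ (1 / 100 : ℝ) *
          (4 * ((C2 : ℝ) ^ (6 / 25 : ℝ) * (X : ℝ) ^ (24 / 25 : ℝ)))) :=
          mul_le_mul_of_nonneg_left g1 hL0
      _ = 4 * L * (C2 : ℝ) ^ (6 / 25 : ℝ) *
          ((X : ℝ) ^ (1 / 100 : ℝ) * (X : ℝ) ^ (24 / 25 : ℝ)) := by ring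
      _ = _ := by rw [e2]
  calc (cnt {M | M ∈ NB s a b c Q D k ∧ ¬ Cond a b c Q k L z M} X : ℝ)
      ≤ K * (X : ℝ) ^ (97 / 100 : ℝ) := by rw [hK]; linarith
    _ ≤ (X : ℝ) ^ (1 / 50 : ℝ) * (X : ℝ) ^ (97 / 100 : ℝ) :=
        mul_le_mul_of_nonneg_right (hx0 X hXx0) hp0
    _ = (X : ℝ) ^ (99 / 100 : ℝ) := e3

end Pool.Agent.Quad
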