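import Pool.Agent.Quad.Basic

/-!
# From the reduced situation to all irreducible quadratics and all progressions
-/

set_option autoImplicit false

namespace Pool.Agent.Quad

open Pool.Agent.FareyParity Finset
open scoped ENNReal

theorem final_main (h : P_Main) : P_Final := by
  classical
  intro s hs hM A B C hA hΔ N r hN e he X0
  by_contra hcon
  push Not at hcon
  obtain ⟨σ, hσ, hσA⟩ : ∃ σ : ℤ, (σ = 1 ∨ σ = -1) ∧ (A.natAbs : ℤ) = σ * A := by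
    rcases lt_or_gt_of_ne hA with h1 | h1
    · exact ⟨-1, Or.inr rfl, by omega⟩
    · exact ⟨1, Or.inl rfl, by omega⟩
  have hσ2 : σ * σ = 1 := by rcases hσ with rfl | rfl <;> norm_num
  obtain ⟨a0, ha0⟩ : ∃ a0 : ℕ, a0 = A.natAbs * N ^ 2 := ⟨_, rfl⟩
  obtain ⟨b0, hb0⟩ : ∃ b0 : ℤ, b0 = σ * (2 * A * N * r + B * N) := ⟨_, rfl⟩
  obtain ⟨c0, hc0⟩ : ∃ c0 : ℤ, c0 = σ * (A * r ^ 2 + B * r + C) := ⟨_, rfl⟩
  obtain ⟨D, hD⟩ : ∃ D : ℤ, D = b0 ^ 2 - 4 * a0 * c0 := ⟨_, rfl⟩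
  have ha0' : (a0 : ℤ) = σ * A * N ^ 2 := by rw [ha0]; push_cast; rw [← hσA]; simp
  have ha0pos : 0 < a0 := by rw [ha0]; positivity
  have hDΔ : D = (B ^ 2 - 4 * A * C) * (N : ℤ) ^ 2 := by
    rw [hD, ha0', hb0, hc0]
    linear_combination ((2 * A * N * r + B * N) ^ 2 - 4 * A * N ^ 2 * (A * r ^ 2 + B * r + C)) * hσ2
  have hNz : (N : ℤ) ≠ 0 := by exact_mod_cast hN.ne'
  have hDns : ¬ IsSquare D := by
    rintro ⟨x, hx⟩
    exact not_sq_eq hΔ hNz (x := x) (by rw [← hDΔ, hx]; ring)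
  have hD0 : D ≠ 0 := by rintro h0; apply hDns; rw [h0]; exact IsSquare.zero
  have hDne : D ≠ -1 := by
    intro h1
    rcases Int.even_or_odd b0 with ⟨m, hm⟩ | ⟨m, hm⟩
    · have : D = 4 * (m ^ 2 - a0 * c0) := by rw [hD, hm]; ring
      omega
    · have : D = 4 * (m ^ 2 + m - a0 * c0) + 1 := by rw [hD, hm]; ring
      omega
  obtain ⟨Q, hQ⟩ : ∃ Q : ℕ, Q = 8 * a0 * D.natAbs := ⟨_, rfl⟩
  have hQpos : 0 < Q := by rw [hQ]; have := Int.natAbs_pos.2 hD0; positivity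
  have hR : Red (a0 * Q ^ 2) (b0 * Q) c0 Q D := by
    refine ⟨by positivity, hQpos, hDns, hDne, ?_, ?_, ?_, ?_, ?_⟩
    · push_cast; rw [hD]; ring
    · exact Dvd.intro (a0 * Q) (by ring)
    · exact Dvd.intro_left b0 rfl
    · intro p hp hpa
      rcases (hp.dvd_mul).1 hpa with h1 | h1
      · exact h1.trans ⟨8 * D.natAbs, by rw [hQ]; ring⟩
      · exact hp.dvd_of_dvd_pow h1
    · rw [hQ]; push_cast
      have h1 : D ∣ |D| := (dvd_abs D D).2 dvd_rfl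
      have h2 : 8 * D ∣ 8 * |D| := mul_dvd_mul_left 8 h1
      exact h2.trans ⟨a0, by ring⟩
  have hpv : ∀ n : ℕ, pv (a0 * Q ^ 2) (b0 * Q) c0 n =
      σ * (A * ((N * Q * n + r : ℕ) : ℤ) ^ 2 + B * ((N * Q * n + r : ℕ) : ℤ) + C) := by
    intro n
    simp only [pv]
    push_cast
    rw [ha0', hb0, hc0]; ring
  have hpv' : ∀ n : ℕ, (pv (a0 * Q ^ 2) (b0 * Q) c0 n).natAbs =
      (A * ((N * Q * n + r : ℕ) : ℤ) ^ 2 + B * ((N * Q * n + r : ℕ) : ℤ) + C).natAbs := by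
    intro n
    rw [hpv, Int.natAbs_mul]
    rcases hσ with rfl | rfl <;> simp
  have hpv0 : ∀ n : ℕ, (pv (a0 * Q ^ 2) (b0 * Q) c0 n).natAbs ≠ 0 := by
    intro n h0
    rw [Int.natAbs_eq_zero] at h0
    apply not_sq_eq hDns (x := 2 * (a0 * Q ^ 2 : ℕ) * n + b0 * Q) (y := (Q : ℤ))
      (by exact_mod_cast hQpos.ne')
    have h1 := hR.disc
    simp only [pv] at h0
    linear_combination h1 + 4 * ((a0 * Q ^ 2 : ℕ) : ℤ) * h0
  apply h s (a0 * Q ^ 2) (b0 * Q) c0 Q D (-e)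
    {n | s (pv (a0 * Q ^ 2) (b0 * Q) c0 n).natAbs ≠ -e} hR _ hM
  refine ⟨hs, ?_, ?_⟩
  · intro n hn
    simpa using hn
  · refine ⟨(N * Q + r) ^ 5 + X0 + 1, fun X hX => ?_⟩
    have hX1 : 1 ≤ X := by omega
    have hXr : (1 : ℝ) ≤ X := by exact_mod_cast hX1
    have hNQ : 0 < N * Q := by positivity
    have hbig : X0 ≤ N * Q * X + r := by
      have : X ≤ N * Q * X := Nat.le_mul_of_pos_left _ hNQ
      omega
    have h1 := hcon (N * Q * X + r) hbig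
    have h2 : cnt {n | s (pv (a0 * Q ^ 2) (b0 * Q) c0 n).natAbs ≠ -e} X ≤
        ((range (N * Q * X + r + 1)).filter (fun n : ℕ => n ≡ r [MOD N] ∧
          s (A * (n : ℤ) ^ 2 + B * n + C).natAbs = e)).card := by
      unfold cnt
      apply card_le_card_of_injOn (fun n => N * Q * n + r)
      · intro n hn
        simp only [coe_filter, mem_range, Set.mem_ofPred_eq] at hn ⊢
        refine ⟨?_, ?_, ?_⟩
        · have : N * Q * n ≤ N * Q * X := Nat.mul_le_mul_left _ (by omega)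
          omega
        · rw [mul_assoc]
          simp [Nat.ModEq]
        · rw [← hpv' n]
          have h3 := hs.val _ (hpv0 n)
          have h4 := hn.2
          rcases he with rfl | rfl <;> rcases h3 with h3 | h3 <;> simp_all
      · intro x _ y _ hxy
        simp only at hxy
        have : N * Q * x = N * Q * y := by omega
        exact Nat.eq_of_mul_eq_mul_left hNQ this
    have h5 : (((N * Q * X + r : ℕ) : ℝ)) ≤ (X : ℝ) ^ (6 / 5 : ℝ) := by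
      have h6 : (((N * Q + r : ℕ) : ℝ)) ≤ (X : ℝ) ^ (1 / 5 : ℝ) := by
        have h7 : (((N * Q + r : ℕ) : ℝ)) ^ (5 : ℕ) ≤ (X : ℝ) := by
          exact_mod_cast (show (N * Q + r) ^ 5 ≤ X by omega)
        calc (((N * Q + r : ℕ) : ℝ)) = ((((N * Q + r : ℕ) : ℝ)) ^ (5 : ℕ)) ^ (1 / 5 : ℝ) := by
              rw [← Real.rpow_natCast, ← Real.rpow_mul (by positivity)]; norm_num
          _ ≤ (X : ℝ) ^ (1 / 5 : ℝ) := Real.rpow_le_rpow (by positivity) h7 (by norm_num)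
      calc (((N * Q * X + r : ℕ) : ℝ)) ≤ ((N * Q + r : ℕ) : ℝ) * X := by
            push_cast
            nlinarith [(Nat.cast_nonneg r : (0 : ℝ) ≤ r)]
        _ ≤ (X : ℝ) ^ (1 / 5 : ℝ) * X := by gcongr
        _ = (X : ℝ) ^ (1 / 5 : ℝ) * (X : ℝ) ^ (1 : ℝ) := by rw [Real.rpow_one]
        _ = (X : ℝ) ^ (6 / 5 : ℝ) := by
            rw [← Real.rpow_add (by linarith)]; norm_num
    calc (cnt {n | s (pv (a0 * Q ^ 2) (b0 * Q) c0 n).natAbs ≠ -e} X : ℝ)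
        ≤ ((N * Q * X + r : ℕ) : ℝ) ^ (1 / 5 : ℝ) := by
          refine le_trans ?_ h1.le
          exact_mod_cast h2
      _ ≤ ((X : ℝ) ^ (6 / 5 : ℝ)) ^ (1 / 5 : ℝ) :=
          Real.rpow_le_rpow (by positivity) h5 (by norm_num)
      _ = (X : ℝ) ^ (6 / 25 : ℝ) := by
          rw [← Real.rpow_mul (by linarith)]; norm_num

end Pool.Agent.Quad
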