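import Pool.Agent.Quad.Basic

/-!
# The form on the narrow region
-/

set_option autoImplicit false

namespace Pool.Agent.Quad

open Pool.Agent.FareyParity Finset

theorem geom_main : P_Geom := by
  intro a b c Q N hN v w hv hw
  obtain ⟨hv1, hv2, hv3⟩ := hv
  obtain ⟨hw1, hw2, hw3⟩ := hw
  have hK : 1 ≤ (KK Q + 1) ^ 4 := Nat.one_le_pow _ _ (by omega)
  have hN1 : 4 * (b.natAbs + (a * c).natAbs) + 1 ≤ N := by
    unfold BigN at hN
    nlinarith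
  have hN2 : 4 * (|b| + |(a : ℤ) * c|) + 1 ≤ (N : ℤ) := by
    have h : ((4 * (b.natAbs + (a * c).natAbs) + 1 : ℕ) : ℤ) ≤ (N : ℤ) := by exact_mod_cast hN1
    push_cast at h
    exact h
  have hN0 : (0 : ℤ) < N := by
    have h1 := abs_nonneg b
    have h2 := abs_nonneg ((a : ℤ) * c)
    linarith
  have hN1' : (1 : ℤ) ≤ N := hN0
  have hw21 : w.2 ≤ w.1 := by nlinarith
  have hP : 0 < v.1 * w.1 := mul_pos hv1 hw1
  have e1 : (N : ℤ) * (w.1 * v.2) ≤ v.1 * w.1 := by nlinarith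
  have e2 : (N : ℤ) * (v.2 * w.2) ≤ v.1 * w.1 := by
    calc (N : ℤ) * (v.2 * w.2) = (N * v.2) * w.2 := by ring
      _ ≤ v.1 * w.2 := mul_le_mul_of_nonneg_right hv3 hw2
      _ ≤ v.1 * w.1 := mul_le_mul_of_nonneg_left hw21 hv1.le
  have e1' : 0 ≤ w.1 * v.2 := mul_nonneg hw1.le hv2
  have e2' : 0 ≤ v.2 * w.2 := mul_nonneg hv2 hw2
  obtain ⟨E, hE⟩ : ∃ E, E = b * (w.1 * v.2) + (a : ℤ) * c * (v.2 * w.2) := ⟨_, rfl⟩
  have hip : ip b (a * c) v w = v.1 * w.1 + E := by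
    rw [hE]; simp only [ip]; ring
  have hEabs : |E| ≤ |b| * (w.1 * v.2) + |(a : ℤ) * c| * (v.2 * w.2) := by
    rw [hE]
    refine (abs_add_le _ _).trans ?_
    rw [abs_mul b, abs_mul ((a : ℤ) * c), abs_of_nonneg e1', abs_of_nonneg e2']
  have h3 : (N : ℤ) * |E| ≤ (|b| + |(a : ℤ) * c|) * (v.1 * w.1) := by
    calc (N : ℤ) * |E| ≤ N * (|b| * (w.1 * v.2) + |(a : ℤ) * c| * (v.2 * w.2)) :=
          mul_le_mul_of_nonneg_left hEabs hN0.le
      _ = |b| * (N * (w.1 * v.2)) + |(a : ℤ) * c| * (N * (v.2 * w.2)) := by ring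
      _ ≤ |b| * (v.1 * w.1) + |(a : ℤ) * c| * (v.1 * w.1) :=
          add_le_add (mul_le_mul_of_nonneg_left e1 (abs_nonneg _))
            (mul_le_mul_of_nonneg_left e2 (abs_nonneg _))
      _ = _ := by ring
  have h4 : (N : ℤ) * (4 * |E|) ≤ N * (v.1 * w.1) := by
    calc (N : ℤ) * (4 * |E|) = 4 * (N * |E|) := by ring
      _ ≤ 4 * ((|b| + |(a : ℤ) * c|) * (v.1 * w.1)) := by linarith
      _ = (4 * (|b| + |(a : ℤ) * c|)) * (v.1 * w.1) := by ring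
      _ ≤ N * (v.1 * w.1) := mul_le_mul_of_nonneg_right (by linarith) hP.le
  have h5 : 4 * |E| ≤ v.1 * w.1 := le_of_mul_le_mul_left h4 hN0
  have h6 := neg_abs_le E
  have h7 := le_abs_self E
  rw [hip]
  constructor <;> linarith

end Pool.Agent.Quad
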