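import Pool.Agent.Quad.Basic

/-!
# Different words give different edges
-/

set_option autoImplicit false

namespace Pool.Agent.Quad

open Pool.Agent.FareyParity Finset

variable {N : ℕ} {e : Edge}

theorem child_sum_lt (he : IsEdge N e) (t : Bool) :
    e.1.1 + e.2.1 < (child t e).1.1 + (child t e).2.1 := by
  have h1 := he.x1_pos
  have h2 := he.x2_pos
  cases t
  · simp only [child, Bool.false_eq_true, if_false, Prod.fst_add]; omega
  · simp only [child, if_true, Prod.fst_add]; omega

theorem desc_sum_le (he : IsEdge N e) (w : List Bool) :
    e.1.1 + e.2.1 + w.length ≤ (desc e w).1.1 + (desc e w).2.1 := by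
  induction w generalizing e with
  | nil => simp [desc]
  | cons t w ih =>
    have h1 := ih (he.child t)
    have h2 := child_sum_lt he t
    simp only [desc, List.length_cons]
    push_cast
    linarith

theorem child_inj {e e' : Edge} (he : IsEdge N e) (he' : IsEdge N e') {t t' : Bool}
    (h : child t e = child t' e') : t = t' ∧ e = e' := by
  have h1 := he.x1_pos
  have h2 := he.x2_pos
  have h1' := he'.x1_pos
  have h2' := he'.x2_pos
  constructor
  · cases t <;> cases t'
    · rfl
    · exfalso
      simp only [child, Bool.false_eq_true, if_false, if_true] at h
      have e1 := congrArg (fun e : Edge => e.1.1) h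
      have e2 := congrArg (fun e : Edge => e.2.1) h
      simp only [Prod.fst_add] at e1 e2
      omega
    · exfalso
      simp only [child, Bool.false_eq_true, if_false, if_true] at h
      have e1 := congrArg (fun e : Edge => e.1.1) h
      have e2 := congrArg (fun e : Edge => e.2.1) h
      simp only [Prod.fst_add] at e1 e2
      omega
    · rfl
  · rw [← par_child he t, ← par_child he' t', h]

theorem inj_main : P_Inj := by
  intro N hN
  have hroot := isEdge_root hN
  have key : ∀ n : ℕ, ∀ w w' : List Bool, w.length = n → desc (root N) w = desc (root N) w' →
      w = w' := by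
    intro n
    induction n with
    | zero =>
      intro w w' hw h
      have hw0 : w = [] := List.length_eq_zero_iff.mp hw
      subst hw0
      have h1 := desc_sum_le hroot w'
      rw [← h] at h1
      have h2 : (w'.length : ℤ) ≤ 0 := by
        simp only [desc] at h1
        linarith
      have h3 : w'.length = 0 := by omega
      exact (List.length_eq_zero_iff.mp h3).symm
    | succ n ih =>
      intro w w' hw h
      rcases List.eq_nil_or_concat w with h0 | ⟨w0, t, h0⟩
      · rw [h0] at hw; simp at hw
      rcases List.eq_nil_or_concat w' with h0' | ⟨w0', t', h0'⟩
      · rw [h0'] at h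
        have h1 := desc_sum_le hroot w
        rw [h, hw] at h1
        simp only [desc] at h1
        push_cast at h1
        omega
      rw [List.concat_eq_append] at h0 h0'
      rw [h0, h0', desc_append, desc_append] at h
      obtain ⟨h1, h2⟩ := child_inj (hroot.desc w0) (hroot.desc w0') h
      have h3 : w0.length = n := by
        rw [h0, List.length_append] at hw
        simp at hw; exact hw
      have h4 := ih w0 w0' h3 h2
      rw [h0, h0', h1, h4]
  intro w w' h
  exact key w.length w w' rfl h

end Pool.Agent.Quad
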