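import Pool.Agent.Quad.Basic

/-!
# Uniqueness of the pair of vectors
-/

set_option autoImplicit false

namespace Pool.Agent.Quad

open Pool.Agent.FareyParity Finset

theorem injz_main (h : P_Geom) : P_InjZ := by
  intro a b c Q D hred N hN z w z' w' q M k hq hk hqk hMk hz hz' hcz hcz' hdt hdt' hip hip' hPhi
  have hself : ∀ v : ℤ × ℤ, ip b (a * c) v v = Phi a b c v := by
    intro v; simp only [ip, Phi, nf]; ring
  obtain ⟨g1, g2⟩ := h a b c Q N hN z z hz hz
  obtain ⟨g1', g2'⟩ := h a b c Q N hN z' z' hz' hz'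
  rw [hself] at g1 g2 g1' g2'
  obtain ⟨H, hH⟩ : ∃ H, H = Phi a b c z := ⟨_, rfl⟩
  rw [← hPhi, ← hH] at g1' g2'
  rw [← hH] at g1 g2 hPhi
  obtain ⟨hz1, hz2, hz3⟩ := hz
  obtain ⟨hz1', hz2', hz3'⟩ := hz'
  have hHpos : 0 < H := by nlinarith
  -- the size of N
  have hN1 : 16 * (KK Q + 1) ^ 4 ≤ N := by
    unfold BigN at hN
    have : 16 * 1 * (KK Q + 1) ^ 4 ≤ 16 * (b.natAbs + (a * c).natAbs + 1) * (KK Q + 1) ^ 4 :=
      Nat.mul_le_mul_right _ (Nat.mul_le_mul_left _ (by omega))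
    omega
  have hqN : 16 * q ≤ N := by
    have h1 : q ≤ q * k := Nat.le_mul_of_pos_right q hk
    have h2 : KK Q ^ 2 ≤ (KK Q + 1) ^ 4 := by
      calc KK Q ^ 2 ≤ (KK Q + 1) ^ 2 := Nat.pow_le_pow_left (by omega) 2
        _ ≤ (KK Q + 1) ^ 4 := Nat.pow_le_pow_right (by omega) (by norm_num)
    omega
  have hqN' : 16 * (q : ℤ) ≤ N := by exact_mod_cast hqN
  have hq' : (0 : ℤ) < q := by exact_mod_cast hq
  have hN0 : (0 : ℤ) < N := by linarith
  -- divisibility
  have m1 := mulv_ip' (a := a) (b := b) (c := c) z w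
  have m2 := mulv_ip' (a := a) (b := b) (c := c) z' w'
  rw [hip, hdt, ← hH] at m1
  rw [hip', hdt', ← hPhi] at m2
  have d1 : H * w.2 = q * (z.1 * k + z.2 * (M + b * k)) := by
    have := congrArg Prod.snd m1
    simp only [mulv, Prod.smul_snd, smul_eq_mul] at this
    rw [← this]; ring
  have d2 : H * w'.2 = q * (z'.1 * k + z'.2 * (M + b * k)) := by
    have := congrArg Prod.snd m2
    simp only [mulv, Prod.smul_snd, smul_eq_mul] at this
    rw [← this]; ring
  have c1 : H ∣ (k : ℤ) * (q * dt z z') := by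
    refine ⟨z'.2 * w.2 - z.2 * w'.2, ?_⟩
    simp only [dt]
    linear_combination (-z'.2) * d1 + z.2 * d2
  have c2 : H ∣ ((M : ℤ) + b * k) * (q * dt z z') := by
    refine ⟨z.1 * w'.2 - z'.1 * w.2, ?_⟩
    simp only [dt]
    linear_combination z'.1 * d1 - z.1 * d2
  have hcop : IsCoprime (k : ℤ) ((M : ℤ) + b * k) := by
    have h1 : IsCoprime (k : ℤ) (M : ℤ) := (Nat.isCoprime_iff_coprime.mpr hMk).symm
    exact IsCoprime.add_mul_right_right h1 b
  have c3 : H ∣ q * dt z z' := by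
    obtain ⟨x, y, hxy⟩ := hcop
    have : (q : ℤ) * dt z z' = x * (k * (q * dt z z')) + y * (((M : ℤ) + b * k) * (q * dt z z')) := by
      linear_combination (-((q : ℤ) * dt z z')) * hxy
    rw [this]
    exact dvd_add (c1.mul_left x) (c2.mul_left y)
  -- size
  have s1 : (N : ℤ) * |dt z z'| ≤ z.1 * z'.1 := by
    have t1 : 0 ≤ z.1 * z'.2 := mul_nonneg hz1.le hz2'
    have t2 : 0 ≤ z'.1 * z.2 := mul_nonneg hz1'.le hz2
    have t3 : (N : ℤ) * (z.1 * z'.2) ≤ z.1 * z'.1 := by nlinarith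
    have t4 : (N : ℤ) * (z'.1 * z.2) ≤ z.1 * z'.1 := by nlinarith
    have t5 : |(N : ℤ) * dt z z'| ≤ z.1 * z'.1 := by
      simp only [dt]
      rw [abs_le]
      constructor
      · nlinarith
      · nlinarith
    rwa [abs_mul, abs_of_pos hN0] at t5
  have s2 : 3 * (z.1 * z'.1) ≤ 4 * H := by nlinarith [sq_nonneg (z.1 - z'.1)]
  have s3 : |(q : ℤ) * dt z z'| < H := by
    rw [abs_mul, abs_of_pos hq']
    have t1 : (N : ℤ) * (q * |dt z z'|) ≤ q * (z.1 * z'.1) := by
      have := mul_le_mul_of_nonneg_left s1 hq'.le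
      linarith
    have t2 : 3 * ((N : ℤ) * (q * |dt z z'|)) ≤ 4 * (q * H) := by
      have := mul_le_mul_of_nonneg_left s2 hq'.le
      linarith
    have t3 : 16 * (q * H) ≤ N * H := by
      have := mul_le_mul_of_nonneg_right hqN' hHpos.le
      linarith
    by_contra hcon
    push Not at hcon
    have t4 : (N : ℤ) * H ≤ N * (q * |dt z z'|) := mul_le_mul_of_nonneg_left hcon hN0.le
    have t5 : 0 < (N : ℤ) * H := mul_pos hN0 hHpos
    linarith
  have s4 : (q : ℤ) * dt z z' = 0 := Int.eq_zero_of_abs_lt_dvd c3 s3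
  have s5 : dt z z' = 0 := by
    rcases mul_eq_zero.mp s4 with h1 | h1
    · exact absurd h1 hq'.ne'
    · exact h1
  obtain ⟨t, ht⟩ := eq_smul_of_dt_eq_zero hcz s5
  have ht1 : t = 1 := by
    have f1 := congrArg Prod.fst ht
    have f2 := congrArg Prod.snd ht
    simp only [Prod.smul_fst, Prod.smul_snd, smul_eq_mul] at f1 f2
    have f3 : t ∣ 1 := by
      obtain ⟨x, y, hxy⟩ := hcz'
      rw [← hxy, f1, f2]
      exact dvd_add (Dvd.dvd.mul_left (Dvd.intro _ rfl) x) (Dvd.dvd.mul_left (Dvd.intro _ rfl) y)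
    have f4 : 0 < t := by
      rw [f1] at hz1'
      exact (mul_pos_iff_of_pos_right hz1).mp hz1'
    exact Int.eq_one_of_dvd_one f4.le f3
  have hzz : z = z' := by rw [ht, ht1, one_smul]
  refine ⟨hzz, ?_⟩
  rw [← hzz, m1] at m2
  have e1 := congrArg Prod.fst m2
  have e2 := congrArg Prod.snd m2
  simp only [Prod.smul_fst, Prod.smul_snd, smul_eq_mul] at e1 e2
  exact Prod.ext (mul_left_cancel₀ hHpos.ne' e1) (mul_left_cancel₀ hHpos.ne' e2)

end Pool.Agent.Quad
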