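import Pool.Agent.Quad.Stmt

/-!
# Square roots modulo powers of `Q`
-/

set_option autoImplicit false

namespace Pool.Agent.Quad

theorem kappa_main : P_Kappa := by
  intro Q q h8 hQ hq E
  obtain ⟨r, rfl⟩ := h8
  have hq1 : ∃ m : ℤ, (1 : ℤ) - q = ((8 * r : ℕ) : ℤ) ^ 2 * m := by
    have h1 : ((8 * r : ℕ) : ℤ) ^ 2 ∣ (1 : ℤ) - q := by
      have := (Nat.modEq_iff_dvd.1 hq)
      push_cast at this ⊢
      exact this
    exact h1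
  have key : ∀ E : ℕ, 2 ≤ E → ∃ κ : ℤ, (∃ j : ℤ, κ = 1 + 4 * ((8 * r : ℕ) : ℤ) * j) ∧
      ∃ m : ℤ, κ ^ 2 - q = ((8 * r : ℕ) : ℤ) ^ E * m := by
    intro E hE
    induction E, hE using Nat.le_induction with
    | base =>
      obtain ⟨m, hm⟩ := hq1
      exact ⟨1, ⟨0, by ring⟩, m, by rw [← hm]; ring⟩
    | succ E hE ih =>
      obtain ⟨κ, ⟨j, hj⟩, m, hm⟩ := ih
      obtain ⟨F, rfl⟩ : ∃ F, E = F + 2 := ⟨E - 2, by omega⟩
      set R : ℤ := (r : ℤ) with hR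
      have hQ' : ((8 * r : ℕ) : ℤ) = 8 * R := by push_cast; rfl
      rw [hQ'] at hm hj ⊢
      -- Q ^ E / 2 = 4 R (8R)^(F+1)
      refine ⟨κ - 4 * R * (8 * R) ^ (F + 1) * m, ⟨j - R * (8 * R) ^ F * m, ?_⟩,
        -4 * j * m + R * (8 * R) ^ F * (2 * m ^ 2) , ?_⟩
      · rw [hj]; ring
      · have e1 : (κ - 4 * R * (8 * R) ^ (F + 1) * m) ^ 2 - q =
            (κ ^ 2 - q) - κ * (8 * R) ^ (F + 2) * m + 16 * R ^ 2 * ((8 * R) ^ (F + 1)) ^ 2 * m ^ 2 := by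
          ring
        rw [e1, hm, hj]
        ring
  obtain ⟨κ, ⟨j, hj⟩, m, hm⟩ := key (max E 2) (le_max_right _ _)
  refine ⟨κ, ?_, ?_⟩
  · apply Int.ModEq.symm
    rw [Int.modEq_iff_dvd]
    exact ⟨j, by rw [hj]; ring⟩
  · apply Int.ModEq.symm
    rw [Int.modEq_iff_dvd, hm]
    exact Dvd.dvd.mul_right (pow_dvd_pow _ (le_max_left _ _)) _

end Pool.Agent.Quad
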