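import Pool.Agent.Quad.Stmt

/-!
# Landreau's inequality
-/

set_option autoImplicit false

namespace Pool.Agent.Quad

open Finset

theorem card_divisors_mul_le (m n : ℕ) : (m * n).divisors.card ≤
    m.divisors.card * n.divisors.card := by
  classical
  rw [Nat.divisors_mul]
  exact Finset.card_mul_le

theorem landreau_aux : ∀ r : ℕ, ∀ y m : ℕ, 2 ≤ y → 0 < m → m ^ 2 ≤ y ^ r →
    ∃ d : ℕ, d ∣ m ∧ d ≤ y ∧ m.divisors.card ≤ (2 ^ r * d.divisors.card) ^ r := by
  intro r
  induction r using Nat.strong_induction_on with
  | _ r ih =>
    intro y m hy hm hmy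
    have hm1 : 1 ≤ m.divisors.card := Finset.card_pos.2 ⟨1, by simp [hm.ne']⟩
    rcases r with _ | _ | r
    · have : m = 1 := by
        rw [pow_zero] at hmy
        nlinarith
      subst this
      exact ⟨1, dvd_rfl, by omega, by simp⟩
    · refine ⟨m, dvd_rfl, ?_, ?_⟩
      · rw [zero_add, pow_one] at hmy
        nlinarith
      · simp only [zero_add, pow_one]
        omega
    · -- the largest divisor `≤ y`
      have hne : (m.divisors.filter (fun d => d ≤ y)).Nonempty :=
        ⟨1, by simp [hm.ne']; omega⟩
      obtain ⟨e, he, hmax⟩ := Finset.exists_max_image _ id hne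
      simp only [mem_filter, Nat.mem_divisors, id] at he hmax
      obtain ⟨⟨hem, -⟩, hey⟩ := he
      obtain ⟨n, hn⟩ := hem
      have hn0 : n ≠ 0 := by rintro rfl; simp at hn; omega
      have he0 : e ≠ 0 := by rintro rfl; simp at hn; omega
      by_cases hn1 : n = 1
      · refine ⟨m, dvd_rfl, ?_, ?_⟩
        · rw [hn, hn1, mul_one]; exact hey
        · calc m.divisors.card ≤ 2 ^ (r + 2) * m.divisors.card :=
                Nat.le_mul_of_pos_left _ (by positivity)
            _ ≤ (2 ^ (r + 2) * m.divisors.card) ^ (r + 2) := Nat.le_self_pow (by omega) _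
      · obtain ⟨p, hp, m', rfl⟩ := Nat.exists_prime_and_dvd hn1
        have hm'0 : 0 < m' := by
          rcases Nat.eq_zero_or_pos m' with h0 | h0
          · subst h0; simp at hn0
          · exact h0
        have hep : y < e * p := by
          by_contra hcon
          push Not at hcon
          have := hmax (e * p) ⟨⟨⟨m', by rw [hn]; ring⟩, hm.ne'⟩, hcon⟩
          have hp2 := hp.two_le
          have : e * 2 ≤ e * p := Nat.mul_le_mul_left e hp2
          omega
        have hm'2 : m' ^ 2 ≤ y ^ r := by
          have h1 : y ^ 2 * m' ^ 2 ≤ y ^ 2 * y ^ r := by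
            calc y ^ 2 * m' ^ 2 ≤ (e * p) ^ 2 * m' ^ 2 := by gcongr
              _ = m ^ 2 := by rw [hn]; ring
              _ ≤ y ^ (r + 2) := by simpa using hmy
              _ = y ^ 2 * y ^ r := by ring
          exact Nat.le_of_mul_le_mul_left h1 (by positivity)
        obtain ⟨d', hd'm, hd'y, hd'⟩ := ih r (by omega) y m' hy hm'0 hm'2
        have hτ : m.divisors.card ≤ 2 * e.divisors.card * m'.divisors.card := by
          have hpc : p.divisors.card = 2 := by
            rw [hp.divisors, Finset.card_pair hp.one_lt.ne]
          calc m.divisors.card = (e * (p * m')).divisors.card := by rw [hn]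
            _ ≤ e.divisors.card * (p * m').divisors.card := card_divisors_mul_le _ _
            _ ≤ e.divisors.card * (p.divisors.card * m'.divisors.card) := by
                gcongr; exact card_divisors_mul_le _ _
            _ = 2 * e.divisors.card * m'.divisors.card := by rw [hpc]; ring
        -- the common bound
        have fin : ∀ t : ℕ, e.divisors.card ≤ t → d'.divisors.card ≤ t → 0 < t →
            m.divisors.card ≤ (2 ^ (r + 2) * t) ^ (r + 2) := by
          intro t h1 h2 ht
          calc m.divisors.card ≤ 2 * e.divisors.card * m'.divisors.card := hτ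
            _ ≤ 2 * t * (2 ^ r * t) ^ r := by
                gcongr
                exact hd'.trans (by gcongr)
            _ ≤ (2 ^ (r + 2) * t) * (2 ^ (r + 2) * t) ^ (r + 1) := by
                have h3 : 2 * t ≤ 2 ^ (r + 2) * t := by
                  gcongr
                  exact Nat.le_self_pow (by omega) 2
                have h4 : (2 ^ r * t) ^ r ≤ (2 ^ (r + 2) * t) ^ (r + 1) := by
                  calc (2 ^ r * t) ^ r ≤ (2 ^ (r + 2) * t) ^ r := by
                        gcongr
                        · norm_num
                        · omega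
                    _ ≤ (2 ^ (r + 2) * t) ^ (r + 1) := by
                        apply Nat.pow_le_pow_right
                        · positivity
                        · omega
                exact Nat.mul_le_mul h3 h4
            _ = (2 ^ (r + 2) * t) ^ (r + 2) := by ring
        have hd'0 : d' ≠ 0 := by rintro rfl; simp at hd'm; omega
        rcases le_total e.divisors.card d'.divisors.card with hle | hle
        · refine ⟨d', hd'm.trans ⟨e * p, by rw [hn]; ring⟩, hd'y, fin _ hle le_rfl ?_⟩
          exact Finset.card_pos.2 ⟨1, by simp [hd'0]⟩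
        · refine ⟨e, ⟨p * m', hn⟩, hey, fin _ le_rfl hle ?_⟩
          exact Finset.card_pos.2 ⟨1, by simp [he0]⟩

theorem landreau_main : P_Landreau := fun r y m hy hm h => landreau_aux r y m hy hm h

end Pool.Agent.Quad
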