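import Pool.Agent.Quad.Basic

/-!
# A ternary form
-/

set_option autoImplicit false

namespace Pool.Agent.Quad

open Finset

theorem legendre_pig (d q : ℕ) (hd : 0 < d) (hq : 0 < q) (w : ℤ) (a b c : ℕ)
    (habc : a * b * c = (4 * d * q) ^ 2) :
    ∃ X Y Z : ℤ, (X ≠ 0 ∨ Y ≠ 0 ∨ Z ≠ 0) ∧ X ^ 2 ≤ a ∧ Y ^ 2 ≤ b ∧ Z ^ 2 ≤ c ∧
      (2 : ℤ) ∣ Y ∧ (2 * d : ℤ) ∣ X - Z ∧ (q : ℤ) ∣ X - w * Y := by
  have : NeZero q := ⟨hq.ne'⟩
  have : NeZero (2 * d) := ⟨by omega⟩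
  set P : Finset (ℕ × ℕ × ℕ) :=
    range (Nat.sqrt a + 1) ×ˢ range (Nat.sqrt b + 1) ×ˢ range (Nat.sqrt c + 1) with hP
  set T : Finset (ZMod 2 × ZMod (2 * d) × ZMod q) := Finset.univ with hT
  have hcT : T.card = 4 * d * q := by
    rw [hT, Finset.card_univ, Fintype.card_prod, Fintype.card_prod, ZMod.card, ZMod.card, ZMod.card]
    ring
  have hcP : P.card = (Nat.sqrt a + 1) * ((Nat.sqrt b + 1) * (Nat.sqrt c + 1)) := by
    rw [hP, Finset.card_product, Finset.card_product, card_range, card_range, card_range]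
  have hlt : T.card < P.card := by
    rw [hcT, hcP]
    have h1 := Nat.lt_succ_sqrt a
    have h2 := Nat.lt_succ_sqrt b
    have h3 := Nat.lt_succ_sqrt c
    simp only [Nat.succ_eq_add_one] at h1 h2 h3
    have h4 : a * b * c < ((Nat.sqrt a + 1) * ((Nat.sqrt b + 1) * (Nat.sqrt c + 1))) ^ 2 := by
      calc a * b * c < ((Nat.sqrt a + 1) * (Nat.sqrt a + 1)) *
            ((Nat.sqrt b + 1) * (Nat.sqrt b + 1)) * ((Nat.sqrt c + 1) * (Nat.sqrt c + 1)) := by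
            gcongr
        _ = _ := by ring
    rw [habc] at h4
    exact lt_of_pow_lt_pow_left₀ 2 (Nat.zero_le _) h4
  obtain ⟨p, hp, p', hp', hne, heq⟩ := Finset.exists_ne_map_eq_of_card_lt_of_maps_to hlt
    (f := fun p : ℕ × ℕ × ℕ => (((p.2.1 : ℤ) : ZMod 2), (((p.1 : ℤ) - p.2.2 : ℤ) : ZMod (2 * d)),
      (((p.1 : ℤ) - w * p.2.1 : ℤ) : ZMod q))) (fun _ _ => Finset.mem_univ _)
  obtain ⟨x, y, z⟩ := p
  obtain ⟨x', y', z'⟩ := p'
  simp only [hP, Finset.mem_product, Finset.mem_range] at hp hp'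
  simp only [Prod.mk.injEq] at heq
  obtain ⟨e1, e2, e3⟩ := heq
  have bound : ∀ {n m k : ℕ}, n < Nat.sqrt k + 1 → m < Nat.sqrt k + 1 →
      ((n : ℤ) - m) ^ 2 ≤ k := by
    intro n m k hn hm
    have h1 : ((n : ℤ) - m) ^ 2 ≤ (Nat.sqrt k : ℤ) ^ 2 := by
      rw [sq_le_sq, abs_of_nonneg (Int.natCast_nonneg (Nat.sqrt k))]
      rw [abs_le]
      constructor <;> omega
    have h2 : ((Nat.sqrt k : ℤ)) ^ 2 ≤ k := by exact_mod_cast Nat.sqrt_le' k
    linarith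
  refine ⟨(x : ℤ) - x', (y : ℤ) - y', (z : ℤ) - z', ?_, bound hp.1 hp'.1, bound hp.2.1 hp'.2.1,
    bound hp.2.2 hp'.2.2, ?_, ?_, ?_⟩
  · by_contra hcon
    push Not at hcon
    obtain ⟨c1, c2, c3⟩ := hcon
    apply hne
    have : x = x' := by omega
    have : y = y' := by omega
    have : z = z' := by omega
    subst_vars
    rfl
  · have := (ZMod.intCast_eq_intCast_iff_dvd_sub _ _ _).1 e1.symm
    exact_mod_cast this
  · have := (ZMod.intCast_eq_intCast_iff_dvd_sub _ _ _).1 e2.symm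
    have h2 : (x : ℤ) - x' - (z - z') = (x - z) - (x' - z') := by ring
    rw [h2]
    exact_mod_cast this
  · have := (ZMod.intCast_eq_intCast_iff_dvd_sub _ _ _).1 e3.symm
    have h2 : (x : ℤ) - x' - w * (y - y') = (x - w * y) - (x' - w * y') := by ring
    rw [h2]
    exact_mod_cast this

theorem legendre_div {D : ℤ} {q : ℕ} (hq : q.Prime) (hqD : ¬ (q : ℤ) ∣ 4 * D)
    (hq1 : (8 * D : ℤ) ∣ (q : ℤ) - 1) {w X Y Z : ℤ} (hw : (q : ℤ) ∣ w ^ 2 - D)
    (hY : (2 : ℤ) ∣ Y) (hXZ : (2 * D : ℤ) ∣ X - Z) (hX : (q : ℤ) ∣ X - w * Y) :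
    (4 * D * q : ℤ) ∣ X ^ 2 - D * Y ^ 2 - q * Z ^ 2 := by
  have hqp : Prime (q : ℤ) := Nat.prime_iff_prime_int.1 hq
  apply IsCoprime.mul_dvd
  · rw [isCoprime_comm]
    exact (Prime.coprime_iff_not_dvd hqp).2 hqD
  · obtain ⟨y, rfl⟩ := hY
    obtain ⟨k, hk⟩ := hXZ
    obtain ⟨l, hl⟩ := hq1
    have e1 : X = Z + 2 * D * k := by linarith
    have e2 : (q : ℤ) = 1 + 8 * D * l := by linarith
    refine ⟨k * Z + D * k ^ 2 - y ^ 2 - 2 * l * Z ^ 2, ?_⟩
    rw [e1, e2]; ring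
  · obtain ⟨k, hk⟩ := hX
    obtain ⟨l, hl⟩ := hw
    have e1 : X = w * Y + q * k := by linarith
    have e2 : D = w ^ 2 - q * l := by linarith
    refine ⟨2 * w * Y * k + q * k ^ 2 + l * Y ^ 2 - Z ^ 2, ?_⟩
    rw [e1]
    have : D * Y ^ 2 = w ^ 2 * Y ^ 2 - q * l * Y ^ 2 := by rw [e2]; ring
    linear_combination -this

theorem eq_zero_of_dvd_of_lt {N V : ℤ} (h : N ∣ V) (h1 : V < |N|) (h2 : -|N| < V) : V = 0 := by
  apply Int.eq_zero_of_abs_lt_dvd ((abs_dvd _ _).2 h)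
  rw [abs_lt]
  exact ⟨h2, h1⟩

/-- `m q` is not a square if the prime `q` does not divide `m` -/
theorem not_sq_mul_prime {q : ℕ} (hq : q.Prime) {m X : ℤ} (hm : ¬ (q : ℤ) ∣ m) : X ^ 2 ≠ m * q := by
  intro h
  have hqp : Prime (q : ℤ) := Nat.prime_iff_prime_int.1 hq
  have h1 : (q : ℤ) ∣ X ^ 2 := ⟨m, by rw [h]; ring⟩
  have h2 := hqp.dvd_of_dvd_pow h1
  obtain ⟨x, rfl⟩ := h2
  apply hm
  refine ⟨x ^ 2, ?_⟩
  have hq0 : (q : ℤ) ≠ 0 := hqp.ne_zero
  have : (q : ℤ) * m = q * (q * x ^ 2) := by linear_combination -h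
  exact mul_left_cancel₀ hq0 this

theorem sq_eq_prime_mul {q : ℕ} (hq : q.Prime) {X Z : ℤ} (h : X ^ 2 = q * Z ^ 2) :
    X = 0 ∧ Z = 0 := by
  have hZ : Z = 0 := by
    by_contra hZ
    have hns : ¬ IsSquare (q : ℤ) := by
      intro hs
      have := (Nat.prime_iff_prime_int.1 hq).irreducible.not_isSquare
      exact this hs
    exact not_sq_eq hns hZ h
  subst hZ
  simp only [ne_eq, OfNat.ofNat_ne_zero, not_false_eq_true, zero_pow, mul_zero] at h
  exact ⟨pow_eq_zero_iff two_ne_zero |>.1 h, rfl⟩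

theorem legendre_main : P_Legendre := by
  intro D hD hD1 q hq hq8
  have hD0 : D ≠ 0 := by rintro rfl; exact hD IsSquare.zero
  have hd : 0 < D.natAbs := Int.natAbs_pos.2 hD0
  have hqp : Prime (q : ℤ) := Nat.prime_iff_prime_int.1 hq
  have hq1 : (8 * D : ℤ) ∣ (q : ℤ) - 1 := by
    have h1 := Nat.modEq_iff_dvd.1 hq8.symm
    push_cast at h1
    rcases abs_choice D with h | h
    · rwa [h] at h1
    · rw [h] at h1
      have : (8 * D : ℤ) = -(8 * -D) := by ring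
      rw [this, neg_dvd]
      exact h1
  have hqbig : 8 * D.natAbs < q := by
    have h2 := hq.two_le
    obtain ⟨l, hl⟩ : ∃ l, q = 1 + 8 * D.natAbs * l := by
      have h1 := (Nat.modEq_iff_dvd' hq.one_le).1 hq8.symm
      obtain ⟨l, hl⟩ := h1
      exact ⟨l, by omega⟩
    rcases Nat.eq_zero_or_pos l with h0 | h0
    · subst h0; omega
    · have : 8 * D.natAbs * 1 ≤ 8 * D.natAbs * l := Nat.mul_le_mul_left _ h0
      omega
  have hqm : ∀ m : ℤ, m ≠ 0 → m.natAbs < q → ¬ (q : ℤ) ∣ m := by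
    intro m hm hlt hdvd
    have := Nat.le_of_dvd (Int.natAbs_pos.2 hm) (Int.natCast_dvd.1 hdvd)
    omega
  have hq4D : ¬ (q : ℤ) ∣ 4 * D := hqm _ (by omega) (by rw [Int.natAbs_mul]; simp; omega)
  have hqD : ¬ (q : ℤ) ∣ D := fun h => hq4D (h.mul_left 4)
  have hodd : Odd q := by
    refine hq.odd_of_ne_two ?_
    omega
  -- square root of D
  obtain ⟨w, hw⟩ : ∃ w : ℤ, (q : ℤ) ∣ w ^ 2 - D := by
    have : Fact q.Prime := ⟨hq⟩
    have h1 : jacobiSym D q = 1 := by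
      rw [jacobiSym.mod_right D hodd]
      have h2 : q % (4 * D.natAbs) = 1 % (4 * D.natAbs) :=
        hq8.of_dvd (Nat.mul_dvd_mul (by norm_num) dvd_rfl)
      rw [h2, ← jacobiSym.mod_right D odd_one, jacobiSym.one_right]
    rw [← jacobiSym.legendreSym.to_jacobiSym] at h1
    have hD0' : (D : ZMod q) ≠ 0 := by
      rwa [Ne, ZMod.intCast_zmod_eq_zero_iff_dvd]
    rw [legendreSym.eq_one_iff _ hD0'] at h1
    obtain ⟨y, hy⟩ := h1
    obtain ⟨w, rfl⟩ := ZMod.intCast_surjective y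
    refine ⟨w, ?_⟩
    rw [← ZMod.intCast_zmod_eq_zero_iff_dvd]
    push_cast
    rw [hy]; ring
  have hdq : (0 : ℤ) < q := by exact_mod_cast hq.pos
  have hY0 : ∀ {X Y Z : ℤ}, (X ≠ 0 ∨ Y ≠ 0 ∨ Z ≠ 0) → X ^ 2 - D * Y ^ 2 - q * Z ^ 2 = 0 →
      ∃ X Y Z : ℤ, Y ≠ 0 ∧ X ^ 2 - D * Y ^ 2 = q * Z ^ 2 := by
    intro X Y Z hne h0
    refine ⟨X, Y, Z, ?_, by linarith⟩
    rintro rfl
    have h1 : X ^ 2 = q * Z ^ 2 := by linarith
    obtain ⟨rfl, rfl⟩ := sq_eq_prime_mul hq h1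
    simp at hne
  rcases lt_or_gt_of_ne hD0 with hneg | hpos
  · -- D < 0
    set d : ℕ := D.natAbs with hdd
    have hDd : D = -(d : ℤ) := by omega
    have hd2 : 2 ≤ d := by omega
    obtain ⟨X, Y, Z, hne, hX, hY, hZ, h2Y, hXZ, hXY⟩ := legendre_pig d q hd hq.pos w
      (2 * d * q) (2 * q) (4 * d) (by ring)
    push_cast at hX hY hZ
    have hXZ' : (2 * D : ℤ) ∣ X - Z := by
      rw [hDd, mul_neg, neg_dvd]; exact hXZ
    have hdiv := legendre_div hq hq4D hq1 hw h2Y hXZ' hXY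
    have hdpos : (0 : ℤ) < d := by exact_mod_cast hd
    have hN : |(4 * D * q : ℤ)| = 4 * d * q := by
      rw [hDd]
      rw [show (4 * -(d : ℤ) * q) = -(4 * d * q) by ring, abs_neg, abs_of_pos (by positivity)]
    apply hY0 hne
    apply eq_zero_of_dvd_of_lt hdiv
    · rw [hN, hDd]
      have h1 : X ^ 2 ≠ (2 * d : ℤ) * q := not_sq_mul_prime hq (hqm _ (by omega) (by omega))
      have h2 : X ^ 2 < 2 * d * q := lt_of_le_of_ne hX h1
      nlinarith [sq_nonneg Z, mul_nonneg hdq.le (sq_nonneg Z), mul_le_mul_of_nonneg_left hY hdpos.le]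
    · rw [hN, hDd]
      by_contra hcon
      push Not at hcon
      have h3 : (q : ℤ) * Z ^ 2 ≤ q * (4 * d) := mul_le_mul_of_nonneg_left hZ hdq.le
      have h4 : X ^ 2 = 0 := by nlinarith [sq_nonneg X, mul_nonneg hdpos.le (sq_nonneg Y)]
      have h5 : (d : ℤ) * Y ^ 2 = 0 := by nlinarith [sq_nonneg X, mul_nonneg hdpos.le (sq_nonneg Y)]
      have h6 : (q : ℤ) * Z ^ 2 = q * (4 * d) := by nlinarith
      have h7 : Z ^ 2 = 4 * d := mul_left_cancel₀ hdq.ne' h6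
      have hX0 : X = 0 := pow_eq_zero_iff two_ne_zero |>.1 h4
      subst hX0
      obtain ⟨k, hk⟩ := hXZ
      have hZ' : Z = -(2 * d * k) := by linarith
      rw [hZ'] at h7
      have h8 : (4 * (d : ℤ)) * (d * k ^ 2) = 4 * d * 1 := by linear_combination h7
      have h9 := mul_left_cancel₀ (by positivity) h8
      have hk1 : 1 ≤ k ^ 2 := by
        have : 0 < k ^ 2 := by
          by_contra hk0
          have : k ^ 2 = 0 := le_antisymm (not_lt.1 hk0) (sq_nonneg k)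
          rw [this] at h9; simp at h9
        omega
      nlinarith
  · -- D > 0
    set d : ℕ := D.natAbs with hdd
    have hDd : D = (d : ℤ) := by omega
    obtain ⟨X, Y, Z, hne, hX, hY, hZ, h2Y, hXZ, hXY⟩ := legendre_pig d q hd hq.pos w
      (4 * d * q) (2 * q) (2 * d) (by ring)
    push_cast at hX hY hZ
    have hXZ' : (2 * D : ℤ) ∣ X - Z := by rw [hDd]; exact hXZ
    have hdiv := legendre_div hq hq4D hq1 hw h2Y hXZ' hXY
    have hdpos : (0 : ℤ) < d := by exact_mod_cast hd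
    have hN : |(4 * D * q : ℤ)| = 4 * d * q := by
      rw [hDd, abs_of_pos (by positivity)]
    apply hY0 hne
    apply eq_zero_of_dvd_of_lt hdiv
    · rw [hN, hDd]
      have h1 : X ^ 2 ≠ (4 * d : ℤ) * q := not_sq_mul_prime hq (hqm _ (by omega) (by omega))
      have h2 : X ^ 2 < 4 * d * q := lt_of_le_of_ne hX h1
      nlinarith [mul_nonneg hdq.le (sq_nonneg Z), mul_nonneg hdpos.le (sq_nonneg Y)]
    · rw [hN, hDd]
      have h1 : Y ^ 2 ≠ (2 : ℤ) * q := not_sq_mul_prime hq (hqm _ (by norm_num) (by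
        have e2 : (2 : ℤ).natAbs = 2 := rfl
        have : 8 ≤ 8 * d := by omega
        omega))
      have h2 : Y ^ 2 < 2 * q := lt_of_le_of_ne hY h1
      nlinarith [mul_le_mul_of_nonneg_left hZ hdq.le, mul_lt_mul_of_pos_left h2 hdpos, sq_nonneg X]

end Pool.Agent.Quad
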