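import Pool.Agent.Quad.Basic

/-!
# No sign is eventually avoided (reduced situation)
-/

set_option autoImplicit false

namespace Pool.Agent.Quad

open Pool.Agent.FareyParity Finset
open scoped ENNReal

theorem wt_or_le (P R : Edge → Prop) (e : Edge) :
    wt (fun x => P x ∨ R x) e ≤ wt P e + wt R e := by
  classical
  unfold wt
  rw [← ENNReal.tsum_add]
  apply ENNReal.tsum_le_tsum
  intro w
  by_cases h1 : P (desc e w) <;> by_cases h2 : R (desc e w) <;> simp [h1, h2]

theorem main_main (hNB : P_NBsum) (hDef : P_DefSum) (hThr : P_ThrSum) (hUex : P_Uex)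
    (hCon : P_Con) : P_Main := by
  intro s a b c Q D e U hR hH hM
  obtain ⟨N, hN⟩ : ∃ N : ℕ, N = 16 * (b.natAbs + (a * c).natAbs + 1) * (KK Q + 1) ^ 4 := ⟨_, rfl⟩
  have hBig : BigN a b c Q N := hN ▸ le_rfl
  have hN0 : 0 < N := by rw [hN]; positivity
  have h1 := hDef s a b c Q D hH.sgn hR (fun k hk => hNB s a b c Q D e U hR hH k hk) N hBig
  have h2 := hThr N hN0
  refine hCon s a b c Q D hH.sgn hR N hBig ?_ (hUex s a b c Q D hH.sgn hR hM)
  refine lt_of_le_of_lt (wt_or_le _ _ _) (ENNReal.add_lt_top.2 ⟨h1, h2⟩)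

end Pool.Agent.Quad
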