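import Pool.Agent.Quad.Stmt
import Pool.Agent.MertensAP.Main

/-!
# Module MERTLOW: lower bound for the sum of reciprocals of primes in a progression
-/

set_option autoImplicit false

namespace Pool.Agent.Quad

open Finset

namespace MLow

/-- `∑ 1 / p` -/
noncomputable def T (m r z : ℕ) : ℝ :=
  ∑ p ∈ (range (z + 1)).filter (fun p => p.Prime ∧ p ≡ r [MOD m]), (1 : ℝ) / p

/-- `∑ log p / p` -/
noncomputable def S (m r z : ℕ) : ℝ :=
  ∑ p ∈ (range (z + 1)).filter (fun p => p.Prime ∧ p ≡ r [MOD m]), Real.log p / p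

theorem step (m r z : ℕ) (hz : 1 ≤ z) :
    T m r (z + 1) - T m r z = (S m r (z + 1) - S m r z) * (1 / Real.log ((z : ℝ) + 1)) := by
  have hl : Real.log ((z : ℝ) + 1) ≠ 0 := by
    have : (1 : ℝ) ≤ z := by exact_mod_cast hz
    exact (Real.log_pos (by linarith)).ne'
  unfold T S
  rw [Finset.range_add_one (n := z + 1), Finset.filter_insert]
  split_ifs with h
  · rw [Finset.sum_insert (by simp), Finset.sum_insert (by simp)]
    push_cast
    rw [add_sub_cancel_right, add_sub_cancel_right]
    field_simp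
  · simp

theorem S_nonneg (m r z : ℕ) : 0 ≤ S m r z :=
  Finset.sum_nonneg fun p _ => div_nonneg (Real.log_natCast_nonneg p) (Nat.cast_nonneg p)

theorem key {z : ℕ} (hz : 2 ≤ z) :
    Real.log (Real.log ((z : ℝ) + 1)) - Real.log (Real.log z) - 5 * (1 / (z : ℝ) - 1 / ((z : ℝ) + 1)) ≤
      Real.log z * (1 / Real.log z - 1 / Real.log ((z : ℝ) + 1)) := by
  have hz2 : (2 : ℝ) ≤ z := by exact_mod_cast hz
  have hz0 : (0 : ℝ) < z := by linarith
  have hl2 : (0.69 : ℝ) < Real.log 2 := by linarith [Real.log_two_gt_d9]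
  set x := Real.log z with hx
  set y := Real.log ((z : ℝ) + 1) with hy
  have hx0 : 0.69 < x := lt_of_lt_of_le hl2 (Real.log_le_log (by norm_num) hz2)
  have hxy : x ≤ y := Real.log_le_log hz0 (by linarith)
  have hy0 : 0.69 < y := lt_of_lt_of_le hx0 hxy
  have hyx : y - x ≤ 1 / z := by
    rw [hx, hy, ← Real.log_div (by linarith) (by linarith)]
    have h1 := Real.log_le_sub_one_of_pos (x := ((z : ℝ) + 1) / z) (by positivity)
    have h2 : ((z : ℝ) + 1) / z - 1 = 1 / z := by field_simp; ring
    linarith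
  have h3 : Real.log y - Real.log x ≤ (y - x) / x := by
    rw [← Real.log_div (by linarith) (by linarith)]
    have h1 := Real.log_le_sub_one_of_pos (x := y / x) (by positivity)
    have h2 : y / x - 1 = (y - x) / x := by field_simp
    linarith
  have h4 : x * (1 / x - 1 / y) = (y - x) / y := by field_simp
  have h5 : (y - x) / x - (y - x) / y = (y - x) ^ 2 / (x * y) := by
    field_simp
  have h6 : (y - x) ^ 2 ≤ (1 / z) ^ 2 := by
    apply pow_le_pow_left₀ (by linarith) hyx
  have h7 : (y - x) ^ 2 / (x * y) ≤ (1 / (z : ℝ)) ^ 2 / 0.47 := by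
    apply div_le_div₀ (by positivity) h6 (by norm_num)
    nlinarith
  have h8 : (1 / (z : ℝ)) ^ 2 / 0.47 ≤ 5 * (1 / (z : ℝ) - 1 / ((z : ℝ) + 1)) := by
    have e : (1 / (z : ℝ) - 1 / ((z : ℝ) + 1)) = 1 / (z * (z + 1)) := by field_simp; ring
    rw [e, div_pow, one_pow, div_div, mul_one_div, div_le_div_iff₀ (by positivity) (by positivity)]
    nlinarith
  rw [h4]
  linarith

theorem ind (m r : ℕ) (φ C : ℝ) (hφ : 1 ≤ φ)
    (h : ∀ z : ℕ, 2 ≤ z → Real.log z / φ - C ≤ S m r z) (z : ℕ) (hz : 2 ≤ z) :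
    S m r z * (1 / Real.log z) + (1 / φ) * (Real.log (Real.log z) - Real.log (Real.log 2)) -
      5 * (1 / 2 - 1 / (z : ℝ)) - C * (1 / Real.log 2 - 1 / Real.log z) ≤ T m r z := by
  have hφ0 : 0 < φ := by linarith
  induction z, hz using Nat.le_induction with
  | base =>
    have e : T m r 2 = S m r 2 * (1 / Real.log 2) := by
      have h1 := step m r 1 le_rfl
      have h2 : T m r 1 = 0 := by
        unfold T
        apply Finset.sum_eq_zero
        intro p hp
        rw [mem_filter, mem_range] at hp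
        have := hp.2.1.two_le
        omega
      have h3 : S m r 1 = 0 := by
        unfold S
        apply Finset.sum_eq_zero
        intro p hp
        rw [mem_filter, mem_range] at hp
        have := hp.2.1.two_le
        omega
      rw [h2, h3, sub_zero, sub_zero] at h1
      norm_num at h1
      simpa using h1
    rw [e]
    push_cast
    simp
  | succ z hz ih =>
    have h1 := step m r z (by omega)
    have h2 := key hz
    have h3 := h z hz
    have hz2 : (2 : ℝ) ≤ z := by exact_mod_cast hz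
    have hx0 : 0 < Real.log (z : ℝ) := Real.log_pos (by linarith)
    have hxy : Real.log (z : ℝ) ≤ Real.log ((z : ℝ) + 1) :=
      Real.log_le_log (by linarith) (by linarith)
    have hy0 : 0 < Real.log ((z : ℝ) + 1) := by linarith
    have h4 : 0 ≤ 1 / Real.log (z : ℝ) - 1 / Real.log ((z : ℝ) + 1) := by
      have := one_div_le_one_div_of_le hx0 hxy
      linarith
    have h5 := mul_le_mul_of_nonneg_right h3 h4
    have h6 : 0 ≤ 1 / (z : ℝ) - 1 / ((z : ℝ) + 1) := by
      have := one_div_le_one_div_of_le (by linarith : (0 : ℝ) < z) (by linarith : (z : ℝ) ≤ z + 1)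
      linarith
    have h7 : 1 / φ ≤ 1 := by rw [div_le_one hφ0]; exact hφ
    have h8 : 0 ≤ 1 / φ := by positivity
    have h9 := mul_le_mul_of_nonneg_left h2 h8
    have h10 : 1 / φ * (5 * (1 / (z : ℝ) - 1 / ((z : ℝ) + 1))) ≤
        5 * (1 / (z : ℝ) - 1 / ((z : ℝ) + 1)) := by
      have : 0 ≤ 5 * (1 / (z : ℝ) - 1 / ((z : ℝ) + 1)) := by linarith
      nlinarith
    push_cast
    set f0 := 1 / Real.log (z : ℝ) with hf0
    set f1 := 1 / Real.log ((z : ℝ) + 1) with hf1
    set LL0 := Real.log (Real.log (z : ℝ))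
    set LL1 := Real.log (Real.log ((z : ℝ) + 1))
    set w0 := 1 / (z : ℝ)
    set w1 := 1 / ((z : ℝ) + 1)
    have h11 : (Real.log z / φ - C) * (f0 - f1) =
        1 / φ * (Real.log z * (f0 - f1)) - C * (f0 - f1) := by ring
    rw [h11] at h5
    have h12 : 1 / φ * (LL1 - LL0 - 5 * (w0 - w1)) =
        1 / φ * (LL1 - LL0) - 1 / φ * (5 * (w0 - w1)) := by ring
    rw [h12] at h9
    have h13 : T m r (z + 1) = T m r z + (S m r (z + 1) - S m r z) * f1 := by linarith
    have h14 : 1 / φ * (LL1 - Real.log (Real.log 2)) = 1 / φ * (LL0 - Real.log (Real.log 2)) +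
        1 / φ * (LL1 - LL0) := by ring
    rw [h13, h14]
    nlinarith

end MLow

open MLow in
theorem mertlow_main : P_MertLow := by
  intro m hm
  obtain ⟨C, hC0, hC⟩ := MertensAP.mertens_ap_mod m hm
  have hφ : (1 : ℝ) ≤ m.totient := by exact_mod_cast Nat.totient_pos.mpr hm
  have hφm : (m.totient : ℝ) ≤ m := by exact_mod_cast Nat.totient_le m
  refine ⟨5 / 2 + C / Real.log 2, fun r hr z hz => ?_⟩
  have hS : ∀ z : ℕ, 2 ≤ z → Real.log z / m.totient - C ≤ S m r z := by
    intro z hz
    have h1 := hC r hr (z : ℝ) (by exact_mod_cast (by omega : 1 ≤ z))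
    rw [Nat.floor_natCast] at h1
    have e : (Icc 1 z).filter (fun p : ℕ => p.Prime ∧ p ≡ r [MOD m]) =
        (range (z + 1)).filter (fun p : ℕ => p.Prime ∧ p ≡ r [MOD m]) := by
      ext p
      rw [mem_filter, mem_filter, mem_Icc, mem_range]
      constructor
      · rintro ⟨⟨h2, h3⟩, h4⟩; exact ⟨by omega, h4⟩
      · rintro ⟨h2, h4⟩; exact ⟨⟨h4.1.one_lt.le, by omega⟩, h4⟩
    rw [e] at h1
    have h2 := (abs_le.mp h1).1
    unfold S
    linarith
  have h1 := ind m r m.totient C hφ hS z (by omega)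
  have hz3 : (3 : ℝ) ≤ z := by exact_mod_cast hz
  have hl2 : (0 : ℝ) < Real.log 2 := Real.log_pos (by norm_num)
  have hlz : 0 < Real.log (z : ℝ) := Real.log_pos (by linarith)
  have hll : 0 ≤ Real.log (Real.log z) := by
    apply Real.log_nonneg
    have h5 : Real.exp 1 ≤ (z : ℝ) := by
      have h6 := Real.exp_one_lt_d9
      linarith
    have h8 := Real.log_le_log (Real.exp_pos 1) h5
    rwa [Real.log_exp] at h8
  have hll2 : Real.log (Real.log 2) ≤ 0 := by
    apply Real.log_nonpos hl2.le
    have := Real.log_two_lt_d9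
    linarith
  have h2 : 0 ≤ S m r z * (1 / Real.log z) := mul_nonneg (S_nonneg m r z) (by positivity)
  have h3 : Real.log (Real.log z) / m ≤
      (1 / (m.totient : ℝ)) * (Real.log (Real.log z) - Real.log (Real.log 2)) := by
    have h4 : Real.log (Real.log z) / m ≤ Real.log (Real.log z) / m.totient := by
      gcongr
    have h5 : (1 / (m.totient : ℝ)) * (Real.log (Real.log z) - Real.log (Real.log 2)) =
        Real.log (Real.log z) / m.totient + (1 / (m.totient : ℝ)) * (- Real.log (Real.log 2)) := by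
      ring
    have h6 : 0 ≤ (1 / (m.totient : ℝ)) * (- Real.log (Real.log 2)) :=
      mul_nonneg (by positivity) (by linarith)
    linarith
  have h4 : C * (1 / Real.log 2 - 1 / Real.log z) ≤ C / Real.log 2 := by
    have h5 : 0 ≤ C * (1 / Real.log z) := by positivity
    have h6 : C * (1 / Real.log 2 - 1 / Real.log z) = C / Real.log 2 - C * (1 / Real.log z) := by
      ring
    linarith
  have h5 : 5 * (1 / 2 - 1 / (z : ℝ)) ≤ 5 / 2 := by
    have : 0 ≤ 1 / (z : ℝ) := by positivity
    linarith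
  show Real.log (Real.log z) / m - (5 / 2 + C / Real.log 2) ≤ T m r z
  linarith

end Pool.Agent.Quad
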