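import Pool.Agent.Quad.Stmt
import Pool.Agent.NTot.SL

/-!
# Module NBCOUNT: the set `NB k` is very sparse
-/

set_option autoImplicit false

namespace Pool.Agent.Quad

open Pool.Agent.FareyParity Finset
open scoped ENNReal

namespace NBC

variable {a : ℕ} {b c : ℤ} {Q : ℕ} {D : ℤ}

theorem D_dvd (hR : Red a b c Q D) : 8 * D.natAbs ∣ Q := by
  have h := Int.natAbs_dvd_natAbs.mpr hR.D_Q
  rw [Int.natAbs_mul, Int.natAbs_natCast] at h
  exact h

theorem four_D_dvd (hR : Red a b c Q D) : 4 * D.natAbs ∣ Q :=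
  Dvd.dvd.trans ⟨2, by ring⟩ (D_dvd hR)

theorem two_dvd (hR : Red a b c Q D) : 2 ∣ Q :=
  Dvd.dvd.trans ⟨4 * D.natAbs, by ring⟩ (D_dvd hR)

theorem odd_of_coprime (hR : Red a b c Q D) {q : ℕ} (h : Nat.Coprime q Q) : Odd q := by
  rw [← Nat.not_even_iff_odd]
  intro he
  have h2 : 2 ∣ Nat.gcd q Q := Nat.dvd_gcd he.two_dvd (two_dvd hR)
  rw [h] at h2
  omega

theorem jac_congr (hR : Red a b c Q D) {q r : ℕ} (hq : Odd q) (hr : Odd r)
    (h : q ≡ r [MOD Q]) : jacobiSym D q = jacobiSym D r := by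
  rw [jacobiSym.mod_right D hq, jacobiSym.mod_right D hr]
  have h1 : q ≡ r [MOD 4 * D.natAbs] := h.of_dvd (four_D_dvd hR)
  rw [h1]

theorem Phi_congr (a : ℕ) (b c : ℤ) {n x y w : ℤ} (h : x ≡ y [ZMOD n]) :
    Phi a b c (x, w) ≡ Phi a b c (y, w) [ZMOD n] := by
  unfold Phi nf
  exact ((h.pow 2).add ((h.mul_left b).mul_right w)).add (Int.ModEq.refl _)

theorem y_congr (a : ℕ) (b c : ℤ) (Q k j : ℕ) {m M M' : ℕ} (h : M ≡ M' [MOD m])
    (hm : a * k ∣ m) (h1 : 0 < Phi a b c ((M : ℤ), (k : ℤ)))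
    (h2 : 0 < Phi a b c ((M' : ℤ), (k : ℤ))) :
    M + Q * k * j * (Phi a b c ((M : ℤ), (k : ℤ))).toNat ≡
      M' + Q * k * j * (Phi a b c ((M' : ℤ), (k : ℤ))).toNat [MOD a * k] := by
  have h3 : M ≡ M' [MOD a * k] := h.of_dvd hm
  have h4 : (M : ℤ) ≡ (M' : ℤ) [ZMOD ((a * k : ℕ) : ℤ)] := Int.natCast_modEq_iff.mpr h3
  have h5 := Phi_congr a b c (w := (k : ℤ)) h4
  apply Int.natCast_modEq_iff.mp
  push_cast
  rw [Int.toNat_of_nonneg h1.le, Int.toNat_of_nonneg h2.le]
  push_cast at h4 h5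
  exact h4.add (h5.mul_left _)

/-- first alternative -/
def Alt1 (a : ℕ) (b c : ℤ) (Q k z M j : ℕ) : Prop :=
  ∀ q : ℕ, q.Prime → q ≤ z → q ≡ 1 + Q * k * j * M [MOD a * (Q * k ^ 2 * j)] →
      ¬ (q : ℤ) ∣ Phi a b c (((1 + Q * k * j * M : ℕ) : ℤ), ((Q * k ^ 2 * j : ℕ) : ℤ))

/-- second alternative -/
def Alt2 (a : ℕ) (b c : ℤ) (Q k z M j : ℕ) : Prop :=
  ∀ q : ℕ, q.Prime → q ≤ z →
      q ≡ M + Q * k * j * (Phi a b c ((M : ℤ), (k : ℤ))).toNat [MOD a * k] →
      ¬ (q : ℤ) ∣ Phi a b c (((1 + Q * k * j * M : ℕ) : ℤ), ((Q * k ^ 2 * j : ℕ) : ℤ))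

theorem cop1 (hR : Red a b c Q D) (k j M : ℕ) :
    Nat.Coprime (1 + Q * k * j * M) (a * (Q * k ^ 2 * j)) := by
  rw [Nat.coprime_iff_gcd_eq_one]
  by_contra hne
  obtain ⟨p, hp, hpd⟩ := Nat.exists_prime_and_dvd hne
  have h1 := (Nat.dvd_gcd_iff.mp hpd).1
  have h2 := (Nat.dvd_gcd_iff.mp hpd).2
  have h3 : p ∣ Q * k * j * M := by
    rcases (hp.dvd_mul).mp h2 with h | h
    · exact Dvd.dvd.mul_right (Dvd.dvd.mul_right (Dvd.dvd.mul_right (hR.prime_a p hp h) _) _) _
    · rcases (hp.dvd_mul).mp h with h | h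
      · rcases (hp.dvd_mul).mp h with h | h
        · exact Dvd.dvd.mul_right (Dvd.dvd.mul_right (Dvd.dvd.mul_right h _) _) _
        · exact Dvd.dvd.mul_right (Dvd.dvd.mul_right (Dvd.dvd.mul_left (hp.dvd_of_dvd_pow h) _) _) _
      · exact Dvd.dvd.mul_right (Dvd.dvd.mul_left h _) _
  have h4 : p ∣ 1 := (Nat.dvd_add_left h3).mp h1
  exact hp.one_lt.ne' (Nat.dvd_one.mp h4)

theorem cop2 (hR : Red a b c Q D) (k j M w : ℕ) (hk : Nat.Coprime M k) (hQ : Nat.Coprime M Q) :
    Nat.Coprime (M + Q * k * j * w) (a * k) := by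
  rw [Nat.coprime_iff_gcd_eq_one]
  by_contra hne
  obtain ⟨p, hp, hpd⟩ := Nat.exists_prime_and_dvd hne
  have h1 := (Nat.dvd_gcd_iff.mp hpd).1
  have h2 := (Nat.dvd_gcd_iff.mp hpd).2
  rcases (hp.dvd_mul).mp h2 with h | h
  · have h3 := hR.prime_a p hp h
    have h4 : p ∣ Q * k * j * w := Dvd.dvd.mul_right (Dvd.dvd.mul_right (Dvd.dvd.mul_right h3 _) _) _
    have h5 : p ∣ M := (Nat.dvd_add_left h4).mp h1
    have h6 := Nat.dvd_gcd h5 h3
    rw [hQ] at h6
    exact hp.one_lt.ne' (Nat.dvd_one.mp h6)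
  · have h4 : p ∣ Q * k * j * w := Dvd.dvd.mul_right (Dvd.dvd.mul_right (Dvd.dvd.mul_left h _) _) _
    have h5 : p ∣ M := (Nat.dvd_add_left h4).mp h1
    have h6 := Nat.dvd_gcd h5 h
    rw [hk] at h6
    exact hp.one_lt.ne' (Nat.dvd_one.mp h6)

open Classical in
theorem pattern (h2 : P_Roots) (h3 : P_MertLow) (hR : Red a b c Q D) (k L m : ℕ) (hk : 0 < k)
    (hL : 0 < L) (hm : 0 < m) (hdiv : ∀ j ∈ Icc 1 L, a * (Q * k ^ 2 * j) ∣ m)
    (hdiv2 : a * k ∣ m) :
    ∃ C₀ : ℝ, 1 ≤ C₀ ∧ ∃ C₁ : ℝ, ∀ (z X : ℕ), 3 ≤ z → 1 ≤ X →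
      C₀ * Real.log z ≤ Real.log X → ∀ (S : Finset ℕ) (r : ℕ) (σ : Finset ℕ),
      (∀ M ∈ S, M ≤ X ∧ M % m = r ∧ 0 < Phi a b c ((M : ℤ), (k : ℤ)) ∧ Nat.Coprime M k ∧
        Nat.Coprime M Q ∧ jacobiSym D M = 1 ∧
        ∀ j ∈ Icc 1 L, (j ∈ σ → Alt1 a b c Q k z M j) ∧ (j ∉ σ → Alt2 a b c Q k z M j)) →
      (S.card : ℝ) ≤ 1 + 4 * X * Real.exp (C₁ -
        (∑ j ∈ Icc 1 L, 2 / ((a : ℝ) * (Q * k ^ 2 * j))) * Real.log (Real.log z)) := by
  obtain ⟨c₀, hc0, hSL⟩ := NTot.SL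
  obtain ⟨q0, hq0⟩ := h2 a b c Q D hR k L m hk hm
  choose Cm hCm using h3
  have ha := hR.a_pos
  have hQ := hR.Q_pos
  have hL1 : (1 : ℝ) ≤ L := by exact_mod_cast hL
  have hak : 0 < a * k := Nat.mul_pos ha hk
  have hmj : ∀ j ∈ Icc 1 L, 0 < a * (Q * k ^ 2 * j) := by
    intro j hj
    have := (mem_Icc.mp hj).1
    positivity
  refine ⟨c₀ * (2 * L : ℕ), ?_, ∑ j ∈ (Icc 1 L).attach,
    2 * (|Cm (a * (Q * k ^ 2 * j)) (hmj j.1 j.2)| + |Cm (a * k) hak|) + 2 * L * (q0 : ℝ), ?_⟩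
  · push_cast
    nlinarith
  intro z X hz hX hlog S r σ hS
  rcases S.eq_empty_or_nonempty with hSe | ⟨Ms, hMs⟩
  · rw [hSe]
    have : 0 ≤ 4 * (X : ℝ) * Real.exp (∑ j ∈ (Icc 1 L).attach,
      2 * (|Cm (a * (Q * k ^ 2 * j)) (hmj j.1 j.2)| + |Cm (a * k) hak|) + 2 * L * (q0 : ℝ) -
        (∑ j ∈ Icc 1 L, 2 / ((a : ℝ) * (Q * k ^ 2 * j))) * Real.log (Real.log z)) := by positivity
    simp only [Finset.card_empty, Nat.cast_zero]
    linarith
  obtain ⟨hMsX, hMsr, hMsP, hMsk, hMsQ, hMsJ, -⟩ := hS Ms hMs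
  set PP : ℕ → ℕ → Prop := fun j q => (j ∈ σ ∧ q ≡ 1 + Q * k * j * Ms [MOD a * (Q * k ^ 2 * j)]) ∨
    (j ∉ σ ∧ q ≡ Ms + Q * k * j * (Phi a b c ((Ms : ℤ), (k : ℤ))).toNat [MOD a * k]) with hPP
  set A : ℕ → Finset ℕ := fun q => (Icc 1 L).filter (fun j => PP j q) with hA
  set Ω : ℕ → Finset ℕ := fun q => if q0 ≤ q then RS a b c Q k r m q (A q) else ∅ with hΩ
  have hQdvd : ∀ j, Q ∣ a * (Q * k ^ 2 * j) := fun j =>
    Dvd.dvd.mul_left (Dvd.dvd.mul_right (Dvd.dvd.mul_right dvd_rfl _) _) _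
  have hQak : Q ∣ a * k := Dvd.dvd.mul_right hR.Q_a _
  have hJ : ∀ q j, q.Prime → PP j q → jacobiSym D q = 1 := by
    intro q j hq hP
    rcases hP with ⟨-, h⟩ | ⟨-, h⟩
    · have h4 : q ≡ 1 [MOD Q] := by
        have h5 : q ≡ 1 + Q * k * j * Ms [MOD Q] := h.of_dvd (hQdvd j)
        refine h5.trans ?_
        have h6 : 1 + Q * k * j * Ms ≡ 1 + 0 [MOD Q] := by
          apply Nat.ModEq.add_left
          rw [Nat.modEq_zero_iff_dvd]
          exact Dvd.dvd.mul_right (Dvd.dvd.mul_right (Dvd.dvd.mul_right dvd_rfl _) _) _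
        exact h6
      have h7 : Nat.Coprime q Q := by
        have : Nat.gcd q Q = Nat.gcd 1 Q := h4.gcd_eq
        rw [Nat.coprime_iff_gcd_eq_one, this, Nat.gcd_one_left]
      rw [jac_congr hR (odd_of_coprime hR h7) odd_one h4, jacobiSym.one_right]
    · have h4 : q ≡ Ms [MOD Q] := by
        refine (h.of_dvd hQak).trans ?_
        have h6 : Ms + Q * k * j * (Phi a b c ((Ms : ℤ), (k : ℤ))).toNat ≡ Ms + 0 [MOD Q] := by
          apply Nat.ModEq.add_left
          rw [Nat.modEq_zero_iff_dvd]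
          exact Dvd.dvd.mul_right (Dvd.dvd.mul_right (Dvd.dvd.mul_right dvd_rfl _) _) _
        exact h6
      have h7 : Nat.Coprime q Q := by
        have : Nat.gcd q Q = Nat.gcd Ms Q := h4.gcd_eq
        rw [Nat.coprime_iff_gcd_eq_one, this]
        exact hMsQ
      rw [jac_congr hR (odd_of_coprime hR h7) (odd_of_coprime hR hMsQ) h4, hMsJ]
  have hAsub : ∀ q, A q ⊆ Icc 1 L := fun q => filter_subset _ _
  have hAcard : ∀ q, (A q).card ≤ L := by
    intro q
    have := Finset.card_le_card (hAsub q)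
    rwa [Nat.card_Icc, Nat.add_sub_cancel] at this
  have hRS : ∀ q, q.Prime → q0 ≤ q → (RS a b c Q k r m q (A q)).card = 2 * (A q).card := by
    intro q hq hqq
    rcases (A q).eq_empty_or_nonempty with he | ⟨j, hj⟩
    · rw [he]
      unfold RS
      simp
    · exact hq0 q hq hqq (hJ q j hq (mem_filter.mp hj).2) r _ (hAsub q)
  have hΩsub : ∀ q, Ω q ⊆ range q := by
    intro q
    simp only [hΩ]
    split_ifs
    · exact filter_subset _ _
    · simp
  have hΩcard : ∀ q, q.Prime → (Ω q).card = if q0 ≤ q then 2 * (A q).card else 0 := by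
    intro q hq
    simp only [hΩ]
    split_ifs with h
    · exact hRS q hq h
    · simp
  -- the sieve
  have hsieve := hSL (2 * L) X 0 z Ω (by omega) (by omega) hX hlog (by
    intro l hl
    refine ⟨hΩsub l, ?_⟩
    rw [hΩcard l (NTot.mem_PZ.mp hl).1]
    have := hAcard l
    split_ifs <;> omega)
  set F := (Ioc 0 (0 + X)).filter (fun n => ∀ l ∈ NTot.PZ z, n % l ∉ Ω l) with hF
  have hmap : ∀ M ∈ S, M / m ∈ insert 0 F := by
    intro M hM
    obtain ⟨hMX, hMr, hMP, hMk, hMQ, hMJ, hMalt⟩ := hS M hM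
    rw [mem_insert]
    rcases Nat.eq_zero_or_pos (M / m) with h0 | h0
    · exact Or.inl h0
    right
    rw [hF, mem_filter, mem_Ioc]
    refine ⟨⟨h0, by have := Nat.div_le_self M m; omega⟩, ?_⟩
    intro l hl hmem
    obtain ⟨hlp, hlz⟩ := NTot.mem_PZ.mp hl
    simp only [hΩ] at hmem
    split_ifs at hmem with hql
    · unfold RS at hmem
      obtain ⟨-, j, hj, hdvd⟩ := mem_filter.mp hmem
      have hjI := hAsub l hj
      have hMM : M ≡ Ms [MOD m] := by
        unfold Nat.ModEq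
        rw [hMr, hMsr]
      have e0 : r + m * (M / m) = M := by
        rw [← hMr]; exact Nat.mod_add_div M m
      have e1 : ((1 + Q * k * j * (r + m * (M / m % l)) : ℕ) : ℤ) ≡
          ((1 + Q * k * j * M : ℕ) : ℤ) [ZMOD (l : ℤ)] := by
        apply Int.natCast_modEq_iff.mpr
        apply Nat.ModEq.add_left
        apply Nat.ModEq.mul_left
        conv_rhs => rw [← e0]
        apply Nat.ModEq.add_left
        apply Nat.ModEq.mul_left
        exact Nat.mod_modEq _ _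
      have e2 := Phi_congr a b c (w := ((Q * k ^ 2 * j : ℕ) : ℤ)) e1
      have e3 : (l : ℤ) ∣ Phi a b c (((1 + Q * k * j * M : ℕ) : ℤ), ((Q * k ^ 2 * j : ℕ) : ℤ)) :=
        (Int.ModEq.dvd_iff e2).mp hdvd
      rcases (mem_filter.mp hj).2 with ⟨hs, hcong⟩ | ⟨hs, hcong⟩
      · refine (hMalt j hjI).1 hs l hlp hlz (hcong.trans ?_) e3
        apply Nat.ModEq.add_left
        apply Nat.ModEq.mul_left
        exact (hMM.of_dvd (hdiv j hjI)).symm
      · exact (hMalt j hjI).2 hs l hlp hlz (hcong.trans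
          (y_congr a b c Q k j hMM hdiv2 hMP hMsP).symm) e3
    · simp at hmem
  have hcard : (S.card : ℝ) ≤ 1 + F.card := by
    have h5 : S.card ≤ (insert 0 F).card := by
      apply Finset.card_le_card_of_injOn (fun M => M / m) hmap
      intro M hM M' hM' h
      have h6 := (hS M hM).2.1
      have h7 := (hS M' hM').2.1
      have h8 : M / m = M' / m := h
      rw [← Nat.div_add_mod M m, ← Nat.div_add_mod M' m, h6, h7, h8]
    have h6 := Finset.card_insert_le 0 F
    have h7 : S.card ≤ 1 + F.card := by omega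
    exact_mod_cast h7
  have hFle : (F.card : ℝ) ≤ 4 * X * ∏ l ∈ NTot.PZ z, (1 - ((Ω l).card : ℝ) / l) := hsieve
  have hprod : ∏ l ∈ NTot.PZ z, (1 - ((Ω l).card : ℝ) / l) ≤
      Real.exp (-∑ l ∈ NTot.PZ z, ((Ω l).card : ℝ) / l) := by
    rw [← Finset.sum_neg_distrib, Real.exp_sum]
    apply Finset.prod_le_prod
    · intro l hl
      have hlp := (NTot.mem_PZ.mp hl).1
      have hl0 : (0 : ℝ) < l := by exact_mod_cast hlp.pos
      have h5 : (Ω l).card ≤ l := by
        have := Finset.card_le_card (hΩsub l)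
        rwa [card_range] at this
      have h6 : ((Ω l).card : ℝ) / l ≤ 1 := by
        rw [div_le_one hl0]
        exact_mod_cast h5
      linarith
    · intro l hl
      have := Real.add_one_le_exp (-(((Ω l).card : ℝ) / l))
      linarith
  have hloglog : 0 ≤ Real.log (Real.log z) := by
    apply Real.log_nonneg
    have h5 : Real.exp 1 ≤ (z : ℝ) := by
      have h6 := Real.exp_one_lt_d9
      have h7 : (3 : ℝ) ≤ z := by exact_mod_cast hz
      linarith
    have h8 := Real.log_le_log (Real.exp_pos 1) h5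
    rwa [Real.log_exp] at h8
  have hj : ∀ j (hj : j ∈ Icc 1 L), 1 / ((a : ℝ) * (Q * k ^ 2 * j)) * Real.log (Real.log z) -
      (|Cm (a * (Q * k ^ 2 * j)) (hmj j hj)| + |Cm (a * k) hak|) ≤
      ∑ l ∈ (NTot.PZ z).filter (fun l => PP j l), (1 : ℝ) / l := by
    intro j hj
    have hj1 := (mem_Icc.mp hj).1
    by_cases hs : j ∈ σ
    · have h5 := hCm (a * (Q * k ^ 2 * j)) (hmj j hj) (1 + Q * k * j * Ms) (cop1 hR k j Ms) z hz
      have h6 : (NTot.PZ z).filter (fun l => PP j l) =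
          (range (z + 1)).filter (fun p => p.Prime ∧ p ≡ 1 + Q * k * j * Ms
            [MOD a * (Q * k ^ 2 * j)]) := by
        ext l
        rw [mem_filter, mem_filter, NTot.mem_PZ, mem_range]
        simp only [hPP, hs, true_and, not_true_eq_false, false_and, or_false]
        constructor
        · rintro ⟨⟨h7, h8⟩, h9⟩; exact ⟨by omega, h7, h9⟩
        · rintro ⟨h7, h8, h9⟩; exact ⟨⟨h8, by omega⟩, h9⟩
      rw [h6]
      refine le_trans ?_ h5
      have h7 := le_abs_self (Cm (a * (Q * k ^ 2 * j)) (hmj j hj))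
      have h8 := abs_nonneg (Cm (a * k) hak)
      have h9 : Real.log (Real.log z) / ((a * (Q * k ^ 2 * j) : ℕ) : ℝ) =
          1 / ((a : ℝ) * (Q * k ^ 2 * j)) * Real.log (Real.log z) := by
        push_cast
        ring
      rw [h9]
      linarith
    · have h5 := hCm (a * k) hak (Ms + Q * k * j * (Phi a b c ((Ms : ℤ), (k : ℤ))).toNat)
        (cop2 hR k j Ms _ hMsk hMsQ) z hz
      have h6 : (NTot.PZ z).filter (fun l => PP j l) =
          (range (z + 1)).filter (fun p => p.Prime ∧ p ≡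
            Ms + Q * k * j * (Phi a b c ((Ms : ℤ), (k : ℤ))).toNat [MOD a * k]) := by
        ext l
        rw [mem_filter, mem_filter, NTot.mem_PZ, mem_range]
        simp only [hPP, hs, false_and, false_or, not_false_eq_true, true_and]
        constructor
        · rintro ⟨⟨h7, h8⟩, h9⟩; exact ⟨by omega, h7, h9⟩
        · rintro ⟨h7, h8, h9⟩; exact ⟨⟨h8, by omega⟩, h9⟩
      rw [h6]
      refine le_trans ?_ h5
      have h7 := le_abs_self (Cm (a * k) hak)
      have h8 := abs_nonneg (Cm (a * (Q * k ^ 2 * j)) (hmj j hj))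
      have h9 : 1 / ((a : ℝ) * (Q * k ^ 2 * j)) * Real.log (Real.log z) ≤
          Real.log (Real.log z) / ((a * k : ℕ) : ℝ) := by
        have h10 : (0 : ℝ) < ((a * k : ℕ) : ℝ) := by exact_mod_cast hak
        have h11 : a * k ≤ a * (Q * k ^ 2 * j) := by
          apply Nat.mul_le_mul_left
          calc k = 1 * k * 1 := by ring
            _ ≤ Q * k ^ 2 * j := by
              apply Nat.mul_le_mul (Nat.mul_le_mul hQ _) hj1
              calc k = k ^ 1 := (pow_one k).symm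
                _ ≤ k ^ 2 := Nat.pow_le_pow_right hk (by norm_num)
        have h12 : ((a * k : ℕ) : ℝ) ≤ (a : ℝ) * (Q * k ^ 2 * j) := by exact_mod_cast h11
        calc 1 / ((a : ℝ) * (Q * k ^ 2 * j)) * Real.log (Real.log z) ≤
              1 / ((a * k : ℕ) : ℝ) * Real.log (Real.log z) :=
              mul_le_mul_of_nonneg_right (one_div_le_one_div_of_le h10 h12) hloglog
          _ = _ := by ring
      linarith
  have hsum : (∑ j ∈ Icc 1 L, 2 / ((a : ℝ) * (Q * k ^ 2 * j))) * Real.log (Real.log z) -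
      (∑ j ∈ (Icc 1 L).attach, 2 * (|Cm (a * (Q * k ^ 2 * j)) (hmj j.1 j.2)| + |Cm (a * k) hak|) +
        2 * L * (q0 : ℝ)) ≤ ∑ l ∈ NTot.PZ z, ((Ω l).card : ℝ) / l := by
    have s1 : ∑ l ∈ NTot.PZ z, (2 * ((A l).card : ℝ)) / l =
        ∑ j ∈ Icc 1 L, 2 * ∑ l ∈ (NTot.PZ z).filter (fun l => PP j l), (1 : ℝ) / l := by
      have s2 : ∀ l ∈ NTot.PZ z, (2 * ((A l).card : ℝ)) / l =
          ∑ j ∈ Icc 1 L, if PP j l then 2 * ((1 : ℝ) / l) else 0 := by
        intro l _
        rw [← Finset.sum_filter, Finset.sum_const, nsmul_eq_mul]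
        simp only [hA]
        ring
      rw [Finset.sum_congr rfl s2, Finset.sum_comm]
      apply Finset.sum_congr rfl
      intro j _
      rw [Finset.mul_sum, Finset.sum_filter]
    have s3 : ∑ l ∈ NTot.PZ z, (2 * ((A l).card : ℝ)) / l - 2 * L * (q0 : ℝ) ≤
        ∑ l ∈ NTot.PZ z, ((Ω l).card : ℝ) / l := by
      have s4 : ∑ l ∈ NTot.PZ z, ((2 * ((A l).card : ℝ)) / l - ((Ω l).card : ℝ) / l) ≤
          2 * L * (q0 : ℝ) := by
        calc ∑ l ∈ NTot.PZ z, ((2 * ((A l).card : ℝ)) / l - ((Ω l).card : ℝ) / l)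
            ≤ ∑ l ∈ NTot.PZ z, if l < q0 then (2 * L : ℝ) else 0 := by
              apply Finset.sum_le_sum
              intro l hl
              have hlp := (NTot.mem_PZ.mp hl).1
              have hl1 : (1 : ℝ) ≤ l := by exact_mod_cast hlp.one_lt.le
              rw [hΩcard l hlp]
              by_cases h : q0 ≤ l
              · rw [if_pos h, if_neg (by omega)]
                push_cast
                linarith
              · rw [if_neg h, if_pos (by omega)]
                simp only [Nat.cast_zero, zero_div, sub_zero]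
                have h5 : ((A l).card : ℝ) ≤ L := by exact_mod_cast hAcard l
                calc (2 * ((A l).card : ℝ)) / l ≤ 2 * ((A l).card : ℝ) :=
                      div_le_self (by positivity) hl1
                  _ ≤ 2 * L := by linarith
          _ = ((NTot.PZ z).filter (fun l => l < q0)).card * (2 * L : ℝ) := by
              rw [← Finset.sum_filter, Finset.sum_const, nsmul_eq_mul]
          _ ≤ (q0 : ℝ) * (2 * L : ℝ) := by
              gcongr
              have : ((NTot.PZ z).filter (fun l => l < q0)) ⊆ range q0 := by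
                intro l hl
                exact mem_range.mpr (mem_filter.mp hl).2
              have := Finset.card_le_card this
              rwa [card_range] at this
          _ = 2 * L * (q0 : ℝ) := by ring
      rw [Finset.sum_sub_distrib] at s4
      linarith
    have s5 : (∑ j ∈ Icc 1 L, 2 / ((a : ℝ) * (Q * k ^ 2 * j))) * Real.log (Real.log z) -
      ∑ j ∈ (Icc 1 L).attach, 2 * (|Cm (a * (Q * k ^ 2 * j)) (hmj j.1 j.2)| + |Cm (a * k) hak|) ≤
        ∑ j ∈ Icc 1 L, 2 * ∑ l ∈ (NTot.PZ z).filter (fun l => PP j l), (1 : ℝ) / l := by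
      rw [← Finset.sum_attach (Icc 1 L) (fun j => 2 / ((a : ℝ) * (Q * k ^ 2 * j))),
        ← Finset.sum_attach (Icc 1 L)
          (fun j => 2 * ∑ l ∈ (NTot.PZ z).filter (fun l => PP j l), (1 : ℝ) / l),
        Finset.sum_mul, ← Finset.sum_sub_distrib]
      apply Finset.sum_le_sum
      intro j _
      have := hj j.1 j.2
      have e : 2 / ((a : ℝ) * (Q * k ^ 2 * (j : ℕ))) * Real.log (Real.log z) =
          2 * (1 / ((a : ℝ) * (Q * k ^ 2 * (j : ℕ))) * Real.log (Real.log z)) := by ring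
      rw [e]
      linarith
    rw [s1] at s3
    linarith
  refine hcard.trans ?_
  have hX0 : (0 : ℝ) ≤ 4 * X := by positivity
  have hfin : (F.card : ℝ) ≤ 4 * X * Real.exp (∑ j ∈ (Icc 1 L).attach,
      2 * (|Cm (a * (Q * k ^ 2 * j)) (hmj j.1 j.2)| + |Cm (a * k) hak|) + 2 * L * (q0 : ℝ) -
        (∑ j ∈ Icc 1 L, 2 / ((a : ℝ) * (Q * k ^ 2 * j))) * Real.log (Real.log z)) := by
    refine hFle.trans (mul_le_mul_of_nonneg_left (hprod.trans ?_) hX0)
    apply Real.exp_le_exp.mpr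
    linarith
  linarith

/-- choice of `L` -/
theorem exists_L (w : ℝ) (hw : 0 < w) (A : ℕ) : ∃ L : ℕ, 0 < L ∧
    (A : ℝ) ≤ ∑ j ∈ Icc 1 L, 2 / (w * j) := by
  have h := Real.tendsto_sum_range_one_div_nat_succ_atTop
  obtain ⟨L, hL1, hL2⟩ := ((h.eventually_ge_atTop (A * w / 2)).and
    (Filter.eventually_ge_atTop 1)).exists
  refine ⟨L, hL2, ?_⟩
  have e : ∀ n : ℕ, ∑ j ∈ Icc 1 n, 2 / (w * (j : ℝ)) =
      2 / w * ∑ i ∈ range n, (1 / ((i : ℝ) + 1)) := by
    intro n
    induction n with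
    | zero => simp
    | succ n ih =>
      rw [Finset.sum_Icc_succ_top (by omega), Finset.sum_range_succ, ih, mul_add]
      congr 1
      push_cast
      field_simp
  rw [e]
  calc (A : ℝ) = 2 / w * (A * w / 2) := by field_simp
    _ ≤ _ := by gcongr

theorem Phi_pos (a : ℕ) (b c : ℤ) (k M : ℕ)
    (hM : b.natAbs * k + (a * c).natAbs * k ^ 2 + 1 ≤ M) : 0 < Phi a b c ((M : ℤ), (k : ℤ)) := by
  unfold Phi nf
  show 0 < (M : ℤ) ^ 2 + b * M * k + (a * c) * k ^ 2
  have h1 : -(b.natAbs : ℤ) ≤ b := by omega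
  have h2 : -((a * c).natAbs : ℤ) ≤ (a : ℤ) * c := by omega
  set B : ℤ := (b.natAbs : ℤ) with hB
  set E : ℤ := ((a * c).natAbs : ℤ) with hE
  have hB0 : 0 ≤ B := by omega
  have hE0 : 0 ≤ E := by omega
  have hk0 : (0 : ℤ) ≤ k := by omega
  have hM' : B * k + E * k ^ 2 + 1 ≤ (M : ℤ) := by
    have : ((b.natAbs * k + (a * c).natAbs * k ^ 2 + 1 : ℕ) : ℤ) ≤ M := by exact_mod_cast hM
    push_cast at this
    simpa [hB, hE] using this
  have hM0 : (0 : ℤ) ≤ M := by omega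
  have h3 : -B * (M * k) ≤ b * (M * k) := by
    apply mul_le_mul_of_nonneg_right h1; positivity
  have h4 : -E * k ^ 2 ≤ (a * c) * k ^ 2 := by
    apply mul_le_mul_of_nonneg_right h2; positivity
  have h5 : 0 ≤ E * (k : ℤ) ^ 2 := by positivity
  have h6 : 0 ≤ B * (k : ℤ) := by positivity
  have h7 : (M : ℤ) ^ 2 = M * M := by ring
  have h8 : (B * k + E * k ^ 2 + 1) * (M : ℤ) ≤ M * M := mul_le_mul_of_nonneg_right hM' hM0
  have h9 : E * (k : ℤ) ^ 2 * 1 ≤ E * k ^ 2 * M := by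
    apply mul_le_mul_of_nonneg_left _ h5
    nlinarith
  nlinarith

theorem log_pow_le (A : ℕ) {x : ℝ} (hx : 1 ≤ x) :
    (Real.log x) ^ A ≤ (100 * (A + 1 : ℝ)) ^ A * x ^ (1 / 100 : ℝ) := by
  have h0 : (0 : ℝ) < x := by linarith
  have h1 : 0 ≤ Real.log x := Real.log_nonneg hx
  have hs : (0 : ℝ) < 1 / (100 * (A + 1)) := by positivity
  have h2 := Real.log_le_rpow_div h0.le hs
  have h3 : x ^ (1 / (100 * (A + 1 : ℝ))) / (1 / (100 * (A + 1))) =
      (100 * (A + 1)) * x ^ (1 / (100 * (A + 1 : ℝ))) := by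
    rw [div_div_eq_mul_div, div_one, mul_comm]
  rw [h3] at h2
  calc (Real.log x) ^ A ≤ ((100 * (A + 1 : ℝ)) * x ^ (1 / (100 * (A + 1 : ℝ)))) ^ A := by
        gcongr
    _ = (100 * (A + 1 : ℝ)) ^ A * (x ^ (1 / (100 * (A + 1 : ℝ)))) ^ A := mul_pow _ _ _
    _ ≤ (100 * (A + 1 : ℝ)) ^ A * x ^ (1 / 100 : ℝ) := by
        gcongr
        rw [← Real.rpow_mul_natCast h0.le]
        apply Real.rpow_le_rpow_of_exponent_le hx
        rw [div_mul_eq_mul_div, one_mul, div_le_div_iff₀ (by positivity) (by norm_num)]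
        nlinarith

end NBC

open NBC in
open Classical in
theorem nbcount_main (h1 : P_Exc) (h2 : P_Roots) (h3 : P_MertLow) : P_NBcount := by
  intro s a b c Q D e U hR hH k hk A
  have ha := hR.a_pos
  have hQ := hR.Q_pos
  have hw : (0 : ℝ) < (a : ℝ) * (Q * k ^ 2) := by
    have : (0 : ℝ) < a := by exact_mod_cast ha
    have : (0 : ℝ) < Q := by exact_mod_cast hQ
    have : (0 : ℝ) < k := by exact_mod_cast hk
    positivity
  obtain ⟨L, hL, hLA⟩ := exists_L _ hw A
  have hLA' : (A : ℝ) ≤ ∑ j ∈ Icc 1 L, 2 / ((a : ℝ) * (Q * k ^ 2 * j)) := by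
    refine hLA.trans (le_of_eq (Finset.sum_congr rfl fun j _ => ?_))
    rw [mul_assoc (a : ℝ)]
  set m := a * (Q * k ^ 2 * L.factorial) with hm
  have hm0 : 0 < m := by
    have := Nat.factorial_pos L
    positivity
  have hdiv : ∀ j ∈ Icc 1 L, a * (Q * k ^ 2 * j) ∣ m := by
    intro j hj
    apply Nat.mul_dvd_mul_left
    apply Nat.mul_dvd_mul_left
    exact Nat.dvd_factorial (mem_Icc.mp hj).1 (mem_Icc.mp hj).2
  have hdiv2 : a * k ∣ m := ⟨Q * k * L.factorial, by rw [hm]; ring⟩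
  obtain ⟨C₀, hC₀, C₁, hpat⟩ := pattern h2 h3 hR k L m hk hL hm0 hdiv hdiv2
  obtain ⟨X0, hexc⟩ := h1 s a b c Q D e U hR hH k L hk
  set M0 := b.natAbs * k + (a * c).natAbs * k ^ 2 + 1 with hM0
  set ε : ℝ := 1 / (100 * C₀) with hε
  have hC₀0 : 0 < C₀ := by linarith
  have hε0 : 0 < ε := by positivity
  have hε1 : ε ≤ 1 / 100 := by
    rw [hε]
    apply one_div_le_one_div_of_le (by norm_num)
    linarith
  obtain ⟨X1, hX1⟩ : ∃ X1 : ℕ, ∀ X : ℕ, X1 ≤ X → (4 : ℝ) ≤ (X : ℝ) ^ ε := by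
    have h := (tendsto_rpow_atTop hε0).comp (tendsto_natCast_atTop_atTop (R := ℝ))
    obtain ⟨X1, hX1⟩ := Filter.eventually_atTop.mp (h.eventually_ge_atTop 4)
    exact ⟨X1, fun X hX => hX1 X hX⟩
  set X2 := max (max X0 X1) 2 with hX2
  set K : ℝ := (100 * (A + 1 : ℝ)) ^ A with hK
  have hK0 : 0 < K := by positivity
  have hlogX2 : 0 ≤ Real.log (X2 : ℝ) := Real.log_natCast_nonneg _
  refine ⟨K + M0 * K + (m * 2 ^ L : ℕ) * (K + 4 * (Real.exp C₁ * (2 / ε) ^ A)) +
    2 * (Real.log X2) ^ A, ?_⟩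
  intro X hX
  have hX2r : (2 : ℝ) ≤ X := by exact_mod_cast hX
  have hX0r : (0 : ℝ) < X := by linarith
  have hlogX : 0 < Real.log X := Real.log_pos (by linarith)
  have hlogXA : 0 < (Real.log X) ^ A := by positivity
  have hW0 : 0 ≤ (X : ℝ) / (Real.log X) ^ A := by positivity
  have hcst : 0 ≤ K + M0 * K + (m * 2 ^ L : ℕ) * (K + 4 * (Real.exp C₁ * (2 / ε) ^ A)) := by
    positivity
  by_cases hlt : X < X2
  · -- small `X`
    have h4 : (cnt (NB s a b c Q D k) X : ℝ) ≤ X + 1 := by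
      unfold cnt
      have := Finset.card_filter_le (range (X + 1)) (fun n => n ∈ NB s a b c Q D k)
      rw [card_range] at this
      exact_mod_cast this
    have h5 : (Real.log X) ^ A ≤ (Real.log X2) ^ A := by
      gcongr
    rw [mul_div_assoc]
    calc (cnt (NB s a b c Q D k) X : ℝ) ≤ X + 1 := h4
      _ ≤ 2 * X := by linarith
      _ = 2 * (Real.log X) ^ A * (X / (Real.log X) ^ A) := by field_simp
      _ ≤ 2 * (Real.log X2) ^ A * (X / (Real.log X) ^ A) := by gcongr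
      _ ≤ _ := by
        apply mul_le_mul_of_nonneg_right _ hW0
        linarith
  have hXX0 : X0 ≤ X := by omega
  have hXX1 : X1 ≤ X := by omega
  have h4 := hX1 X hXX1
  have hX1r : (1 : ℝ) ≤ X := by linarith
  set z := ⌊(X : ℝ) ^ ε⌋₊ with hz
  have hz3 : 3 ≤ z := by
    rw [hz]
    apply Nat.le_floor
    push_cast
    linarith
  have hzle : (z : ℝ) ≤ (X : ℝ) ^ ε := Nat.floor_le (by positivity)
  have hz0 : (0 : ℝ) < z := by
    have : 0 < z := by omega
    exact_mod_cast this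
  have hzge : (X : ℝ) ^ (ε / 2) ≤ z := by
    have h5 := Nat.lt_floor_add_one ((X : ℝ) ^ ε)
    rw [← hz] at h5
    have h6 : (X : ℝ) ^ ε = (X : ℝ) ^ (ε / 2) * (X : ℝ) ^ (ε / 2) := by
      rw [← Real.rpow_add hX0r]; congr 1; ring
    have h7 : (2 : ℝ) ≤ (X : ℝ) ^ (ε / 2) := by
      by_contra h8
      push Not at h8
      have h9 : 0 ≤ (X : ℝ) ^ (ε / 2) := by positivity
      nlinarith
    nlinarith
  have hlogz : ε / 2 * Real.log X ≤ Real.log z := by
    have h5 := Real.log_le_log (by positivity) hzge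
    rwa [Real.log_rpow hX0r] at h5
  have hlogz2 : Real.log z ≤ ε * Real.log X := by
    have h5 := Real.log_le_log hz0 hzle
    rwa [Real.log_rpow hX0r] at h5
  have hlogz0 : 0 < Real.log z := lt_of_lt_of_le (by positivity) hlogz
  have hloglog : 0 ≤ Real.log (Real.log z) := by
    apply Real.log_nonneg
    have h5 : Real.exp 1 ≤ (z : ℝ) := by
      have h6 := Real.exp_one_lt_d9
      have h7 : (3 : ℝ) ≤ z := by exact_mod_cast hz3
      linarith
    have h8 := Real.log_le_log (Real.exp_pos 1) h5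
    rwa [Real.log_exp] at h8
  have hzX : (z : ℝ) ≤ (X : ℝ) ^ (1 / 100 : ℝ) :=
    hzle.trans (Real.rpow_le_rpow_of_exponent_le hX1r hε1)
  have hC0log : C₀ * Real.log z ≤ Real.log X := by
    calc C₀ * Real.log z ≤ C₀ * (ε * Real.log X) := by gcongr
      _ = Real.log X / 100 := by rw [hε]; field_simp
      _ ≤ Real.log X := by linarith
  have hE := hexc X hXX0 z hzX
  set G := (range (X + 1)).filter (fun M => M ∈ NB s a b c Q D k ∧ Cond a b c Q k L z M ∧ M0 ≤ M)
    with hG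
  have hcount : (cnt (NB s a b c Q D k) X : ℝ) ≤
      (cnt {M | M ∈ NB s a b c Q D k ∧ ¬ Cond a b c Q k L z M} X : ℝ) + M0 + G.card := by
    have h5 : (range (X + 1)).filter (fun n => n ∈ NB s a b c Q D k) ⊆
        ((range (X + 1)).filter (fun n => n ∈ {M | M ∈ NB s a b c Q D k ∧
          ¬ Cond a b c Q k L z M}) ∪ range M0) ∪ G := by
      intro M hM
      simp only [mem_filter, mem_range] at hM
      simp only [mem_union, mem_filter, mem_range, hG]
      by_cases h6 : Cond a b c Q k L z M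
      · by_cases h7 : M < M0
        · exact Or.inl (Or.inr h7)
        · exact Or.inr ⟨hM.1, hM.2, h6, by omega⟩
      · exact Or.inl (Or.inl ⟨hM.1, hM.2, h6⟩)
    have h6 := (Finset.card_le_card h5).trans ((Finset.card_union_le _ _).trans
      (Nat.add_le_add_right (Finset.card_union_le _ _) _))
    rw [card_range] at h6
    have h8 : cnt (NB s a b c Q D k) X ≤
        cnt {M | M ∈ NB s a b c Q D k ∧ ¬ Cond a b c Q k L z M} X + M0 + G.card := by
      unfold cnt
      refine (le_of_eq ?_).trans (h6.trans (le_of_eq ?_))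
      · congr
      · congr
    exact_mod_cast h8
  set Bd : ℝ := 1 + 4 * X * Real.exp (C₁ -
        (∑ j ∈ Icc 1 L, 2 / ((a : ℝ) * (Q * k ^ 2 * j))) * Real.log (Real.log z)) with hBd
  have hGle : (G.card : ℝ) ≤ (m * 2 ^ L : ℕ) * Bd := by
    set f : ℕ → ℕ × Finset ℕ := fun M => (M % m, (Icc 1 L).filter (fun j => Alt1 a b c Q k z M j))
      with hf
    have hmaps : ∀ M ∈ G, f M ∈ range m ×ˢ (Icc 1 L).powerset := by
      intro M _
      rw [mem_product, mem_range, mem_powerset]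
      exact ⟨Nat.mod_lt _ hm0, filter_subset _ _⟩
    rw [Finset.card_eq_sum_card_fiberwise hmaps]
    push_cast
    calc ∑ x ∈ range m ×ˢ (Icc 1 L).powerset, ((G.filter (fun M => f M = x)).card : ℝ)
        ≤ ∑ x ∈ range m ×ˢ (Icc 1 L).powerset, Bd := by
          apply Finset.sum_le_sum
          rintro ⟨r, σ⟩ _
          apply hpat z X hz3 (by omega) hC0log _ r σ
          intro M hM
          rw [mem_filter, hG, mem_filter, mem_range] at hM
          obtain ⟨⟨hMX, ⟨hMpos, hMk, hMQ, hMJ, -⟩, hMC, hMM0⟩, hMf⟩ := hM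
          have hMf1 : M % m = r := congrArg Prod.fst hMf
          have hMf2 : (Icc 1 L).filter (fun j => Alt1 a b c Q k z M j) = σ :=
            congrArg Prod.snd hMf
          refine ⟨by omega, hMf1, Phi_pos a b c k M hMM0, hMk, hMQ, hMJ, ?_⟩
          intro j hj
          rw [← hMf2]
          refine ⟨fun h => (mem_filter.mp h).2, fun h => ?_⟩
          rw [mem_filter] at h
          have h5 : ¬ Alt1 a b c Q k z M j := fun h6 => h ⟨hj, h6⟩
          exact (hMC j hj).resolve_left h5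
      _ = (m : ℝ) * 2 ^ L * Bd := by
          rw [Finset.sum_const, Finset.card_product, card_range, card_powerset, Nat.card_Icc,
            Nat.add_sub_cancel, nsmul_eq_mul]
          push_cast
          ring
  have hBdle : Bd ≤ 1 + 4 * (Real.exp C₁ * (2 / ε) ^ A) * (X / (Real.log X) ^ A) := by
    have h5 : Real.exp (C₁ - (∑ j ∈ Icc 1 L, 2 / ((a : ℝ) * (Q * k ^ 2 * j))) *
        Real.log (Real.log z)) ≤ Real.exp C₁ * (2 / ε) ^ A / (Real.log X) ^ A := by
      calc Real.exp (C₁ - (∑ j ∈ Icc 1 L, 2 / ((a : ℝ) * (Q * k ^ 2 * j))) *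
          Real.log (Real.log z)) ≤ Real.exp (C₁ - A * Real.log (Real.log z)) := by
            apply Real.exp_le_exp.mpr
            have := mul_le_mul_of_nonneg_right hLA' hloglog
            linarith
        _ = Real.exp C₁ / (Real.log z) ^ A := by
            rw [Real.exp_sub, Real.exp_nat_mul, Real.exp_log hlogz0]
        _ ≤ Real.exp C₁ / (ε / 2 * Real.log X) ^ A := by
            gcongr
        _ = Real.exp C₁ * (2 / ε) ^ A / (Real.log X) ^ A := by
            have e1 : (ε / 2) ^ A * (2 / ε) ^ A = 1 := by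
              rw [← mul_pow]
              have : ε / 2 * (2 / ε) = 1 := by
                rw [div_mul_div_comm, mul_comm ε 2, div_self (by positivity)]
              rw [this, one_pow]
            have e2 : (ε / 2) ^ A ≠ 0 := by positivity
            rw [mul_pow, div_eq_div_iff (by positivity) (by positivity)]
            calc Real.exp C₁ * (Real.log X) ^ A =
                Real.exp C₁ * (Real.log X) ^ A * ((ε / 2) ^ A * (2 / ε) ^ A) := by
                  rw [e1, mul_one]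
              _ = _ := by ring
    rw [hBd]
    calc 1 + 4 * X * Real.exp (C₁ - (∑ j ∈ Icc 1 L, 2 / ((a : ℝ) * (Q * k ^ 2 * j))) *
          Real.log (Real.log z)) ≤
        1 + 4 * X * (Real.exp C₁ * (2 / ε) ^ A / (Real.log X) ^ A) := by gcongr
      _ = _ := by ring
  have h99 : (X : ℝ) ^ (99 / 100 : ℝ) ≤ K * (X / (Real.log X) ^ A) := by
    rw [← mul_div_assoc, le_div_iff₀ hlogXA]
    have h5 := log_pow_le A hX1r
    calc (X : ℝ) ^ (99 / 100 : ℝ) * (Real.log X) ^ A ≤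
          (X : ℝ) ^ (99 / 100 : ℝ) * (K * (X : ℝ) ^ (1 / 100 : ℝ)) := by gcongr
      _ = K * ((X : ℝ) ^ (99 / 100 : ℝ) * (X : ℝ) ^ (1 / 100 : ℝ)) := by ring
      _ = K * X := by
          rw [← Real.rpow_add hX0r]
          norm_num
  have h1K : (1 : ℝ) ≤ K * (X / (Real.log X) ^ A) :=
    (Real.one_le_rpow hX1r (by norm_num)).trans h99
  rw [mul_div_assoc]
  set W := (X : ℝ) / (Real.log X) ^ A with hW
  have h6 : (G.card : ℝ) ≤ (m * 2 ^ L : ℕ) * ((K + 4 * (Real.exp C₁ * (2 / ε) ^ A)) * W) := by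
    refine hGle.trans (mul_le_mul_of_nonneg_left (hBdle.trans ?_) (by positivity))
    linarith
  have h7 : (M0 : ℝ) ≤ M0 * (K * W) := by
    have : (0 : ℝ) ≤ M0 := by positivity
    nlinarith
  have h8 : 0 ≤ 2 * (Real.log X2) ^ A * W := by positivity
  calc (cnt (NB s a b c Q D k) X : ℝ) ≤ K * W + M0 * (K * W) +
        (m * 2 ^ L : ℕ) * ((K + 4 * (Real.exp C₁ * (2 / ε) ^ A)) * W) := by linarith
    _ ≤ K * W + M0 * (K * W) +
        (m * 2 ^ L : ℕ) * ((K + 4 * (Real.exp C₁ * (2 / ε) ^ A)) * W) +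
        2 * (Real.log X2) ^ A * W := by linarith
    _ = _ := by ring

end Pool.Agent.Quad
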