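import Pool.Agent.Quad.Basic

/-!
# NBSUM: convergence of the majorant series
-/

set_option autoImplicit false

namespace Pool.Agent.Quad

open Pool.Agent.FareyParity Finset

theorem summable_of_dyadic {f : ℕ → ℝ} (hf : ∀ n, 0 ≤ f n) {K : ℝ}
    (h : ∀ j : ℕ, ∑ M ∈ Ico (2 ^ j) (2 ^ (j + 1)), f M ≤ K / ((j : ℝ) + 1) ^ 2) : Summable f := by
  have hs : Summable (fun j : ℕ => K / ((j : ℝ) + 1) ^ 2) := by
    have h1 : Summable (fun j : ℕ => 1 / ((j : ℝ) + 1) ^ 2) := by
      have := (summable_nat_add_iff 1).2 (Real.summable_one_div_nat_pow.2 (le_refl 2))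
      simpa using this
    simpa [div_eq_mul_inv] using h1.mul_left K
  have hK : ∀ j : ℕ, 0 ≤ K / ((j : ℝ) + 1) ^ 2 := fun j =>
    (sum_nonneg fun i _ => hf i).trans (h j)
  have key : ∀ n : ℕ, ∑ M ∈ range (2 ^ n), f M ≤
      f 0 + ∑ j ∈ range n, K / ((j : ℝ) + 1) ^ 2 := by
    intro n
    induction n with
    | zero => simp
    | succ n ih =>
      rw [← sum_range_add_sum_Ico f (Nat.pow_le_pow_right (by norm_num) (Nat.le_succ n)),
        sum_range_succ]
      have := h n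
      linarith
  refine summable_of_sum_range_le hf (c := f 0 + ∑' j : ℕ, K / ((j : ℝ) + 1) ^ 2) fun n => ?_
  have h1 : ∑ M ∈ range n, f M ≤ ∑ M ∈ range (2 ^ n), f M :=
    sum_le_sum_of_subset_of_nonneg
      (range_subset_range.2 (Nat.lt_two_pow_self).le) fun i _ _ => hf i
  have h2 : ∑ j ∈ range n, K / ((j : ℝ) + 1) ^ 2 ≤ ∑' j : ℕ, K / ((j : ℝ) + 1) ^ 2 :=
    hs.sum_le_tsum _ fun i _ => hK i
  linarith [key n]

theorem nbsum_main (h1 : P_NBcount) (h2 : P_TauMoment) : P_NBsum := by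
  classical
  intro s a b c Q D e U hred hyp k hk
  obtain ⟨C2, A, hC2⟩ := h2 a b c Q D hred k hk
  obtain ⟨C1, hC1⟩ := h1 s a b c Q D e U hred hyp k hk (A + 8)
  set K : ℝ := Real.sqrt (|C1| * |C2|) with hKdef
  have hK0 : 0 ≤ K := Real.sqrt_nonneg _
  apply summable_of_dyadic (K := 72 * K)
  · intro M
    unfold nbw
    split_ifs
    · positivity
    · exact le_rfl
  intro j
  set X : ℕ := 2 ^ (j + 1) with hX
  have hX2 : 2 ≤ X := by
    rw [hX, pow_succ]
    have := Nat.one_le_two_pow (n := j)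
    omega
  set L : ℝ := Real.log X with hL
  have hLj : L = ((j : ℝ) + 1) * Real.log 2 := by
    rw [hL, hX]; push_cast; rw [Real.log_pow]; push_cast; ring
  have hl2 : (1 / 2 : ℝ) < Real.log 2 := by
    have := Real.log_two_gt_d9; linarith
  have hj0 : (0 : ℝ) ≤ j := Nat.cast_nonneg j
  have hLpos : 1 / 2 < L := by rw [hLj]; nlinarith
  have hL0 : 0 < L := by linarith
  set tau : ℕ → ℝ := fun M => ((Phi a b c ((M : ℤ), (k : ℤ))).natAbs.divisors.card : ℝ) with htau
  have htau0 : ∀ M, 0 ≤ tau M := fun M => Nat.cast_nonneg _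
  set F : Finset ℕ := (Icc 1 X).filter (fun M => M ∈ NB s a b c Q D k) with hF
  -- the block is bounded by the sum over F
  have hXj : (X : ℝ) = 2 * 2 ^ j := by rw [hX]; push_cast; rw [pow_succ]; ring
  have h2j : (0 : ℝ) < 2 ^ j := by positivity
  have hblock : ∑ M ∈ Ico (2 ^ j) X, nbw s a b c Q D k M ≤
      (1 + L) ^ 2 / 2 ^ j * ∑ M ∈ F, tau M := by
    rw [mul_sum, hF, sum_filter]
    have hsub : Ico (2 ^ j) X ⊆ Icc 1 X := by
      intro M hM
      rw [mem_Ico] at hM
      rw [mem_Icc]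
      have := Nat.one_le_two_pow (n := j)
      omega
    refine (sum_le_sum (g := fun M => if M ∈ NB s a b c Q D k then
      (1 + L) ^ 2 / 2 ^ j * tau M else 0) fun M hM => ?_).trans
      (sum_le_sum_of_subset_of_nonneg hsub fun M _ _ => ?_)
    · rw [mem_Ico] at hM
      unfold nbw
      split_ifs with hMN
      · have hM1 : (2 : ℝ) ^ j ≤ M := by exact_mod_cast hM.1
        have hM0 : (0 : ℝ) < M := h2j.trans_le hM1
        have hMX : (M : ℝ) ≤ X := by exact_mod_cast hM.2.le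
        have hM1' : (1 : ℝ) ≤ M := by
          have : (1 : ℝ) ≤ 2 ^ j := one_le_pow₀ (by norm_num)
          linarith
        have hlog : Real.log M ≤ L := Real.log_le_log hM0 hMX
        have hlog0 : 0 ≤ Real.log M := Real.log_nonneg hM1'
        have e1 : (1 + Real.log M) ^ 2 ≤ (1 + L) ^ 2 := by
          apply pow_le_pow_left₀ (by linarith)
          linarith
        calc tau M * (1 + Real.log M) ^ 2 / M ≤ tau M * (1 + L) ^ 2 / M := by
              apply div_le_div_of_nonneg_right _ hM0.le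
              exact mul_le_mul_of_nonneg_left e1 (htau0 M)
          _ ≤ tau M * (1 + L) ^ 2 / 2 ^ j := by
              apply div_le_div_of_nonneg_left _ h2j hM1
              exact mul_nonneg (htau0 M) (by positivity)
          _ = (1 + L) ^ 2 / 2 ^ j * tau M := by ring
      · exact le_rfl
    · split_ifs
      · exact mul_nonneg (by positivity) (htau0 M)
      · exact le_rfl
  -- Cauchy-Schwarz
  have hcs : (∑ M ∈ F, tau M) ^ 2 ≤ (F.card : ℝ) * ∑ M ∈ F, tau M ^ 2 := sq_sum_le_card_mul_sum_sq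
  have hcard : (F.card : ℝ) ≤ |C1| * X / L ^ (A + 8) := by
    have e1 : F.card ≤ cnt (NB s a b c Q D k) X := by
      unfold cnt
      apply card_le_card
      intro M hM
      rw [hF, mem_filter, mem_Icc] at hM
      rw [mem_filter, mem_range]
      exact ⟨by omega, hM.2⟩
    have e2 := hC1 X hX2
    have e3 : C1 * X / L ^ (A + 8) ≤ |C1| * X / L ^ (A + 8) := by
      apply div_le_div_of_nonneg_right _ (by positivity)
      exact mul_le_mul_of_nonneg_right (le_abs_self C1) (Nat.cast_nonneg _)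
    have e4 : (F.card : ℝ) ≤ cnt (NB s a b c Q D k) X := by exact_mod_cast e1
    linarith
  have hsq : ∑ M ∈ F, tau M ^ 2 ≤ |C2| * X * L ^ A := by
    have e1 : ∑ M ∈ F, tau M ^ 2 ≤
        ∑ M ∈ (Icc 1 X).filter (fun M : ℕ => M.Coprime (Q * k)), tau M ^ 2 := by
      apply sum_le_sum_of_subset_of_nonneg
      · intro M hM
        rw [hF, mem_filter] at hM
        rw [mem_filter]
        obtain ⟨hM1, hM2⟩ := hM
        obtain ⟨_, hMk, hMQ, _, _⟩ := hM2
        exact ⟨hM1, Nat.Coprime.mul_right hMQ hMk⟩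
      · intro M _ _
        positivity
    have e2 := hC2 X hX2
    have e3 : C2 * X * L ^ A ≤ |C2| * X * L ^ A := by
      apply mul_le_mul_of_nonneg_right _ (by positivity)
      exact mul_le_mul_of_nonneg_right (le_abs_self C2) (Nat.cast_nonneg _)
    linarith
  have hprod : (∑ M ∈ F, tau M) ^ 2 ≤ (K * X / L ^ 4) ^ 2 := by
    have e1 : (F.card : ℝ) * ∑ M ∈ F, tau M ^ 2 ≤
        (|C1| * X / L ^ (A + 8)) * (|C2| * X * L ^ A) := by
      apply mul_le_mul hcard hsq
      · exact sum_nonneg fun M _ => by positivity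
      · positivity
    have e2 : (|C1| * X / L ^ (A + 8)) * (|C2| * X * L ^ A) = (K * X / L ^ 4) ^ 2 := by
      have hKK : K ^ 2 = |C1| * |C2| := Real.sq_sqrt (by positivity)
      rw [div_pow, mul_pow, hKK, ← pow_mul]
      have hLA : L ^ A ≠ 0 := by positivity
      have hL8 : L ^ 8 ≠ 0 := by positivity
      rw [pow_add]
      norm_num
      field_simp
    linarith [hcs, e1, e2.le]
  have hsum : ∑ M ∈ F, tau M ≤ K * X / L ^ 4 := by
    have h0 : 0 ≤ K * X / L ^ 4 := by positivity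
    exact (abs_le_of_sq_le_sq' hprod h0).2
  have hfin : (1 + L) ^ 2 / 2 ^ j * ∑ M ∈ F, tau M ≤ 72 * K / ((j : ℝ) + 1) ^ 2 := by
    have e1 : (1 + L) ^ 2 / 2 ^ j * ∑ M ∈ F, tau M ≤ (1 + L) ^ 2 / 2 ^ j * (K * X / L ^ 4) :=
      mul_le_mul_of_nonneg_left hsum (by positivity)
    have e2 : (1 + L) ^ 2 / 2 ^ j * (K * X / L ^ 4) = 2 * K * ((1 + L) ^ 2 / L ^ 4) := by
      rw [hXj]; field_simp
    have e3 : (1 + L) ^ 2 ≤ 9 * L ^ 2 := by nlinarith
    have e4 : (1 + L) ^ 2 / L ^ 4 ≤ 9 / L ^ 2 := by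
      rw [div_le_div_iff₀ (by positivity) (by positivity)]
      nlinarith [pow_pos hL0 2]
    have e5 : ((j : ℝ) + 1) ^ 2 ≤ 4 * L ^ 2 := by
      have : (j : ℝ) + 1 ≤ 2 * L := by rw [hLj]; nlinarith
      have h0 : (0 : ℝ) ≤ (j : ℝ) + 1 := by linarith
      nlinarith
    have e6 : 9 / L ^ 2 ≤ 36 / ((j : ℝ) + 1) ^ 2 := by
      rw [div_le_div_iff₀ (by positivity) (by positivity)]
      linarith
    calc (1 + L) ^ 2 / 2 ^ j * ∑ M ∈ F, tau M ≤ 2 * K * ((1 + L) ^ 2 / L ^ 4) := by linarith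
      _ ≤ 2 * K * (36 / ((j : ℝ) + 1) ^ 2) := by
          apply mul_le_mul_of_nonneg_left (e4.trans e6) (by positivity)
      _ = 72 * K / ((j : ℝ) + 1) ^ 2 := by ring
  exact hblock.trans hfin

end Pool.Agent.Quad
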