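import Pool.Agent.Quad.Basic

/-!
# OVER: the reference sets of an edge and of its children overlap
-/

set_option autoImplicit false

namespace Pool.Agent.Quad

open Pool.Agent.FareyParity Finset

theorem exists_rep {Q : ℕ} (hQ : 0 < Q) {x y : ℤ} (hxy : IsCoprime x y) :
    ∃ A B : ℤ, 1 ≤ B ∧ B ≤ Q ∧ (Q : ℤ) ≤ A ∧ A ≤ KK Q ∧ (Q : ℤ) ∣ A - x ∧ (Q : ℤ) ∣ B - y ∧
      IsCoprime A B := by
  have hQ' : (0 : ℤ) < Q := by exact_mod_cast hQ
  obtain ⟨B, hB⟩ : ∃ B : ℕ, (B : ℤ) = (y - 1) % Q + 1 := by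
    refine ⟨((y - 1) % Q + 1).toNat, ?_⟩
    have := Int.emod_nonneg (y - 1) hQ'.ne'
    omega
  have hB1 : 1 ≤ (B : ℤ) := by
    have := Int.emod_nonneg (y - 1) hQ'.ne'
    omega
  have hB2 : (B : ℤ) ≤ Q := by
    have := Int.emod_lt_of_pos (y - 1) hQ'
    omega
  have hB3 : (Q : ℤ) ∣ B - y := by
    have h1 := Int.emod_add_mul_ediv (y - 1) Q
    exact ⟨-((y - 1) / Q), by rw [hB]; linarith⟩
  obtain ⟨A0, hA0⟩ : ∃ A0 : ℕ, (A0 : ℤ) = x % Q + Q := by
    refine ⟨(x % Q + Q).toNat, ?_⟩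
    have := Int.emod_nonneg x hQ'.ne'
    omega
  have hA1 : (Q : ℤ) ≤ A0 := by
    have := Int.emod_nonneg x hQ'.ne'
    omega
  have hA2 : (A0 : ℤ) ≤ 2 * Q := by
    have := Int.emod_lt_of_pos x hQ'
    omega
  have hA3 : (Q : ℤ) ∣ A0 - x := by
    have h1 := Int.emod_add_mul_ediv x Q
    exact ⟨-(x / Q) + 1, by rw [hA0]; linarith⟩
  obtain ⟨i, hi⟩ : ∃ i : ℕ, i = ∏ l ∈ B.primeFactors.filter (fun l => ¬ l ∣ A0), l := ⟨_, rfl⟩
  have hB0 : B ≠ 0 := by omega
  have hiB : i ∣ B := by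
    refine Dvd.dvd.trans ?_ (Nat.prod_primeFactors_dvd B)
    rw [hi]
    exact Finset.prod_dvd_prod_of_subset _ _ _ (Finset.filter_subset _ _)
  have hile : i ≤ B := Nat.le_of_dvd (by omega) hiB
  have hcop : (A0 + i * Q).Coprime B := by
    apply Nat.coprime_of_dvd
    intro l hl hlA hlB
    by_cases hlA0 : l ∣ A0
    · -- `l` divides `i * Q`
      have h1 : l ∣ i * Q := (Nat.dvd_add_right hlA0).1 hlA
      rcases (Nat.Prime.dvd_mul hl).1 h1 with h2 | h2
      · rw [hi] at h2
        rw [Prime.dvd_finsetProd_iff hl.prime] at h2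
        obtain ⟨l', hl', hll'⟩ := h2
        rw [Finset.mem_filter, Nat.mem_primeFactors] at hl'
        have : l = l' := (Nat.prime_dvd_prime_iff_eq hl hl'.1.1).1 hll'
        exact hl'.2 (this ▸ hlA0)
      · -- `l` divides `Q`, `A0`, `B`
        have h3 : (l : ℤ) ∣ (Q : ℤ) := Int.natCast_dvd_natCast.2 h2
        have h4 : (l : ℤ) ∣ x := by
          have h5 : (l : ℤ) ∣ (A0 : ℤ) := Int.natCast_dvd_natCast.2 hlA0
          have h6 : (l : ℤ) ∣ A0 - x := h3.trans hA3
          have := dvd_sub h5 h6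
          simpa using this
        have h7 : (l : ℤ) ∣ y := by
          have h5 : (l : ℤ) ∣ (B : ℤ) := Int.natCast_dvd_natCast.2 hlB
          have h6 : (l : ℤ) ∣ B - y := h3.trans hB3
          have := dvd_sub h5 h6
          simpa using this
        exact (Nat.prime_iff_prime_int.1 hl).not_isUnit (hxy.isUnit_of_dvd' h4 h7)
    · have h2 : l ∣ i := by
        rw [hi]
        exact Finset.dvd_prod_of_mem _ (by
          rw [Finset.mem_filter, Nat.mem_primeFactors]
          exact ⟨⟨hl, hlB, hB0⟩, hlA0⟩)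
      exact hlA0 ((Nat.dvd_add_left (h2.mul_right Q)).1 hlA)
  refine ⟨((A0 + i * Q : ℕ) : ℤ), (B : ℤ), hB1, hB2, ?_, ?_, ?_, hB3, ?_⟩
  · push_cast
    have : (0 : ℤ) ≤ i * Q := by positivity
    omega
  · have h1 : i * Q ≤ Q * Q := Nat.mul_le_mul_right Q (by omega)
    have h2 : ((i * Q : ℕ) : ℤ) ≤ ((Q * Q : ℕ) : ℤ) := by exact_mod_cast h1
    push_cast at h2 ⊢
    simp only [KK]
    push_cast
    nlinarith
  · push_cast
    obtain ⟨t, ht⟩ := hA3
    exact ⟨t + i, by linarith⟩
  · exact Nat.isCoprime_iff_coprime.2 hcop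

theorem over_main : P_Over := by
  intro Q D hQ h8 N e hN he t
  have hdt := he.dt_one
  have hp := he.x1_pos
  have hq := he.x2_pos
  have hQ8 : (8 : ℤ) ∣ (Q : ℤ) := (Dvd.intro D rfl).trans h8
  -- the vector with given coordinates
  have key : ∀ α β : ℤ, 0 < α → 0 < β → IsCoprime α β → (Q : ℤ) ∣ α - e.2.2 →
      (Q : ℤ) ∣ β + e.1.2 → Vp Q D (α • e.1 + β • e.2) := by
    intro α β hα hβ hαβ h1 h2
    have hv1 : (α • e.1 + β • e.2).1 = α * e.1.1 + β * e.2.1 := by simp
    have hv2 : (α • e.1 + β • e.2).2 = α * e.1.2 + β * e.2.2 := by simp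
    have hpos : 0 < α * e.1.1 + β * e.2.1 := by positivity
    have hmod : (Q : ℤ) ∣ α * e.1.1 + β * e.2.1 - 1 := by
      have : α * e.1.1 + β * e.2.1 - 1 = (α - e.2.2) * e.1.1 + (β + e.1.2) * e.2.1 := by
        simp only [dt] at hdt
        linear_combination hdt
      rw [this]
      exact dvd_add (h1.mul_right _) (h2.mul_right _)
    refine ⟨by rw [hv1]; exact hpos, ?_, ?_, ?_⟩
    · rw [hv1, hv2]
      obtain ⟨x, y, hxy⟩ := hαβ
      refine ⟨x * e.2.2 - y * e.1.2, y * e.1.1 - x * e.2.1, ?_⟩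
      simp only [dt] at hdt
      linear_combination (x * α + y * β) * hdt + hxy
    · rw [hv1]
      obtain ⟨k, hk⟩ := hmod
      exact ⟨1, -k, by linarith⟩
    · rw [hv1]
      obtain ⟨k, hk⟩ := hmod
      obtain ⟨l, hl⟩ := hQ8
      apply jac_one h8
      · rw [Int.natAbs_odd]
        refine ⟨4 * l * k, ?_⟩
        rw [hl] at hk
        linarith
      · rw [← Int.natCast_modEq_iff, Int.natCast_natAbs, abs_of_pos hpos]
        exact (Int.modEq_iff_dvd.2 ⟨-k, by push_cast; linarith⟩)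
  have hdt1 : ∀ α β : ℤ, dt e.1 (α • e.1 + β • e.2) = β := by
    intro α β
    simp only [dt] at hdt
    simp only [dt, Prod.fst_add, Prod.snd_add, Prod.smul_fst, Prod.smul_snd, smul_eq_mul]
    linear_combination β * hdt
  have hdt2 : ∀ α β : ℤ, dt (α • e.1 + β • e.2) e.2 = α := by
    intro α β
    simp only [dt] at hdt
    simp only [dt, Prod.fst_add, Prod.snd_add, Prod.smul_fst, Prod.smul_snd, smul_eq_mul]
    linear_combination α * hdt
  have hKQ : (Q : ℤ) ≤ KK Q := by
    have : Q ≤ KK Q := by unfold KK; nlinarith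
    exact_mod_cast this
  cases t
  · -- `child false e = (p, p + q)`
    have hc : IsCoprime e.2.2 (-e.1.2) := by
      simp only [dt] at hdt
      exact ⟨e.1.1, e.2.1, by linarith⟩
    obtain ⟨A, B, hB1, hB2, hA1, hA2, hA3, hB3, hAB⟩ := exists_rep hQ hc
    have hV := key A B (by omega) (by omega) hAB hA3 (by
      obtain ⟨k, hk⟩ := hB3
      exact ⟨k, by linarith⟩)
    refine ⟨A • e.1 + B • e.2, ⟨hV, ?_, ?_, ?_, ?_⟩, ⟨hV, ?_, ?_, ?_, ?_⟩⟩
    · rw [hdt1]; omega
    · rw [hdt1]; omega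
    · rw [hdt2]; omega
    · rw [hdt2]; omega
    · simp only [child, Bool.false_eq_true, if_false]
      rw [hdt1]; omega
    · simp only [child, Bool.false_eq_true, if_false]
      rw [hdt1]; omega
    · simp only [child, Bool.false_eq_true, if_false]
      have : dt (A • e.1 + B • e.2) (e.1 + e.2) = A - B := by
        have h1 := hdt1 A B
        have h2 := hdt2 A B
        simp only [dt, Prod.fst_add, Prod.snd_add, Prod.smul_fst, Prod.smul_snd,
          smul_eq_mul] at h1 h2 ⊢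
        linear_combination h2 - h1
      rw [this]; omega
    · simp only [child, Bool.false_eq_true, if_false]
      have : dt (A • e.1 + B • e.2) (e.1 + e.2) = A - B := by
        have h1 := hdt1 A B
        have h2 := hdt2 A B
        simp only [dt, Prod.fst_add, Prod.snd_add, Prod.smul_fst, Prod.smul_snd,
          smul_eq_mul] at h1 h2 ⊢
        linear_combination h2 - h1
      rw [this]; omega
  · -- `child true e = (p + q, q)`
    have hc : IsCoprime (-e.1.2) e.2.2 := by
      simp only [dt] at hdt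
      exact ⟨e.2.1, e.1.1, by linarith⟩
    obtain ⟨A, B, hB1, hB2, hA1, hA2, hA3, hB3, hAB⟩ := exists_rep hQ hc
    have hV := key B A (by omega) (by omega) hAB.symm hB3 (by
      obtain ⟨k, hk⟩ := hA3
      exact ⟨k, by linarith⟩)
    refine ⟨B • e.1 + A • e.2, ⟨hV, ?_, ?_, ?_, ?_⟩, ⟨hV, ?_, ?_, ?_, ?_⟩⟩
    · rw [hdt1]; omega
    · rw [hdt1]; omega
    · rw [hdt2]; omega
    · rw [hdt2]; omega
    · simp only [child, if_true]
      have : dt (e.1 + e.2) (B • e.1 + A • e.2) = A - B := by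
        have h1 := hdt1 B A
        have h2 := hdt2 B A
        simp only [dt, Prod.fst_add, Prod.snd_add, Prod.smul_fst, Prod.smul_snd,
          smul_eq_mul] at h1 h2 ⊢
        linear_combination h1 - h2
      rw [this]; omega
    · simp only [child, if_true]
      have : dt (e.1 + e.2) (B • e.1 + A • e.2) = A - B := by
        have h1 := hdt1 B A
        have h2 := hdt2 B A
        simp only [dt, Prod.fst_add, Prod.snd_add, Prod.smul_fst, Prod.smul_snd,
          smul_eq_mul] at h1 h2 ⊢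
        linear_combination h1 - h2
      rw [this]; omega
    · simp only [child, if_true]
      rw [hdt2]; omega
    · simp only [child, if_true]
      rw [hdt2]; omega

end Pool.Agent.Quad
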