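import Pool.Agent.Quad.Prodv

/-!
# PAIRS
-/

set_option autoImplicit false

namespace Pool.Agent.Quad

open Pool.Agent.FareyParity Finset

theorem pairs_main : P_Pairs := by
  intro s a b c Q D hs h v w hv hw hdt hip hcl
  have hne : ((ip b (a * c) v w, dt v w) : ℤ × ℤ) ≠ 0 := by
    intro h0
    have := congrArg Prod.fst h0
    simp at this
    omega
  obtain ⟨m, z, hm, hz, hzc⟩ := exists_primitive hne
  have hx : ip b (a * c) v w = m * z.1 := by
    have := congrArg Prod.fst hz
    simpa using this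
  have hy : dt v w = m * z.2 := by
    have := congrArg Prod.snd hz
    simpa using this
  have hz1 : 0 < z.1 := by
    rw [hx] at hip
    exact pos_of_mul_pos_right hip hm.le
  have hz2 : 0 < z.2 := by
    rw [hy] at hdt
    exact pos_of_mul_pos_right hdt hm.le
  obtain ⟨h1, -, h2⟩ := jac_core h hv hw hm hz1 hx hy
    (by
      have : ip b (a * c) v w - v.1 * w.1 = b * (w.1 * v.2) + a * c * (v.2 * w.2) := by
        simp only [ip]; ring
      rw [this]
      exact dvd_add (h.Q_b.mul_right _) (h.Q_dvd_ac.mul_right _))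
    (by rw [Phi_mul])
  have hv0 : v ≠ 0 := by rintro rfl; exact absurd hv.1 (by simp)
  have hw0 : w ≠ 0 := by rintro rfl; exact absurd hw.1 (by simp)
  have hprod : cl s a b c z = cl s a b c v * cl s a b c w := by
    have e1 : cl s a b c z = cl s a b c (ip b (a * c) v w, dt v w) := by
      rw [hz, cl_smul hs hm.ne']
    rw [e1, cl_def, cl_def, cl_def, ← hs.mul, ← Int.natAbs_mul, Phi_mul]
  have hzcl : cl s a b c z = -1 := by
    rw [hprod]
    rcases cl_val hs h hv0 with e1 | e1 <;> rcases cl_val hs h hw0 with e2 | e2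
    · exact absurd (e1.trans e2.symm) hcl
    · rw [e1, e2]; norm_num
    · rw [e1, e2]; norm_num
    · exact absurd (e1.trans e2.symm) hcl
  refine ⟨m.toNat, z.1.toNat, z.2.toNat, by omega, by omega, ?_, ?_, ?_⟩
  · rw [Int.toNat_of_nonneg hm.le, Int.toNat_of_nonneg hz1.le]; exact hx
  · rw [Int.toNat_of_nonneg hm.le, Int.toNat_of_nonneg hz2.le]; exact hy
  · have e1 : z.1.toNat = z.1.natAbs := by omega
    have e2 : z.2.toNat = z.2.natAbs := by omega
    refine ⟨by omega, ?_, ?_, ?_, ?_⟩
    · rw [e1, e2]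
      have := Int.isCoprime_iff_gcd_eq_one.1 hzc
      rwa [Int.gcd_eq_natAbs] at this
    · rw [e1]; exact natAbs_coprime_of h1
    · rw [e1]; exact h2
    · rw [Int.toNat_of_nonneg hz1.le, Int.toNat_of_nonneg hz2.le]
      exact hzcl

end Pool.Agent.Quad
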