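import Pool.Agent.Quad.Basic

/-!
# The path lemma
-/

set_option autoImplicit false

namespace Pool.Agent.Quad

open Pool.Agent.FareyParity Finset

theorem KK_ge_one {Q : ℕ} (hQ : 0 < Q) : (1 : ℤ) ≤ KK Q := by
  have : 1 ≤ KK Q := by unfold KK; nlinarith
  exact_mod_cast this

theorem path_aux (hOv : P_Over) {s : ℕ → ℤ} {a : ℕ} {b c : ℤ} {Q : ℕ} {D : ℤ}
    (hR : Red a b c Q D) {N : ℕ} (hN : 0 < N) {v : ℤ × ℤ} (hv : Vp Q D v) :
    ∀ (n : ℕ) (e : Edge), IsEdge N e → Bal e → Cone e v →
    (∀ w : List Bool, Bad s a b c Q D (desc e w) → ¬ Cone (desc e w) v) →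
    (dt v e.2 + dt e.1 v).toNat ≤ n → ∀ z ∈ SS Q D e, cl s a b c v = cl s a b c z := by
  intro n
  induction n with
  | zero =>
    intro e _ _ hC _ hn
    obtain ⟨h1, h2⟩ := hC
    omega
  | succ n ih =>
    intro e he hB hC hbad hn z hz
    have hC' := hC
    obtain ⟨h1, h2⟩ := hC
    have hnotbad : ¬ Bad s a b c Q D e := fun h => hbad [] h hC'
    have hmono : ∀ z ∈ SS Q D e, ∀ w ∈ SS Q D e, cl s a b c z = cl s a b c w := by
      intro z hz w hw
      by_contra hne
      exact hnotbad (Or.inl ⟨hB, z, hz, w, hw, hne⟩)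
    -- the step to a child
    have step : ∀ t : Bool, Cone (child t e) v →
        (dt v (child t e).2 + dt (child t e).1 v).toNat ≤ n →
        cl s a b c v = cl s a b c z := by
      intro t ht hle
      have hBt : Bal (child t e) := by
        by_contra hnB
        exact hbad [t] (Or.inr ⟨hnB, by rw [desc, desc, par_child he]; exact hB⟩) ht
      obtain ⟨z0, hz0, hz0'⟩ := hOv Q D hR.Q_pos hR.D_Q N e hN he t
      rw [ih (child t e) (he.child t) hBt ht (fun w => hbad (t :: w)) hle z0 hz0']
      exact hmono z0 hz0 z hz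
    rcases lt_trichotomy (dt v e.2) (dt e.1 v) with hlt | heq | hgt
    · apply step true
      · refine ⟨?_, h2⟩
        simp only [child, if_true, dt, Prod.fst_add, Prod.snd_add] at h1 h2 hlt ⊢
        linarith
      · simp only [child, if_true, dt, Prod.fst_add, Prod.snd_add] at h1 h2 hlt hn ⊢
        have : v.1 * e.2.2 - e.2.1 * v.2 + ((e.1.1 + e.2.1) * v.2 - v.1 * (e.1.2 + e.2.2)) =
          (e.1.1 * v.2 - v.1 * e.1.2) := by ring
        rw [this]
        omega
    · -- `v = p + q`
      have hco := coord he v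
      rw [heq, ← smul_add] at hco
      have h3 : dt e.1 v = 1 := by
        obtain ⟨x, y, hxy⟩ := hv.2.1
        have h4 : dt e.1 v ∣ 1 := by
          refine ⟨x * (e.1 + e.2).1 + y * (e.1 + e.2).2, ?_⟩
          have e1 := congrArg Prod.fst hco
          have e2 := congrArg Prod.snd hco
          simp only [Prod.smul_fst, Prod.smul_snd, smul_eq_mul] at e1 e2
          linear_combination (-1) * hxy + x * e1 + y * e2
        exact Int.eq_one_of_dvd_one h1.le h4
      have hvS : v ∈ SS Q D e := by
        refine ⟨hv, h1.le, ?_, h2.le, ?_⟩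
        · rw [h3]; exact KK_ge_one hR.Q_pos
        · rw [heq, h3]; exact KK_ge_one hR.Q_pos
      exact hmono v hvS z hz
    · apply step false
      · refine ⟨h1, ?_⟩
        simp only [child, Bool.false_eq_true, if_false, dt, Prod.fst_add, Prod.snd_add]
          at h1 h2 hgt ⊢
        linarith
      · simp only [child, Bool.false_eq_true, if_false, dt, Prod.fst_add, Prod.snd_add]
          at h1 h2 hgt hn ⊢
        have : v.1 * (e.1.2 + e.2.2) - (e.1.1 + e.2.1) * v.2 + (e.1.1 * v.2 - v.1 * e.1.2) =
          (v.1 * e.2.2 - e.2.1 * v.2) := by ring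
        rw [this]
        omega

theorem path_main (h : P_Over) : P_Path := by
  intro s a b c Q D hR N e hN he hB v hv hC hbad z hz
  exact path_aux h hR hN hv _ e he hB hC hbad le_rfl z hz

end Pool.Agent.Quad
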