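import Pool.Agent.Quad.Basic

/-!
# PRODV and PAIRS: the kernel of the genus character is multiplicative
-/

set_option autoImplicit false

namespace Pool.Agent.Quad

open Pool.Agent.FareyParity Finset

variable {a : ℕ} {b c : ℤ} {Q : ℕ} {D : ℤ} {s : ℕ → ℤ}

theorem natAbs_coprime_of {x : ℤ} {Q : ℕ} (h : IsCoprime x (Q : ℤ)) : x.natAbs.Coprime Q := by
  have := Int.isCoprime_iff_gcd_eq_one.1 h
  rw [Int.gcd_eq_natAbs, Int.natAbs_natCast] at this
  exact this

/-- the common argument of PRODV and PAIRS -/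
theorem jac_core (h : Red a b c Q D) {u v : ℤ × ℤ} (hu : Vp Q D u) (hv : Vp Q D v)
    {x y m x' y' : ℤ} (hm : 0 < m) (hx' : 0 < x') (hx : x = m * x') (hy : y = m * y')
    (hQ : (Q : ℤ) ∣ x - u.1 * v.1) (hP : Phi a b c (x, y) = Phi a b c u * Phi a b c v) :
    IsCoprime x' (Q : ℤ) ∧ IsCoprime m (Q : ℤ) ∧ jacobiSym D x'.natAbs = 1 := by
  obtain ⟨hu1, hu2, hu3, hu4⟩ := hu
  obtain ⟨hv1, hv2, hv3, hv4⟩ := hv
  obtain ⟨t, ht⟩ := hQ
  have hxu : x = u.1 * v.1 + (Q : ℤ) * t := by linarith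
  have huv : IsCoprime (u.1 * v.1) (Q : ℤ) := IsCoprime.mul_left hu3 hv3
  have hxc : IsCoprime x (Q : ℤ) := by
    rw [hxu]; exact huv.add_mul_left_left t
  have hx0 : 0 < x := by rw [hx]; positivity
  have huv0 : 0 < u.1 * v.1 := mul_pos hu1 hv1
  rw [hx] at hxc
  have hmc : IsCoprime m (Q : ℤ) := hxc.of_mul_left_left
  have hxc' : IsCoprime x' (Q : ℤ) := hxc.of_mul_left_right
  refine ⟨hxc', hmc, ?_⟩
  -- the total symbol
  have hoddx : Odd x.natAbs := by
    rw [← hx] at hxc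
    exact odd_of_coprime h (natAbs_coprime_of hxc)
  have hodduv : Odd (u.1 * v.1).natAbs := odd_of_coprime h (natAbs_coprime_of huv)
  have hcongr : x.natAbs ≡ (u.1 * v.1).natAbs [MOD Q] := by
    rw [← Int.natCast_modEq_iff, Int.natCast_natAbs, Int.natCast_natAbs, abs_of_pos hx0,
      abs_of_pos huv0, hxu]
    exact (Int.modEq_iff_dvd.2 ⟨-t, by ring⟩)
  have hJx : jacobiSym D x.natAbs = 1 := by
    rw [jac_congr h.D_Q hoddx hodduv hcongr, Int.natAbs_mul]
    have : NeZero u.1.natAbs := ⟨by omega⟩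
    have : NeZero v.1.natAbs := ⟨by omega⟩
    rw [jacobiSym.mul_right, hu4, hv4, one_mul]
  have hJm : jacobiSym D m.natAbs = 1 := by
    apply jac_of_primes (by omega)
    intro l hl hlm
    have hlp : Prime (l : ℤ) := Nat.prime_iff_prime_int.1 hl
    have hlm' : (l : ℤ) ∣ m := by
      rw [← Int.natAbs_dvd_natAbs, Int.natAbs_natCast]; exact hlm
    have hlQ : ¬ l ∣ Q := by
      intro hh
      have h1 : (l : ℤ) ∣ (Q : ℤ) := Int.natCast_dvd_natCast.2 hh
      have := hmc.isUnit_of_dvd' hlm' h1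
      exact hlp.not_isUnit this
    have hlP : (l : ℤ) ∣ Phi a b c u * Phi a b c v := by
      rw [← hP]
      have : Phi a b c (x, y) = m * (m * Phi a b c (x', y')) := by
        rw [hx, hy]; simp only [Phi, nf]; ring
      rw [this]
      exact hlm'.mul_right _
    rcases hlp.dvd_or_dvd hlP with h1 | h1
    · exact jac_prime_of_dvd_Phi h hl hlQ hu2 h1
    · exact jac_prime_of_dvd_Phi h hl hlQ hv2 h1
  have hprod : jacobiSym D x.natAbs = jacobiSym D m.natAbs * jacobiSym D x'.natAbs := by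
    rw [hx, Int.natAbs_mul]
    have : NeZero m.natAbs := ⟨by omega⟩
    have : NeZero x'.natAbs := ⟨by omega⟩
    rw [jacobiSym.mul_right]
  rw [hJx, hJm, one_mul] at hprod
  exact hprod.symm

theorem prodv_main : P_ProdV := by
  intro a b c Q D h u v hu hv hpos
  have hne : mulv b (a * c) u v ≠ 0 := by
    intro h0
    rw [h0] at hpos
    simp at hpos
  obtain ⟨m, w, hm, hw, hwc⟩ := exists_primitive hne
  have hx : (mulv b (a * c) u v).1 = m * w.1 := by
    rw [hw]; simp
  have hy : (mulv b (a * c) u v).2 = m * w.2 := by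
    rw [hw]; simp
  have hw1 : 0 < w.1 := by
    rw [hx] at hpos
    exact pos_of_mul_pos_right hpos hm.le
  obtain ⟨h1, -, h2⟩ := jac_core h hu hv hm hw1 hx hy
    (by
      have : (mulv b (a * c) u v).1 - u.1 * v.1 = -(a * c * (u.2 * v.2)) := by
        simp only [mulv]; ring
      rw [this]
      exact (h.Q_dvd_ac.mul_right _).neg_right)
    (by
      have := Phi_mulv (a := a) (b := b) (c := c) u v
      rw [← this])
  exact ⟨m, w, hm, hw, hw1, hwc, h1, h2⟩

end Pool.Agent.Quad
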