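import Pool.Agent.Quad.Basic

/-!
# Number of roots of `Φ(M, k)` modulo `d`
-/

set_option autoImplicit false

namespace Pool.Agent.Quad

open Pool.Agent.FareyParity Finset

theorem rootcount_main : P_RootCount := by
  intro a b c Q D h k d hk hd hco
  classical
  have hd2 : IsCoprime (d : ℤ) ((Q : ℤ) * k) := by
    rw [← Nat.isCoprime_iff_coprime] at hco
    push_cast at hco
    exact hco
  have hQ : IsCoprime (d : ℤ) (Q : ℤ) := hd2.of_isCoprime_of_dvd_right (Dvd.intro _ rfl)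
  have h4 : IsCoprime (d : ℤ) 4 := by
    apply hQ.of_isCoprime_of_dvd_right
    exact (by norm_num : (4 : ℤ) ∣ 8).trans h.eight_dvd
  have hDQ : IsCoprime (d : ℤ) (D * ((Q : ℤ) * k) ^ 2) := by
    apply IsCoprime.mul_right
    · exact hQ.of_isCoprime_of_dvd_right h.D_dvd
    · exact hd2.pow_right
  set S := (range d).filter (fun M : ℕ => (d : ℤ) ∣ Phi a b c ((M : ℤ), (k : ℤ))) with hS
  rcases S.eq_empty_or_nonempty with h0 | ⟨M0, hM0⟩
  · rw [h0]; simp
  have key0 : (d : ℤ) ∣ Phi a b c ((M0 : ℤ), (k : ℤ)) := (mem_filter.1 hM0).2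
  have hf0 := four_Phi h ((M0 : ℤ), (k : ℤ))
  simp only at hf0
  -- the product
  have hprod : ∀ M ∈ S, (d : ℤ) ∣ ((M : ℤ) - M0) * (M + M0 + b * k) := by
    intro M hM
    have key : (d : ℤ) ∣ Phi a b c ((M : ℤ), (k : ℤ)) := (mem_filter.1 hM).2
    have hf := four_Phi h ((M : ℤ), (k : ℤ))
    simp only at hf
    have h1 : (d : ℤ) ∣ 4 * (((M : ℤ) - M0) * (M + M0 + b * k)) := by
      have : 4 * (((M : ℤ) - M0) * (M + M0 + b * k)) =
          4 * (Phi a b c ((M : ℤ), (k : ℤ)) - Phi a b c ((M0 : ℤ), (k : ℤ))) := by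
        linear_combination hf0 - hf
      rw [this]
      exact (dvd_sub key key0).mul_left 4
    exact h4.dvd_of_dvd_mul_left h1
  apply Finset.card_le_card_of_injOn (fun M : ℕ => Int.gcd ((M : ℤ) - M0) d)
  · intro M _
    simp only [Finset.mem_coe, Nat.mem_divisors]
    refine ⟨?_, hd.ne'⟩
    exact_mod_cast Int.gcd_dvd_right ((M : ℤ) - M0) (d : ℤ)
  · intro M hM M' hM' hg
    simp only at hg
    set g := Int.gcd ((M : ℤ) - M0) d with hgdef
    have hgd : (g : ℤ) ∣ d := Int.gcd_dvd_right _ _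
    have hgM : (g : ℤ) ∣ (M : ℤ) - M0 := Int.gcd_dvd_left _ _
    have hgM' : (g : ℤ) ∣ (M' : ℤ) - M0 := by
      rw [hg]; exact Int.gcd_dvd_left _ _
    have hg0 : (g : ℤ) ≠ 0 := by
      intro h00
      rw [h00] at hgd
      have := zero_dvd_iff.1 hgd
      omega
    obtain ⟨e, he⟩ := hgd
    -- `e` divides the second factor
    have hsec : ∀ x : ℕ, (x : ℕ) ∈ S → Int.gcd ((x : ℤ) - M0) d = g →
        (e : ℤ) ∣ (x + M0 + b * k) := by
      intro x hx hgx
      have h1 := hprod x hx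
      obtain ⟨f, hf⟩ : (g : ℤ) ∣ (x : ℤ) - M0 := by rw [← hgx]; exact Int.gcd_dvd_left _ _
      have h2 : IsCoprime e f := by
        have hb := Int.gcd_eq_gcd_ab ((x : ℤ) - M0) d
        rw [hgx] at hb
        refine ⟨Int.gcdB ((x : ℤ) - M0) d, Int.gcdA ((x : ℤ) - M0) d, ?_⟩
        apply mul_left_cancel₀ hg0
        calc (g : ℤ) * (Int.gcdB ((x : ℤ) - M0) d * e + Int.gcdA ((x : ℤ) - M0) d * f)
            = (g * f) * Int.gcdA ((x : ℤ) - M0) d + (g * e) * Int.gcdB ((x : ℤ) - M0) d := by ring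
          _ = ((x : ℤ) - M0) * Int.gcdA ((x : ℤ) - M0) d + d * Int.gcdB ((x : ℤ) - M0) d := by
              rw [← hf, ← he]
          _ = g * 1 := by rw [← hb, mul_one]
      rw [he, hf, mul_assoc] at h1
      have h3 := (mul_dvd_mul_iff_left hg0).1 h1
      exact h2.dvd_of_dvd_mul_left h3
    have he1 := hsec M hM rfl
    have he2 := hsec M' hM' hg.symm
    have hge : IsCoprime (g : ℤ) e := by
      rw [Int.isCoprime_iff_gcd_eq_one]
      by_contra hne
      obtain ⟨p, hp, hpd⟩ := Nat.exists_prime_and_dvd hne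
      have hpg : (p : ℤ) ∣ g := (Int.natCast_dvd_natCast.2 hpd).trans (Int.gcd_dvd_left _ _)
      have hpe : (p : ℤ) ∣ e := (Int.natCast_dvd_natCast.2 hpd).trans (Int.gcd_dvd_right _ _)
      have hpp : Prime (p : ℤ) := Nat.prime_iff_prime_int.1 hp
      have hpdd : (p : ℤ) ∣ d := hpe.trans ⟨g, by rw [he]; ring⟩
      have h1 : (p : ℤ) ∣ 2 * M0 + b * k := by
        have : (2 * M0 + b * k : ℤ) = (M + M0 + b * k) - ((M : ℤ) - M0) := by ring
        rw [this]
        exact dvd_sub (hpe.trans he1) (hpg.trans hgM)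
      have h2 : (p : ℤ) ∣ D * ((Q : ℤ) * k) ^ 2 := by
        have : D * ((Q : ℤ) * k) ^ 2 = (2 * M0 + b * k) ^ 2 -
            4 * Phi a b c ((M0 : ℤ), (k : ℤ)) := by linear_combination hf0
        rw [this]
        exact dvd_sub (dvd_pow h1 two_ne_zero) ((hpdd.trans key0).mul_left 4)
      have := hDQ.isUnit_of_dvd' hpdd h2
      exact hpp.not_isUnit this
    have hdvd : (d : ℤ) ∣ (M : ℤ) - M' := by
      rw [he]
      apply hge.mul_dvd
      · have : (M : ℤ) - M' = ((M : ℤ) - M0) - ((M' : ℤ) - M0) := by ring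
        rw [this]; exact dvd_sub hgM hgM'
      · have : (M : ℤ) - M' = (M + M0 + b * k) - (M' + M0 + b * k) := by ring
        rw [this]; exact dvd_sub he1 he2
    have hM1 : M < d := mem_range.1 (mem_filter.1 hM).1
    have hM2 : M' < d := mem_range.1 (mem_filter.1 hM').1
    have habs : |(M : ℤ) - M'| < d := by
      rw [abs_lt]; constructor <;> omega
    have := Int.eq_zero_of_abs_lt_dvd hdvd habs
    omega

end Pool.Agent.Quad
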