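import Pool.Agent.Quad.Defs

/-!
# Statements of the modules
-/

set_option autoImplicit false

namespace Pool.Agent.Quad

open Pool.Agent.FareyParity Finset
open scoped ENNReal

/-! ### the combinatorial engine (sparse exceptional set) -/

/-- NOUSE: an integer `M = a k n + q ∈ NB k` with `q ∣ Φ(M, k)` produces an element of `U` -/
def P_NoUse : Prop := ∀ (s : ℕ → ℤ) (a : ℕ) (b c : ℤ) (Q : ℕ) (D e : ℤ) (U : Set ℕ),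
  Red a b c Q D → Hyp s a b c e U → ∀ k M n q : ℕ, 0 < k → M ∈ NB s a b c Q D k → q.Prime →
  M = a * k * n + q → (q : ℤ) ∣ Phi a b c ((M : ℤ), (k : ℤ)) → 0 < pv a b c n →
  ∃ r : ℕ, pv a b c n = q * r ∧ (n ∈ U ∨ n + k * r ∈ U)

/-- DERIVED -/
def P_Derived : Prop := ∀ (s : ℕ → ℤ) (a : ℕ) (b c : ℤ) (Q : ℕ) (D : ℤ),
  IsSign s → Red a b c Q D → ∀ k M j : ℕ, 0 < k → 0 < j → M ∈ NB s a b c Q D k →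
  0 < Phi a b c ((M : ℤ), (k : ℤ)) →
  (1 + Q * k * j * M ∈ NB s a b c Q D (Q * k ^ 2 * j) ∨
    M + Q * k * j * (Phi a b c ((M : ℤ), (k : ℤ))).toNat ∈ NB s a b c Q D k)

/-- EXC: few elements of `NB k` violate `Cond` -/
def P_Exc : Prop := ∀ (s : ℕ → ℤ) (a : ℕ) (b c : ℤ) (Q : ℕ) (D e : ℤ) (U : Set ℕ),
  Red a b c Q D → Hyp s a b c e U → ∀ k L : ℕ, 0 < k → ∃ X0 : ℕ, ∀ X : ℕ, X0 ≤ X → ∀ z : ℕ,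
  (z : ℝ) ≤ (X : ℝ) ^ (1 / 100 : ℝ) →
  (cnt {M | M ∈ NB s a b c Q D k ∧ ¬ Cond a b c Q k L z M} X : ℝ) ≤ (X : ℝ) ^ (99 / 100 : ℝ)

/-- ROOTS: for large `q` the excluded classes are all different -/
def P_Roots : Prop := ∀ (a : ℕ) (b c : ℤ) (Q : ℕ) (D : ℤ), Red a b c Q D → ∀ k L m : ℕ,
  0 < k → 0 < m → ∃ q0 : ℕ, ∀ q : ℕ, q.Prime → q0 ≤ q → jacobiSym D q = 1 → ∀ r : ℕ,
  ∀ A : Finset ℕ, A ⊆ Icc 1 L → (RS a b c Q k r m q A).card = 2 * A.card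

/-- MERTLOW -/
def P_MertLow : Prop := ∀ m : ℕ, 0 < m → ∃ C : ℝ, ∀ r : ℕ, Nat.Coprime r m → ∀ z : ℕ, 3 ≤ z →
  Real.log (Real.log z) / m - C ≤
    ∑ p ∈ (range (z + 1)).filter (fun p => p.Prime ∧ p ≡ r [MOD m]), (1 : ℝ) / p

/-- NBCOUNT: `NB k` is very sparse -/
def P_NBcount : Prop := ∀ (s : ℕ → ℤ) (a : ℕ) (b c : ℤ) (Q : ℕ) (D e : ℤ) (U : Set ℕ),
  Red a b c Q D → Hyp s a b c e U → ∀ k : ℕ, 0 < k → ∀ A : ℕ, ∃ C : ℝ, ∀ X : ℕ, 2 ≤ X →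
  (cnt (NB s a b c Q D k) X : ℝ) ≤ C * X / (Real.log X) ^ A

/-- LANDREAU -/
def P_Landreau : Prop := ∀ r y m : ℕ, 2 ≤ y → 0 < m → m ^ 2 ≤ y ^ r →
  ∃ d : ℕ, d ∣ m ∧ d ≤ y ∧ m.divisors.card ≤ (2 ^ r * d.divisors.card) ^ r

/-- ROOTCOUNT -/
def P_RootCount : Prop := ∀ (a : ℕ) (b c : ℤ) (Q : ℕ) (D : ℤ), Red a b c Q D → ∀ k d : ℕ,
  0 < k → 0 < d → d.Coprime (Q * k) →
  ((range d).filter (fun M : ℕ => (d : ℤ) ∣ Phi a b c ((M : ℤ), (k : ℤ)))).card ≤ d.divisors.card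

/-- TAUSUM -/
def P_TauSum : Prop := ∀ j y : ℕ,
  ∑ d ∈ Icc 1 y, (d.divisors.card : ℝ) ^ j / d ≤ (1 + Real.log y) ^ (2 ^ j)

/-- TAUMOMENT -/
def P_TauMoment : Prop := ∀ (a : ℕ) (b c : ℤ) (Q : ℕ) (D : ℤ), Red a b c Q D → ∀ k : ℕ, 0 < k →
  ∃ (C : ℝ) (A : ℕ), ∀ X : ℕ, 2 ≤ X →
  ∑ M ∈ (Icc 1 X).filter (fun M : ℕ => M.Coprime (Q * k)),
    ((Phi a b c ((M : ℤ), (k : ℤ))).natAbs.divisors.card : ℝ) ^ 2 ≤ C * X * (Real.log X) ^ A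

/-- NBSUM -/
def P_NBsum : Prop := ∀ (s : ℕ → ℤ) (a : ℕ) (b c : ℤ) (Q : ℕ) (D e : ℤ) (U : Set ℕ),
  Red a b c Q D → Hyp s a b c e U → ∀ k : ℕ, 0 < k → Summable (nbw s a b c Q D k)

/-! ### pairs of vectors -/

/-- PAIRS -/
def P_Pairs : Prop := ∀ (s : ℕ → ℤ) (a : ℕ) (b c : ℤ) (Q : ℕ) (D : ℤ), IsSign s → Red a b c Q D →
  ∀ v w : ℤ × ℤ, Vp Q D v → Vp Q D w → 0 < dt v w → 0 < ip b (a * c) v w →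
  cl s a b c v ≠ cl s a b c w →
  ∃ q M k : ℕ, 0 < q ∧ 0 < k ∧ ip b (a * c) v w = q * M ∧ dt v w = q * k ∧ M ∈ NB s a b c Q D k

/-- PRODV -/
def P_ProdV : Prop := ∀ (a : ℕ) (b c : ℤ) (Q : ℕ) (D : ℤ), Red a b c Q D →
  ∀ u v : ℤ × ℤ, Vp Q D u → Vp Q D v → 0 < (mulv b (a * c) u v).1 →
  ∃ (m : ℤ) (w : ℤ × ℤ), 0 < m ∧ mulv b (a * c) u v = m • w ∧ Vp Q D w

/-- GEOM -/
def P_Geom : Prop := ∀ (a : ℕ) (b c : ℤ) (Q N : ℕ), BigN a b c Q N → ∀ v w : ℤ × ℤ,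
  Reg N v → Reg N w → 3 * (v.1 * w.1) ≤ 4 * ip b (a * c) v w ∧
    4 * ip b (a * c) v w ≤ 5 * (v.1 * w.1)

/-! ### the tree -/

/-- INJ -/
def P_Inj : Prop := ∀ N : ℕ, 0 < N → Function.Injective (fun w : List Bool => desc (root N) w)

/-- OVER: the reference sets of an edge and of its children overlap -/
def P_Over : Prop := ∀ (Q : ℕ) (D : ℤ), 0 < Q → 8 * D ∣ (Q : ℤ) → ∀ (N : ℕ) (e : Edge), 0 < N →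
  IsEdge N e → ∀ t : Bool, ∃ v : ℤ × ℤ, v ∈ SS Q D e ∧ v ∈ SS Q D (child t e)

/-- WIT: the data of a balanced defective edge -/
def P_Wit : Prop := ∀ (s : ℕ → ℤ) (a : ℕ) (b c : ℤ) (Q : ℕ) (D : ℤ), IsSign s → Red a b c Q D →
  ∀ N : ℕ, BigN a b c Q N → ∃ C : ℝ, 0 ≤ C ∧ ∀ e : Edge, IsEdge N e → Bal e →
  Defect s a b c Q D e → ∃ z ∈ SS Q D e, ∃ w ∈ SS Q D e, ∃ q M k : ℕ, 0 < q ∧ 0 < k ∧
    q * k ≤ KK Q ^ 2 ∧ dt z w = q * k ∧ ip b (a * c) z w = q * M ∧ M ∈ NB s a b c Q D k ∧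
    theta e ≤ C * (1 + Real.log M) ^ 2 / M

/-- INJZ: uniqueness of the pair -/
def P_InjZ : Prop := ∀ (a : ℕ) (b c : ℤ) (Q : ℕ) (D : ℤ), Red a b c Q D →
  ∀ N : ℕ, BigN a b c Q N → ∀ (z w z' w' : ℤ × ℤ) (q M k : ℕ), 0 < q → 0 < k →
  q * k ≤ KK Q ^ 2 → Nat.Coprime M k → Reg N z → Reg N z' → IsCoprime z.1 z.2 →
  IsCoprime z'.1 z'.2 → dt z w = q * k → dt z' w' = q * k → ip b (a * c) z w = q * M →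
  ip b (a * c) z' w' = q * M → Phi a b c z = Phi a b c z' → z = z' ∧ w = w'

/-- DEFSUM -/
def P_DefSum : Prop := ∀ (s : ℕ → ℤ) (a : ℕ) (b c : ℤ) (Q : ℕ) (D : ℤ), IsSign s → Red a b c Q D →
  (∀ k : ℕ, 0 < k → Summable (nbw s a b c Q D k)) → ∀ N : ℕ, BigN a b c Q N →
  wt (fun e => Bal e ∧ Defect s a b c Q D e) (root N) < ⊤

/-- THRSUM -/
def P_ThrSum : Prop := ∀ N : ℕ, 0 < N → wt (fun e => ¬ Bal e ∧ Bal (par e)) (root N) < ⊤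

/-- SELECT -/
def P_Select : Prop := ∀ (N : ℕ) (B : Edge → Prop), 0 < N → wt B (root N) < ⊤ →
  ∀ η : ℝ, 0 < η → ∃ w : List Bool, Bal (desc (root N) w) ∧
    wt B (desc (root N) w) ≤ ENNReal.ofReal (η * theta (desc (root N) w))

/-- PATH -/
def P_Path : Prop := ∀ (s : ℕ → ℤ) (a : ℕ) (b c : ℤ) (Q : ℕ) (D : ℤ), Red a b c Q D →
  ∀ (N : ℕ) (e : Edge), 0 < N → IsEdge N e → Bal e → ∀ v : ℤ × ℤ, Vp Q D v → Cone e v →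
  (∀ w : List Bool, Bad s a b c Q D (desc e w) → ¬ Cone (desc e w) v) →
  ∀ z ∈ SS Q D e, cl s a b c v = cl s a b c z

/-! ### counting -/

/-- CONE1: many vectors of `Vp` in a cone -/
def P_Cone1 : Prop := ∀ (Q : ℕ) (D : ℤ), 0 < Q → 8 * D ∣ (Q : ℤ) → ∃ κ : ℝ, 0 < κ ∧
  ∀ (N : ℕ) (e : Edge), 0 < N → IsEdge N e → ∃ Y0 : ℕ, ∀ Y : ℕ, Y0 ≤ Y →
  κ * theta e * Y ^ 2 ≤ ((box Y (fun v => Vp Q D v ∧ Cone e v)).card : ℝ)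

/-- CONE2: upper bound -/
def P_Cone2 : Prop := ∀ (N : ℕ) (e : Edge), 0 < N → IsEdge N e → ∀ Y : ℕ,
  ((boxA Y (Cone e)).card : ℝ) ≤ theta e * Y ^ 2

/-- SPACING: primitive vectors with slope in an interval -/
def P_Spacing : Prop := ∀ (Y : ℕ) (α β : ℝ), α ≤ β →
  ((box Y (fun v => α < (v.2 : ℝ) / v.1 ∧ (v.2 : ℝ) / v.1 < β)).card : ℝ) ≤
    1 + (β - α) * Y ^ 2

/-- UMULT: multiplication by `u` on slopes -/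
def P_Umult : Prop := ∀ (a : ℕ) (b c : ℤ) (Q : ℕ) (N : ℕ), BigN a b c Q N →
  ∀ u : ℤ × ℤ, Reg N u → ∀ e : Edge, IsEdge N e → ∀ Y : ℕ,
  (((box Y (fun v => Reg N v ∧ Cone e (mulv b (a * c) u v))).card : ℝ) ≤
      1 + 8 * theta e * Y ^ 2) ∧
  (((box Y (fun v => Reg N v ∧ Cone e (mulv b (a * c) u v))).card : ℝ) ≤
      4 * (u.1 : ℝ) ^ 2 * theta e * Y ^ 2) ∧
  (((box Y (fun v => Cone e v ∧ ¬ Cone e (mulv b (a * c) u v))).card : ℝ) ≤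
      1 + 8 * ((u.2 : ℝ) / u.1) * Y ^ 2)

/-- CONELEN: only short words matter -/
def P_ConeLen : Prop := ∀ (N : ℕ) (e : Edge), 0 < N → IsEdge N e → ∀ (w : List Bool) (v : ℤ × ℤ),
  Cone (desc e w) v → (w.length : ℤ) < v.1

/-! ### the multiplier `u` -/

/-- LEGENDRE -/
def P_Legendre : Prop := ∀ D : ℤ, ¬ IsSquare D → D ≠ -1 → ∀ q : ℕ, q.Prime →
  q ≡ 1 [MOD 8 * D.natAbs] → ∃ X Y Z : ℤ, Y ≠ 0 ∧ X ^ 2 - D * Y ^ 2 = q * Z ^ 2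

/-- KAPPA: square roots of `q` modulo powers of `Q` -/
def P_Kappa : Prop := ∀ Q q : ℕ, 8 ∣ Q → 0 < Q → q ≡ 1 [MOD Q ^ 2] → ∀ E : ℕ,
  ∃ κ : ℤ, κ ≡ 1 [ZMOD 4 * Q] ∧ κ ^ 2 ≡ q [ZMOD Q ^ E]

/-- UEX: a multiplier of negative colour and small slope -/
def P_Uex : Prop := ∀ (s : ℕ → ℤ) (a : ℕ) (b c : ℤ) (Q : ℕ) (D : ℤ), IsSign s → Red a b c Q D →
  ManyQ s → ∀ δ : ℝ, 0 < δ → ∃ u : ℤ × ℤ, Vp Q D u ∧ 0 < u.2 ∧ (u.2 : ℝ) ≤ δ * u.1 ∧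
  cl s a b c u = -1

/-! ### the contradiction -/

/-- CON -/
def P_Con : Prop := ∀ (s : ℕ → ℤ) (a : ℕ) (b c : ℤ) (Q : ℕ) (D : ℤ), IsSign s → Red a b c Q D →
  ∀ N : ℕ, BigN a b c Q N → wt (Bad s a b c Q D) (root N) < ⊤ →
  (∀ δ : ℝ, 0 < δ → ∃ u : ℤ × ℤ, Vp Q D u ∧ 0 < u.2 ∧ (u.2 : ℝ) ≤ δ * u.1 ∧
    cl s a b c u = -1) → False

/-- MAIN: no sign is eventually avoided -/
def P_Main : Prop := ∀ (s : ℕ → ℤ) (a : ℕ) (b c : ℤ) (Q : ℕ) (D e : ℤ) (U : Set ℕ),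
  Red a b c Q D → Hyp s a b c e U → ManyQ s → False

/-- FINAL -/
def P_Final : Prop := ∀ (s : ℕ → ℤ), IsSign s → ManyQ s → ∀ A B C : ℤ, A ≠ 0 →
  ¬ IsSquare (B ^ 2 - 4 * A * C) → ∀ N r : ℕ, 0 < N → ∀ e : ℤ, (e = 1 ∨ e = -1) → ∀ X0 : ℕ,
  ∃ X : ℕ, X0 ≤ X ∧ (X : ℝ) ^ (1 / 5 : ℝ) ≤
    (((range (X + 1)).filter (fun n : ℕ => n ≡ r [MOD N] ∧
      s (A * (n : ℤ) ^ 2 + B * n + C).natAbs = e)).card : ℝ)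

end Pool.Agent.Quad
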