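import Pool.Agent.Quad.Basic
import Pool.Agent.Quad.Stmt

set_option autoImplicit false

/-! # ROOTS: for large `q` the excluded classes are all different -/

namespace Pool.Agent.Quad

open Pool.Agent.FareyParity Finset

theorem rt_key {D : ℤ} (hD : ¬ IsSquare D) {Q k i j : ℕ} (hQ : 0 < Q) (hk : 0 < k)
    (hi : 0 < i) (hj : 0 < j) :
    ((i : ℤ) - j) ^ 2 - D * ((Q : ℤ) ^ 2 * k ^ 2 * i * j) ^ 2 ≠ 0 := by
  intro h
  have h2 : ((i : ℤ) - j) ^ 2 = D * ((Q : ℤ) ^ 2 * k ^ 2 * i * j) ^ 2 := by linarith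
  exact not_sq_eq hD (by positivity) h2

theorem roots_main : P_Roots := by
  classical
  intro a b c Q D hR k L m hk hm
  have hQ := hR.Q_pos
  have hD0 := hR.D_ne_zero
  refine ⟨L ^ 2 + D.natAbs * (Q ^ 2 * k ^ 2 * L * L) ^ 2 + Q * k + L + m + 3, ?_⟩
  intro q hq hqq hJ r A hA
  have : Fact q.Prime := ⟨hq⟩
  have hJ' : jacobiSym D q = 1 := hJ
  -- square root of D
  have hsq : IsSquare ((D : ℤ) : ZMod q) := ZMod.isSquare_of_jacobiSym_eq_one hJ'
  obtain ⟨δ, hδ⟩ := hsq
  have nz : ∀ n : ℕ, 0 < n → n < q → ((n : ℕ) : ZMod q) ≠ 0 := by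
    intro n h1 h2 h3
    rw [ZMod.natCast_eq_zero_iff] at h3
    exact absurd (Nat.le_of_dvd h1 h3) (by omega)
  have hQk : 0 < Q * k := Nat.mul_pos hQ hk
  have hQle : Q ≤ Q * k := Nat.le_mul_of_pos_right _ hk
  have hkle : k ≤ Q * k := Nat.le_mul_of_pos_left _ hQ
  have nQ : ((Q : ℕ) : ZMod q) ≠ 0 := nz Q hQ (by omega)
  have nk : ((k : ℕ) : ZMod q) ≠ 0 := nz k hk (by omega)
  have nm : ((m : ℕ) : ZMod q) ≠ 0 := nz m hm (by omega)
  have n2 : (2 : ZMod q) ≠ 0 := by
    have := nz 2 (by norm_num) (by omega)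
    simpa using this
  have nj : ∀ j ∈ A, ((j : ℕ) : ZMod q) ≠ 0 := by
    intro j hj
    have := mem_Icc.mp (hA hj)
    exact nz j (by omega) (by omega)
  -- the key noncongruence
  have hkey : ∀ i ∈ A, ∀ j ∈ A, ((i : ZMod q) - j) ^ 2 ≠
      δ ^ 2 * ((Q : ZMod q) ^ 2 * (k : ZMod q) ^ 2 * i * j) ^ 2 := by
    intro i hi j hj h
    have hi' := mem_Icc.mp (hA hi)
    have hj' := mem_Icc.mp (hA hj)
    have h1 : (((((i : ℤ) - j) ^ 2 - D * ((Q : ℤ) ^ 2 * k ^ 2 * i * j) ^ 2 : ℤ)) : ZMod q) = 0 := by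
      push_cast
      rw [hδ, h]
      ring
    rw [ZMod.intCast_zmod_eq_zero_iff_dvd] at h1
    have h2 := Int.natAbs_dvd_natAbs.mpr h1
    have h3 := Nat.le_of_dvd (Int.natAbs_pos.mpr (rt_key hR.D_ns hQ hk (by omega) (by omega))) h2
    have h4 : (((i : ℤ) - j) ^ 2 - D * ((Q : ℤ) ^ 2 * k ^ 2 * i * j) ^ 2).natAbs ≤
        L ^ 2 + D.natAbs * (Q ^ 2 * k ^ 2 * L * L) ^ 2 := by
      refine (Int.natAbs_sub_le _ _).trans ?_
      apply Nat.add_le_add
      · rw [Int.natAbs_pow]
        apply Nat.pow_le_pow_left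
        omega
      · rw [Int.natAbs_mul, Int.natAbs_pow]
        apply Nat.mul_le_mul_left
        apply Nat.pow_le_pow_left
        have e : ((Q : ℤ) ^ 2 * k ^ 2 * i * j).natAbs = Q ^ 2 * k ^ 2 * i * j := by
          have : ((Q : ℤ) ^ 2 * k ^ 2 * i * j) = ((Q ^ 2 * k ^ 2 * i * j : ℕ) : ℤ) := by push_cast; rfl
          rw [this, Int.natAbs_natCast]
        rw [e]
        apply Nat.mul_le_mul (Nat.mul_le_mul_left _ hi'.2) hj'.2
    have h5 : ((q : ℤ)).natAbs = q := Int.natAbs_natCast q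
    rw [h5] at h3
    omega
  -- the parametrisation
  let sg : Bool → ZMod q := fun t => if t then δ else -δ
  have hsg : ∀ t, sg t ^ 2 = δ ^ 2 := by
    intro t; cases t <;> simp [sg]
  have hδ0 : δ ≠ 0 := by
    intro h0
    have h1 : ((D : ℤ) : ZMod q) = 0 := by rw [hδ, h0]; ring
    have h2 : jacobiSym D q = 0 := by
      rw [← jacobiSym.legendreSym.to_jacobiSym]
      exact (legendreSym.eq_zero_iff q D).mpr h1
    rw [h2] at hJ'
    exact absurd hJ' (by norm_num)
  let T : ℕ × Bool → ZMod q := fun p =>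
    ((-1 / ((Q : ZMod q) * k * (p.1 : ZMod q)) + (-(b : ZMod q) * k + sg p.2 * Q * k) / 2) - r) / m
  have hT : ∀ j ∈ A, ∀ t : ZMod q, (4 * ((1 + (Q : ZMod q) * k * j * (r + m * t)) ^ 2
      + b * (1 + (Q : ZMod q) * k * j * (r + m * t)) * (Q * k ^ 2 * j)
      + (a * c) * (Q * k ^ 2 * j) ^ 2) = 0) ↔ ∃ e : Bool, T (j, e) = t := by
    intro j hj t
    have nj' := nj j hj
    have hdisc : ((b : ZMod q)) ^ 2 - 4 * a * c = δ ^ 2 * (Q : ZMod q) ^ 2 := by
      have h : ((b ^ 2 - 4 * (a : ℤ) * c : ℤ) : ZMod q) = ((D * (Q : ℤ) ^ 2 : ℤ) : ZMod q) :=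
        congrArg _ hR.disc
      push_cast at h
      rw [h, hδ]
      ring
    have e1 : 4 * ((1 + (Q : ZMod q) * k * j * (r + m * t)) ^ 2
      + b * (1 + (Q : ZMod q) * k * j * (r + m * t)) * (Q * k ^ 2 * j)
      + (a * c) * (Q * k ^ 2 * j) ^ 2) =
      (2 * (1 + (Q : ZMod q) * k * j * (r + m * t)) + b * (Q * k ^ 2 * j) - δ * Q * (Q * k ^ 2 * j)) *
      (2 * (1 + (Q : ZMod q) * k * j * (r + m * t)) + b * (Q * k ^ 2 * j)
        + δ * Q * (Q * k ^ 2 * j)) := by
      linear_combination (-(Q * k ^ 2 * j : ZMod q) ^ 2) * hdisc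
    rw [e1, mul_eq_zero]
    have hiff : ∀ e : Bool, T (j, e) = t ↔ 2 * (1 + (Q : ZMod q) * k * j * (r + m * t)) +
        b * (Q * k ^ 2 * j) - sg e * Q * (Q * k ^ 2 * j) = 0 := by
      intro e
      show ((-1 / ((Q : ZMod q) * k * (j : ZMod q)) + (-(b : ZMod q) * k + sg e * Q * k) / 2) - r) / m
        = t ↔ _
      constructor
      · intro h
        rw [← h]
        field_simp
        ring
      · intro h
        rw [div_eq_iff nm]
        have h2 : (r : ZMod q) + m * t = -1 / ((Q : ZMod q) * k * (j : ZMod q)) +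
            (-(b : ZMod q) * k + sg e * Q * k) / 2 := by
          field_simp
          linear_combination h
        linear_combination (-1 : ZMod q) * h2
    constructor
    · rintro (h | h)
      · exact ⟨true, (hiff true).mpr h⟩
      · refine ⟨false, (hiff false).mpr ?_⟩
        simp only [sg]
        simp
        linear_combination h
    · rintro ⟨e, he⟩
      have h := (hiff e).mp he
      cases e
      · right
        simp only [sg] at h
        simp at h
        linear_combination h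
      · left
        simpa [sg] using h
  -- injectivity
  have hinj : Set.InjOn T ((A ×ˢ (univ : Finset Bool) : Finset (ℕ × Bool)) : Set (ℕ × Bool)) := by
    rintro ⟨i, e⟩ h1 ⟨j, e'⟩ h2 h
    simp only [coe_product, Set.mem_prod, mem_coe] at h1 h2
    have hi := h1.1
    have hj := h2.1
    have ni := nj i hi
    have nj' := nj j hj
    have h3 : -1 / ((Q : ZMod q) * k * (i : ZMod q)) + (-(b : ZMod q) * k + sg e * Q * k) / 2 =
        -1 / ((Q : ZMod q) * k * (j : ZMod q)) + (-(b : ZMod q) * k + sg e' * Q * k) / 2 := by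
      have h4 : T (i, e) * m = T (j, e') * m := by rw [h]
      simp only [T] at h4
      rw [div_mul_cancel₀ _ nm, div_mul_cancel₀ _ nm] at h4
      linear_combination h4
    have h4 : 2 * ((i : ZMod q) - j) = (sg e' - sg e) * (Q ^ 2 * k ^ 2 * i * j) := by
      field_simp at h3
      linear_combination h3
    have hij : ∀ i j : ℕ, i ∈ A → j ∈ A → ((i : ZMod q)) = j → i = j := by
      intro i j hi hj hc
      have hi' := mem_Icc.mp (hA hi)
      have hj' := mem_Icc.mp (hA hj)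
      have := (ZMod.natCast_eq_natCast_iff' i j q).mp hc
      rw [Nat.mod_eq_of_lt (by omega), Nat.mod_eq_of_lt (by omega)] at this
      exact this
    by_cases hee : e = e'
    · subst hee
      rw [sub_self, zero_mul] at h4
      have h5 : (i : ZMod q) - j = 0 := (mul_eq_zero.mp h4).resolve_left n2
      have h6 := hij i j hi hj (sub_eq_zero.mp h5)
      rw [h6]
    · exfalso
      have h5 : (sg e' - sg e) ^ 2 = 4 * δ ^ 2 := by
        cases e <;> cases e' <;> simp_all [sg] <;> ring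
      have h6 : 4 * ((i : ZMod q) - j) ^ 2 =
          4 * (δ ^ 2 * ((Q : ZMod q) ^ 2 * (k : ZMod q) ^ 2 * i * j) ^ 2) := by
        have h7 : (2 * ((i : ZMod q) - j)) ^ 2 =
            (sg e' - sg e) ^ 2 * ((Q : ZMod q) ^ 2 * k ^ 2 * i * j) ^ 2 := by
          rw [h4]; ring
        rw [h5] at h7
        linear_combination h7
      have n4 : (4 : ZMod q) ≠ 0 := by
        have : (4 : ZMod q) = 2 * 2 := by norm_num
        rw [this]; exact mul_ne_zero n2 n2
      exact hkey i hi j hj (mul_left_cancel₀ n4 h6)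
  -- the set
  have himg : (RS a b c Q k r m q A).image (fun t : ℕ => (t : ZMod q)) =
      (A ×ˢ (univ : Finset Bool)).image T := by
    have hphi : ∀ (j t : ℕ), ((q : ℤ) ∣ Phi a b c (((1 + Q * k * j * (r + m * t) : ℕ) : ℤ),
        ((Q * k ^ 2 * j : ℕ) : ℤ))) ↔
        4 * ((1 + (Q : ZMod q) * k * j * (r + m * (t : ZMod q))) ^ 2
        + b * (1 + (Q : ZMod q) * k * j * (r + m * (t : ZMod q))) * (Q * k ^ 2 * j)
        + (a * c) * (Q * k ^ 2 * j) ^ 2) = 0 := by
      intro j t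
      rw [← ZMod.intCast_zmod_eq_zero_iff_dvd]
      have n4 : (4 : ZMod q) ≠ 0 := by
        have : (4 : ZMod q) = 2 * 2 := by norm_num
        rw [this]; exact mul_ne_zero n2 n2
      rw [mul_eq_zero, or_iff_right n4]
      unfold Phi nf
      push_cast
      rfl
    ext z
    simp only [mem_image, RS, mem_filter, mem_range, mem_product, mem_univ, and_true, Prod.exists]
    constructor
    · rintro ⟨t, ⟨ht, j, hj, hd⟩, rfl⟩
      obtain ⟨e, he⟩ := (hT j hj (t : ZMod q)).mp ((hphi j t).mp hd)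
      exact ⟨j, e, hj, he⟩
    · rintro ⟨j, e, hj, he⟩
      refine ⟨z.val, ⟨ZMod.val_lt z, j, hj, ?_⟩, ZMod.natCast_zmod_val z⟩
      rw [hphi, ZMod.natCast_zmod_val]
      exact (hT j hj z).mpr ⟨e, he⟩
  have hc1 : ((RS a b c Q k r m q A).image (fun t : ℕ => (t : ZMod q))).card =
      (RS a b c Q k r m q A).card := by
    apply card_image_of_injOn
    intro s hs t ht hst
    simp only [RS, coe_filter, mem_range, Set.mem_ofPred_eq] at hs ht
    have := (ZMod.natCast_eq_natCast_iff' s t q).mp hst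
    rw [Nat.mod_eq_of_lt hs.1, Nat.mod_eq_of_lt ht.1] at this
    exact this
  rw [← hc1, himg, card_image_of_injOn hinj, card_product]
  simp
  ring

end Pool.Agent.Quad
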