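import Pool.Agent.Quad.Stmt

set_option autoImplicit false

namespace Pool.Agent.Quad

open Pool.Agent.FareyParity Finset
open scoped ENNReal

namespace Sel

theorem desc_append (e : Edge) (u w : List Bool) : desc e (u ++ w) = desc (desc e u) w := by
  induction u generalizing e with
  | nil => rfl
  | cons t u ih => exact ih (child t e)

/-- positive first coordinates -/
def Pos (e : Edge) : Prop := 0 < e.1.1 ∧ 0 < e.2.1

theorem pos_child {e : Edge} (h : Pos e) (t : Bool) : Pos (child t e) := by
  obtain ⟨h1, h2⟩ := h
  cases t <;> simp only [child, Pos] <;> simp <;> omega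

theorem pos_desc {e : Edge} (h : Pos e) (w : List Bool) : Pos (desc e w) := by
  induction w generalizing e with
  | nil => exact h
  | cons t w ih => exact ih (pos_child h t)

theorem theta_pos {e : Edge} (h : Pos e) : 0 < theta e := by
  obtain ⟨h1, h2⟩ := h
  have h1' : (0 : ℝ) < (e.1.1 : ℝ) := by exact_mod_cast h1
  have h2' : (0 : ℝ) < (e.2.1 : ℝ) := by exact_mod_cast h2
  unfold theta; positivity

theorem theta_child {e : Edge} (h : Pos e) :
    theta e = theta (child false e) + theta (child true e) := by
  obtain ⟨h1, h2⟩ := h
  have h1' : (0 : ℝ) < (e.1.1 : ℝ) := by exact_mod_cast h1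
  have h2' : (0 : ℝ) < (e.2.1 : ℝ) := by exact_mod_cast h2
  simp only [theta, child]
  simp
  field_simp
  ring

theorem rho_ge (h : ℤ) : 4 ≤ rho h := by
  unfold rho
  have : (0 : ℤ) ≤ (Nat.log 2 h.natAbs : ℤ) := by positivity
  nlinarith

open Classical in
/-- weight of a single edge -/
noncomputable def g (B : Edge → Prop) (e : Edge) : ℝ≥0∞ :=
  if B e then ENNReal.ofReal (theta e) else 0

theorem wt_eq (B : Edge → Prop) (e : Edge) : wt B e = ∑' w : List Bool, g B (desc e w) := by
  unfold wt g
  rfl

/-- the edges leaving the chain -/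
def spine (t : Bool) (e : Edge) (i : ℕ) : Edge :=
  child (!t) (desc e (List.replicate i t))

theorem spine_words_inj (t : Bool) :
    Function.Injective (fun x : ℕ × List Bool => List.replicate x.1 t ++ (!t) :: x.2) := by
  rintro ⟨i, u⟩ ⟨j, v⟩ h
  simp only at h
  induction i generalizing j with
  | zero =>
    cases j with
    | zero => simp at h; simp [h]
    | succ j => 
      simp only [List.replicate_zero, List.nil_append, List.replicate_succ, List.cons_append,
        List.cons.injEq] at h
      exact absurd h.1 (by cases t <;> simp)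
  | succ i ih =>
    cases j with
    | zero =>
      simp only [List.replicate_zero, List.nil_append, List.replicate_succ, List.cons_append,
        List.cons.injEq] at h
      exact absurd h.1 (by cases t <;> simp)
    | succ j =>
      simp only [List.replicate_succ, List.cons_append, List.cons.injEq, true_and] at h
      have := ih j h
      simp only [Prod.mk.injEq] at this ⊢
      exact ⟨by rw [this.1], this.2⟩

theorem wt_spine (B : Edge → Prop) (t : Bool) (e : Edge) :
    ∑' i : ℕ, wt B (spine t e i) ≤ wt B e := by
  have h1 : ∑' i : ℕ, wt B (spine t e i) =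
      ∑' x : ℕ × List Bool, g B (desc e (List.replicate x.1 t ++ (!t) :: x.2)) := by
    rw [ENNReal.tsum_prod (f := fun (i : ℕ) (w : List Bool) =>
      g B (desc e (List.replicate i t ++ (!t) :: w)))]
    congr 1
    ext i
    rw [wt_eq]
    congr 1
    ext w
    rw [desc_append]
    rfl
  rw [h1, wt_eq]
  exact ENNReal.tsum_comp_le_tsum_of_injective (spine_words_inj t) (fun w => g B (desc e w))

theorem desc_false (e : Edge) (i : ℕ) :
    desc e (List.replicate i false) = (e.1, e.2 + (i : ℤ) • e.1) := by
  induction i generalizing e with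
  | zero => simp [desc]
  | succ i ih =>
    rw [List.replicate_succ]
    show desc (child false e) _ = _
    rw [ih]
    simp only [child]
    ext <;> simp <;> ring

theorem desc_true (e : Edge) (i : ℕ) :
    desc e (List.replicate i true) = (e.1 + (i : ℤ) • e.2, e.2) := by
  induction i generalizing e with
  | zero => simp [desc]
  | succ i ih =>
    rw [List.replicate_succ]
    show desc (child true e) _ = _
    rw [ih]
    simp only [child]
    ext <;> simp <;> ring

/-- the small and the large first coordinate, seen from the side `t` -/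
theorem spine_false (e : Edge) (i : ℕ) : (spine false e i).1.1 = e.2.1 + (i + 1) * e.1.1 ∧
    (spine false e i).2.1 = e.2.1 + i * e.1.1 := by
  simp only [spine, desc_false, child]
  constructor <;> simp <;> ring

theorem spine_true (e : Edge) (i : ℕ) : (spine true e i).1.1 = e.1.1 + i * e.2.1 ∧
    (spine true e i).2.1 = e.1.1 + (i + 1) * e.2.1 := by
  simp only [spine, desc_true, child]
  constructor <;> simp <;> ring

theorem tele (x X : ℝ) (hx : 0 < x) (hX : 0 < X) (n : ℕ) :
    ∑ i ∈ range n, 1 / ((X + i * x) * (X + (i + 1) * x)) = 1 / (x * X) - 1 / (x * (X + n * x)) := by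
  induction n with
  | zero => simp
  | succ n ih =>
    rw [Finset.sum_range_succ, ih]
    have h1 : 0 < X + n * x := by positivity
    have h2 : 0 < X + (n + 1) * x := by positivity
    push_cast
    field_simp
    ring

theorem tele_half (x X : ℤ) (hx : 0 < x) (hX : 0 < X) : ∃ n : ℕ,
    1 / ((x : ℝ) * X) / 2 ≤ ∑ i ∈ range n, 1 / (((X : ℝ) + i * x) * (X + (i + 1) * x)) := by
  have hx' : (1 : ℝ) ≤ (x : ℝ) := by exact_mod_cast hx
  have hX' : (0 : ℝ) < (X : ℝ) := by exact_mod_cast hX
  refine ⟨X.toNat, ?_⟩
  rw [tele _ _ (by linarith) hX']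
  have hn : ((X.toNat : ℕ) : ℝ) = (X : ℝ) := by
    have : ((X.toNat : ℕ) : ℤ) = X := Int.toNat_of_nonneg hX.le
    exact_mod_cast this
  rw [hn]
  have h2 : 1 / ((x : ℝ) * (X + X * x)) ≤ 1 / ((x : ℝ) * X) / 2 := by
    rw [div_div]
    apply one_div_le_one_div_of_le (by positivity)
    nlinarith [mul_pos hX' (by linarith : (0:ℝ) < x)]
  linarith

/-- unbalanced edges have enough weight -/
theorem step1 (B : Edge → Prop) (η : ℝ) (hη : 0 < η) (e : Edge) (he : Pos e)
    (H : ∀ w : List Bool, Bal (desc e w) →
      ENNReal.ofReal (η * theta (desc e w)) ≤ wt B (desc e w)) :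
    ENNReal.ofReal (η / 2 * theta e) ≤ wt B e := by
  by_cases hb : Bal e
  · refine le_trans ?_ (H [] hb)
    apply ENNReal.ofReal_le_ofReal
    have := theta_pos he
    show _ ≤ η * theta e
    nlinarith
  · -- unbalanced
    obtain ⟨h1, h2⟩ := he
    have key : ∃ (t : Bool) (n : ℕ), theta e / 2 ≤ ∑ i ∈ range n, theta (spine t e i) ∧
        ∀ i, Bal (spine t e i) := by
      unfold Bal at hb
      rw [not_and_or, not_le, not_le] at hb
      rcases hb with hb | hb
      · obtain ⟨n, hn⟩ := tele_half e.1.1 e.2.1 h1 h2
        refine ⟨false, n, ?_, ?_⟩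
        · refine le_trans (le_of_eq ?_) (le_trans hn (le_of_eq ?_))
          · rfl
          · apply Finset.sum_congr rfl
            intro i _
            unfold theta
            rw [(spine_false e i).1, (spine_false e i).2]
            push_cast
            ring
        · intro i
          have hr := rho_ge e.1.1
          have hlt : e.1.1 < e.2.1 := by nlinarith
          have hi : (0 : ℤ) ≤ (i : ℤ) * e.1.1 := by positivity
          unfold Bal
          rw [(spine_false e i).1, (spine_false e i).2]
          have r1 := rho_ge (e.2.1 + (i + 1) * e.1.1)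
          have r2 := rho_ge (e.2.1 + i * e.1.1)
          constructor <;> nlinarith
      · obtain ⟨n, hn⟩ := tele_half e.2.1 e.1.1 h2 h1
        refine ⟨true, n, ?_, ?_⟩
        · refine le_trans (le_of_eq ?_) (le_trans hn (le_of_eq ?_))
          · unfold theta; rw [mul_comm]
          · apply Finset.sum_congr rfl
            intro i _
            unfold theta
            rw [(spine_true e i).1, (spine_true e i).2]
            push_cast
            ring
        · intro i
          have hr := rho_ge e.2.1
          have hlt : e.2.1 < e.1.1 := by nlinarith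
          have hi : (0 : ℤ) ≤ (i : ℤ) * e.2.1 := by positivity
          unfold Bal
          rw [(spine_true e i).1, (spine_true e i).2]
          have r1 := rho_ge (e.1.1 + (i + 1) * e.2.1)
          have r2 := rho_ge (e.1.1 + i * e.2.1)
          constructor <;> nlinarith
    obtain ⟨t, n, hn, hbal⟩ := key
    have hpos : ∀ i, 0 ≤ η * theta (spine t e i) := fun i =>
      mul_nonneg hη.le (theta_pos (pos_child (pos_desc ⟨h1, h2⟩ _) _)).le
    calc ENNReal.ofReal (η / 2 * theta e) ≤ ENNReal.ofReal (∑ i ∈ range n, η * theta (spine t e i)) := by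
          apply ENNReal.ofReal_le_ofReal
          rw [← Finset.mul_sum]
          nlinarith
      _ = ∑ i ∈ range n, ENNReal.ofReal (η * theta (spine t e i)) :=
          ENNReal.ofReal_sum_of_nonneg (fun i _ => hpos i)
      _ ≤ ∑ i ∈ range n, wt B (spine t e i) := by
          apply Finset.sum_le_sum
          intro i _
          have := H (List.replicate i t ++ [!t])
          rw [desc_append] at this
          exact this (hbal i)
      _ ≤ ∑' i : ℕ, wt B (spine t e i) := ENNReal.sum_le_tsum _
      _ ≤ wt B e := wt_spine B t e

open Classical in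
/-- tails of the weights -/
noncomputable def tl (B : Edge → Prop) (e : Edge) (n : ℕ) : ℝ≥0∞ :=
  ∑' w : List Bool, if n ≤ w.length then g B (desc e w) else 0

theorem step2 (B : Edge → Prop) (η : ℝ) (hη : 0 < η) (n : ℕ) : ∀ (e : Edge), Pos e →
    (∀ w : List Bool, Bal (desc e w) →
      ENNReal.ofReal (η * theta (desc e w)) ≤ wt B (desc e w)) →
    ENNReal.ofReal (η / 2 * theta e) ≤ tl B e n := by
  induction n with
  | zero =>
    intro e he H
    refine le_trans (step1 B η hη e he H) (le_of_eq ?_)
    rw [wt_eq]; unfold tl; simp
  | succ n ih =>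
    intro e he H
    have hH : ∀ t, ∀ w : List Bool, Bal (desc (child t e) w) →
        ENNReal.ofReal (η * theta (desc (child t e) w)) ≤ wt B (desc (child t e) w) :=
      fun t w hw => H (t :: w) hw
    have h0 := ih (child false e) (pos_child he _) (hH false)
    have h1 := ih (child true e) (pos_child he _) (hH true)
    have hsum : ENNReal.ofReal (η / 2 * theta e) =
        ENNReal.ofReal (η / 2 * theta (child false e)) +
          ENNReal.ofReal (η / 2 * theta (child true e)) := by
      rw [theta_child he, mul_add, ENNReal.ofReal_add]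
      · exact mul_nonneg (by linarith) (theta_pos (pos_child he _)).le
      · exact mul_nonneg (by linarith) (theta_pos (pos_child he _)).le
    rw [hsum]
    refine le_trans (add_le_add h0 h1) ?_
    have hinj : Function.Injective (fun x : Bool × List Bool => x.1 :: x.2) := by
      rintro ⟨a, u⟩ ⟨b, v⟩ h
      simp only [List.cons.injEq] at h
      exact Prod.ext h.1 h.2
    have := ENNReal.tsum_comp_le_tsum_of_injective hinj
      (fun w : List Bool => if n + 1 ≤ w.length then g B (desc e w) else 0)
    refine le_trans (le_of_eq ?_) this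
    rw [ENNReal.tsum_prod (f := fun (t : Bool) (w : List Bool) =>
      if n + 1 ≤ (t :: w).length then g B (desc e (t :: w)) else 0), tsum_bool]
    simp only [List.length_cons, Nat.succ_le_succ_iff]
    rfl

theorem step3 (B : Edge → Prop) (e : Edge) (h : wt B e < ⊤) (c : ℝ≥0∞) (hc : 0 < c) :
    ∃ n, tl B e n < c := by
  rw [wt_eq] at h
  have ht := ENNReal.tendsto_tsum_compl_atTop_zero h.ne
  have hev := (ht.eventually (gt_mem_nhds hc)).exists
  obtain ⟨s, hs⟩ := hev
  refine ⟨s.sup List.length + 1, lt_of_le_of_lt ?_ hs⟩
  unfold tl
  have h2 : ∑' b : { x // x ∉ s }, g B (desc e b) =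
      ∑' w : List Bool, Set.indicator {x | x ∉ s} (fun w => g B (desc e w)) w := by
    exact tsum_subtype {x | x ∉ s} (fun w => g B (desc e w))
  rw [h2]
  apply ENNReal.tsum_le_tsum
  intro w
  by_cases hw : s.sup List.length + 1 ≤ w.length
  · have hws : w ∉ s := by
      intro hws
      have := Finset.le_sup (f := List.length) hws
      omega
    simp [hw, Set.indicator, hws]
  · simp [hw]

end Sel

open Sel in
theorem select_main : P_Select := by
  intro N B hN hB η hη
  by_contra hcon
  push Not at hcon
  have hroot : Pos (root N) := by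
    constructor
    · show (0 : ℤ) < 1
      norm_num
    · show (0 : ℤ) < (N : ℤ)
      exact_mod_cast hN
  have H : ∀ w : List Bool, Bal (desc (root N) w) →
      ENNReal.ofReal (η * theta (desc (root N) w)) ≤ wt B (desc (root N) w) :=
    fun w hw => (hcon w hw).le
  have hpos : 0 < ENNReal.ofReal (η / 2 * theta (root N)) := by
    rw [ENNReal.ofReal_pos]
    exact mul_pos (by linarith) (theta_pos hroot)
  obtain ⟨n, hn⟩ := step3 B (root N) hB _ hpos
  exact absurd (step2 B η hη n (root N) hroot H) (not_le.mpr hn)

end Pool.Agent.Quad
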