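import Pool.Agent.Quad.Basic

/-!
# Primitive vectors with slope in an interval (SPACING)
-/

set_option autoImplicit false

namespace Pool.Agent.Quad

open Pool.Agent.FareyParity Finset

theorem spacing_eq_of_dt {v w : ℤ × ℤ} (hv : 0 < v.1) (hw : 0 < w.1) (hcv : IsCoprime v.1 v.2)
    (hcw : IsCoprime w.1 w.2) (h : dt v w = 0) : v = w := by
  simp only [dt] at h
  have h1 : v.1 ∣ w.1 := by
    apply hcv.dvd_of_dvd_mul_right
    exact ⟨w.2, by linarith⟩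
  have h2 : w.1 ∣ v.1 := by
    apply hcw.dvd_of_dvd_mul_right
    exact ⟨v.2, by linarith⟩
  have h3 : v.1 = w.1 := Int.dvd_antisymm hv.le hw.le h1 h2
  have h4 : v.2 = w.2 := by
    have : v.1 * w.2 = v.1 * v.2 := by rw [h3] at h ⊢; linarith
    exact (mul_left_cancel₀ hv.ne' this).symm
  exact Prod.ext h3 h4

theorem spacing_main : P_Spacing := by
  intro Y α β hab
  set S := box Y (fun v => α < (v.2 : ℝ) / v.1 ∧ (v.2 : ℝ) / v.1 < β) with hS
  have hmem : ∀ v ∈ S, 0 < v.1 ∧ v.1 ≤ Y ∧ IsCoprime v.1 v.2 ∧ α < (v.2 : ℝ) / v.1 ∧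
      (v.2 : ℝ) / v.1 < β := by
    intro v hv
    simp only [hS, box, mem_filter, mem_product, mem_Icc] at hv
    obtain ⟨⟨⟨h1, h2⟩, _⟩, h3, h4, h5⟩ := hv
    exact ⟨by omega, h2, h3, h4, h5⟩
  have hinj : S.card ≤ (range (⌊(β - α) * (Y : ℝ) ^ 2⌋₊ + 1)).card := by
    apply Finset.card_le_card_of_injOn
      (fun v => ⌊((v.2 : ℝ) / v.1 - α) * (Y : ℝ) ^ 2⌋₊)
    · intro v hv
      obtain ⟨_, _, _, h4, h5⟩ := hmem v hv
      simp only [coe_range, Set.mem_Iio]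
      apply Nat.lt_succ_of_le
      apply Nat.floor_mono
      apply mul_le_mul_of_nonneg_right (by linarith) (by positivity)
    · intro v hv w hw hvw
      obtain ⟨h1, h2, h3, h4, h5⟩ := hmem v hv
      obtain ⟨g1, g2, g3, g4, g5⟩ := hmem w hw
      simp only at hvw
      have hf1 := Nat.floor_le (mul_nonneg (sub_nonneg.2 h4.le) (by positivity : (0 : ℝ) ≤ (Y : ℝ) ^ 2))
      have hf2 := Nat.floor_le (mul_nonneg (sub_nonneg.2 g4.le) (by positivity : (0 : ℝ) ≤ (Y : ℝ) ^ 2))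
      have hf3 := Nat.lt_floor_add_one (((v.2 : ℝ) / v.1 - α) * (Y : ℝ) ^ 2)
      have hf4 := Nat.lt_floor_add_one (((w.2 : ℝ) / w.1 - α) * (Y : ℝ) ^ 2)
      rw [hvw] at hf1 hf3
      have hab1 : |((w.2 : ℝ) / w.1 - (v.2 : ℝ) / v.1) * (Y : ℝ) ^ 2| < 1 := by
        rw [abs_lt]
        constructor <;> nlinarith
      have hd := dt_slope h1 g1
      have hv0 : (0 : ℝ) < v.1 := by exact_mod_cast h1
      have hw0 : (0 : ℝ) < w.1 := by exact_mod_cast g1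
      have hvY : (v.1 : ℝ) ≤ Y := by exact_mod_cast h2
      have hwY : (w.1 : ℝ) ≤ Y := by exact_mod_cast g2
      have hle : |(dt v w : ℝ)| ≤ |((w.2 : ℝ) / w.1 - (v.2 : ℝ) / v.1) * (Y : ℝ) ^ 2| := by
        rw [hd, abs_mul, abs_mul, abs_mul, abs_of_pos hv0, abs_of_pos hw0,
          abs_of_nonneg (by positivity : (0 : ℝ) ≤ (Y : ℝ) ^ 2), mul_comm]
        apply mul_le_mul_of_nonneg_left _ (abs_nonneg _)
        calc (v.1 : ℝ) * w.1 ≤ Y * Y := mul_le_mul hvY hwY hw0.le (by positivity)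
          _ = (Y : ℝ) ^ 2 := by ring
      have hlt : |(dt v w : ℝ)| < 1 := lt_of_le_of_lt hle hab1
      have hz : dt v w = 0 := by
        have : |dt v w| < 1 := by exact_mod_cast hlt
        exact Int.abs_lt_one_iff.1 this
      exact spacing_eq_of_dt h1 g1 h3 g3 hz
  rw [card_range] at hinj
  calc ((S.card : ℕ) : ℝ) ≤ ((⌊(β - α) * (Y : ℝ) ^ 2⌋₊ + 1 : ℕ) : ℝ) := by exact_mod_cast hinj
    _ = (⌊(β - α) * (Y : ℝ) ^ 2⌋₊ : ℝ) + 1 := by push_cast; ring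
    _ ≤ (β - α) * (Y : ℝ) ^ 2 + 1 := by
        have := Nat.floor_le (mul_nonneg (sub_nonneg.2 hab) (by positivity : (0 : ℝ) ≤ (Y : ℝ) ^ 2))
        linarith
    _ = 1 + (β - α) * (Y : ℝ) ^ 2 := by ring

end Pool.Agent.Quad
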