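import Pool.Agent.Quad.Basic
import Pool.Agent.Quad.Stmt

set_option autoImplicit false

/-! # TAUMOMENT: second moment of the divisor function along `Φ(M, k)` -/

namespace Pool.Agent.Quad

open Pool.Agent.FareyParity Finset

theorem tm_count {a : ℕ} {b c : ℤ} (k d X : ℕ) (hd : 0 < d) :
    ((Icc 1 X).filter (fun M : ℕ => (d : ℤ) ∣ Phi a b c ((M : ℤ), (k : ℤ)))).card ≤
      (X / d + 1) * ((range d).filter (fun M : ℕ => (d : ℤ) ∣ Phi a b c ((M : ℤ), (k : ℤ)))).card := by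
  classical
  rw [← card_range (X / d + 1), ← card_product]
  apply card_le_card_of_injOn (fun M => (M / d, M % d))
  · intro M hM
    simp only [coe_filter, mem_Icc, Set.mem_ofPred_eq] at hM
    simp only [coe_product, coe_range, coe_filter, mem_range, Set.mem_prod, Set.mem_Iio,
      Set.mem_ofPred_eq]
    refine ⟨Nat.lt_succ_of_le (Nat.div_le_div_right hM.1.2), Nat.mod_lt _ hd, ?_⟩
    have h1 : ((M % d : ℕ) : ℤ) = (M : ℤ) - d * ((M / d : ℕ) : ℤ) := by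
      have := Nat.mod_add_div M d
      have h2 : ((M % d : ℕ) : ℤ) + d * ((M / d : ℕ) : ℤ) = M := by exact_mod_cast this
      linarith
    have h3 : Phi a b c (((M % d : ℕ) : ℤ), (k : ℤ)) = Phi a b c ((M : ℤ), (k : ℤ)) +
        d * (-(2 * (M : ℤ)) * ((M / d : ℕ) : ℤ) + d * ((M / d : ℕ) : ℤ) ^ 2 -
          b * ((M / d : ℕ) : ℤ) * k) := by
      rw [h1]
      unfold Phi nf
      ring
    show (d : ℤ) ∣ Phi a b c (((M % d : ℕ) : ℤ), (k : ℤ))
    rw [h3]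
    exact dvd_add hM.2 (Dvd.intro _ rfl)
  · intro M _ M' _ h
    simp only [Prod.mk.injEq] at h
    rw [← Nat.mod_add_div M d, ← Nat.mod_add_div M' d, h.1, h.2]

theorem tm_bound (a : ℕ) (b c : ℤ) (k M X : ℕ) (hM : M ≤ X) (hX : 1 ≤ X) :
    (Phi a b c ((M : ℤ), (k : ℤ))).natAbs ≤
      (1 + b.natAbs * k + (a * c).natAbs * k ^ 2) * X ^ 2 := by
  have h1 : Phi a b c ((M : ℤ), (k : ℤ)) = (M : ℤ) ^ 2 + b * M * k + (a * c) * (k : ℤ) ^ 2 := rfl
  rw [h1]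
  refine (Int.natAbs_add_le _ _).trans ?_
  have e1 : ((M : ℤ) ^ 2 + b * M * k).natAbs ≤ M ^ 2 + b.natAbs * M * k := by
    refine (Int.natAbs_add_le _ _).trans ?_
    rw [Int.natAbs_pow, Int.natAbs_mul, Int.natAbs_mul, Int.natAbs_natCast, Int.natAbs_natCast]
  have e2 : ((a * c) * (k : ℤ) ^ 2).natAbs = (a * c).natAbs * k ^ 2 := by
    rw [Int.natAbs_mul, Int.natAbs_pow, Int.natAbs_natCast]
  rw [e2]
  have h2 : M ^ 2 ≤ X ^ 2 := Nat.pow_le_pow_left hM 2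
  have h3 : M ≤ X ^ 2 := hM.trans (Nat.le_self_pow (by norm_num) X)
  have h4 : b.natAbs * M * k ≤ b.natAbs * k * X ^ 2 := by
    calc b.natAbs * M * k = b.natAbs * k * M := by ring
      _ ≤ b.natAbs * k * X ^ 2 := Nat.mul_le_mul_left _ h3
  have h5 : 1 ≤ X ^ 2 := Nat.one_le_pow _ _ hX
  have h6 : (a * c).natAbs * k ^ 2 ≤ (a * c).natAbs * k ^ 2 * X ^ 2 := Nat.le_mul_of_pos_right _ h5
  calc _ ≤ (X ^ 2 + b.natAbs * k * X ^ 2) + (a * c).natAbs * k ^ 2 * X ^ 2 := by omega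
    _ = _ := by ring

theorem tm_coprime {a : ℕ} {b c : ℤ} {Q : ℕ} {D : ℤ} (h : Red a b c Q D) {k M : ℕ}
    (hM : M.Coprime (Q * k)) {d : ℕ} (hd : (d : ℤ) ∣ Phi a b c ((M : ℤ), (k : ℤ))) :
    d.Coprime (Q * k) := by
  rw [Nat.coprime_mul_iff_right] at hM ⊢
  have h1 : Phi a b c ((M : ℤ), (k : ℤ)) = (M : ℤ) ^ 2 + b * M * k + (a * c) * (k : ℤ) ^ 2 := rfl
  rw [h1] at hd
  constructor
  · apply Nat.Coprime.symm
    apply Nat.coprime_of_dvd
    intro p hp hpQ hpd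
    have hpQ' : (p : ℤ) ∣ Q := by exact_mod_cast hpQ
    have hpd' : (p : ℤ) ∣ d := by exact_mod_cast hpd
    have h2 := hpd'.trans hd
    have h3 : (p : ℤ) ∣ b * M * k := ((hpQ'.trans h.Q_b).mul_right _).mul_right _
    have h4 : (p : ℤ) ∣ (a * c) * (k : ℤ) ^ 2 := (hpQ'.trans h.Q_dvd_ac).mul_right _
    have h5 : (p : ℤ) ∣ (M : ℤ) ^ 2 := by
      have e : (M : ℤ) ^ 2 = ((M : ℤ) ^ 2 + b * M * k + (a * c) * (k : ℤ) ^ 2) - b * M * k -
        (a * c) * (k : ℤ) ^ 2 := by ring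
      rw [e]
      exact dvd_sub (dvd_sub h2 h3) h4
    have h6 : p ∣ M := by
      have : (p : ℤ) ∣ M := (Nat.prime_iff_prime_int.mp hp).dvd_of_dvd_pow h5
      exact_mod_cast this
    have := Nat.dvd_gcd h6 hpQ
    rw [hM.1] at this
    exact hp.one_lt.ne' (Nat.dvd_one.mp this)
  · apply Nat.Coprime.symm
    apply Nat.coprime_of_dvd
    intro p hp hpk hpd
    have hpk' : (p : ℤ) ∣ k := by exact_mod_cast hpk
    have hpd' : (p : ℤ) ∣ d := by exact_mod_cast hpd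
    have h2 := hpd'.trans hd
    have h3 : (p : ℤ) ∣ b * M * k := hpk'.mul_left _
    have h4 : (p : ℤ) ∣ (a * c) * (k : ℤ) ^ 2 := (dvd_pow hpk' (by norm_num)).mul_left _
    have h5 : (p : ℤ) ∣ (M : ℤ) ^ 2 := by
      have e : (M : ℤ) ^ 2 = ((M : ℤ) ^ 2 + b * M * k + (a * c) * (k : ℤ) ^ 2) - b * M * k -
        (a * c) * (k : ℤ) ^ 2 := by ring
      rw [e]
      exact dvd_sub (dvd_sub h2 h3) h4
    have h6 : p ∣ M := by
      have : (p : ℤ) ∣ M := (Nat.prime_iff_prime_int.mp hp).dvd_of_dvd_pow h5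
      exact_mod_cast this
    have := Nat.dvd_gcd h6 hpk
    rw [hM.2] at this
    exact hp.one_lt.ne' (Nat.dvd_one.mp this)

theorem taumoment_main (h1 : P_Landreau) (h2 : P_RootCount) (h3 : P_TauSum) : P_TauMoment := by
  classical
  intro a b c Q D hR k hk
  obtain ⟨C1, hC1⟩ : ∃ C1 : ℕ, C1 = 1 + b.natAbs * k + (a * c).natAbs * k ^ 2 := ⟨_, rfl⟩
  obtain ⟨r, hr⟩ : ∃ r : ℕ, r = 4 + C1 ^ 2 := ⟨_, rfl⟩
  refine ⟨(2 : ℝ) ^ (2 * r ^ 2 + 1) * 3 ^ (2 ^ (2 * r + 1)), 2 ^ (2 * r + 1), fun X hX => ?_⟩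
  have hX1 : 1 ≤ X := by omega
  have hXR : (0 : ℝ) < X := by exact_mod_cast (by omega : 0 < X)
  -- pointwise bound
  have hpt : ∀ M ∈ (Icc 1 X).filter (fun M : ℕ => M.Coprime (Q * k)),
      ((Phi a b c ((M : ℤ), (k : ℤ))).natAbs.divisors.card : ℝ) ^ 2 ≤
      ∑ d ∈ (Icc 1 X).filter (fun d : ℕ => d.Coprime (Q * k) ∧
        (d : ℤ) ∣ Phi a b c ((M : ℤ), (k : ℤ))),
        (2 : ℝ) ^ (2 * r ^ 2) * (d.divisors.card : ℝ) ^ (2 * r) := by
    intro M hM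
    rw [mem_filter, mem_Icc] at hM
    have hne : Phi a b c ((M : ℤ), (k : ℤ)) ≠ 0 := by
      apply Phi_ne_zero hR
      intro h0
      have : (k : ℤ) = 0 := congrArg Prod.snd h0
      omega
    have hpos : 0 < (Phi a b c ((M : ℤ), (k : ℤ))).natAbs := Int.natAbs_pos.mpr hne
    have hb := tm_bound a b c k M X hM.1.2 hX1
    rw [← hC1] at hb
    have hsq : (Phi a b c ((M : ℤ), (k : ℤ))).natAbs ^ 2 ≤ X ^ r := by
      calc (Phi a b c ((M : ℤ), (k : ℤ))).natAbs ^ 2 ≤ (C1 * X ^ 2) ^ 2 := Nat.pow_le_pow_left hb 2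
        _ = C1 ^ 2 * X ^ 4 := by ring
        _ ≤ 2 ^ (C1 ^ 2) * X ^ 4 := Nat.mul_le_mul_right _ Nat.lt_two_pow_self.le
        _ ≤ X ^ (C1 ^ 2) * X ^ 4 := Nat.mul_le_mul_right _ (Nat.pow_le_pow_left hX _)
        _ = X ^ r := by rw [hr]; ring
    obtain ⟨d, hd1, hd2, hd3⟩ := h1 r X _ hX hpos hsq
    have hd0 : 0 < d := Nat.pos_of_dvd_of_pos hd1 hpos
    have hdZ : (d : ℤ) ∣ Phi a b c ((M : ℤ), (k : ℤ)) := by
      rw [← Int.dvd_natAbs]; exact_mod_cast hd1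
    have hmem : d ∈ (Icc 1 X).filter (fun d : ℕ => d.Coprime (Q * k) ∧
        (d : ℤ) ∣ Phi a b c ((M : ℤ), (k : ℤ))) := by
      rw [mem_filter, mem_Icc]
      exact ⟨⟨hd0, hd2⟩, tm_coprime hR hM.2 hdZ, hdZ⟩
    have hle : ((Phi a b c ((M : ℤ), (k : ℤ))).natAbs.divisors.card : ℝ) ^ 2 ≤
        (2 : ℝ) ^ (2 * r ^ 2) * (d.divisors.card : ℝ) ^ (2 * r) := by
      have : ((Phi a b c ((M : ℤ), (k : ℤ))).natAbs.divisors.card : ℝ) ≤
          ((2 ^ r * d.divisors.card) ^ r : ℝ) := by exact_mod_cast hd3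
      calc ((Phi a b c ((M : ℤ), (k : ℤ))).natAbs.divisors.card : ℝ) ^ 2
          ≤ (((2 ^ r * d.divisors.card) ^ r : ℝ)) ^ 2 := pow_le_pow_left₀ (by positivity) this 2
        _ = (2 : ℝ) ^ (2 * r ^ 2) * (d.divisors.card : ℝ) ^ (2 * r) := by
            rw [← pow_mul, mul_pow, ← pow_mul]
            ring
    refine hle.trans ?_
    exact single_le_sum (f := fun d : ℕ => (2 : ℝ) ^ (2 * r ^ 2) * (d.divisors.card : ℝ) ^ (2 * r))
      (fun d _ => by positivity) hmem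
  -- exchange
  have hsum : ∑ M ∈ (Icc 1 X).filter (fun M : ℕ => M.Coprime (Q * k)),
      ((Phi a b c ((M : ℤ), (k : ℤ))).natAbs.divisors.card : ℝ) ^ 2 ≤
      ∑ d ∈ (Icc 1 X).filter (fun d : ℕ => d.Coprime (Q * k)),
        (((Icc 1 X).filter (fun M : ℕ => (d : ℤ) ∣ Phi a b c ((M : ℤ), (k : ℤ)))).card : ℝ) *
        ((2 : ℝ) ^ (2 * r ^ 2) * (d.divisors.card : ℝ) ^ (2 * r)) := by
    refine (sum_le_sum hpt).trans ?_
    have e1 : ∀ M ∈ (Icc 1 X).filter (fun M : ℕ => M.Coprime (Q * k)),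
        ∑ d ∈ (Icc 1 X).filter (fun d : ℕ => d.Coprime (Q * k) ∧
          (d : ℤ) ∣ Phi a b c ((M : ℤ), (k : ℤ))),
          (2 : ℝ) ^ (2 * r ^ 2) * (d.divisors.card : ℝ) ^ (2 * r) =
        ∑ d ∈ (Icc 1 X).filter (fun d : ℕ => d.Coprime (Q * k)),
          if (d : ℤ) ∣ Phi a b c ((M : ℤ), (k : ℤ)) then
            (2 : ℝ) ^ (2 * r ^ 2) * (d.divisors.card : ℝ) ^ (2 * r) else 0 := by
      intro M _
      rw [← sum_filter, filter_filter]
    rw [sum_congr rfl e1, sum_comm]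
    apply sum_le_sum
    intro d _
    rw [← sum_filter, sum_const, nsmul_eq_mul]
    apply mul_le_mul_of_nonneg_right _ (by positivity)
    exact_mod_cast card_le_card (filter_subset_filter _ (filter_subset _ _))
  refine hsum.trans ?_
  have hterm : ∀ d ∈ (Icc 1 X).filter (fun d : ℕ => d.Coprime (Q * k)),
      (((Icc 1 X).filter (fun M : ℕ => (d : ℤ) ∣ Phi a b c ((M : ℤ), (k : ℤ)))).card : ℝ) *
        ((2 : ℝ) ^ (2 * r ^ 2) * (d.divisors.card : ℝ) ^ (2 * r)) ≤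
      (2 : ℝ) ^ (2 * r ^ 2 + 1) * X * ((d.divisors.card : ℝ) ^ (2 * r + 1) / d) := by
    intro d hd
    rw [mem_filter, mem_Icc] at hd
    have hd0 : (0 : ℝ) < d := by exact_mod_cast hd.1.1
    have c1 := tm_count (a := a) (b := b) (c := c) k d X hd.1.1
    have c2 := h2 a b c Q D hR k d hk hd.1.1 hd.2
    have c3 : (((Icc 1 X).filter (fun M : ℕ => (d : ℤ) ∣ Phi a b c ((M : ℤ), (k : ℤ)))).card : ℝ) ≤
        2 * X / d * d.divisors.card := by
      have c4 : ((Icc 1 X).filter (fun M : ℕ => (d : ℤ) ∣ Phi a b c ((M : ℤ), (k : ℤ)))).card ≤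
          (X / d + 1) * d.divisors.card := c1.trans (Nat.mul_le_mul_left _ c2)
      have c5 : (((X / d + 1 : ℕ)) : ℝ) ≤ 2 * X / d := by
        push_cast
        have u1 : ((X / d : ℕ) : ℝ) ≤ (X : ℝ) / d := Nat.cast_div_le
        have u2 : (1 : ℝ) ≤ (X : ℝ) / d := by
          rw [le_div_iff₀ hd0, one_mul]
          exact_mod_cast hd.1.2
        calc ((X / d : ℕ) : ℝ) + 1 ≤ (X : ℝ) / d + (X : ℝ) / d := add_le_add u1 u2
          _ = 2 * X / d := by ring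
      calc (((Icc 1 X).filter (fun M : ℕ => (d : ℤ) ∣ Phi a b c ((M : ℤ), (k : ℤ)))).card : ℝ)
          ≤ (((X / d + 1) * d.divisors.card : ℕ) : ℝ) := by exact_mod_cast c4
        _ = (((X / d + 1 : ℕ)) : ℝ) * d.divisors.card := by push_cast; ring
        _ ≤ 2 * X / d * d.divisors.card := mul_le_mul_of_nonneg_right c5 (by positivity)
    calc _ ≤ (2 * X / d * d.divisors.card) *
          ((2 : ℝ) ^ (2 * r ^ 2) * (d.divisors.card : ℝ) ^ (2 * r)) :=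
          mul_le_mul_of_nonneg_right c3 (by positivity)
      _ = _ := by ring
  refine (sum_le_sum hterm).trans ?_
  rw [← mul_sum]
  have hlast : ∑ d ∈ (Icc 1 X).filter (fun d : ℕ => d.Coprime (Q * k)),
      ((d.divisors.card : ℝ) ^ (2 * r + 1) / d) ≤ (1 + Real.log X) ^ (2 ^ (2 * r + 1)) :=
    (sum_le_sum_of_subset_of_nonneg (filter_subset _ _) (fun d _ _ => by positivity)).trans
      (h3 (2 * r + 1) X)
  have hlog : 1 + Real.log X ≤ 3 * Real.log X := by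
    have : Real.log 2 ≤ Real.log X := Real.log_le_log (by norm_num) (by exact_mod_cast hX)
    linarith [Real.log_two_gt_d9]
  have hlog0 : 0 ≤ 1 + Real.log X := by
    have := Real.log_nonneg (show (1 : ℝ) ≤ X by exact_mod_cast hX1)
    linarith
  calc (2 : ℝ) ^ (2 * r ^ 2 + 1) * X * ∑ d ∈ (Icc 1 X).filter (fun d : ℕ => d.Coprime (Q * k)),
        ((d.divisors.card : ℝ) ^ (2 * r + 1) / d)
      ≤ (2 : ℝ) ^ (2 * r ^ 2 + 1) * X * (3 * Real.log X) ^ (2 ^ (2 * r + 1)) := by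
        apply mul_le_mul_of_nonneg_left _ (by positivity)
        exact hlast.trans (pow_le_pow_left₀ hlog0 hlog _)
    _ = (2 : ℝ) ^ (2 * r ^ 2 + 1) * 3 ^ (2 ^ (2 * r + 1)) * X *
        (Real.log X) ^ (2 ^ (2 * r + 1)) := by
        rw [mul_pow]; ring

end Pool.Agent.Quad
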