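import Pool.Agent.Quad.Stmt

/-!
# Moments of the divisor function (TAUSUM)
-/

set_option autoImplicit false

namespace Pool.Agent.Quad

open Finset

/-- sum over pairs -/
theorem ts_antidiag_le (h : ℕ → ℝ) (hh : ∀ n, 0 ≤ h n) (W : ℕ) :
    ∑ k ∈ Icc 1 W, ∑ x ∈ k.divisorsAntidiagonal, h x.1 * h x.2 ≤ (∑ a ∈ Icc 1 W, h a) ^ 2 := by
  rw [sq, sum_mul_sum, ← sum_product', sum_sigma']
  have h1 : ∑ x ∈ (Icc 1 W).sigma (fun k => k.divisorsAntidiagonal), h x.2.1 * h x.2.2
      = ∑ y ∈ ((Icc 1 W).sigma (fun k => k.divisorsAntidiagonal)).image (fun x => x.2),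
          h y.1 * h y.2 := by
    rw [sum_image]
    rintro ⟨n, d, k⟩ hx ⟨n', d', k'⟩ hx' he
    simp only [coe_sigma, Set.mem_sigma_iff, mem_coe, mem_Icc, Nat.mem_divisorsAntidiagonal]
      at hx hx'
    simp only [Prod.mk.injEq] at he
    obtain ⟨rfl, rfl⟩ := he
    obtain ⟨_, rfl, _⟩ := hx
    obtain ⟨_, rfl, _⟩ := hx'
    rfl
  rw [h1]
  apply sum_le_sum_of_subset_of_nonneg
  · intro y hy
    simp only [mem_image, mem_sigma, mem_Icc, Nat.mem_divisorsAntidiagonal] at hy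
    obtain ⟨⟨n, d, k⟩, ⟨⟨h1, h2⟩, h3, h4⟩, rfl⟩ := hy
    simp only at h1 h2 h3 h4
    have hd : 0 < d := Nat.pos_of_ne_zero (by rintro rfl; simp at h3; exact h4 h3.symm)
    have hk : 0 < k := Nat.pos_of_ne_zero (by rintro rfl; simp at h3; exact h4 h3.symm)
    simp only [mem_product, mem_Icc]
    refine ⟨⟨hd, ?_⟩, hk, ?_⟩
    · calc d ≤ d * k := Nat.le_mul_of_pos_right _ hk
        _ ≤ W := by omega
    · calc k ≤ d * k := Nat.le_mul_of_pos_left _ hd
        _ ≤ W := by omega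
  · intro i _ _; exact mul_nonneg (hh _) (hh _)

theorem ts_step (j W : ℕ) :
    ∑ k ∈ Icc 1 W, (k.divisors.card : ℝ) ^ (j + 1) / k ≤
      (∑ k ∈ Icc 1 W, (k.divisors.card : ℝ) ^ j / k) ^ 2 := by
  refine le_trans ?_ (ts_antidiag_le (fun n => (n.divisors.card : ℝ) ^ j / n)
    (fun n => by positivity) W)
  refine sum_le_sum fun k hk => ?_
  have h1 : (k.divisors.card : ℝ) ^ (j + 1) / k =
      ∑ x ∈ k.divisorsAntidiagonal, (k.divisors.card : ℝ) ^ j / k := by
    rw [sum_const, nsmul_eq_mul, ← Nat.map_div_right_divisors, card_map]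
    ring
  rw [h1]
  refine sum_le_sum fun x hx => ?_
  rw [Nat.mem_divisorsAntidiagonal] at hx
  have h2 : (k.divisors.card : ℝ) ≤ x.1.divisors.card * x.2.divisors.card := by
    have h3 : (x.1 * x.2).divisors.card ≤ x.1.divisors.card * x.2.divisors.card := by
      rw [Nat.divisors_mul]; exact card_mul_le
    rw [← hx.1]; exact_mod_cast h3
  calc (k.divisors.card : ℝ) ^ j / k ≤ (x.1.divisors.card * x.2.divisors.card : ℝ) ^ j / k := by
        gcongr
    _ = _ := by
      rw [← hx.1]; push_cast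
      rw [div_mul_div_comm, mul_pow]

theorem tausum_main : P_TauSum := by
  intro j y
  induction j with
  | zero =>
    simp only [pow_zero, pow_one]
    have h := harmonic_le_one_add_log y
    rw [harmonic_eq_sum_Icc] at h
    push_cast at h
    simpa only [one_div] using h
  | succ j ih =>
    have h0 : (0 : ℝ) ≤ ∑ d ∈ Icc 1 y, (d.divisors.card : ℝ) ^ j / d :=
      sum_nonneg fun _ _ => by positivity
    calc ∑ d ∈ Icc 1 y, (d.divisors.card : ℝ) ^ (j + 1) / d
        ≤ (∑ d ∈ Icc 1 y, (d.divisors.card : ℝ) ^ j / d) ^ 2 := ts_step j y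
      _ ≤ ((1 + Real.log y) ^ (2 ^ j)) ^ 2 := by gcongr
      _ = (1 + Real.log y) ^ (2 ^ (j + 1)) := by rw [← pow_mul, pow_succ]

end Pool.Agent.Quad
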