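import Pool.Agent.Quad.Stmt

set_option autoImplicit false

namespace Pool.Agent.Quad

open Pool.Agent.FareyParity Finset
open scoped ENNReal

namespace Thr

theorem isEdge_root {N : ℕ} (hN : 0 < N) : IsEdge N (root N) := by
  have hN' : (0 : ℤ) < N := by exact_mod_cast hN
  refine ⟨by simp [root, dt], ⟨?_, ?_, ?_⟩, ⟨?_, ?_, ?_⟩⟩ <;> simp [root] <;> omega

theorem reg_add {N : ℕ} {v w : ℤ × ℤ} (hv : Reg N v) (hw : Reg N w) : Reg N (v + w) := by
  obtain ⟨a1, a2, a3⟩ := hv
  obtain ⟨b1, b2, b3⟩ := hw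
  refine ⟨?_, ?_, ?_⟩ <;> simp only [Prod.fst_add, Prod.snd_add] <;> nlinarith

theorem isEdge_child {N : ℕ} {e : Edge} (h : IsEdge N e) (t : Bool) : IsEdge N (child t e) := by
  obtain ⟨h1, h2, h3⟩ := h
  cases t
  · refine ⟨?_, h2, reg_add h2 h3⟩
    simp only [child, dt] at *
    simp
    linarith
  · refine ⟨?_, reg_add h2 h3, h3⟩
    simp only [child, dt] at *
    simp
    linarith

theorem isEdge_desc {N : ℕ} {e : Edge} (h : IsEdge N e) (w : List Bool) : IsEdge N (desc e w) := by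
  induction w generalizing e with
  | nil => exact h
  | cons t w ih => exact ih (isEdge_child h t)

theorem rho_ge (h : ℤ) : 4 ≤ rho h := by
  unfold rho
  have : (0 : ℤ) ≤ (Nat.log 2 h.natAbs : ℤ) := by positivity
  nlinarith

/-- threshold edges of the first kind -/
def T1 (e : Edge) : Prop := e.1.1 * rho e.1.1 < e.2.1 ∧ e.2.1 ≤ e.1.1 * rho e.1.1 + e.1.1

/-- threshold edges of the second kind -/
def T2 (e : Edge) : Prop := e.2.1 * rho e.2.1 < e.1.1 ∧ e.1.1 ≤ e.2.1 * rho e.2.1 + e.2.1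

theorem thr_cases {N : ℕ} {e : Edge} (he : IsEdge N e) (h1 : ¬ Bal e) (h2 : Bal (par e)) :
    T1 e ∨ T2 e := by
  obtain ⟨-, ⟨hp, -, -⟩, ⟨hq, -, -⟩⟩ := he
  unfold Bal at h1
  rw [not_and_or, not_le, not_le] at h1
  rcases h1 with h1 | h1
  · left
    have hr := rho_ge e.1.1
    have hlt : e.1.1 < e.2.1 := by nlinarith
    unfold par at h2
    rw [if_pos hlt] at h2
    have := h2.1
    simp only [Prod.fst_sub] at this
    exact ⟨h1, by linarith⟩
  · right
    have hr := rho_ge e.2.1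
    have hlt : ¬ e.1.1 < e.2.1 := by
      intro h
      nlinarith
    unfold par at h2
    rw [if_neg hlt] at h2
    have := h2.2
    simp only [Prod.fst_sub] at this
    exact ⟨h1, by linarith⟩

/-- uniqueness of the partner -/
theorem uniq {p q q' : ℤ × ℤ} (h : dt p q = 1) (h' : dt p q' = 1) (hlt : |q.1 - q'.1| < p.1) :
    q = q' := by
  simp only [dt] at h h'
  have hc : IsCoprime p.1 p.2 := ⟨q.2, -q.1, by linarith⟩
  have h1 : p.1 * (q.2 - q'.2) = p.2 * (q.1 - q'.1) := by linarith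
  have h2 : p.1 ∣ q.1 - q'.1 := hc.dvd_of_dvd_mul_left ⟨_, h1.symm⟩
  have h3 : q.1 - q'.1 = 0 := Int.eq_zero_of_abs_lt_dvd h2 hlt
  have hp : 0 < p.1 := lt_of_le_of_lt (abs_nonneg _) hlt
  have h4 : q.2 - q'.2 = 0 := by
    rw [h3, mul_zero] at h1
    exact (mul_eq_zero.mp h1).resolve_left hp.ne'
  exact Prod.ext (by linarith) (by linarith)

theorem uniq' {p p' q : ℤ × ℤ} (h : dt p q = 1) (h' : dt p' q = 1) (hlt : |p.1 - p'.1| < q.1) :
    p = p' := by
  have h1 : dt (-q) p = 1 := by simp only [dt] at *; simp; linarith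
  have h2 : dt (-q) p' = 1 := by simp only [dt] at *; simp; linarith
  simp only [dt] at h h'
  have hc : IsCoprime q.1 q.2 := ⟨-p.2, p.1, by linarith⟩
  have h1 : q.1 * (p.2 - p'.2) = q.2 * (p.1 - p'.1) := by linarith
  have h2 : q.1 ∣ p.1 - p'.1 := hc.dvd_of_dvd_mul_left ⟨_, h1.symm⟩
  have h3 : p.1 - p'.1 = 0 := Int.eq_zero_of_abs_lt_dvd h2 hlt
  have hp : 0 < q.1 := lt_of_le_of_lt (abs_nonneg _) hlt
  have h4 : p.2 - p'.2 = 0 := by
    rw [h3, mul_zero] at h1
    exact (mul_eq_zero.mp h1).resolve_left hp.ne'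
  exact Prod.ext (by linarith) (by linarith)

/-! ### the convergent majorant -/

/-- the majorant as a function of the height -/
noncomputable def cc (h : ℕ) : ℝ := 1 / ((h : ℝ) ^ 2 * ((Nat.log 2 h : ℝ) + 2) ^ 2)

theorem summable_aux : Summable (fun h : ℕ => 1 / ((h : ℝ) * ((Nat.log 2 h : ℝ) + 2) ^ 2)) := by
  rw [← summable_condensed_iff_of_nonneg]
  · have h1 : (fun k : ℕ => (2 : ℝ) ^ k * (1 / (((2 ^ k : ℕ) : ℝ) *
        ((Nat.log 2 (2 ^ k) : ℝ) + 2) ^ 2))) = fun k : ℕ => 1 / ((k + 2 : ℕ) : ℝ) ^ 2 := by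
      ext k
      rw [Nat.log_pow (by norm_num)]
      push_cast
      field_simp
    rw [h1]
    exact (summable_nat_add_iff 2).mpr (Real.summable_one_div_nat_pow.mpr (by norm_num))
  · intro n; positivity
  · intro m n hm hmn
    have hm' : (0 : ℝ) < m := by exact_mod_cast hm
    have hmn' : (m : ℝ) ≤ n := by exact_mod_cast hmn
    have hl : ((Nat.log 2 m : ℕ) : ℝ) ≤ (Nat.log 2 n : ℕ) := by exact_mod_cast Nat.log_mono_right hmn
    apply one_div_le_one_div_of_le (by positivity)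
    gcongr

theorem summable_cc : Summable (fun h : ℕ => ((h : ℝ) + 1) * cc h) := by
  apply Summable.of_nonneg_of_le (f := fun h : ℕ => 2 * (1 / ((h : ℝ) * ((Nat.log 2 h : ℝ) + 2) ^ 2)))
  · intro h; unfold cc; positivity
  · intro h
    rcases Nat.eq_zero_or_pos h with rfl | hp
    · simp [cc]
    · have hp' : (1 : ℝ) ≤ h := by exact_mod_cast hp
      unfold cc
      have e1 : ((h : ℝ) + 1) * (1 / ((h : ℝ) ^ 2 * ((Nat.log 2 h : ℝ) + 2) ^ 2)) =
        (((h : ℝ) + 1) / h) * (1 / ((h : ℝ) * ((Nat.log 2 h : ℝ) + 2) ^ 2)) := by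
        field_simp
      rw [e1]
      gcongr
      rw [div_le_iff₀ (by linarith)]
      linarith
  · exact summable_aux.mul_left 2

/-- the majorant as a function of the vector -/
noncomputable def FF (z : ℕ × ℕ) : ℝ≥0∞ := if z.2 ≤ z.1 then ENNReal.ofReal (cc z.1) else 0

theorem FF_lt_top : ∑' z : ℕ × ℕ, FF z < ⊤ := by
  have h1 : ∑' z : ℕ × ℕ, FF z = ∑' h : ℕ, ENNReal.ofReal (((h : ℝ) + 1) * cc h) := by
    rw [ENNReal.tsum_prod (f := fun h y : ℕ => FF (h, y))]
    congr 1
    ext h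
    have h2 : ∑' y : ℕ, FF (h, y) = ∑ y ∈ range (h + 1), FF (h, y) := by
      apply tsum_eq_sum
      intro y hy
      rw [mem_range, not_lt] at hy
      unfold FF
      rw [if_neg (by simp only; omega)]
    rw [h2]
    have h3 : ∑ y ∈ range (h + 1), FF (h, y) = ∑ y ∈ range (h + 1), ENNReal.ofReal (cc h) := by
      apply sum_congr rfl
      intro y hy
      rw [mem_range] at hy
      unfold FF
      rw [if_pos (by simp only; omega)]
    rw [h3, sum_const, card_range, nsmul_eq_mul, ENNReal.ofReal_mul (by positivity)]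
    congr 1
    rw [← Nat.cast_add_one, ENNReal.ofReal_natCast]
  rw [h1]
  exact lt_top_iff_ne_top.mpr summable_cc.tsum_ofReal_ne_top

theorem theta_le_cc (x X : ℤ) (hx : 0 < x) (hX : x * rho x ≤ X) :
    1 / ((x : ℝ) * X) ≤ cc x.toNat := by
  have hn : ((x.toNat : ℕ) : ℤ) = x := Int.toNat_of_nonneg hx.le
  have hn' : ((x.toNat : ℕ) : ℝ) = (x : ℝ) := by exact_mod_cast hn
  have hna : x.natAbs = x.toNat := by omega
  have hx' : (0 : ℝ) < x := by exact_mod_cast hx
  unfold cc
  rw [hn']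
  have hX' : (x : ℝ) * ((Nat.log 2 x.toNat : ℝ) + 2) ^ 2 ≤ X := by
    unfold rho at hX
    rw [hna] at hX
    exact_mod_cast hX
  apply one_div_le_one_div_of_le (by positivity)
  nlinarith

open Classical in
theorem part1 (N : ℕ) (hN : 0 < N) (hI : P_Inj) :
    ∑' w : List Bool, (if T1 (desc (root N) w) then ENNReal.ofReal (theta (desc (root N) w)) else 0)
      < ⊤ := by
  refine lt_of_le_of_lt ?_ FF_lt_top
  set S : Set (List Bool) := {w | T1 (desc (root N) w)} with hS
  have h1 : ∑' w : List Bool, (if T1 (desc (root N) w) then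
      ENNReal.ofReal (theta (desc (root N) w)) else 0) =
      ∑' w : S, ENNReal.ofReal (theta (desc (root N) w)) := by
    rw [tsum_subtype S (fun w => ENNReal.ofReal (theta (desc (root N) w)))]
    congr 1
  rw [h1]
  set φ : S → ℕ × ℕ := fun w => ((desc (root N) w.1).1.1.toNat, (desc (root N) w.1).1.2.toNat)
    with hφ
  have hinj : Function.Injective φ := by
    rintro ⟨w, hw⟩ ⟨w', hw'⟩ h
    have he := isEdge_desc (isEdge_root hN) w
    have he' := isEdge_desc (isEdge_root hN) w'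
    obtain ⟨d1, ⟨a1, a2, a3⟩, ⟨b1, b2, b3⟩⟩ := he
    obtain ⟨d1', ⟨a1', a2', a3'⟩, ⟨b1', b2', b3'⟩⟩ := he'
    simp only [hφ, Prod.mk.injEq] at h
    have hp : (desc (root N) w).1 = (desc (root N) w').1 := Prod.ext (by omega) (by omega)
    obtain ⟨t1, t2⟩ : T1 (desc (root N) w) := hw
    obtain ⟨t1', t2'⟩ : T1 (desc (root N) w') := hw'
    have hq : (desc (root N) w).2 = (desc (root N) w').2 := by
      apply uniq d1 (hp ▸ d1')
      rw [← hp] at t1' t2'
      rw [abs_lt]
      constructor <;> linarith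
    have := hI N hN (Prod.ext hp hq : desc (root N) w = desc (root N) w')
    exact Subtype.ext this
  refine le_trans ?_ (ENNReal.tsum_comp_le_tsum_of_injective hinj FF)
  apply ENNReal.tsum_le_tsum
  rintro ⟨w, hw⟩
  have he := isEdge_desc (isEdge_root hN) w
  obtain ⟨d1, ⟨a1, a2, a3⟩, ⟨b1, b2, b3⟩⟩ := he
  obtain ⟨t1, t2⟩ : T1 (desc (root N) w) := hw
  simp only [hφ, FF]
  have hN' : (1 : ℤ) ≤ N := by exact_mod_cast hN
  have hle : (desc (root N) w).1.2 ≤ (desc (root N) w).1.1 := by nlinarith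
  rw [if_pos (by omega)]
  apply ENNReal.ofReal_le_ofReal
  exact theta_le_cc _ _ a1 t1.le

open Classical in
theorem part2 (N : ℕ) (hN : 0 < N) (hI : P_Inj) :
    ∑' w : List Bool, (if T2 (desc (root N) w) then ENNReal.ofReal (theta (desc (root N) w)) else 0)
      < ⊤ := by
  refine lt_of_le_of_lt ?_ FF_lt_top
  set S : Set (List Bool) := {w | T2 (desc (root N) w)} with hS
  have h1 : ∑' w : List Bool, (if T2 (desc (root N) w) then
      ENNReal.ofReal (theta (desc (root N) w)) else 0) =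
      ∑' w : S, ENNReal.ofReal (theta (desc (root N) w)) := by
    rw [tsum_subtype S (fun w => ENNReal.ofReal (theta (desc (root N) w)))]
    congr 1
  rw [h1]
  set φ : S → ℕ × ℕ := fun w => ((desc (root N) w.1).2.1.toNat, (desc (root N) w.1).2.2.toNat)
    with hφ
  have hinj : Function.Injective φ := by
    rintro ⟨w, hw⟩ ⟨w', hw'⟩ h
    have he := isEdge_desc (isEdge_root hN) w
    have he' := isEdge_desc (isEdge_root hN) w'
    obtain ⟨d1, ⟨a1, a2, a3⟩, ⟨b1, b2, b3⟩⟩ := he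
    obtain ⟨d1', ⟨a1', a2', a3'⟩, ⟨b1', b2', b3'⟩⟩ := he'
    simp only [hφ, Prod.mk.injEq] at h
    have hq : (desc (root N) w).2 = (desc (root N) w').2 := Prod.ext (by omega) (by omega)
    obtain ⟨t1, t2⟩ : T2 (desc (root N) w) := hw
    obtain ⟨t1', t2'⟩ : T2 (desc (root N) w') := hw'
    have hp : (desc (root N) w).1 = (desc (root N) w').1 := by
      apply uniq' d1 (hq ▸ d1')
      rw [← hq] at t1' t2'
      rw [abs_lt]
      constructor <;> linarith
    have := hI N hN (Prod.ext hp hq : desc (root N) w = desc (root N) w')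
    exact Subtype.ext this
  refine le_trans ?_ (ENNReal.tsum_comp_le_tsum_of_injective hinj FF)
  apply ENNReal.tsum_le_tsum
  rintro ⟨w, hw⟩
  have he := isEdge_desc (isEdge_root hN) w
  obtain ⟨d1, ⟨a1, a2, a3⟩, ⟨b1, b2, b3⟩⟩ := he
  obtain ⟨t1, t2⟩ : T2 (desc (root N) w) := hw
  simp only [hφ, FF]
  have hN' : (1 : ℤ) ≤ N := by exact_mod_cast hN
  have hle : (desc (root N) w).2.2 ≤ (desc (root N) w).2.1 := by nlinarith
  rw [if_pos (by omega)]
  apply ENNReal.ofReal_le_ofReal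
  have := theta_le_cc _ _ b1 t1.le
  unfold theta
  rw [mul_comm]
  exact this

end Thr

open Thr in
theorem thrsum_main (hI : P_Inj) : P_ThrSum := by
  classical
  intro N hN
  have h1 := part1 N hN hI
  have h2 := part2 N hN hI
  refine lt_of_le_of_lt ?_ (ENNReal.add_lt_top.mpr ⟨h1, h2⟩)
  rw [← ENNReal.tsum_add]
  unfold wt
  apply ENNReal.tsum_le_tsum
  intro w
  have he := isEdge_desc (isEdge_root hN) w
  by_cases hw : ¬ Bal (desc (root N) w) ∧ Bal (par (desc (root N) w))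
  · rw [if_pos hw]
    rcases thr_cases he hw.1 hw.2 with h | h
    · rw [if_pos h]; exact le_self_add
    · rw [if_pos h]; exact le_add_self
  · rw [if_neg hw]; exact bot_le

end Pool.Agent.Quad
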