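import Pool.Agent.Quad.Basic

/-!
# UEX: a multiplier of negative colour and small slope
-/

set_option autoImplicit false

namespace Pool.Agent.Quad

open Pool.Agent.FareyParity Finset

/-- `g ^ 2 ∣ q m ^ 2` with `q` prime implies `g ∣ m` -/
theorem uex_sq_dvd {q : ℕ} (hq : q.Prime) {g : ℕ} (hg : 0 < g) {m : ℤ}
    (h : (g : ℤ) ^ 2 ∣ q * m ^ 2) : (g : ℤ) ∣ m := by
  obtain ⟨M, hM⟩ : ∃ M : ℕ, M = m.natAbs := ⟨_, rfl⟩
  have h1 : g ^ 2 ∣ q * M ^ 2 := by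
    have := Int.natAbs_dvd_natAbs.2 h
    rw [Int.natAbs_mul, Int.natAbs_pow, Int.natAbs_pow, Int.natAbs_natCast, Int.natAbs_natCast,
      ← hM] at this
    exact this
  have h2 : g ∣ M := by
    obtain ⟨d, g', m', hd, hco, hg', hm'⟩ := Nat.exists_coprime' (m := g) (n := M)
      (Nat.gcd_pos_of_pos_left M hg)
    have h3 : g' ^ 2 ∣ q * m' ^ 2 := by
      have h4 : d ^ 2 * g' ^ 2 ∣ d ^ 2 * (q * m' ^ 2) := by
        have e1 : d ^ 2 * g' ^ 2 = g ^ 2 := by rw [hg']; ring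
        have e2 : d ^ 2 * (q * m' ^ 2) = q * M ^ 2 := by rw [hm']; ring
        rw [e1, e2]; exact h1
      exact Nat.dvd_of_mul_dvd_mul_left (by positivity) h4
    have h5 : g' ^ 2 ∣ q := (Nat.Coprime.pow 2 2 hco).dvd_of_dvd_mul_right h3
    have h6 : g' = 1 := by
      rcases (Nat.dvd_prime hq).1 h5 with h7 | h7
      · exact (Nat.pow_eq_one.1 h7).resolve_right (by norm_num)
      · exfalso
        have : ¬ (g' ^ 2).Prime := Nat.Prime.not_prime_pow (by norm_num)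
        rw [h7] at this
        exact this hq
    rw [hg', hm', h6, one_mul]
    exact Dvd.intro_left m' rfl
  have h3 : (g : ℤ) ∣ (M : ℤ) := Int.natCast_dvd_natCast.2 h2
  rw [hM] at h3
  exact Int.dvd_natAbs.1 h3

theorem uex_norm (D q X Y Z t1 t2 : ℤ) (h : X ^ 2 - D * Y ^ 2 = q * Z ^ 2) :
    ((t1 ^ 2 + q * t2 ^ 2) * X + 2 * q * t1 * t2 * Z) ^ 2 -
      D * ((t1 ^ 2 - q * t2 ^ 2) * Y) ^ 2 =
    q * ((t1 ^ 2 + q * t2 ^ 2) * Z + 2 * t1 * t2 * X) ^ 2 := by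
  linear_combination (t1 ^ 2 - q * t2 ^ 2) ^ 2 * h

/-- the arithmetic part -/
theorem uex_arith {Q : ℕ} {D : ℤ} (hD : D ≠ 0) {q : ℕ} (hq : q.Prime)
    (hqQ : (q : ℤ) ≡ 1 [ZMOD Q]) {X Y Z κ t1 t2 : ℤ} {E : ℕ}
    (hXYZ : X ^ 2 - D * Y ^ 2 = q * Z ^ 2) (hY : Y ≠ 0)
    (hE : 2 * D.natAbs * Y.natAbs ^ 2 < 2 ^ E)
    (hκ1 : κ ≡ 1 [ZMOD Q]) (hκ : κ ^ 2 ≡ q [ZMOD (Q : ℤ) ^ (E + 3)])
    (ht2 : t2 ≡ 1 [ZMOD (Q : ℤ) ^ (E + 3)]) (ht1 : t1 ≡ κ * t2 [ZMOD (Q : ℤ) ^ (E + 3)])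
    {A B m : ℤ} (hA : A = (t1 ^ 2 + q * t2 ^ 2) * X + 2 * q * t1 * t2 * Z)
    (hB : B = (t1 ^ 2 - q * t2 ^ 2) * Y) (hm : m = (t1 ^ 2 + q * t2 ^ 2) * Z + 2 * t1 * t2 * X)
    (hA0 : A ≠ 0) :
    ∃ (g : ℕ) (A' B' m' : ℤ), 0 < g ∧ A = g * A' ∧ B = g * B' ∧ m = g * m' ∧
      IsCoprime A' B' ∧ A' ^ 2 - D * B' ^ 2 = q * m' ^ 2 ∧
      (∀ p : ℕ, p.Prime → p ∣ Q → ¬ (p : ℤ) ∣ A') ∧ (Q : ℤ) ^ 3 ∣ B' ∧ A' ≡ m' [ZMOD Q] := by
  have hQE : (Q : ℤ) ∣ (Q : ℤ) ^ (E + 3) := dvd_pow_self _ (by omega)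
  -- basic congruences
  have c1 : t1 ^ 2 ≡ q * t2 ^ 2 [ZMOD (Q : ℤ) ^ (E + 3)] := by
    have h1 : t1 ^ 2 ≡ (κ * t2) ^ 2 [ZMOD (Q : ℤ) ^ (E + 3)] := ht1.pow 2
    have h2 : (κ * t2) ^ 2 ≡ q * t2 ^ 2 [ZMOD (Q : ℤ) ^ (E + 3)] := by
      rw [mul_pow]; exact hκ.mul_right _
    exact h1.trans h2
  have c2 : A ≡ 2 * q * t2 ^ 2 * (X + κ * Z) [ZMOD (Q : ℤ) ^ (E + 3)] := by
    have h1 : (t1 ^ 2 + q * t2 ^ 2) * X ≡ (q * t2 ^ 2 + q * t2 ^ 2) * X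
        [ZMOD (Q : ℤ) ^ (E + 3)] := (c1.add_right _).mul_right _
    have h2 : t1 * (2 * q * t2 * Z) ≡ (κ * t2) * (2 * q * t2 * Z) [ZMOD (Q : ℤ) ^ (E + 3)] :=
      ht1.mul_right _
    have h3 := h1.add h2
    rw [hA]
    have e1 : (t1 ^ 2 + q * t2 ^ 2) * X + 2 * q * t1 * t2 * Z =
      (t1 ^ 2 + q * t2 ^ 2) * X + t1 * (2 * q * t2 * Z) := by ring
    have e2 : 2 * q * t2 ^ 2 * (X + κ * Z) =
      (q * t2 ^ 2 + q * t2 ^ 2) * X + (κ * t2) * (2 * q * t2 * Z) := by ring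
    rw [e1, e2]; exact h3
  have c3 : κ * m ≡ A [ZMOD (Q : ℤ) ^ (E + 3)] := by
    have h1 : (t1 ^ 2 + q * t2 ^ 2) * (κ * Z) ≡ (q * t2 ^ 2 + q * t2 ^ 2) * (κ * Z)
        [ZMOD (Q : ℤ) ^ (E + 3)] := (c1.add_right _).mul_right _
    have h2 : t1 * (2 * κ * t2 * X) ≡ (κ * t2) * (2 * κ * t2 * X) [ZMOD (Q : ℤ) ^ (E + 3)] :=
      ht1.mul_right _
    have h3 : κ ^ 2 * (2 * t2 ^ 2 * X) ≡ q * (2 * t2 ^ 2 * X) [ZMOD (Q : ℤ) ^ (E + 3)] :=
      hκ.mul_right _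
    have e : (κ * t2) * (2 * κ * t2 * X) = κ ^ 2 * (2 * t2 ^ 2 * X) := by ring
    rw [e] at h2
    have h4 := h1.add (h2.trans h3)
    refine Int.ModEq.trans ?_ c2.symm
    have e1 : κ * m = (t1 ^ 2 + q * t2 ^ 2) * (κ * Z) + t1 * (2 * κ * t2 * X) := by
      rw [hm]; ring
    have e2 : 2 * q * t2 ^ 2 * (X + κ * Z) =
      (q * t2 ^ 2 + q * t2 ^ 2) * (κ * Z) + q * (2 * t2 ^ 2 * X) := by ring
    rw [e1, e2]; exact h4
  have c4 : (Q : ℤ) ^ (E + 3) ∣ B := by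
    rw [hB]
    exact ((Int.modEq_iff_dvd.1 c1.symm)).mul_right _
  -- no high prime power divides A
  have key : ∀ p : ℕ, p.Prime → p ∣ Q → ¬ (p : ℤ) ^ E ∣ A := by
    intro p hp hpQ hdvd
    have hpp : Prime (p : ℤ) := Nat.prime_iff_prime_int.1 hp
    have hpQ' : (p : ℤ) ∣ (Q : ℤ) := Int.natCast_dvd_natCast.2 hpQ
    have hpE : (p : ℤ) ^ E ∣ (Q : ℤ) ^ (E + 3) :=
      (pow_dvd_pow_of_dvd hpQ' E).trans (pow_dvd_pow _ (by omega))
    have hnq : ¬ (p : ℤ) ∣ (q : ℤ) := by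
      intro h
      have h1 : (q : ℤ) ≡ 1 [ZMOD p] := hqQ.of_dvd hpQ'
      have h2 : (p : ℤ) ∣ 1 - q := Int.modEq_iff_dvd.1 h1
      have h3 : (p : ℤ) ∣ 1 := by
        have := dvd_add h2 h
        simpa using this
      exact hpp.not_dvd_one h3
    have hnt : ¬ (p : ℤ) ∣ t2 := by
      intro h
      have h1 : t2 ≡ 1 [ZMOD p] := ht2.of_dvd (hpQ'.trans hQE)
      have h2 : (p : ℤ) ∣ 1 - t2 := Int.modEq_iff_dvd.1 h1
      have h3 : (p : ℤ) ∣ 1 := by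
        have := dvd_add h2 h
        simpa using this
      exact hpp.not_dvd_one h3
    have h1 : (p : ℤ) ^ E ∣ 2 * q * t2 ^ 2 * (X + κ * Z) := by
      have h2 := (c2.of_dvd hpE)
      exact (Int.ModEq.dvd_iff h2).1 hdvd
    have h2 : (p : ℤ) ^ E ∣ 2 * (X + κ * Z) := by
      have hco : IsCoprime ((p : ℤ) ^ E) ((q : ℤ) * t2 ^ 2) := by
        apply IsCoprime.pow_left
        rw [Prime.coprime_iff_not_dvd hpp]
        intro h
        rcases hpp.dvd_or_dvd h with h3 | h3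
        · exact hnq h3
        · exact hnt (hpp.dvd_of_dvd_pow h3)
      apply hco.dvd_of_dvd_mul_left
      have e : (q : ℤ) * t2 ^ 2 * (2 * (X + κ * Z)) = 2 * q * t2 ^ 2 * (X + κ * Z) := by ring
      rw [e]; exact h1
    have h3 : (p : ℤ) ^ E ∣ 2 * (D * Y ^ 2) := by
      have h4 : (p : ℤ) ^ E ∣ 2 * (X + κ * Z) * (X - κ * Z) := h2.mul_right _
      have h5 : (p : ℤ) ^ E ∣ (q - κ ^ 2) * (2 * Z ^ 2) :=
        (hpE.trans (Int.modEq_iff_dvd.1 hκ)).mul_right _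
      have e : 2 * (D * Y ^ 2) = 2 * (X + κ * Z) * (X - κ * Z) - (q - κ ^ 2) * (2 * Z ^ 2) := by
        linear_combination (-2) * hXYZ
      rw [e]; exact dvd_sub h4 h5
    have h4 : p ^ E ∣ 2 * D.natAbs * Y.natAbs ^ 2 := by
      have := Int.natAbs_dvd_natAbs.2 h3
      rw [Int.natAbs_pow, Int.natAbs_natCast, Int.natAbs_mul, Int.natAbs_mul,
        Int.natAbs_pow] at this
      rw [mul_assoc]; exact this
    have h5 : 0 < 2 * D.natAbs * Y.natAbs ^ 2 := by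
      have : 0 < D.natAbs := Int.natAbs_pos.2 hD
      have : 0 < Y.natAbs := Int.natAbs_pos.2 hY
      positivity
    have h6 := Nat.le_of_dvd h5 h4
    have h7 : 2 ^ E ≤ p ^ E := Nat.pow_le_pow_left hp.two_le E
    omega
  -- the gcd
  let g : ℕ := Int.gcd A B
  have hg : 0 < g := Int.gcd_pos_of_ne_zero_left B hA0
  obtain ⟨A', hA'⟩ : (g : ℤ) ∣ A := Int.gcd_dvd_left A B
  obtain ⟨B', hB'⟩ : (g : ℤ) ∣ B := Int.gcd_dvd_right A B
  have hg0 : (g : ℤ) ≠ 0 := by exact_mod_cast hg.ne'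
  have hco : IsCoprime A' B' := by
    have h1 : Int.gcd (A / g) (B / g) = 1 := Int.gcd_ediv_gcd_ediv_gcd hg
    have e1 : A / g = A' := by rw [hA']; exact Int.mul_ediv_cancel_left _ hg0
    have e2 : B / g = B' := by rw [hB']; exact Int.mul_ediv_cancel_left _ hg0
    rw [e1, e2] at h1
    exact Int.isCoprime_iff_gcd_eq_one.2 h1
  have hnorm : A ^ 2 - D * B ^ 2 = q * m ^ 2 := by
    rw [hA, hB, hm]; exact uex_norm D q X Y Z t1 t2 hXYZ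
  obtain ⟨m', hm'⟩ : (g : ℤ) ∣ m := by
    apply uex_sq_dvd hq hg
    rw [← hnorm, hA', hB']
    exact ⟨A' ^ 2 - D * B' ^ 2, by ring⟩
  have hnorm' : A' ^ 2 - D * B' ^ 2 = q * m' ^ 2 := by
    rw [hA', hB', hm'] at hnorm
    have : (g : ℤ) ^ 2 * (A' ^ 2 - D * B' ^ 2) = (g : ℤ) ^ 2 * (q * m' ^ 2) := by
      linear_combination hnorm
    exact mul_left_cancel₀ (pow_ne_zero 2 hg0) this
  have hpA : ∀ p : ℕ, p.Prime → p ∣ Q → ¬ (p : ℤ) ∣ A' := by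
    intro p hp hpQ hdvd
    have hpp : Prime (p : ℤ) := Nat.prime_iff_prime_int.1 hp
    have hpQ' : (p : ℤ) ∣ (Q : ℤ) := Int.natCast_dvd_natCast.2 hpQ
    have hpB : ¬ (p : ℤ) ∣ B' := by
      intro h
      exact hpp.not_isUnit (hco.isUnit_of_dvd' hdvd h)
    have h1 : (p : ℤ) ^ E ∣ g * B' := by
      rw [← hB']
      exact ((pow_dvd_pow_of_dvd hpQ' E).trans (pow_dvd_pow _ (by omega))).trans c4
    have h2 : (p : ℤ) ^ E ∣ g := by
      apply IsCoprime.dvd_of_dvd_mul_right _ h1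
      apply IsCoprime.pow_left
      rw [Prime.coprime_iff_not_dvd hpp]; exact hpB
    apply key p hp hpQ
    rw [hA']; exact h2.mul_right _
  -- the part of `g` composed of primes of `Q`
  let G : ℕ := Nat.gcd g (Q ^ E)
  have hG : 0 < G := Nat.gcd_pos_of_pos_left _ hg
  obtain ⟨g1, hg1⟩ : G ∣ g := Nat.gcd_dvd_left _ _
  obtain ⟨G', hG'⟩ : G ∣ Q ^ E := Nat.gcd_dvd_right _ _
  have hco1 : Nat.Coprime g1 G' := by
    have h1 : Nat.Coprime (g / G) (Q ^ E / G) := Nat.coprime_div_gcd_div_gcd hG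
    have e1 : g / G = g1 := Nat.div_eq_of_eq_mul_right hG hg1
    have e2 : Q ^ E / G = G' := Nat.div_eq_of_eq_mul_right hG hG'
    rw [e1, e2] at h1
    exact h1
  have hco2 : Nat.Coprime g1 Q := by
    by_contra hcon
    obtain ⟨p, hp, hpg, hpQ⟩ := Nat.Prime.not_coprime_iff_dvd.1 hcon
    have h1 : Nat.Coprime (p ^ E) G' := by
      apply Nat.Coprime.pow_left
      exact Nat.Coprime.coprime_dvd_left hpg hco1
    have h2 : p ^ E ∣ G * G' := by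
      rw [← hG']; exact pow_dvd_pow_of_dvd hpQ E
    have h3 : p ^ E ∣ G := h1.dvd_of_dvd_mul_right h2
    have h4 : p ^ E ∣ g := h3.trans (Nat.gcd_dvd_left _ _)
    apply key p hp hpQ
    rw [hA']
    have h5 : ((p ^ E : ℕ) : ℤ) ∣ (g : ℤ) := Int.natCast_dvd_natCast.2 h4
    push_cast at h5
    exact h5.mul_right _
  have hcancel : ∀ x : ℤ, (Q : ℤ) ^ (E + 3) ∣ g * x → (Q : ℤ) ^ 3 ∣ x := by
    intro x hx
    have h1 : (Q : ℤ) ^ (E + 3) ∣ G * x := by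
      have hc : IsCoprime ((Q : ℤ) ^ (E + 3)) (g1 : ℤ) := by
        apply IsCoprime.pow_left
        exact (Nat.isCoprime_iff_coprime.2 hco2).symm
      apply hc.dvd_of_dvd_mul_left
      have e : (g1 : ℤ) * (G * x) = g * x := by
        have : (g : ℤ) = G * g1 := by exact_mod_cast hg1
        rw [this]; ring
      rw [e]; exact hx
    have e : (Q : ℤ) ^ (E + 3) = G * (G' * (Q : ℤ) ^ 3) := by
      have : (Q : ℤ) ^ E = G * G' := by exact_mod_cast hG'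
      rw [pow_add, this]; ring
    rw [e] at h1
    have h2 : (G' : ℤ) * (Q : ℤ) ^ 3 ∣ x :=
      Int.dvd_of_mul_dvd_mul_left (by exact_mod_cast hG.ne') h1
    exact (Dvd.intro_left _ rfl).trans h2
  refine ⟨g, A', B', m', hg, hA', hB', hm', hco, hnorm', hpA, ?_, ?_⟩
  · exact hcancel B' (by rw [← hB']; exact c4)
  · have h1 : (Q : ℤ) ^ 3 ∣ A' - κ * m' := by
      apply hcancel
      have h2 := Int.modEq_iff_dvd.1 c3
      have e : (g : ℤ) * (A' - κ * m') = A - κ * m := by rw [hA', hm']; ring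
      rw [e]; exact h2
    have h2 : (Q : ℤ) ∣ A' - κ * m' := (dvd_pow_self _ (by norm_num)).trans h1
    have h3 : κ * m' ≡ A' [ZMOD Q] := Int.modEq_iff_dvd.2 h2
    have h4 : κ * m' ≡ 1 * m' [ZMOD Q] := hκ1.mul_right _
    rw [one_mul] at h4
    exact h3.symm.trans h4

/-- the size estimates -/
theorem uex_size {σ X Y Z P M : ℝ} (hσ : 1 ≤ σ) (hw : 0 < X + σ * Z) (hY : 0 < Y) (hP : 0 < P)
    (hM : 0 ≤ M) : ∃ T : ℝ, 1 ≤ T ∧ ∀ t1 t2 : ℝ, T ≤ t2 → 0 < t1 - σ * t2 → t1 - σ * t2 ≤ P →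
      0 < (t1 ^ 2 + σ ^ 2 * t2 ^ 2) * Z + 2 * t1 * t2 * X ∧ 0 < (t1 ^ 2 - σ ^ 2 * t2 ^ 2) * Y ∧
      M * ((t1 ^ 2 - σ ^ 2 * t2 ^ 2) * Y) <
        (t1 ^ 2 + σ ^ 2 * t2 ^ 2) * X + 2 * σ ^ 2 * t1 * t2 * Z := by
  have hσ0 : 0 < σ := by linarith
  obtain ⟨w, hwdef⟩ : ∃ w, w = X + σ * Z := ⟨_, rfl⟩
  rw [← hwdef] at hw
  obtain ⟨K1, hK1⟩ : ∃ K1, K1 = P ^ 2 * |X| := ⟨_, rfl⟩
  obtain ⟨K2, hK2⟩ : ∃ K2, K2 = P ^ 2 * |Z| := ⟨_, rfl⟩
  obtain ⟨K3, hK3⟩ : ∃ K3, K3 = P * (2 * σ + P) * Y := ⟨_, rfl⟩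
  have hK10 : 0 ≤ K1 := by rw [hK1]; positivity
  have hK20 : 0 ≤ K2 := by rw [hK2]; positivity
  have hK30 : 0 ≤ K3 := by rw [hK3]; positivity
  have hMK : 0 ≤ M * K3 := mul_nonneg hM hK30
  refine ⟨(K1 + K2 + M * K3) / (2 * w) + 1, by
    have : 0 ≤ (K1 + K2 + M * K3) / (2 * w) := by positivity
    linarith, ?_⟩
  intro t1 t2 hT h1 h2
  have ht2 : 1 ≤ t2 := by
    have : 0 ≤ (K1 + K2 + M * K3) / (2 * w) := by positivity
    linarith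
  have hT' : K1 + K2 + M * K3 < 2 * w * t2 := by
    have h3 : (K1 + K2 + M * K3) / (2 * w) < t2 := by linarith
    rw [div_lt_iff₀ (by positivity)] at h3
    linarith
  obtain ⟨ε, hε⟩ : ∃ ε, ε = t1 - σ * t2 := ⟨_, rfl⟩
  rw [← hε] at h1 h2
  have ht1 : t1 = σ * t2 + ε := by rw [hε]; ring
  have hσt : t2 ≤ σ * t2 := le_mul_of_one_le_left (by linarith) hσ
  have ht12 : t2 ≤ t1 := by linarith
  have ht10 : 0 < t1 := by linarith
  have hε2 : ε ^ 2 ≤ P ^ 2 := pow_le_pow_left₀ h1.le h2 2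
  have hmain : (K1 + K2 + M * K3) * t2 < 2 * w * t2 ^ 2 := by
    have := mul_lt_mul_of_pos_right hT' (by linarith : 0 < t2)
    calc (K1 + K2 + M * K3) * t2 < 2 * w * t2 * t2 := this
      _ = 2 * w * t2 ^ 2 := by ring
  have hk1 : K1 ≤ K1 * t2 := le_mul_of_one_le_right hK10 ht2
  have hk2 : K2 ≤ K2 * t2 := le_mul_of_one_le_right hK20 ht2
  have hKt : K1 + K2 + M * K3 * t2 ≤ (K1 + K2 + M * K3) * t2 := by
    have : (K1 + K2 + M * K3) * t2 = K1 * t2 + K2 * t2 + M * K3 * t2 := by ring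
    linarith
  have hMKt : 0 ≤ M * K3 * t2 := mul_nonneg hMK (by linarith)
  have hB : (t1 ^ 2 - σ ^ 2 * t2 ^ 2) * Y = ε * (σ * t2 + t1) * Y := by rw [hε]; ring
  have hA : (t1 ^ 2 + σ ^ 2 * t2 ^ 2) * X + 2 * σ ^ 2 * t1 * t2 * Z =
      σ * (2 * t1 * t2 * w) + ε ^ 2 * X := by rw [hε, hwdef]; ring
  have hm : (t1 ^ 2 + σ ^ 2 * t2 ^ 2) * Z + 2 * t1 * t2 * X =
      2 * t1 * t2 * w + ε ^ 2 * Z := by rw [hε, hwdef]; ring
  have hXa : -K1 ≤ ε ^ 2 * X := by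
    have h4 : ε ^ 2 * |X| ≤ K1 := by
      rw [hK1]; exact mul_le_mul_of_nonneg_right hε2 (abs_nonneg _)
    have h5 : ε ^ 2 * (-|X|) ≤ ε ^ 2 * X :=
      mul_le_mul_of_nonneg_left (neg_abs_le X) (sq_nonneg ε)
    linarith
  have hZa : -K2 ≤ ε ^ 2 * Z := by
    have h4 : ε ^ 2 * |Z| ≤ K2 := by
      rw [hK2]; exact mul_le_mul_of_nonneg_right hε2 (abs_nonneg _)
    have h5 : ε ^ 2 * (-|Z|) ≤ ε ^ 2 * Z :=
      mul_le_mul_of_nonneg_left (neg_abs_le Z) (sq_nonneg ε)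
    linarith
  have hprod : t2 * t2 ≤ t1 * t2 := mul_le_mul_of_nonneg_right ht12 (by linarith)
  have hb1 : 2 * w * t2 ^ 2 ≤ 2 * t1 * t2 * w := by
    have := mul_le_mul_of_nonneg_left hprod (by linarith : 0 ≤ 2 * w)
    calc 2 * w * t2 ^ 2 = 2 * w * (t2 * t2) := by ring
      _ ≤ 2 * w * (t1 * t2) := this
      _ = 2 * t1 * t2 * w := by ring
  have h7 : 0 ≤ 2 * t1 * t2 * w := by positivity
  have hb2 : 2 * t1 * t2 * w ≤ σ * (2 * t1 * t2 * w) := le_mul_of_one_le_left h7 hσ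
  have hs : 0 < σ * t2 + t1 := by linarith
  refine ⟨?_, ?_, ?_⟩
  · rw [hm]; linarith
  · rw [hB]; positivity
  · rw [hA, hB]
    have h8 : σ * t2 + t1 ≤ (2 * σ + P) * t2 := by
      have : P ≤ P * t2 := le_mul_of_one_le_right hP.le ht2
      have h9 : (2 * σ + P) * t2 = 2 * (σ * t2) + P * t2 := by ring
      linarith
    have h9 : ε * (σ * t2 + t1) ≤ P * ((2 * σ + P) * t2) := mul_le_mul h2 h8 hs.le hP.le
    have h10 := mul_le_mul_of_nonneg_right h9 hY.le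
    have h11 : P * ((2 * σ + P) * t2) * Y = K3 * t2 := by rw [hK3]; ring
    rw [h11] at h10
    have hMB := mul_le_mul_of_nonneg_left h10 hM
    have h12 : M * (K3 * t2) = M * K3 * t2 := by ring
    linarith

/-- the vector built from the arithmetic part -/
theorem uex_vec {s : ℕ → ℤ} {a : ℕ} {b c : ℤ} {Q : ℕ} {D : ℤ} (hs : IsSign s)
    (hR : Red a b c Q D) {q : ℕ} (hsq : s q = -1) {b' : ℤ} (hb' : b = Q * b')
    {A' B' m' : ℤ} (hco : IsCoprime A' B') (hn : A' ^ 2 - D * B' ^ 2 = q * m' ^ 2)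
    (hp : ∀ p : ℕ, p.Prime → p ∣ Q → ¬ (p : ℤ) ∣ A') (hB' : (Q : ℤ) ^ 3 ∣ B')
    (hmod : A' ≡ m' [ZMOD Q]) (hB0 : 0 < B') (hm0 : 0 < m')
    (hx : 0 < A' - b' * B') :
    ∃ u : ℤ × ℤ, u.1 = A' - b' * B' ∧ Q * u.2 = 2 * B' ∧ Vp Q D u ∧ 0 < u.2 ∧
      cl s a b c u = -1 := by
  have hQ : (0 : ℤ) < Q := by exact_mod_cast hR.Q_pos
  obtain ⟨B'', hB''⟩ := hB'
  have hQB : (Q : ℤ) ∣ B' := ⟨(Q : ℤ) ^ 2 * B'', by rw [hB'']; ring⟩
  refine ⟨(A' - b' * B', 2 * Q ^ 2 * B''), rfl, by rw [hB'']; ring, ?_, ?_, ?_⟩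
  · -- membership
    have h2Q : 2 ∣ Q := by
      have h8 : (8 : ℕ) ∣ Q := by exact_mod_cast hR.eight_dvd
      exact (by norm_num : 2 ∣ 8).trans h8
    have hcoA : IsCoprime A' (Q : ℤ) := by
      rw [Int.isCoprime_iff_gcd_eq_one, Int.gcd_def, Int.natAbs_natCast]
      by_contra hcon
      obtain ⟨p, hp1, hp2, hp3⟩ := Nat.Prime.not_coprime_iff_dvd.1 hcon
      exact hp p hp1 hp3 (Int.natCast_dvd.2 hp2)
    have hcou : IsCoprime (A' - b' * B') (Q : ℤ) := by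
      obtain ⟨z, hz⟩ := hQB
      have e : A' - b' * B' = A' + (Q : ℤ) * (-(b' * z)) := by rw [hz]; ring
      rw [e]
      exact hcoA.add_mul_left_left _
    refine ⟨hx, ?_, hcou, ?_⟩
    · show IsCoprime (A' - b' * B') (2 * Q ^ 2 * B'')
      rw [Int.isCoprime_iff_gcd_eq_one, Int.gcd_def]
      by_contra hcon
      obtain ⟨p, hp1, hp2, hp3⟩ := Nat.Prime.not_coprime_iff_dvd.1 hcon
      have hpp : Prime (p : ℤ) := Nat.prime_iff_prime_int.1 hp1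
      have h2 : (p : ℤ) ∣ A' - b' * B' := Int.natCast_dvd.2 hp2
      have h3 : (p : ℤ) ∣ 2 * Q ^ 2 * B'' := Int.natCast_dvd.2 hp3
      have h4 : (p : ℤ) ∣ B' := by
        rcases hpp.dvd_or_dvd h3 with h5 | h5
        · have h6 : (p : ℤ) ∣ (Q : ℤ) := by
            rcases hpp.dvd_or_dvd h5 with h7 | h7
            · exact h7.trans (Int.natCast_dvd_natCast.2 h2Q)
            · exact hpp.dvd_of_dvd_pow h7
          exact h6.trans hQB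
        · rw [hB'']; exact h5.mul_left _
      have h5 : (p : ℤ) ∣ A' := by
        have := dvd_add h2 (h4.mul_left b')
        simpa using this
      exact hpp.not_isUnit (hco.isUnit_of_dvd' h5 h4)
    · show jacobiSym D (A' - b' * B').natAbs = 1
      -- the symbol of `m'`
      have hcom : IsCoprime m' (Q : ℤ) := by
        obtain ⟨z, hz⟩ := Int.modEq_iff_dvd.1 hmod
        have e : m' = A' + (Q : ℤ) * z := by linarith
        rw [e]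
        exact hcoA.add_mul_left_left _
      have hm'0 : m'.natAbs ≠ 0 := by omega
      have hJm : jacobiSym D m'.natAbs = 1 := by
        apply jac_of_primes hm'0
        intro l hl hlm
        have hlp : Prime (l : ℤ) := Nat.prime_iff_prime_int.1 hl
        have hlm' : (l : ℤ) ∣ m' := Int.natCast_dvd.2 hlm
        have hlQ : ¬ (l : ℤ) ∣ (Q : ℤ) := fun h => hlp.not_isUnit (hcom.isUnit_of_dvd' hlm' h)
        have hlD : ¬ (l : ℤ) ∣ D := fun h => hlQ (h.trans hR.D_dvd)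
        have hdv : (l : ℤ) ∣ A' ^ 2 - D * B' ^ 2 := by
          rw [hn]; exact (hlm'.trans (dvd_pow_self _ (by norm_num))).mul_left _
        have hlB : ¬ (l : ℤ) ∣ B' := by
          intro h
          have h1 : (l : ℤ) ∣ A' ^ 2 := by
            have h2 : (l : ℤ) ∣ D * B' ^ 2 :=
              (h.trans (dvd_pow_self _ (by norm_num))).mul_left _
            have := dvd_add hdv h2
            simpa using this
          exact hlp.not_isUnit (hco.isUnit_of_dvd' (hlp.dvd_of_dvd_pow h1) h)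
        exact jac_prime_of_sq hl hlD hlB hdv
      have codd : ∀ x : ℤ, IsCoprime x (Q : ℤ) → Odd x.natAbs := by
        intro x hxc
        apply odd_of_coprime hR
        rw [Int.isCoprime_iff_gcd_eq_one, Int.gcd_def, Int.natAbs_natCast] at hxc
        exact hxc
      rw [← hJm]
      apply jac_congr hR.D_Q (codd _ hcou) (codd _ hcom)
      have h1 : A' - b' * B' ≡ m' [ZMOD Q] := by
        refine Int.ModEq.trans ?_ hmod
        apply Int.modEq_iff_dvd.2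
        have e : A' - (A' - b' * B') = b' * B' := by ring
        rw [e]; exact hQB.mul_left _
      rw [← Int.natCast_modEq_iff, Int.natAbs_of_nonneg hx.le, Int.natAbs_of_nonneg hm0.le]
      exact h1
  · show 0 < 2 * (Q : ℤ) ^ 2 * B''
    have h1 : 0 < (Q : ℤ) ^ 3 * B'' := by rw [← hB'']; exact hB0
    have h2 : 0 < B'' := by
      by_contra hcon
      have : (Q : ℤ) ^ 3 * B'' ≤ 0 := mul_nonpos_of_nonneg_of_nonpos (by positivity) (by omega)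
      omega
    positivity
  · rw [cl_def]
    have hPhi : Phi a b c (A' - b' * B', 2 * Q ^ 2 * B'') = q * m' ^ 2 := by
      have h4 := four_Phi hR (A' - b' * B', 2 * Q ^ 2 * B'')
      simp only at h4
      have e1 : 2 * (A' - b' * B') + b * (2 * Q ^ 2 * B'') = 2 * A' := by
        rw [hb', hB'']; ring
      have e2 : (Q : ℤ) * (2 * Q ^ 2 * B'') = 2 * B' := by rw [hB'']; ring
      rw [e1, e2] at h4
      have h5 : 4 * Phi a b c (A' - b' * B', 2 * Q ^ 2 * B'') = 4 * (q * m' ^ 2) := by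
        rw [h4, ← hn]; ring
      linarith
    rw [hPhi, Int.natAbs_mul, Int.natAbs_natCast, hs.mul, pow_two, Int.natAbs_mul,
      sign_sq hs (by omega), hsq]
    norm_num

theorem uex_main (h1 : P_Legendre) (h2 : P_Kappa) : P_Uex := by
  intro s a b c Q D hs hR hmany δ hδ
  have hD0 := hR.D_ne_zero
  have hQ := hR.Q_pos
  have hDa : 0 < D.natAbs := Int.natAbs_pos.2 hD0
  obtain ⟨q, hq, hq1, hsq⟩ := hmany (8 * Q ^ 2 * D.natAbs) (by positivity)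
  have hqL : q ≡ 1 [MOD 8 * D.natAbs] := hq1.of_dvd ⟨Q ^ 2, by ring⟩
  have hqQ2 : q ≡ 1 [MOD Q ^ 2] := hq1.of_dvd ⟨8 * D.natAbs, by ring⟩
  have hqQ : (q : ℤ) ≡ 1 [ZMOD Q] := by
    have h3 : q ≡ 1 [MOD Q] := hqQ2.of_dvd (dvd_pow_self _ (by norm_num))
    exact_mod_cast (Int.natCast_modEq_iff.2 h3)
  obtain ⟨σ, hσdef⟩ : ∃ σ : ℝ, σ = √(q : ℝ) := ⟨_, rfl⟩
  have hσ2 : σ ^ 2 = q := by rw [hσdef]; exact Real.sq_sqrt (by positivity)
  have hσ1 : 1 ≤ σ := by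
    rw [hσdef]
    apply Real.one_le_sqrt.2
    exact_mod_cast hq.one_lt.le
  obtain ⟨X, Y, Z, hY, hw, hXYZ⟩ : ∃ X Y Z : ℤ, 0 < Y ∧ 0 < (X : ℝ) + σ * Z ∧
      X ^ 2 - D * Y ^ 2 = q * Z ^ 2 := by
    obtain ⟨X, Y, Z, hY, hXYZ⟩ := h1 D hR.D_ns hR.D_ne q hq hqL
    have hne : (X : ℝ) + σ * Z ≠ 0 := by
      intro h0
      have h3 : (X : ℝ) ^ 2 = q * Z ^ 2 := by
        have : (X : ℝ) = -(σ * Z) := by linarith
        rw [this, ← hσ2]; ring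
      have h4 : X ^ 2 = q * Z ^ 2 := by exact_mod_cast h3
      have h5 : D * Y ^ 2 = 0 := by linarith
      rcases mul_eq_zero.1 h5 with h6 | h6
      · exact hD0 h6
      · exact hY (pow_eq_zero_iff two_ne_zero |>.1 h6)
    rcases lt_or_gt_of_ne hne with h3 | h3
    · refine ⟨-X, |Y|, -Z, abs_pos.2 hY, ?_, ?_⟩
      · push_cast; linarith
      · rw [sq_abs]; linarith
    · exact ⟨X, |Y|, Z, abs_pos.2 hY, h3, by rw [sq_abs]; exact hXYZ⟩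
  obtain ⟨E, hE⟩ : ∃ E : ℕ, 2 * D.natAbs * Y.natAbs ^ 2 < 2 ^ E := ⟨_, Nat.lt_two_pow_self⟩
  have h8 : (8 : ℕ) ∣ Q := by exact_mod_cast hR.eight_dvd
  obtain ⟨κ, hκ1, hκ2⟩ := h2 Q q h8 hQ hqQ2 (E + 3)
  have hκ1' : κ ≡ 1 [ZMOD Q] := hκ1.of_dvd ⟨4, by ring⟩
  obtain ⟨b', hb'⟩ := hR.Q_b
  obtain ⟨P, hPdef⟩ : ∃ P : ℤ, P = (Q : ℤ) ^ (E + 3) := ⟨_, rfl⟩
  have hP : 0 < P := by rw [hPdef]; positivity
  have hPr : (0 : ℝ) < P := by exact_mod_cast hP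
  have hQr : (0 : ℝ) < Q := by exact_mod_cast hQ
  obtain ⟨M, hM⟩ : ∃ M : ℝ, M = |(b' : ℝ)| + 2 / (Q * δ) := ⟨_, rfl⟩
  have hM0 : 0 ≤ M := by rw [hM]; positivity
  obtain ⟨T, hT1, hT⟩ := uex_size (Y := (Y : ℝ)) hσ1 hw (by exact_mod_cast hY) hPr hM0
  -- the choice of `t2` and `t1`
  obtain ⟨t2, ht2⟩ : ∃ t2 : ℤ, t2 = 1 + P * ⌈T⌉ := ⟨_, rfl⟩
  have hTt : T ≤ t2 := by
    have h3 : T ≤ ⌈T⌉ := Int.le_ceil T
    have h4 : (1 : ℝ) ≤ P := by exact_mod_cast hP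
    have h5 : ((⌈T⌉ : ℤ) : ℝ) ≤ P * ⌈T⌉ := le_mul_of_one_le_left (by linarith) h4
    rw [ht2]; push_cast; linarith
  obtain ⟨t1, ht1⟩ : ∃ t1 : ℤ, t1 = κ * t2 + P * (⌊(σ * t2 - κ * t2) / P⌋ + 1) := ⟨_, rfl⟩
  have ht1a : 0 < (t1 : ℝ) - σ * t2 := by
    have h3 := Int.lt_floor_add_one ((σ * t2 - κ * t2) / P)
    rw [div_lt_iff₀ hPr] at h3
    rw [ht1]; push_cast; linarith
  have ht1b : (t1 : ℝ) - σ * t2 ≤ P := by
    have h3 := Int.floor_le ((σ * t2 - κ * t2) / P)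
    rw [le_div_iff₀ hPr] at h3
    rw [ht1]; push_cast; linarith
  obtain ⟨hm0, hB0, hAB⟩ := hT t1 t2 hTt ht1a ht1b
  obtain ⟨A, hA⟩ : ∃ A : ℤ, A = (t1 ^ 2 + q * t2 ^ 2) * X + 2 * q * t1 * t2 * Z := ⟨_, rfl⟩
  obtain ⟨B, hB⟩ : ∃ B : ℤ, B = (t1 ^ 2 - q * t2 ^ 2) * Y := ⟨_, rfl⟩
  obtain ⟨m, hm⟩ : ∃ m : ℤ, m = (t1 ^ 2 + q * t2 ^ 2) * Z + 2 * t1 * t2 * X := ⟨_, rfl⟩
  rw [hσ2] at hm0 hB0 hAB
  have hAr : (A : ℝ) = (t1 ^ 2 + q * t2 ^ 2) * X + 2 * q * t1 * t2 * Z := by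
    rw [hA]; push_cast; ring
  have hBr : (B : ℝ) = (t1 ^ 2 - q * t2 ^ 2) * Y := by
    rw [hB]; push_cast; ring
  have hmr : (m : ℝ) = (t1 ^ 2 + q * t2 ^ 2) * Z + 2 * t1 * t2 * X := by
    rw [hm]; push_cast; ring
  rw [← hmr] at hm0
  rw [← hBr] at hB0
  rw [← hAr, ← hBr] at hAB
  have hA0 : (0 : ℝ) < A := lt_of_le_of_lt (mul_nonneg hM0 hB0.le) hAB
  have hA0' : 0 < A := by exact_mod_cast hA0
  have hB0' : 0 < B := by exact_mod_cast hB0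
  have hm0' : 0 < m := by exact_mod_cast hm0
  obtain ⟨g, A', B', m', hg, hA', hB', hm', hco, hn, hp, hQ3, hmod⟩ :=
    uex_arith (X := X) (Y := Y) (Z := Z) (κ := κ) (t1 := t1) (t2 := t2) (E := E) hD0 hq hqQ
      hXYZ hY.ne' hE hκ1' hκ2
      (by
        apply Int.modEq_iff_dvd.2
        rw [ht2, ← hPdef]
        exact ⟨-⌈T⌉, by ring⟩)
      (by
        apply Int.modEq_iff_dvd.2
        rw [← hPdef]
        refine ⟨-(⌊(σ * t2 - κ * t2) / P⌋ + 1), ?_⟩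
        rw [ht1]; ring)
      hA hB hm hA0'.ne'
  have hg' : (0 : ℤ) < g := by exact_mod_cast hg
  have hgr : (0 : ℝ) < g := by exact_mod_cast hg
  have pB : 0 < B' := (mul_pos_iff_of_pos_left hg').1 (by rw [← hB']; exact hB0')
  have pm : 0 < m' := (mul_pos_iff_of_pos_left hg').1 (by rw [← hm']; exact hm0')
  -- divide the inequality by `g`
  have hAB' : M * (B' : ℝ) < A' := by
    have e1 : (A : ℝ) = g * A' := by rw [hA']; push_cast; ring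
    have e2 : (B : ℝ) = g * B' := by rw [hB']; push_cast; ring
    rw [e1, e2] at hAB
    have : (g : ℝ) * (M * B') < g * A' := by linarith
    exact lt_of_mul_lt_mul_left this hgr.le
  have pBr : (0 : ℝ) < B' := by exact_mod_cast pB
  have hbB : (b' : ℝ) * B' ≤ |(b' : ℝ)| * B' := mul_le_mul_of_nonneg_right (le_abs_self _) pBr.le
  have hdiff : 2 / (Q * δ) * B' < (A' : ℝ) - b' * B' := by
    rw [hM, add_mul] at hAB'
    linarith
  have hx : 0 < A' - b' * B' := by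
    have h3 : (0 : ℝ) < (A' : ℝ) - b' * B' := lt_of_le_of_lt (by positivity) hdiff
    exact_mod_cast h3
  obtain ⟨u, hu1, hu2, hu3, hu4, hu5⟩ := uex_vec hs hR hsq hb' hco hn hp hQ3 hmod pB pm hx
  refine ⟨u, hu3, hu4, ?_, hu5⟩
  have e1 : (u.1 : ℝ) = A' - b' * B' := by rw [hu1]; push_cast; ring
  have e2 : (Q : ℝ) * u.2 = 2 * B' := by exact_mod_cast hu2
  rw [e1]
  have h3 : δ * (2 / (Q * δ) * B') ≤ δ * ((A' : ℝ) - b' * B') :=
    mul_le_mul_of_nonneg_left hdiff.le hδ.le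
  have h4 : δ * (2 / (Q * δ) * B') = (u.2 : ℝ) := by
    field_simp
    linarith
  rw [h4] at h3
  exact h3

end Pool.Agent.Quad
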