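import Pool.Agent.Quad.Basic

/-!
# Module UMULT: multiplication by `u` on slopes
-/

set_option autoImplicit false

namespace Pool.Agent.Quad

open Pool.Agent.FareyParity Finset

namespace Umult

variable {a : ℕ} {b c : ℤ} {Q : ℕ} {N : ℕ} {e : Edge}

theorem bigN_ac (h : BigN a b c Q N) : 16 * |a * c| ≤ (N : ℤ) ∧ 1 ≤ N := by
  unfold BigN at h
  have h1 : 1 ≤ (KK Q + 1) ^ 4 := Nat.one_le_pow _ _ (by omega)
  have h2 : 16 * (b.natAbs + (a * c).natAbs + 1) ≤ N := by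
    calc 16 * (b.natAbs + (a * c).natAbs + 1)
        = 16 * (b.natAbs + (a * c).natAbs + 1) * 1 := by ring
      _ ≤ 16 * (b.natAbs + (a * c).natAbs + 1) * (KK Q + 1) ^ 4 := Nat.mul_le_mul_left _ h1
      _ ≤ N := h
  have h3 : (((a * c).natAbs : ℕ) : ℤ) = |a * c| := Int.natCast_natAbs _
  constructor
  · rw [← h3]; omega
  · omega

theorem x_bounds (h : BigN a b c Q N) {u v : ℤ × ℤ} (hu : Reg N u) (hv : Reg N v) :
    15 * (u.1 * v.1) ≤ 16 * (mulv b (a * c) u v).1 ∧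
      16 * (mulv b (a * c) u v).1 ≤ 17 * (u.1 * v.1) := by
  obtain ⟨h1, h2⟩ := bigN_ac h
  obtain ⟨hu1, hu2, hu3⟩ := hu
  obtain ⟨hv1, hv2, hv3⟩ := hv
  have hN : (1 : ℤ) ≤ N := by exact_mod_cast h2
  have h4 : (N * u.2) * (N * v.2) ≤ u.1 * v.1 :=
    mul_le_mul hu3 hv3 (by positivity) hu1.le
  have h5 : 0 ≤ u.2 * v.2 := mul_nonneg hu2 hv2
  have h6 : 16 * (|a * c| * (u.2 * v.2)) ≤ u.1 * v.1 := by
    calc 16 * (|a * c| * (u.2 * v.2)) = (16 * |a * c|) * (u.2 * v.2) := by ring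
      _ ≤ N * (u.2 * v.2) := mul_le_mul_of_nonneg_right h1 h5
      _ ≤ N * (N * (u.2 * v.2)) := by
          apply mul_le_mul_of_nonneg_left _ (by positivity)
          nlinarith
      _ = (N * u.2) * (N * v.2) := by ring
      _ ≤ u.1 * v.1 := h4
  have h7 : |a * c * (u.2 * v.2)| = |a * c| * (u.2 * v.2) := by
    rw [abs_mul, abs_of_nonneg h5]
  have h8 := abs_le.1 (le_of_eq h7)
  have h9 : (mulv b (a * c) u v).1 = u.1 * v.1 - a * c * (u.2 * v.2) := by
    simp only [mulv]; ring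
  rw [h9]
  constructor
  · linarith [h8.2]
  · linarith [h8.1]

theorem x_pos (h : BigN a b c Q N) {u v : ℤ × ℤ} (hu : Reg N u) (hv : Reg N v) :
    0 < (mulv b (a * c) u v).1 := by
  have h1 := (x_bounds h hu hv).1
  have h2 : 0 < u.1 * v.1 := mul_pos hu.1 hv.1
  omega

theorem dt_self_mulv (u v : ℤ × ℤ) :
    dt v (mulv b (a * c) u v) = u.2 * ip b (a * c) v v := by
  simp only [dt, mulv, ip]; ring

theorem dt_mulv_mulv (u v w : ℤ × ℤ) :
    dt (mulv b (a * c) u v) (mulv b (a * c) u w) = ip b (a * c) u u * dt v w := by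
  simp only [dt, mulv, ip]; ring

theorem mulv_inj {u : ℤ × ℤ} (hu : 0 < ip b (a * c) u u) {v w : ℤ × ℤ}
    (h : mulv b (a * c) u v = mulv b (a * c) u w) : v = w := by
  have h1 : (mulv b (a * c) u v).1 = (mulv b (a * c) u w).1 := by rw [h]
  have h2 : (mulv b (a * c) u v).2 = (mulv b (a * c) u w).2 := by rw [h]
  simp only [mulv] at h1 h2
  simp only [ip] at hu
  have h3 : (u.1 * u.1 + b * u.1 * u.2 + a * c * u.2 * u.2) * v.1 =
      (u.1 * u.1 + b * u.1 * u.2 + a * c * u.2 * u.2) * w.1 := by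
    linear_combination (u.1 + b * u.2) * h1 + a * c * u.2 * h2
  have h4 : (u.1 * u.1 + b * u.1 * u.2 + a * c * u.2 * u.2) * v.2 =
      (u.1 * u.1 + b * u.1 * u.2 + a * c * u.2 * u.2) * w.2 := by
    linear_combination u.1 * h2 - u.2 * h1
  ext
  · exact mul_left_cancel₀ hu.ne' h3
  · exact mul_left_cancel₀ hu.ne' h4

/-- the slope -/
noncomputable def sl (v : ℤ × ℤ) : ℝ := (v.2 : ℝ) / v.1

theorem cone_iff (he : IsEdge N e) {v : ℤ × ℤ} (hv : 0 < v.1) :
    Cone e v ↔ sl e.1 < sl v ∧ sl v < sl e.2 := by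
  unfold Cone sl
  rw [dt_pos_iff he.x1_pos hv, dt_pos_iff hv he.x2_pos]

/-- the shift of the slope -/
theorem shift (h3 : P_Geom) (h : BigN a b c Q N) {u v : ℤ × ℤ} (hu : Reg N u) (hv : Reg N v) :
    sl v ≤ sl (mulv b (a * c) u v) ∧
      3 * (sl (mulv b (a * c) u v) - sl v) ≤ 4 * ((u.2 : ℝ) / u.1) := by
  have hx := x_pos h hu hv
  have hb := (x_bounds h hu hv).1
  obtain ⟨g1, g2⟩ := h3 a b c Q N h v v hv hv
  have hd := dt_slope hv.1 hx
  rw [dt_self_mulv] at hd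
  have hv1 : (0 : ℝ) < v.1 := by exact_mod_cast hv.1
  have hu1 : (0 : ℝ) < u.1 := by exact_mod_cast hu.1
  have hu2 : (0 : ℝ) ≤ u.2 := by exact_mod_cast hu.2.1
  have hxr : (0 : ℝ) < (mulv b (a * c) u v).1 := by exact_mod_cast hx
  have hP1 : 3 * ((v.1 : ℝ) * v.1) ≤ 4 * (ip b (a * c) v v : ℤ) := by exact_mod_cast g1
  have hP2 : 4 * ((ip b (a * c) v v : ℤ) : ℝ) ≤ 5 * ((v.1 : ℝ) * v.1) := by exact_mod_cast g2
  have hxb : 15 * ((u.1 : ℝ) * v.1) ≤ 16 * ((mulv b (a * c) u v).1 : ℝ) := by exact_mod_cast hb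
  push_cast at hd
  have hsl : sl (mulv b (a * c) u v) - sl v =
      (u.2 : ℝ) * (ip b (a * c) v v : ℤ) / (v.1 * (mulv b (a * c) u v).1) := by
    rw [eq_div_iff (by positivity)]
    unfold sl
    linarith
  have hipos : (0 : ℝ) ≤ (ip b (a * c) v v : ℤ) := by nlinarith [mul_pos hv1 hv1]
  constructor
  · have : 0 ≤ sl (mulv b (a * c) u v) - sl v := by rw [hsl]; positivity
    linarith
  · rw [hsl, ← mul_div_assoc, ← mul_div_assoc, div_le_div_iff₀ (by positivity) hu1]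
    -- 3 * (u2 * Phi) * u1 ≤ 4 * u2 * (v1 * x)
    have h4 : 4 * ((3 * ((ip b (a * c) v v : ℤ) : ℝ)) * u.1) ≤ 4 * (4 * (v.1 * (mulv b (a * c) u v).1)) := by
      have h5 : (4 * ((ip b (a * c) v v : ℤ) : ℝ)) * (3 * u.1) ≤ (5 * ((v.1 : ℝ) * v.1)) * (3 * u.1) :=
        mul_le_mul_of_nonneg_right hP2 (by positivity)
      have h6 : (v.1 : ℝ) * (15 * ((u.1 : ℝ) * v.1)) ≤ v.1 * (16 * ((mulv b (a * c) u v).1 : ℝ)) :=
        mul_le_mul_of_nonneg_left hxb hv1.le
      linarith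
    have h7 := mul_le_mul_of_nonneg_left h4 hu2
    linarith

/-- multiplication by `u` does not contract slopes by more than a factor `2` -/
theorem expand (h3 : P_Geom) (h : BigN a b c Q N) {u v w : ℤ × ℤ} (hu : Reg N u) (hv : Reg N v)
    (hw : Reg N w) (hvw : sl v ≤ sl w) :
    sl w - sl v ≤ 2 * (sl (mulv b (a * c) u w) - sl (mulv b (a * c) u v)) := by
  have hxv := x_pos h hu hv
  have hxw := x_pos h hu hw
  have hbv := (x_bounds h hu hv).2
  have hbw := (x_bounds h hu hw).2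
  obtain ⟨g1, -⟩ := h3 a b c Q N h u u hu hu
  have hd := dt_slope hxv hxw
  rw [dt_mulv_mulv] at hd
  have hd2 := dt_slope hv.1 hw.1
  have hv1 : (0 : ℝ) < v.1 := by exact_mod_cast hv.1
  have hw1 : (0 : ℝ) < w.1 := by exact_mod_cast hw.1
  have hu1 : (0 : ℝ) < u.1 := by exact_mod_cast hu.1
  have hxvr : (0 : ℝ) < (mulv b (a * c) u v).1 := by exact_mod_cast hxv
  have hxwr : (0 : ℝ) < (mulv b (a * c) u w).1 := by exact_mod_cast hxw
  have hP1 : 3 * ((u.1 : ℝ) * u.1) ≤ 4 * (ip b (a * c) u u : ℤ) := by exact_mod_cast g1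
  have hbvr : 16 * ((mulv b (a * c) u v).1 : ℝ) ≤ 17 * ((u.1 : ℝ) * v.1) := by exact_mod_cast hbv
  have hbwr : 16 * ((mulv b (a * c) u w).1 : ℝ) ≤ 17 * ((u.1 : ℝ) * w.1) := by exact_mod_cast hbw
  push_cast at hd
  rw [hd2] at hd
  change (ip b (a * c) u u : ℤ) * (v.1 * w.1 * (sl w - sl v)) =
    (mulv b (a * c) u v).1 * (mulv b (a * c) u w).1 *
      (sl (mulv b (a * c) u w) - sl (mulv b (a * c) u v)) at hd
  set t : ℝ := sl w - sl v with ht
  set T : ℝ := sl (mulv b (a * c) u w) - sl (mulv b (a * c) u v) with hT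
  have ht0 : 0 ≤ t := by rw [ht]; linarith
  set X : ℝ := ((mulv b (a * c) u v).1 : ℝ)
  set Z : ℝ := ((mulv b (a * c) u w).1 : ℝ)
  set P : ℝ := ((ip b (a * c) u u : ℤ) : ℝ)
  have hXZ : (16 * X) * (16 * Z) ≤ (17 * ((u.1 : ℝ) * v.1)) * (17 * ((u.1 : ℝ) * w.1)) :=
    mul_le_mul hbvr hbwr (by positivity) (by positivity)
  have hlow : 3 * ((u.1 : ℝ) * u.1) * (v.1 * w.1 * t) ≤ 4 * (P * (v.1 * w.1 * t)) := by
    have : 3 * ((u.1 : ℝ) * u.1) * (v.1 * w.1 * t) ≤ 4 * P * (v.1 * w.1 * t) :=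
      mul_le_mul_of_nonneg_right hP1 (by positivity)
    linarith
  have hXZpos : 0 < X * Z := mul_pos hxvr hxwr
  -- X Z t ≤ (17/16)^2 u1^2 v1 w1 t ≤ (17/16)^2 (4/3) P v1 w1 t = (17/16)^2 (4/3) X Z T
  have h5 : 256 * (X * Z) * t ≤ 289 * (u.1 * u.1 * (v.1 * w.1 * t)) := by
    have := mul_le_mul_of_nonneg_right hXZ ht0
    linarith
  have h6 : 3 * (256 * (X * Z) * t) ≤ 289 * (4 * (X * Z * T)) := by
    rw [← hd]; linarith
  have h7 : X * Z * (768 * t) ≤ X * Z * (1156 * T) := by linarith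
  have h8 := le_of_mul_le_mul_left h7 hXZpos
  linarith

end Umult

open Umult in
theorem umult_main (h1 : P_Spacing) (h2 : P_Cone2) (h3 : P_Geom) : P_Umult := by
  intro a b c Q N hN u hu e he Y
  have hth := theta_pos he
  have hse : sl e.2 - sl e.1 = theta e := slope_edge he
  have hu1 : (0 : ℝ) < u.1 := by exact_mod_cast hu.1
  have hu2 : (0 : ℝ) ≤ u.2 := by exact_mod_cast hu.2.1
  refine ⟨?_, ?_, ?_⟩
  · rcases (box Y (fun v => Reg N v ∧ Cone e (mulv b (a * c) u v))).eq_empty_or_nonempty with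
      hE | ⟨v0, hv0⟩
    · rw [hE]; simp only [card_empty, Nat.cast_zero]; positivity
    · have hv0' : Reg N v0 ∧ Cone e (mulv b (a * c) u v0) := by
        simp only [box, mem_filter] at hv0; exact hv0.2.2
      have hc0 := (cone_iff he (x_pos hN hu hv0'.1)).1 hv0'.2
      have hsub : box Y (fun v => Reg N v ∧ Cone e (mulv b (a * c) u v)) ⊆
          box Y (fun v => sl v0 - 2 * theta e < (v.2 : ℝ) / v.1 ∧
            (v.2 : ℝ) / v.1 < sl v0 + 2 * theta e) := by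
        intro v hv
        simp only [box, mem_filter] at hv ⊢
        refine ⟨hv.1, hv.2.1, ?_⟩
        obtain ⟨hvr, hvc⟩ := hv.2.2
        have hc := (cone_iff he (x_pos hN hu hvr)).1 hvc
        change sl v0 - 2 * theta e < sl v ∧ sl v < sl v0 + 2 * theta e
        rcases le_total (sl v) (sl v0) with h | h
        · have := expand h3 hN hu hvr hv0'.1 h
          constructor
          · linarith [hc.1, hc0.2]
          · linarith
        · have := expand h3 hN hu hv0'.1 hvr h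
          constructor
          · linarith
          · linarith [hc.2, hc0.1]
      have h4 : ((box Y (fun v => Reg N v ∧ Cone e (mulv b (a * c) u v))).card : ℝ) ≤
          ((box Y (fun v => sl v0 - 2 * theta e < (v.2 : ℝ) / v.1 ∧
            (v.2 : ℝ) / v.1 < sl v0 + 2 * theta e)).card : ℝ) := by
        exact_mod_cast card_le_card hsub
      have h5 := h1 Y (sl v0 - 2 * theta e) (sl v0 + 2 * theta e) (by linarith)
      have h6 : (0 : ℝ) ≤ theta e * (Y : ℝ) ^ 2 := by positivity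
      nlinarith
  · -- second bound
    have hip : 0 < ip b (a * c) u u := by
      have := (h3 a b c Q N hN u u hu hu).1
      have h5 : 0 < u.1 * u.1 := mul_pos hu.1 hu.1
      omega
    have hcast : ((2 * u.1.toNat * Y : ℕ) : ℤ) = 2 * u.1 * Y := by
      push_cast
      rw [Int.toNat_of_nonneg hu.1.le]
    have hmap : ∀ v ∈ box Y (fun v => Reg N v ∧ Cone e (mulv b (a * c) u v)),
        mulv b (a * c) u v ∈ boxA (2 * u.1.toNat * Y) (Cone e) := by
      intro v hv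
      simp only [box, mem_filter, mem_product, mem_Icc] at hv
      simp only [boxA, mem_filter, mem_product, mem_Icc]
      obtain ⟨⟨⟨hv1, hv2⟩, hv3, hv4⟩, hvp, hvr, hvc⟩ := hv
      have hreg := Cone.reg he hvc
      obtain ⟨hr1, hr2, hr3⟩ := hreg
      have hxb := (x_bounds hN hu hvr).2
      have hN1 := (bigN_ac hN).2
      have hxY : (mulv b (a * c) u v).1 ≤ ((2 * u.1.toNat * Y : ℕ) : ℤ) := by
        rw [hcast]
        have h5 : u.1 * v.1 ≤ u.1 * Y := mul_le_mul_of_nonneg_left hv2 hu.1.le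
        have h6 : 0 < u.1 * v.1 := mul_pos hu.1 hvr.1
        linarith
      refine ⟨⟨⟨by omega, hxY⟩, hr2, ?_⟩, hvc⟩
      refine le_trans ?_ hxY
      have hN1' : (1 : ℤ) ≤ N := by exact_mod_cast hN1
      nlinarith
    have hinj : Set.InjOn (mulv b (a * c) u)
        (box Y (fun v => Reg N v ∧ Cone e (mulv b (a * c) u v)) : Set (ℤ × ℤ)) := by
      intro v _ w _ h
      exact mulv_inj hip h
    have hcard := card_le_card_of_injOn (mulv b (a * c) u) hmap hinj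
    have h5 := h2 N e (bigN_ac hN).2 he (2 * u.1.toNat * Y)
    have h6 : ((box Y (fun v => Reg N v ∧ Cone e (mulv b (a * c) u v))).card : ℝ) ≤
        ((boxA (2 * u.1.toNat * Y) (Cone e)).card : ℝ) := by exact_mod_cast hcard
    have h7 : (((2 * u.1.toNat * Y : ℕ)) : ℝ) = 2 * u.1 * Y := by
      have : (((2 * u.1.toNat * Y : ℕ) : ℤ) : ℝ) = ((2 * u.1 * Y : ℤ) : ℝ) := by rw [hcast]
      push_cast at this ⊢
      exact this
    rw [h7] at h5
    calc _ ≤ _ := h6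
      _ ≤ _ := h5
      _ = 4 * (u.1 : ℝ) ^ 2 * theta e * Y ^ 2 := by ring
  · -- third bound
    have hsub : box Y (fun v => Cone e v ∧ ¬ Cone e (mulv b (a * c) u v)) ⊆
        box Y (fun v => sl e.2 - 8 * ((u.2 : ℝ) / u.1) < (v.2 : ℝ) / v.1 ∧
          (v.2 : ℝ) / v.1 < sl e.2) := by
      intro v hv
      simp only [box, mem_filter] at hv ⊢
      refine ⟨hv.1, hv.2.1, ?_⟩
      obtain ⟨hvc, hvn⟩ := hv.2.2
      have hvr := Cone.reg he hvc
      have hc := (cone_iff he hvr.1).1 hvc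
      have hx := x_pos hN hu hvr
      rw [cone_iff he hx, not_and_or, not_lt, not_lt] at hvn
      obtain ⟨hs1, hs2⟩ := shift h3 hN hu hvr
      change sl e.2 - 8 * ((u.2 : ℝ) / u.1) < sl v ∧ sl v < sl e.2
      refine ⟨?_, hc.2⟩
      rcases hvn with h | h
      · linarith [hc.1]
      · linarith [hc.2]
    have h4 : ((box Y (fun v => Cone e v ∧ ¬ Cone e (mulv b (a * c) u v))).card : ℝ) ≤
        ((box Y (fun v => sl e.2 - 8 * ((u.2 : ℝ) / u.1) < (v.2 : ℝ) / v.1 ∧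
          (v.2 : ℝ) / v.1 < sl e.2)).card : ℝ) := by
      exact_mod_cast card_le_card hsub
    have h0 : (0 : ℝ) ≤ (u.2 : ℝ) / u.1 := by positivity
    have h5 := h1 Y (sl e.2 - 8 * ((u.2 : ℝ) / u.1)) (sl e.2) (by linarith)
    calc _ ≤ _ := h4
      _ ≤ _ := h5
      _ = 1 + 8 * ((u.2 : ℝ) / u.1) * Y ^ 2 := by ring

end Pool.Agent.Quad
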