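import Pool.Agent.Quad.Basic

/-!
# Module WIT: the data of a balanced defective edge
-/

set_option autoImplicit false

namespace Pool.Agent.Quad

open Pool.Agent.FareyParity Finset

namespace Wit

variable {a : ℕ} {b c : ℤ} {Q : ℕ} {D : ℤ} {s : ℕ → ℤ} {N : ℕ} {e : Edge}

theorem SS_reg (he : IsEdge N e) {v : ℤ × ℤ} (hv : v ∈ SS Q D e) : Reg N v := by
  obtain ⟨hv1, h1, h2, h3, h4⟩ := hv
  obtain ⟨ha, hb, hc⟩ := he.reg1
  obtain ⟨hd, hf, hg⟩ := he.reg2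
  have e1 := coord_fst he v
  have e2 := coord_snd he v
  refine ⟨hv1.1, ?_, ?_⟩
  · rw [e2]; positivity
  · rw [e1, e2]; nlinarith

theorem SS_lower (he : IsEdge N e) {v : ℤ × ℤ} (hv : v ∈ SS Q D e) {m : ℤ} (hm : 0 ≤ m)
    (hm1 : m ≤ e.1.1) (hm2 : m ≤ e.2.1) : m ≤ v.1 := by
  obtain ⟨hv1, h1, h2, h3, h4⟩ := hv
  have e1 := coord_fst he v
  have hpos := hv1.1
  have h5 : 1 ≤ dt v e.2 + dt e.1 v := by
    by_contra hcon
    have h6 : dt v e.2 = 0 := by omega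
    have h7 : dt e.1 v = 0 := by omega
    rw [e1, h6, h7] at hpos
    simp at hpos
  rw [e1]
  nlinarith [mul_le_mul_of_nonneg_left hm1 h3, mul_le_mul_of_nonneg_left hm2 h1]

theorem SS_upper (he : IsEdge N e) {v : ℤ × ℤ} (hv : v ∈ SS Q D e) {m : ℤ}
    (hm1 : e.1.1 ≤ m) (hm2 : e.2.1 ≤ m) : v.1 ≤ 2 * KK Q * m := by
  obtain ⟨hv1, h1, h2, h3, h4⟩ := hv
  have e1 := coord_fst he v
  have hm : 0 < m := he.x1_pos.trans_le hm1
  rw [e1]
  have h5 : dt v e.2 * e.1.1 ≤ KK Q * m :=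
    mul_le_mul h4 hm1 he.x1_pos.le (by positivity)
  have h6 : dt e.1 v * e.2.1 ≤ KK Q * m :=
    mul_le_mul h2 hm2 he.x2_pos.le (by positivity)
  linarith

theorem dt_expand (he : IsEdge N e) (z w : ℤ × ℤ) :
    dt z w = dt z e.2 * dt e.1 w - dt w e.2 * dt e.1 z := by
  have h := he.dt_one
  simp only [dt] at h ⊢
  linear_combination (-(z.1 * w.2 - w.1 * z.2)) * h

theorem SS_dt_le (he : IsEdge N e) {z w : ℤ × ℤ} (hz : z ∈ SS Q D e) (hw : w ∈ SS Q D e) :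
    dt z w ≤ (KK Q : ℤ) ^ 2 := by
  obtain ⟨-, h1, h2, h3, h4⟩ := hz
  obtain ⟨-, g1, g2, g3, g4⟩ := hw
  rw [dt_expand he]
  have h5 : dt z e.2 * dt e.1 w ≤ KK Q * KK Q := mul_le_mul h4 g2 g1 (by positivity)
  have h6 : 0 ≤ dt w e.2 * dt e.1 z := mul_nonneg g3 h1
  rw [pow_two]; linarith

/-- two primitive vectors with positive first coordinate and determinant zero are equal -/
theorem eq_of_dt_zero {z w : ℤ × ℤ} (hz : 0 < z.1) (hw : 0 < w.1) (hzc : IsCoprime z.1 z.2)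
    (hwc : IsCoprime w.1 w.2) (h : dt z w = 0) : z = w := by
  obtain ⟨k, hk⟩ := eq_smul_of_dt_eq_zero hzc h
  have hk1 : w.1 = k * z.1 := by
    have := congrArg Prod.fst hk; simpa using this
  have hk2 : w.2 = k * z.2 := by
    have := congrArg Prod.snd hk; simpa using this
  have hkpos : 0 < k := by
    by_contra hcon
    push Not at hcon
    have : k * z.1 ≤ 0 := mul_nonpos_of_nonpos_of_nonneg hcon hz.le
    omega
  have hkd : k ∣ 1 := by
    obtain ⟨x, y, hxy⟩ := hwc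
    rw [← hxy, hk1, hk2]
    exact ⟨x * z.1 + y * z.2, by ring⟩
  have hk1' : k = 1 := by
    have := Int.le_of_dvd one_pos hkd
    omega
  rw [hk, hk1', one_smul]

/-- the order can be chosen such that the determinant is positive -/
theorem exists_pair (hd : Defect s a b c Q D e) :
    ∃ z ∈ SS Q D e, ∃ w ∈ SS Q D e, cl s a b c z ≠ cl s a b c w ∧ 0 < dt z w := by
  obtain ⟨z, hz, w, hw, hne⟩ := hd
  have h0 : dt z w ≠ 0 := by
    intro h
    have := eq_of_dt_zero hz.1.1 hw.1.1 hz.1.2.1 hw.1.2.1 h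
    rw [this] at hne
    exact hne rfl
  rcases lt_or_gt_of_ne h0 with h | h
  · refine ⟨w, hw, z, hz, hne.symm, ?_⟩
    rw [dt_swap]; omega
  · exact ⟨z, hz, w, hw, hne, h⟩

theorem rho_le {m : ℤ} (hm : 0 < m) {B : ℝ} (h : Real.log m + 2 ≤ B) :
    (rho m : ℝ) ≤ (2 * B) ^ 2 := by
  have h1 : ((Nat.log 2 m.natAbs : ℕ) : ℝ) * Real.log 2 ≤ Real.log m := by
    have h2 : (2 : ℕ) ^ (Nat.log 2 m.natAbs) ≤ m.natAbs := Nat.pow_log_le_self 2 (by omega)
    have h3 : ((2 : ℝ)) ^ (Nat.log 2 m.natAbs) ≤ (m : ℝ) := by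
      have h4 : ((2 ^ (Nat.log 2 m.natAbs) : ℕ) : ℝ) ≤ ((m.natAbs : ℕ) : ℝ) := by exact_mod_cast h2
      have h5 : ((m.natAbs : ℕ) : ℝ) = (m : ℝ) := by
        rw [Nat.cast_natAbs, abs_of_pos hm]
      rw [h5] at h4
      push_cast at h4
      exact h4
    have h6 := Real.log_le_log (by positivity) h3
    rwa [Real.log_pow] at h6
  have hl2 : (0.5 : ℝ) < Real.log 2 := by linarith [Real.log_two_gt_d9]
  have hm1 : (1 : ℝ) ≤ m := by exact_mod_cast hm
  have hlm : 0 ≤ Real.log m := Real.log_nonneg hm1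
  have h7 : ((Nat.log 2 m.natAbs : ℕ) : ℝ) ≤ 2 * Real.log m := by
    have h8 : (0 : ℝ) ≤ (Nat.log 2 m.natAbs : ℕ) := by positivity
    nlinarith
  have h9 : (rho m : ℝ) = (((Nat.log 2 m.natAbs : ℕ) : ℝ) + 2) ^ 2 := by
    simp only [rho]; push_cast; ring
  rw [h9]
  have h10 : (0 : ℝ) ≤ (Nat.log 2 m.natAbs : ℕ) := by positivity
  apply pow_le_pow_left₀ (by positivity)
  linarith

end Wit

open Wit in
theorem wit_main (h1 : P_Pairs) (h2 : P_Geom) : P_Wit := by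
  intro s a b c Q D hs hR N hN
  have hKpos : 0 < KK Q := by
    have := hR.Q_pos
    unfold KK; positivity
  have hK1 : (1 : ℝ) ≤ (KK Q : ℝ) := by exact_mod_cast hKpos
  set L : ℝ := Real.log (KK Q) with hL
  have hL0 : 0 ≤ L := Real.log_nonneg hK1
  refine ⟨5 * (KK Q : ℝ) ^ 2 * (2 * (4 + L)) ^ 2, by positivity, ?_⟩
  intro e he hbal hdef
  obtain ⟨z, hz, w, hw, hne, hdt⟩ := exists_pair hdef
  have hzr := SS_reg he hz
  have hwr := SS_reg he hw
  obtain ⟨hg1, hg2⟩ := h2 a b c Q N hN z w hzr hwr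
  have hzw : 0 < z.1 * w.1 := mul_pos hzr.1 hwr.1
  have hip : 0 < ip b (a * c) z w := by omega
  obtain ⟨q, M, k, hq, hk, hqM, hqk, hM⟩ := h1 s a b c Q D hs hR z w hz.1 hw.1 hdt hip hne
  have hqkK : q * k ≤ KK Q ^ 2 := by
    have := SS_dt_le he hz hw
    rw [hqk] at this
    exact_mod_cast this
  refine ⟨z, hz, w, hw, q, M, k, hq, hk, hqkK, hqk, hqM, hM, ?_⟩
  -- the numerical estimate
  have hMpos : 0 < M := hM.1
  have hM1 : (1 : ℝ) ≤ M := by exact_mod_cast hMpos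
  have hlogM : 0 ≤ Real.log M := Real.log_nonneg hM1
  obtain ⟨m, hm1, hm2, hmeq⟩ : ∃ m : ℤ, m ≤ e.1.1 ∧ m ≤ e.2.1 ∧ (m = e.1.1 ∨ m = e.2.1) := by
    rcases le_total e.1.1 e.2.1 with h | h
    · exact ⟨e.1.1, le_rfl, h, Or.inl rfl⟩
    · exact ⟨e.2.1, h, le_rfl, Or.inr rfl⟩
  have hmpos : 0 < m := by
    rcases hmeq with h | h
    · rw [h]; exact he.x1_pos
    · rw [h]; exact he.x2_pos
  -- the maximum
  obtain ⟨X, hX1, hX2, hXm, hXprod⟩ : ∃ X : ℤ, e.1.1 ≤ X ∧ e.2.1 ≤ X ∧ X ≤ m * rho m ∧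
      m * X = e.1.1 * e.2.1 := by
    rcases le_total e.1.1 e.2.1 with h | h
    · have hm3 : m = e.1.1 := by
        rcases hmeq with h' | h'
        · exact h'
        · omega
      refine ⟨e.2.1, h, le_rfl, ?_, ?_⟩
      · rw [hm3]; exact hbal.1
      · rw [hm3]
    · have hm3 : m = e.2.1 := by
        rcases hmeq with h' | h'
        · omega
        · exact h'
      refine ⟨e.1.1, le_rfl, h, ?_, ?_⟩
      · rw [hm3]; exact hbal.2
      · rw [hm3]; ring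
  have hXpos : 0 < X := he.x1_pos.trans_le hX1
  have hz_low := SS_lower he hz hmpos.le hm1 hm2
  have hw_low := SS_lower he hw hmpos.le hm1 hm2
  have hz_up := SS_upper he hz hX1 hX2
  have hw_up := SS_upper he hw hX1 hX2
  -- lower bound for M
  have hqle : q ≤ KK Q ^ 2 := (Nat.le_mul_of_pos_right q hk).trans hqkK
  have hlow : 3 * (m : ℝ) ^ 2 ≤ 4 * (KK Q : ℝ) ^ 2 * M := by
    have h3 : 3 * (m * m) ≤ 4 * ((q : ℤ) * M) := by
      rw [← hqM]
      have : m * m ≤ z.1 * w.1 := mul_le_mul hz_low hw_low hmpos.le hzr.1.le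
      linarith
    have h4 : (q : ℤ) * M ≤ (KK Q : ℤ) ^ 2 * M := by
      apply mul_le_mul_of_nonneg_right _ (by positivity)
      exact_mod_cast hqle
    have h5 : 3 * (m * m) ≤ 4 * ((KK Q : ℤ) ^ 2 * M) := by linarith
    have h6 : (3 * ((m : ℝ) * m)) ≤ 4 * ((KK Q : ℝ) ^ 2 * M) := by exact_mod_cast h5
    linarith
  have hm1r : (1 : ℝ) ≤ m := by exact_mod_cast hmpos
  have hmlog : Real.log m + 2 ≤ (4 + L) * (1 + Real.log M) := by
    have h3 : (m : ℝ) ^ 2 ≤ 2 * (KK Q : ℝ) ^ 2 * M := by nlinarith [sq_nonneg (m : ℝ)]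
    have h4 : Real.log ((m : ℝ) ^ 2) ≤ Real.log (2 * (KK Q : ℝ) ^ 2 * M) :=
      Real.log_le_log (by positivity) h3
    have hKne : ((KK Q : ℝ)) ≠ 0 := by positivity
    have hMne : (M : ℝ) ≠ 0 := by positivity
    rw [Real.log_pow, Real.log_mul (by positivity) hMne, Real.log_mul (by norm_num) (by positivity),
      Real.log_pow] at h4
    have h5 : Real.log 2 ≤ 1 := by linarith [Real.log_two_lt_d9]
    push_cast at h4
    rw [← hL] at h4
    nlinarith [mul_nonneg hL0 hlogM]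
  have hrho : (rho m : ℝ) ≤ (2 * ((4 + L) * (1 + Real.log M))) ^ 2 := rho_le hmpos hmlog
  -- upper bound for M
  have hup : (M : ℝ) ≤ 5 * (KK Q : ℝ) ^ 2 * (m * X * rho m) := by
    have h3 : (M : ℤ) ≤ (q : ℤ) * M := by
      have : (1 : ℤ) ≤ q := by exact_mod_cast hq
      nlinarith
    have h4 : z.1 * w.1 ≤ (2 * KK Q * X) * (2 * KK Q * X) :=
      mul_le_mul hz_up hw_up hwr.1.le (by positivity)
    have h5 : 4 * (M : ℤ) ≤ 5 * ((2 * KK Q * X) * (2 * KK Q * X)) := by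
      rw [hqM] at hg2
      linarith
    have h6 : 4 * (M : ℝ) ≤ 5 * ((2 * KK Q * X) * (2 * KK Q * X)) := by exact_mod_cast h5
    have h7 : (X : ℝ) ≤ m * rho m := by exact_mod_cast hXm
    have hXr : (0 : ℝ) < X := by exact_mod_cast hXpos
    have h8 : (X : ℝ) * X ≤ m * X * rho m := by nlinarith
    have h9 : (M : ℝ) ≤ 5 * (KK Q : ℝ) ^ 2 * (X * X) := by linarith
    exact h9.trans (mul_le_mul_of_nonneg_left h8 (by positivity))
  have hprod : ((e.1.1 : ℝ) * (e.2.1 : ℝ)) = m * X := by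
    have : (m : ℝ) * X = (e.1.1 : ℝ) * e.2.1 := by exact_mod_cast hXprod
    exact this.symm
  have hmX : (0 : ℝ) < m * X := by
    have : (0 : ℤ) < m * X := mul_pos hmpos hXpos
    exact_mod_cast this
  unfold theta
  rw [hprod, div_le_div_iff₀ hmX (by positivity), one_mul]
  calc (M : ℝ) ≤ 5 * (KK Q : ℝ) ^ 2 * (m * X * rho m) := hup
    _ ≤ 5 * (KK Q : ℝ) ^ 2 * (m * X * (2 * ((4 + L) * (1 + Real.log M))) ^ 2) := by
        apply mul_le_mul_of_nonneg_left _ (by positivity)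
        exact mul_le_mul_of_nonneg_left hrho hmX.le
    _ = 5 * (KK Q : ℝ) ^ 2 * (2 * (4 + L)) ^ 2 * (1 + Real.log M) ^ 2 * (m * X) := by ring

end Pool.Agent.Quad
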