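import Pool.Agent.Quad.Nouse
import Pool.Agent.Quad.Derived
import Pool.Agent.Quad.Exc
import Pool.Agent.Quad.Roots
import Pool.Agent.Quad.Mertlow
import Pool.Agent.Quad.Nbcount
import Pool.Agent.Quad.Landreau
import Pool.Agent.Quad.Rootcount
import Pool.Agent.Quad.Tausum
import Pool.Agent.Quad.Taumoment
import Pool.Agent.Quad.Nbsum
import Pool.Agent.Quad.Pairs
import Pool.Agent.Quad.Prodv
import Pool.Agent.Quad.Geom
import Pool.Agent.Quad.Inj
import Pool.Agent.Quad.Over
import Pool.Agent.Quad.Wit
import Pool.Agent.Quad.Injz
import Pool.Agent.Quad.Defsum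
import Pool.Agent.Quad.Thrsum
import Pool.Agent.Quad.Select
import Pool.Agent.Quad.Path
import Pool.Agent.Quad.Cone1
import Pool.Agent.Quad.Cone2
import Pool.Agent.Quad.Spacing
import Pool.Agent.Quad.Umult
import Pool.Agent.Quad.Conelen
import Pool.Agent.Quad.Legendre
import Pool.Agent.Quad.Kappa
import Pool.Agent.Quad.Uex
import Pool.Agent.Quad.Contra
import Pool.Agent.Quad.Main
import Pool.Agent.Quad.Final

/-!
# Assembly
-/

set_option autoImplicit false

namespace Pool.Agent.Quad

open Pool.Agent.FareyParity

theorem p_exc : P_Exc := exc_main nouse_main derived_main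
theorem p_nbcount : P_NBcount := nbcount_main p_exc roots_main mertlow_main
theorem p_taumoment : P_TauMoment := taumoment_main landreau_main rootcount_main tausum_main
theorem p_nbsum : P_NBsum := nbsum_main p_nbcount p_taumoment
theorem p_wit : P_Wit := wit_main pairs_main geom_main
theorem p_injz : P_InjZ := injz_main geom_main
theorem p_defsum : P_DefSum := defsum_main p_wit p_injz inj_main geom_main
theorem p_thrsum : P_ThrSum := thrsum_main inj_main
theorem p_path : P_Path := path_main over_main
theorem p_umult : P_Umult := umult_main spacing_main cone2_main geom_main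
theorem p_uex : P_Uex := uex_main legendre_main kappa_main
theorem p_con : P_Con := con_main select_main p_path cone1_main cone2_main p_umult conelen_main
  prodv_main over_main
theorem p_main : P_Main := main_main p_nbsum p_defsum p_thrsum p_uex p_con
theorem p_final : P_Final := final_main p_main

theorem isSign_liouville' : IsSign ArithmeticFunction.liouville where
  mul := fun a b => ArithmeticFunction.liouville_apply_mul a b
  val := by
    intro a ha
    rw [ArithmeticFunction.liouville_apply ha]
    exact neg_one_pow_eq_or ℤ _

theorem manyQ_liouville : ManyQ ArithmeticFunction.liouville := by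
  intro m hm
  obtain ⟨p, hp, -, hmod⟩ := Nat.exists_prime_gt_modEq_one (k := m) 0 hm.ne'
  refine ⟨p, hp, hmod, ?_⟩
  rw [ArithmeticFunction.liouville_apply hp.ne_zero, ArithmeticFunction.cardFactors_apply_prime hp]
  norm_num

end Pool.Agent.Quad
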