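import Pool.Agent.Quad.Stmt

/-!
# Basic facts
-/

set_option autoImplicit false

namespace Pool.Agent.Quad

open Pool.Agent.FareyParity Finset

variable {a : ℕ} {b c : ℤ} {Q : ℕ} {D : ℤ} {s : ℕ → ℤ}

theorem four_Phi (h : Red a b c Q D) (v : ℤ × ℤ) :
    4 * Phi a b c v = (2 * v.1 + b * v.2) ^ 2 - D * ((Q : ℤ) * v.2) ^ 2 := by
  have := h.disc
  simp only [Phi, nf]
  linear_combination (-(v.2 ^ 2)) * this

theorem Red.D_ne_zero (h : Red a b c Q D) : D ≠ 0 := by
  rintro rfl; exact h.D_ns IsSquare.zero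

theorem Red.D_dvd (h : Red a b c Q D) : D ∣ (Q : ℤ) := (Dvd.intro_left 8 rfl).trans h.D_Q

theorem Red.eight_dvd (h : Red a b c Q D) : (8 : ℤ) ∣ (Q : ℤ) := (Dvd.intro D rfl).trans h.D_Q

theorem Red.Q_dvd_ac (h : Red a b c Q D) : (Q : ℤ) ∣ a * c :=
  Dvd.dvd.mul_right (Int.natCast_dvd_natCast.2 h.Q_a) c

/-- a nonsquare is not a quotient of squares -/
theorem not_sq_eq {D x y : ℤ} (hD : ¬ IsSquare D) (hy : y ≠ 0) : x ^ 2 ≠ D * y ^ 2 := by
  intro h
  have h1 : y ^ 2 ∣ x ^ 2 := ⟨D, by rw [h]; ring⟩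
  rw [Int.pow_dvd_pow_iff two_ne_zero] at h1
  obtain ⟨z, rfl⟩ := h1
  apply hD
  refine ⟨z, ?_⟩
  have : y ^ 2 * D = y ^ 2 * (z * z) := by linear_combination -h
  exact mul_left_cancel₀ (pow_ne_zero 2 hy) this

theorem Phi_ne_zero (h : Red a b c Q D) {v : ℤ × ℤ} (hv : v ≠ 0) : Phi a b c v ≠ 0 := by
  intro h0
  have h4 := four_Phi h v
  rw [h0] at h4
  by_cases h2 : v.2 = 0
  · apply hv
    have h1 : v.1 = 0 := by
      simp only [h2] at h4
      have : v.1 ^ 2 = 0 := by linarith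
      exact pow_eq_zero_iff two_ne_zero |>.1 this
    ext <;> simp [h1, h2]
  · apply not_sq_eq h.D_ns (x := 2 * v.1 + b * v.2) (y := (Q : ℤ) * v.2)
    · exact mul_ne_zero (by exact_mod_cast h.Q_pos.ne') h2
    · linarith

theorem cl_val (hs : IsSign s) (h : Red a b c Q D) {v : ℤ × ℤ} (hv : v ≠ 0) :
    cl s a b c v = 1 ∨ cl s a b c v = -1 := by
  apply hs.val
  have := Phi_ne_zero h hv
  simp only [Phi] at this
  omega

theorem cl_mulv (hs : IsSign s) (v w : ℤ × ℤ) :
    cl s a b c (mulv b (a * c) v w) = cl s a b c v * cl s a b c w := col_mulv hs v w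

theorem cl_smul (hs : IsSign s) {k : ℤ} (hk : k ≠ 0) (v : ℤ × ℤ) :
    cl s a b c (k • v) = cl s a b c v := col_smul hs hk v

theorem cl_def (v : ℤ × ℤ) : cl s a b c v = s (Phi a b c v).natAbs := rfl

theorem Phi_mul (v w : ℤ × ℤ) :
    Phi a b c v * Phi a b c w = Phi a b c (ip b (a * c) v w, dt v w) := nf_mul_nf b (a * c) v w

theorem Phi_mulv (v w : ℤ × ℤ) :
    Phi a b c (mulv b (a * c) v w) = Phi a b c v * Phi a b c w := nf_mulv b (a * c) v w

theorem mulv_ip' (v w : ℤ × ℤ) :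
    mulv b (a * c) v (ip b (a * c) v w, dt v w) = Phi a b c v • w := by
  ext
  · simp only [mulv, ip, dt, Phi, nf, Prod.smul_fst, smul_eq_mul]; ring
  · simp only [mulv, ip, dt, Phi, nf, Prod.smul_snd, smul_eq_mul]; ring

/-! ### the character -/

theorem odd_of_coprime (h : Red a b c Q D) {x : ℕ} (hx : x.Coprime Q) : Odd x := by
  rw [← Nat.not_even_iff_odd]
  intro he
  have h2 : 2 ∣ x := he.two_dvd
  have h8 : (8 : ℕ) ∣ Q := by exact_mod_cast h.eight_dvd
  have : 2 ∣ Nat.gcd x Q := Nat.dvd_gcd h2 ((by norm_num : 2 ∣ 8).trans h8)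
  rw [hx] at this
  omega

theorem four_dvd (h8 : 8 * D ∣ (Q : ℤ)) : 4 * D.natAbs ∣ Q := by
  have h1 : (8 * D).natAbs ∣ Q := Int.natAbs_dvd_natAbs.2 h8
  rw [Int.natAbs_mul] at h1
  exact (Nat.mul_dvd_mul (by norm_num : 4 ∣ 8) dvd_rfl).trans h1

/-- the Jacobi symbol depends only on the class modulo `Q` -/
theorem jac_congr (h8 : 8 * D ∣ (Q : ℤ)) {x y : ℕ} (hx : Odd x) (hy : Odd y)
    (hxy : x ≡ y [MOD Q]) : jacobiSym D x = jacobiSym D y := by
  rw [jacobiSym.mod_right D hx, jacobiSym.mod_right D hy]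
  have : x % (4 * D.natAbs) = y % (4 * D.natAbs) := hxy.of_dvd (four_dvd h8)
  rw [this]

theorem jac_one (h8 : 8 * D ∣ (Q : ℤ)) {x : ℕ} (hx : Odd x) (hxy : x ≡ 1 [MOD Q]) :
    jacobiSym D x = 1 := by
  rw [jac_congr h8 hx odd_one hxy, jacobiSym.one_right]

theorem jac_of_primes {D : ℤ} {m : ℕ} (hm : m ≠ 0)
    (h : ∀ l : ℕ, l.Prime → l ∣ m → jacobiSym D l = 1) : jacobiSym D m = 1 := by
  induction m using Nat.recOnMul with
  | zero => exact absurd rfl hm
  | one => exact jacobiSym.one_right D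
  | prime p hp => exact h p hp dvd_rfl
  | mul x y hx hy =>
    have hx0 : x ≠ 0 := by rintro rfl; simp at hm
    have hy0 : y ≠ 0 := by rintro rfl; simp at hm
    have : NeZero x := ⟨hx0⟩
    have : NeZero y := ⟨hy0⟩
    rw [jacobiSym.mul_right, hx hx0 fun l hl hlx => h l hl (hlx.mul_right y),
      hy hy0 fun l hl hly => h l hl (hly.mul_left x), one_mul]

/-- if `D` is a unit square modulo the prime `l` then the symbol is `1` -/
theorem jac_prime_of_sq {D : ℤ} {l : ℕ} (hl : l.Prime) (hD : ¬ (l : ℤ) ∣ D)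
    {x y : ℤ} (hy : ¬ (l : ℤ) ∣ y) (h : (l : ℤ) ∣ x ^ 2 - D * y ^ 2) : jacobiSym D l = 1 := by
  have : Fact l.Prime := ⟨hl⟩
  rw [← jacobiSym.legendreSym.to_jacobiSym]
  have hD0 : (D : ZMod l) ≠ 0 := by
    rwa [Ne, ZMod.intCast_zmod_eq_zero_iff_dvd]
  have hy0 : (y : ZMod l) ≠ 0 := by
    rwa [Ne, ZMod.intCast_zmod_eq_zero_iff_dvd]
  rw [legendreSym.eq_one_iff _ hD0]
  refine ⟨(x : ZMod l) / y, ?_⟩
  have h1 : ((x ^ 2 - D * y ^ 2 : ℤ) : ZMod l) = 0 := by
    rwa [ZMod.intCast_zmod_eq_zero_iff_dvd]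
  push_cast at h1
  field_simp
  linear_combination -h1

/-- primes dividing a primitive value and not dividing `Q` split -/
theorem jac_prime_of_dvd_Phi (h : Red a b c Q D) {l : ℕ} (hl : l.Prime) (hlQ : ¬ l ∣ Q)
    {v : ℤ × ℤ} (hv : IsCoprime v.1 v.2) (hd : (l : ℤ) ∣ Phi a b c v) : jacobiSym D l = 1 := by
  have hlQ' : ¬ (l : ℤ) ∣ (Q : ℤ) := by rwa [Int.natCast_dvd_natCast]
  have hlp : Prime (l : ℤ) := Nat.prime_iff_prime_int.1 hl
  have hlD : ¬ (l : ℤ) ∣ D := fun hh => hlQ' (hh.trans h.D_dvd)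
  have hl4 : (l : ℤ) ∣ (2 * v.1 + b * v.2) ^ 2 - D * ((Q : ℤ) * v.2) ^ 2 := by
    rw [← four_Phi h]; exact hd.mul_left 4
  have hy : ¬ (l : ℤ) ∣ (Q : ℤ) * v.2 := by
    intro hh
    rcases hlp.dvd_or_dvd hh with h1 | h1
    · exact hlQ' h1
    · have h2 : (l : ℤ) ∣ v.1 ^ 2 := by
        have h3 : v.1 ^ 2 = Phi a b c v - v.2 * (b * v.1 + a * c * v.2) := by
          simp only [Phi, nf]; ring
        rw [h3]
        exact dvd_sub hd (h1.mul_right _)
      have h4 := hlp.dvd_of_dvd_pow h2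
      obtain ⟨x, y, hxy⟩ := hv
      have h5 : (l : ℤ) ∣ 1 := by
        rw [← hxy]; exact dvd_add (h4.mul_left x) (h1.mul_left y)
      exact hlp.not_dvd_one h5
  exact jac_prime_of_sq hl hlD hy hl4

/-! ### edges -/

variable {N : ℕ} {e : Edge}

theorem isEdge_root (hN : 0 < N) : IsEdge N (root N) := by
  refine ⟨by simp [root, dt], ⟨by simp [root], by simp [root], by simp [root]⟩,
    ⟨by simp [root]; exact hN, by simp [root], by simp [root]⟩⟩

theorem Reg.add {v w : ℤ × ℤ} (hv : Reg N v) (hw : Reg N w) : Reg N (v + w) := by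
  obtain ⟨h1, h2, h3⟩ := hv
  obtain ⟨h4, h5, h6⟩ := hw
  refine ⟨?_, ?_, ?_⟩
  · simp only [Prod.fst_add]; omega
  · simp only [Prod.snd_add]; omega
  · simp only [Prod.fst_add, Prod.snd_add]; rw [mul_add]; omega

theorem IsEdge.child (he : IsEdge N e) (t : Bool) : IsEdge N (child t e) := by
  obtain ⟨h1, h2, h3⟩ := he
  cases t
  · refine ⟨?_, h2, h2.add h3⟩
    simp only [Quad.child, Bool.false_eq_true, if_false, dt, Prod.fst_add, Prod.snd_add] at h1 ⊢
    linarith
  · refine ⟨?_, h2.add h3, h3⟩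
    simp only [Quad.child, if_true, dt, Prod.fst_add, Prod.snd_add] at h1 ⊢
    linarith

theorem IsEdge.desc (he : IsEdge N e) (w : List Bool) : IsEdge N (desc e w) := by
  induction w generalizing e with
  | nil => exact he
  | cons t w ih => exact ih (he.child t)

theorem desc_append (e : Edge) (w w' : List Bool) : desc e (w ++ w') = desc (desc e w) w' := by
  induction w generalizing e with
  | nil => rfl
  | cons t w ih => exact ih (child t e)

theorem IsEdge.x1_pos (he : IsEdge N e) : 0 < e.1.1 := he.reg1.1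
theorem IsEdge.x2_pos (he : IsEdge N e) : 0 < e.2.1 := he.reg2.1

theorem par_child (he : IsEdge N e) (t : Bool) : par (child t e) = e := by
  have h1 := he.x1_pos
  have h2 := he.x2_pos
  cases t
  · simp only [child, par, Bool.false_eq_true, if_false, Prod.fst_add]
    rw [if_pos (by omega)]; simp
  · simp only [child, par, if_true, Prod.fst_add]
    rw [if_neg (by omega)]; simp

theorem theta_pos (he : IsEdge N e) : 0 < theta e := by
  have h1 : (0 : ℝ) < e.1.1 := by exact_mod_cast he.x1_pos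
  have h2 : (0 : ℝ) < e.2.1 := by exact_mod_cast he.x2_pos
  unfold theta; positivity

theorem theta_child_add (he : IsEdge N e) :
    theta (child true e) + theta (child false e) = theta e := by
  have h1 : (0 : ℝ) < e.1.1 := by exact_mod_cast he.x1_pos
  have h2 : (0 : ℝ) < e.2.1 := by exact_mod_cast he.x2_pos
  simp only [theta, child, if_true, Bool.false_eq_true, if_false, Prod.fst_add, Int.cast_add]
  field_simp

/-- coordinates with respect to a unimodular pair -/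
theorem coord (he : IsEdge N e) (v : ℤ × ℤ) : v = dt v e.2 • e.1 + dt e.1 v • e.2 := by
  have h := he.dt_one
  simp only [dt] at h
  ext
  · simp only [dt, Prod.fst_add, Prod.smul_fst, smul_eq_mul]
    linear_combination (-v.1) * h
  · simp only [dt, Prod.snd_add, Prod.smul_snd, smul_eq_mul]
    linear_combination (-v.2) * h

theorem coord_fst (he : IsEdge N e) (v : ℤ × ℤ) : v.1 = dt v e.2 * e.1.1 + dt e.1 v * e.2.1 := by
  have := congrArg Prod.fst (coord he v)
  simpa only [Prod.fst_add, Prod.smul_fst, smul_eq_mul] using this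

theorem coord_snd (he : IsEdge N e) (v : ℤ × ℤ) : v.2 = dt v e.2 * e.1.2 + dt e.1 v * e.2.2 := by
  have := congrArg Prod.snd (coord he v)
  simpa only [Prod.snd_add, Prod.smul_snd, smul_eq_mul] using this

theorem Cone.reg (he : IsEdge N e) {v : ℤ × ℤ} (hv : Cone e v) : Reg N v := by
  obtain ⟨h1, h2⟩ := hv
  obtain ⟨ha, hb, hc⟩ := he.reg1
  obtain ⟨hd, hf, hg⟩ := he.reg2
  have e1 := coord_fst he v
  have e2 := coord_snd he v
  refine ⟨?_, ?_, ?_⟩
  · rw [e1]; positivity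
  · rw [e2]; positivity
  · rw [e1, e2]; nlinarith

theorem Cone.of_child {v : ℤ × ℤ} {t : Bool} (hv : Cone (child t e) v) : Cone e v := by
  cases t
  · simp only [Cone, child, Bool.false_eq_true, if_false, dt, Prod.fst_add, Prod.snd_add] at hv ⊢
    exact ⟨hv.1, by linarith [hv.1, hv.2]⟩
  · simp only [Cone, child, if_true, dt, Prod.fst_add, Prod.snd_add] at hv ⊢
    exact ⟨by linarith [hv.1, hv.2], hv.2⟩

theorem Cone.of_desc {v : ℤ × ℤ} {w : List Bool} (hv : Cone (desc e w) v) : Cone e v := by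
  induction w generalizing e with
  | nil => exact hv
  | cons t w ih => exact (ih hv).of_child

/-- the slope of a vector -/
theorem dt_slope {v w : ℤ × ℤ} (hv : 0 < v.1) (hw : 0 < w.1) :
    (dt v w : ℝ) = v.1 * w.1 * ((w.2 : ℝ) / w.1 - (v.2 : ℝ) / v.1) := by
  have h1 : (v.1 : ℝ) ≠ 0 := by exact_mod_cast hv.ne'
  have h2 : (w.1 : ℝ) ≠ 0 := by exact_mod_cast hw.ne'
  simp only [dt]; push_cast; field_simp

theorem dt_pos_iff {v w : ℤ × ℤ} (hv : 0 < v.1) (hw : 0 < w.1) :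
    0 < dt v w ↔ (v.2 : ℝ) / v.1 < (w.2 : ℝ) / w.1 := by
  have h := dt_slope hv hw
  have h1 : (0 : ℝ) < v.1 * w.1 := by exact_mod_cast mul_pos hv hw
  constructor
  · intro h0
    have h2 : (0 : ℝ) < dt v w := by exact_mod_cast h0
    rw [h] at h2
    have := (mul_pos_iff_of_pos_left h1).1 h2
    linarith
  · intro h0
    have h2 : (0 : ℝ) < dt v w := by
      rw [h]; exact mul_pos h1 (by linarith)
    exact_mod_cast h2

theorem slope_edge (he : IsEdge N e) :
    (e.2.2 : ℝ) / e.2.1 - (e.1.2 : ℝ) / e.1.1 = theta e := by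
  have h := dt_slope he.x1_pos he.x2_pos
  rw [he.dt_one] at h
  have h1 : (0 : ℝ) < e.1.1 := by exact_mod_cast he.x1_pos
  have h2 : (0 : ℝ) < e.2.1 := by exact_mod_cast he.x2_pos
  unfold theta
  push_cast at h
  field_simp at h ⊢
  linarith

end Pool.Agent.Quad
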