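import Mathlib
import Pool.Agent.FareyParity.Basic

/-!
# Definitions for the sign changes of `s (f n)` along all irreducible quadratics
-/

set_option autoImplicit false

namespace Pool.Agent.Quad

open Pool.Agent.FareyParity Finset
open scoped ENNReal

/-- the reduced situation: `b ^ 2 - 4 a c = D Q ^ 2` and everything is divisible by `Q` -/
structure Red (a : ℕ) (b c : ℤ) (Q : ℕ) (D : ℤ) : Prop where
  a_pos : 0 < a
  Q_pos : 0 < Q
  D_ns : ¬ IsSquare D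
  D_ne : D ≠ -1
  disc : b ^ 2 - 4 * a * c = D * (Q : ℤ) ^ 2
  Q_a : Q ∣ a
  Q_b : (Q : ℤ) ∣ b
  prime_a : ∀ p : ℕ, p.Prime → p ∣ a → p ∣ Q
  D_Q : 8 * D ∣ (Q : ℤ)

/-- the polynomial `f(n) = a n ^ 2 + b n + c` -/
def pv (a : ℕ) (b c : ℤ) (n : ℕ) : ℤ := a * (n : ℤ) ^ 2 + b * n + c

/-- the principal form `Φ(x, y) = x ^ 2 + b x y + a c y ^ 2` -/
def Phi (a : ℕ) (b c : ℤ) (v : ℤ × ℤ) : ℤ := nf b (a * c) v

/-- the colour of a vector: `s |Φ(v)|` -/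
def cl (s : ℕ → ℤ) (a : ℕ) (b c : ℤ) (v : ℤ × ℤ) : ℤ := col s b (a * c) v

open Classical in
/-- number of elements of `U` in `[0, X]` -/
noncomputable def cnt (U : Set ℕ) (X : ℕ) : ℕ := ((range (X + 1)).filter (fun n => n ∈ U)).card

/-- `s (f n) = e` outside a sparse set `U` -/
structure Hyp (s : ℕ → ℤ) (a : ℕ) (b c e : ℤ) (U : Set ℕ) : Prop where
  sgn : IsSign s
  val : ∀ n : ℕ, n ∉ U → s (pv a b c n).natAbs = e
  sparse : ∃ X0 : ℕ, ∀ X : ℕ, X0 ≤ X → (cnt U X : ℝ) ≤ (X : ℝ) ^ (6 / 25 : ℝ)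

/-- the bad integers of level `k` -/
def NB (s : ℕ → ℤ) (a : ℕ) (b c : ℤ) (Q : ℕ) (D : ℤ) (k : ℕ) : Set ℕ :=
  {M | 0 < M ∧ Nat.Coprime M k ∧ Nat.Coprime M Q ∧ jacobiSym D M = 1 ∧
    cl s a b c ((M : ℤ), (k : ℤ)) = -1}

/-- primitive vectors in the kernel of the genus character -/
def Vp (Q : ℕ) (D : ℤ) (v : ℤ × ℤ) : Prop :=
  0 < v.1 ∧ IsCoprime v.1 v.2 ∧ IsCoprime v.1 (Q : ℤ) ∧ jacobiSym D v.1.natAbs = 1

/-- no usable prime for any of the first `L` derived integers -/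
def Cond (a : ℕ) (b c : ℤ) (Q k L z M : ℕ) : Prop :=
  ∀ j ∈ Icc 1 L,
    (∀ q : ℕ, q.Prime → q ≤ z → q ≡ 1 + Q * k * j * M [MOD a * (Q * k ^ 2 * j)] →
      ¬ (q : ℤ) ∣ Phi a b c (((1 + Q * k * j * M : ℕ) : ℤ), ((Q * k ^ 2 * j : ℕ) : ℤ))) ∨
    (∀ q : ℕ, q.Prime → q ≤ z →
      q ≡ M + Q * k * j * (Phi a b c ((M : ℤ), (k : ℤ))).toNat [MOD a * k] →
      ¬ (q : ℤ) ∣ Phi a b c (((1 + Q * k * j * M : ℕ) : ℤ), ((Q * k ^ 2 * j : ℕ) : ℤ)))

open Classical in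
/-- classes of `t` mod `q` with `q ∣ Φ(u_j)` for some `j ∈ A`, where `M = r + m t` -/
noncomputable def RS (a : ℕ) (b c : ℤ) (Q k r m q : ℕ) (A : Finset ℕ) : Finset ℕ :=
  (range q).filter (fun t => ∃ j ∈ A,
    (q : ℤ) ∣ Phi a b c (((1 + Q * k * j * (r + m * t) : ℕ) : ℤ), ((Q * k ^ 2 * j : ℕ) : ℤ)))

/-! ### the tree -/

/-- the bound for the coefficients of the reference vectors -/
def KK (Q : ℕ) : ℕ := Q ^ 2 + 3 * Q

/-- a pair of vectors -/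
abbrev Edge := (ℤ × ℤ) × (ℤ × ℤ)

/-- the two children of an edge -/
def child (t : Bool) (e : Edge) : Edge := if t then (e.1 + e.2, e.2) else (e.1, e.1 + e.2)

/-- descendants -/
def desc (e : Edge) : List Bool → Edge
  | [] => e
  | t :: w => desc (child t e) w

/-- the root of the tree -/
def root (N : ℕ) : Edge := ((1, 0), ((N : ℤ), 1))

/-- the narrow region in which all vectors lie -/
def Reg (N : ℕ) (v : ℤ × ℤ) : Prop := 0 < v.1 ∧ 0 ≤ v.2 ∧ N * v.2 ≤ v.1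

/-- unimodular pairs in the region -/
structure IsEdge (N : ℕ) (e : Edge) : Prop where
  dt_one : dt e.1 e.2 = 1
  reg1 : Reg N e.1
  reg2 : Reg N e.2

/-- the open cone of an edge -/
def Cone (e : Edge) (v : ℤ × ℤ) : Prop := 0 < dt e.1 v ∧ 0 < dt v e.2

/-- length of the interval of slopes -/
noncomputable def theta (e : Edge) : ℝ := 1 / ((e.1.1 : ℝ) * (e.2.1 : ℝ))

/-- the reference vectors of an edge -/
def SS (Q : ℕ) (D : ℤ) (e : Edge) : Set (ℤ × ℤ) :=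
  {v | Vp Q D v ∧ 0 ≤ dt e.1 v ∧ dt e.1 v ≤ KK Q ∧ 0 ≤ dt v e.2 ∧ dt v e.2 ≤ KK Q}

/-- the slowly growing ratio -/
def rho (h : ℤ) : ℤ := ((Nat.log 2 h.natAbs : ℤ) + 2) ^ 2

/-- balanced edges -/
def Bal (e : Edge) : Prop := e.2.1 ≤ e.1.1 * rho e.1.1 ∧ e.1.1 ≤ e.2.1 * rho e.2.1

/-- the parent of an edge -/
def par (e : Edge) : Edge := if e.1.1 < e.2.1 then (e.1, e.2 - e.1) else (e.1 - e.2, e.2)

/-- two reference vectors have different colours -/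
def Defect (s : ℕ → ℤ) (a : ℕ) (b c : ℤ) (Q : ℕ) (D : ℤ) (e : Edge) : Prop :=
  ∃ z ∈ SS Q D e, ∃ w ∈ SS Q D e, cl s a b c z ≠ cl s a b c w

/-- forbidden edges -/
def Bad (s : ℕ → ℤ) (a : ℕ) (b c : ℤ) (Q : ℕ) (D : ℤ) (e : Edge) : Prop :=
  (Bal e ∧ Defect s a b c Q D e) ∨ (¬ Bal e ∧ Bal (par e))

open Classical in
/-- total weight of the descendants with property `B` -/
noncomputable def wt (B : Edge → Prop) (e : Edge) : ℝ≥0∞ :=
  ∑' w : List Bool, if B (desc e w) then ENNReal.ofReal (theta (desc e w)) else 0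

/-- the region is narrow enough -/
def BigN (a : ℕ) (b c : ℤ) (Q N : ℕ) : Prop :=
  16 * (b.natAbs + (a * c).natAbs + 1) * (KK Q + 1) ^ 4 ≤ N

open Classical in
/-- the primitive vectors in the box with property `P` -/
noncomputable def box (Y : ℕ) (P : ℤ × ℤ → Prop) : Finset (ℤ × ℤ) :=
  ((Icc (1 : ℤ) Y) ×ˢ (Icc (0 : ℤ) Y)).filter (fun v => IsCoprime v.1 v.2 ∧ P v)

open Classical in
/-- all lattice points in the box with property `P` -/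
noncomputable def boxA (Y : ℕ) (P : ℤ × ℤ → Prop) : Finset (ℤ × ℤ) :=
  ((Icc (1 : ℤ) Y) ×ˢ (Icc (0 : ℤ) Y)).filter P

/-- `s = -1` at a prime `≡ 1` for every modulus -/
def ManyQ (s : ℕ → ℤ) : Prop :=
  ∀ m : ℕ, 0 < m → ∃ q : ℕ, q.Prime ∧ q ≡ 1 [MOD m] ∧ s q = -1

/-- the convergent majorant of level `k` -/
noncomputable def nbw (s : ℕ → ℤ) (a : ℕ) (b c : ℤ) (Q : ℕ) (D : ℤ) (k : ℕ) (M : ℕ) : ℝ :=
  open Classical in
  if M ∈ NB s a b c Q D k then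
    ((Phi a b c ((M : ℤ), (k : ℤ))).natAbs.divisors.card : ℝ) * (1 + Real.log M) ^ 2 / M
  else 0

end Pool.Agent.Quad
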