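import Pool.Agent.Quad.Stmt

set_option autoImplicit false

namespace Pool.Agent.Quad

open Pool.Agent.FareyParity Finset
open scoped ENNReal

namespace Dfs

theorem isEdge_root {N : ℕ} (hN : 0 < N) : IsEdge N (root N) := by
  have hN' : (0 : ℤ) < N := by exact_mod_cast hN
  refine ⟨by simp [root, dt], ⟨?_, ?_, ?_⟩, ⟨?_, ?_, ?_⟩⟩ <;> simp [root]
  omega

theorem reg_add {N : ℕ} {v w : ℤ × ℤ} (hv : Reg N v) (hw : Reg N w) : Reg N (v + w) := by
  obtain ⟨a1, a2, a3⟩ := hv
  obtain ⟨b1, b2, b3⟩ := hw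
  refine ⟨?_, ?_, ?_⟩ <;> simp only [Prod.fst_add, Prod.snd_add] <;> nlinarith

theorem isEdge_child {N : ℕ} {e : Edge} (h : IsEdge N e) (t : Bool) : IsEdge N (child t e) := by
  obtain ⟨h1, h2, h3⟩ := h
  cases t
  · refine ⟨?_, h2, reg_add h2 h3⟩
    simp only [child, dt] at *
    simp
    linarith
  · refine ⟨?_, reg_add h2 h3, h3⟩
    simp only [child, dt] at *
    simp
    linarith

theorem isEdge_desc {N : ℕ} {e : Edge} (h : IsEdge N e) (w : List Bool) : IsEdge N (desc e w) := by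
  induction w generalizing e with
  | nil => exact h
  | cons t w ih => exact ih (isEdge_child h t)

theorem expand {e : Edge} (h : dt e.1 e.2 = 1) (z : ℤ × ℤ) :
    z.1 = dt z e.2 * e.1.1 + dt e.1 z * e.2.1 ∧ z.2 = dt z e.2 * e.1.2 + dt e.1 z * e.2.2 := by
  simp only [dt] at *
  constructor
  · linear_combination (-z.1) * h
  · linear_combination (-z.2) * h

theorem reg_of {N : ℕ} {e : Edge} (he : IsEdge N e) {z : ℤ × ℤ} (h1 : 0 < z.1)
    (h2 : 0 ≤ dt z e.2) (h3 : 0 ≤ dt e.1 z) : Reg N z := by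
  obtain ⟨hd, ⟨a1, a2, a3⟩, ⟨b1, b2, b3⟩⟩ := he
  obtain ⟨e1, e2⟩ := expand hd z
  refine ⟨h1, ?_, ?_⟩
  · rw [e2]; positivity
  · rw [e1, e2]
    nlinarith [mul_le_mul_of_nonneg_left a3 h2, mul_le_mul_of_nonneg_left b3 h3]

/-- an edge is determined by its coefficients and the two vectors -/
theorem edge_unique {e e' : Edge} {z w : ℤ × ℤ}
    (hzw : dt z w ≠ 0) (h1 : dt z e.2 = dt z e'.2) (h2 : dt e.1 z = dt e'.1 z)
    (h3 : dt w e.2 = dt w e'.2) (h4 : dt e.1 w = dt e'.1 w) : e = e' := by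
  have key : ∀ u v : ℤ × ℤ, dt z u = dt z v → dt w u = dt w v → u = v := by
    intro u v huv hwv
    simp only [dt] at *
    have e1 : (z.1 * w.2 - w.1 * z.2) * (u.1 - v.1) = 0 := by
      linear_combination z.1 * (-hwv) * 1 + w.1 * huv
    have e2 : (z.1 * w.2 - w.1 * z.2) * (u.2 - v.2) = 0 := by
      linear_combination w.2 * huv - z.2 * hwv
    have f1 := (mul_eq_zero.mp e1).resolve_left hzw
    have f2 := (mul_eq_zero.mp e2).resolve_left hzw
    exact Prod.ext (by linarith) (by linarith)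
  apply Prod.ext
  · apply key
    · simp only [dt] at *; linarith
    · simp only [dt] at *; linarith
  · exact key _ _ h1 h3

theorem Phi_ne {a : ℕ} {b c : ℤ} {Q : ℕ} {D : ℤ} (hR : Red a b c Q D) {M k : ℕ} (hk : 0 < k) :
    Phi a b c ((M : ℤ), (k : ℤ)) ≠ 0 := by
  intro h0
  have hQ : (0 : ℤ) < Q := by exact_mod_cast hR.Q_pos
  have hk' : (0 : ℤ) < k := by exact_mod_cast hk
  have h1 : (2 * (M : ℤ) + b * k) ^ 2 = D * ((Q : ℤ) * k) ^ 2 := by
    simp only [Phi, nf] at h0
    have := hR.disc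
    linear_combination 4 * h0 + (k : ℤ) ^ 2 * this
  have h2 : ((Q : ℤ) * k) ^ 2 ∣ (2 * (M : ℤ) + b * k) ^ 2 := ⟨D, by rw [h1]; ring⟩
  have h3 : ((Q : ℤ) * k) ∣ (2 * (M : ℤ) + b * k) := (Int.pow_dvd_pow_iff two_ne_zero).mp h2
  obtain ⟨t, ht⟩ := h3
  apply hR.D_ns
  refine ⟨t, ?_⟩
  have h4 : ((Q : ℤ) * k) ^ 2 * (t * t) = ((Q : ℤ) * k) ^ 2 * D := by
    rw [ht] at h1
    linear_combination h1
  have h5 : ((Q : ℤ) * k) ^ 2 ≠ 0 := by positivity
  exact (mul_left_cancel₀ h5 h4).symm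

theorem card_divisors_mul_le (m n : ℕ) :
    (m * n).divisors.card ≤ m.divisors.card * n.divisors.card := by
  rw [Nat.divisors_mul]
  exact Finset.card_mul_le

end Dfs

open Dfs in
theorem defsum_main (hW : P_Wit) (hZ : P_InjZ) (hI : P_Inj) (_hG : P_Geom) : P_DefSum := by
  classical
  intro s a b c Q D hs hR hsum N hBN
  have hN : 0 < N := by
    unfold BigN at hBN
    refine lt_of_lt_of_le ?_ hBN
    positivity
  obtain ⟨C, hC, hwit⟩ := hW s a b c Q D hs hR N hBN
  set K : ℕ := KK Q with hK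
  -- the finite index set
  set F : Finset (ℕ × ℕ × ℕ × ℕ × Bool × ℕ × ℕ) := range (K + 1) ×ˢ range (K + 1) ×ˢ range (K + 1) ×ˢ
    range (K + 1) ×ˢ (Finset.univ : Finset Bool) ×ˢ range (K ^ 2 + 1) ×ˢ range (K ^ 2 + 1) with hF
  -- the majorant
  set G : F → ℕ × ℕ → ℝ≥0∞ := fun i y =>
    if 0 < i.1.2.2.2.2.2.2 ∧ y.1 ∈ NB s a b c Q D i.1.2.2.2.2.2.2 ∧
      y.2 ∈ (i.1.2.2.2.2.2.1 ^ 2 *
        (Phi a b c ((y.1 : ℤ), (i.1.2.2.2.2.2.2 : ℤ))).natAbs).divisors then
      ENNReal.ofReal (C * (1 + Real.log y.1) ^ 2 / y.1) else 0 with hGdef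
  -- finiteness
  have hfin : ∑' x : F × (ℕ × ℕ), G x.1 x.2 < ⊤ := by
    rw [ENNReal.tsum_prod (f := fun i y => G i y), tsum_fintype]
    apply ENNReal.sum_lt_top.mpr
    intro i _
    rcases Nat.eq_zero_or_pos i.1.2.2.2.2.2.2 with hk0 | hk0
    · have : ∀ y, G i y = 0 := by
        intro y
        simp only [hGdef]
        rw [if_neg]
        rintro ⟨h1, -⟩
        omega
      simp [this]
    · set q := i.1.2.2.2.2.2.1 with hq
      set k := i.1.2.2.2.2.2.2 with hk
      have hs1 : Summable (fun M : ℕ => (C * (q ^ 2).divisors.card) * nbw s a b c Q D k M) :=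
        (hsum k hk0).mul_left _
      refine lt_of_le_of_lt ?_ (lt_top_iff_ne_top.mpr hs1.tsum_ofReal_ne_top)
      rw [ENNReal.tsum_prod (f := fun M h : ℕ => G i (M, h))]
      apply ENNReal.tsum_le_tsum
      intro M
      by_cases hM : M ∈ NB s a b c Q D k
      · have hM0 : 0 < M := hM.1
        have hM1 : (1 : ℝ) ≤ M := by exact_mod_cast hM0
        have h1 : ∑' h : ℕ, G i (M, h) = ∑ h ∈ (q ^ 2 *
            (Phi a b c ((M : ℤ), (k : ℤ))).natAbs).divisors,
              ENNReal.ofReal (C * (1 + Real.log M) ^ 2 / M) := by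
          rw [tsum_eq_sum (s := (q ^ 2 * (Phi a b c ((M : ℤ), (k : ℤ))).natAbs).divisors)]
          · apply sum_congr rfl
            intro h hh
            simp only [hGdef]
            rw [if_pos ⟨hk0, hM, hh⟩]
          · intro h hh
            simp only [hGdef]
            rw [if_neg]
            rintro ⟨-, -, h3⟩
            exact hh h3
        rw [h1, sum_const, nsmul_eq_mul]
        have h2 : nbw s a b c Q D k M =
          ((Phi a b c ((M : ℤ), (k : ℤ))).natAbs.divisors.card : ℝ) * (1 + Real.log M) ^ 2 / M := by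
          unfold nbw
          rw [if_pos hM]
        rw [h2, ← ENNReal.ofReal_natCast, ← ENNReal.ofReal_mul (by positivity)]
        apply ENNReal.ofReal_le_ofReal
        have h3 := card_divisors_mul_le (q ^ 2) (Phi a b c ((M : ℤ), (k : ℤ))).natAbs
        have h4 : (((q ^ 2 * (Phi a b c ((M : ℤ), (k : ℤ))).natAbs).divisors.card : ℕ) : ℝ) ≤
          ((q ^ 2).divisors.card : ℝ) * ((Phi a b c ((M : ℤ), (k : ℤ))).natAbs.divisors.card : ℝ) := by
          exact_mod_cast h3
        have h5 : 0 ≤ C * (1 + Real.log M) ^ 2 / M := by positivity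
        calc _ ≤ (((q ^ 2).divisors.card : ℝ) *
              ((Phi a b c ((M : ℤ), (k : ℤ))).natAbs.divisors.card : ℝ)) *
                (C * (1 + Real.log M) ^ 2 / M) := mul_le_mul_of_nonneg_right h4 h5
          _ = _ := by ring
      · have : ∀ h : ℕ, G i (M, h) = 0 := by
          intro h
          simp only [hGdef]
          rw [if_neg]
          rintro ⟨-, h2, -⟩
          exact hM h2
        simp [this]
  -- the words
  set S : Set (List Bool) := {w | Bal (desc (root N) w) ∧ Defect s a b c Q D (desc (root N) w)}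
    with hS
  refine lt_of_le_of_lt ?_ hfin
  have hst : wt (fun e => Bal e ∧ Defect s a b c Q D e) (root N) =
      ∑' w : S, ENNReal.ofReal (theta (desc (root N) w)) := by
    rw [tsum_subtype S (fun w => ENNReal.ofReal (theta (desc (root N) w)))]
    unfold wt
    congr 1
  rw [hst]
  have hE : ∀ w : List Bool, IsEdge N (desc (root N) w) := fun w => isEdge_desc (isEdge_root hN) w
  have hdata : ∀ w : S, ∃ (z w' : ℤ × ℤ) (q M k : ℕ), z ∈ SS Q D (desc (root N) w.1) ∧
      w' ∈ SS Q D (desc (root N) w.1) ∧ 0 < q ∧ 0 < k ∧ q * k ≤ K ^ 2 ∧ dt z w' = q * k ∧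
      ip b (a * c) z w' = q * M ∧ M ∈ NB s a b c Q D k ∧
      theta (desc (root N) w.1) ≤ C * (1 + Real.log M) ^ 2 / M := by
    rintro ⟨w, hw1, hw2⟩
    obtain ⟨z, hz, w', hw', q, M, k, h⟩ := hwit _ (hE w) hw1 hw2
    exact ⟨z, w', q, M, k, hz, hw', h⟩
  choose z w' q M k hz hw' hq hk hqk hdt hip hM hth using hdata
  have hqK : ∀ w : S, q w < K ^ 2 + 1 := by
    intro w
    have := hqk w
    have := hk w
    nlinarith
  have hkK : ∀ w : S, k w < K ^ 2 + 1 := by
    intro w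
    have := hqk w
    have := hq w
    nlinarith
  -- coefficients
  have hmem : ∀ w : S, ((dt (z w) (desc (root N) w.1).2).toNat,
      (dt (desc (root N) w.1).1 (z w)).toNat,
      (dt (w' w) (desc (root N) w.1).2).toNat, (dt (desc (root N) w.1).1 (w' w)).toNat,
      decide (0 ≤ Phi a b c (z w)), q w, k w) ∈ F := by
    intro w
    obtain ⟨-, a1, a2, a3, a4⟩ := hz w
    obtain ⟨-, b1, b2, b3, b4⟩ := hw' w
    have := hqK w
    have := hkK w
    simp only [hF, mem_product, mem_range, mem_univ, true_and]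
    refine ⟨?_, ?_, ?_, ?_, ?_, ?_⟩ <;> omega
  set φ : S → F × (ℕ × ℕ) := fun w => (⟨_, hmem w⟩, (M w, (Phi a b c (z w)).natAbs)) with hφ
  have hinj : Function.Injective φ := by
    intro w v h
    simp only [hφ, Prod.mk.injEq, Subtype.mk.injEq] at h
    obtain ⟨⟨c1, c2, c3, c4, c5, c6, c7⟩, c8, c9⟩ := h
    obtain ⟨vz, a1, a2, a3, a4⟩ := hz w
    obtain ⟨vw, b1, b2, b3, b4⟩ := hw' w
    obtain ⟨vz', a1', a2', a3', a4'⟩ := hz v
    obtain ⟨vw', b1', b2', b3', b4'⟩ := hw' v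
    have hPhi : Phi a b c (z w) = Phi a b c (z v) := by
      have : (0 ≤ Phi a b c (z w)) ↔ (0 ≤ Phi a b c (z v)) := by simpa using c5
      rcases le_or_gt 0 (Phi a b c (z w)) with h0 | h0
      · have h1 := this.mp h0
        omega
      · have h1 : ¬ 0 ≤ Phi a b c (z v) := fun h => absurd (this.mpr h) (not_le.mpr h0)
        omega
    have hzz := hZ a b c Q D hR N hBN (z w) (w' w) (z v) (w' v) (q w) (M w) (k w) (hq w) (hk w)
      (hqk w) (hM w).2.1 (reg_of (hE w.1) vz.1 a3 a1) (reg_of (hE v.1) vz'.1 a3' a1')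
      vz.2.1 vz'.2.1 (hdt w) (by rw [hdt v, c6, c7]) (hip w) (by rw [hip v, c6, c8]) hPhi
    obtain ⟨e1, e2⟩ := hzz
    have hne : dt (z w) (w' w) ≠ 0 := by
      rw [hdt w]
      have h1 := hq w
      have h2 := hk w
      positivity
    have hee : desc (root N) w.1 = desc (root N) v.1 := by
      apply edge_unique hne
      · rw [e1] at a3 a4 c1 ⊢; omega
      · rw [e1] at a1 a2 c2 ⊢; omega
      · rw [e2] at b3 b4 c3 ⊢; omega
      · rw [e2] at b1 b2 c4 ⊢; omega
    exact Subtype.ext (hI N hN hee)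
  refine le_trans ?_ (ENNReal.tsum_comp_le_tsum_of_injective hinj (fun x => G x.1 x.2))
  apply ENNReal.tsum_le_tsum
  intro w
  simp only [hφ, hGdef]
  rw [if_pos]
  · exact ENNReal.ofReal_le_ofReal (hth w)
  · refine ⟨hk w, hM w, ?_⟩
    rw [Nat.mem_divisors]
    have hne := Phi_ne hR (M := M w) (hk w)
    constructor
    · have h1 : Phi a b c (z w) * Phi a b c (w' w) =
          (q w : ℤ) ^ 2 * Phi a b c ((M w : ℤ), (k w : ℤ)) := by
        unfold Phi
        rw [nf_mul_nf, hip w, hdt w]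
        simp only [nf]
        ring
      have h2 := congrArg Int.natAbs h1
      rw [Int.natAbs_mul, Int.natAbs_mul, Int.natAbs_pow, Int.natAbs_natCast] at h2
      exact ⟨_, h2.symm⟩
    · have h1 := hq w
      have h2 : (Phi a b c ((M w : ℤ), (k w : ℤ))).natAbs ≠ 0 := Int.natAbs_ne_zero.mpr hne
      positivity

end Pool.Agent.Quad
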