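import Pool.Agent.Quad.Stmt

/-!
# Module NOUSE
-/

set_option autoImplicit false

namespace Pool.Agent.Quad

open Pool.Agent.FareyParity

theorem nouse_main : P_NoUse := by
  intro s a b c Q D e U hR hH k M n q hk hM hq hMe hdvd hpos
  obtain ⟨-, hMk, hMQ, -, hcl⟩ := hM
  have hqk : ¬ q ∣ k := by
    intro h
    have h1 : q ∣ M := by
      rw [hMe]
      exact dvd_add (Dvd.dvd.mul_right (Dvd.dvd.mul_left h _) _) dvd_rfl
    have h2 := Nat.dvd_gcd h1 h
    rw [hMk] at h2
    exact hq.one_lt.ne' (Nat.dvd_one.mp h2)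
  have hqa : ¬ q ∣ a := by
    intro h
    have h1 : q ∣ M := by
      rw [hMe]
      exact dvd_add (Dvd.dvd.mul_right (Dvd.dvd.mul_right h _) _) dvd_rfl
    have h2 := Nat.dvd_gcd h1 (hR.prime_a q hq h)
    rw [hMQ] at h2
    exact hq.one_lt.ne' (Nat.dvd_one.mp h2)
  have hMz : (M : ℤ) = a * k * n + q := by exact_mod_cast hMe
  have hid : Phi a b c ((M : ℤ), (k : ℤ)) = a * (k : ℤ) ^ 2 * pv a b c n +
      q * (2 * a * k * n + q + b * k) := by
    unfold Phi nf pv
    simp only
    rw [hMz]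
    ring
  have h1 : (q : ℤ) ∣ a * (k : ℤ) ^ 2 * pv a b c n := by
    rw [hid] at hdvd
    exact (dvd_add_left (Dvd.intro _ rfl)).mp hdvd
  have hqp : Prime (q : ℤ) := Nat.prime_iff_prime_int.mp hq
  have h2 : (q : ℤ) ∣ pv a b c n := by
    rcases hqp.dvd_or_dvd h1 with h | h
    · exfalso
      rcases hqp.dvd_or_dvd h with h | h
      · exact hqa (by exact_mod_cast h)
      · exact hqk (by exact_mod_cast hqp.dvd_of_dvd_pow h)
    · exact h
  obtain ⟨r, hr⟩ := h2
  have hq0 : (0 : ℤ) < q := by exact_mod_cast hq.pos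
  have hr0 : 0 < r := by
    rw [hr] at hpos
    exact (mul_pos_iff_of_pos_left hq0).mp hpos
  obtain ⟨r', rfl⟩ : ∃ r' : ℕ, r = r' := ⟨r.toNat, (Int.toNat_of_nonneg hr0.le).symm⟩
  refine ⟨r', hr, ?_⟩
  by_contra hno
  push Not at hno
  obtain ⟨hn1, hn2⟩ := hno
  have e1 := hH.val n hn1
  have e2 := hH.val _ hn2
  have hid2 : pv a b c n * Phi a b c ((M : ℤ), (k : ℤ)) = q * q * pv a b c (n + k * r') := by
    have h3 : pv a b c (n + k * r') = pv a b c n + k * r' * (2 * a * n + a * k * r' + b) := by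
      unfold pv
      push_cast
      ring
    rw [hid, h3]
    have h4 : (q : ℤ) * (k * r' * (2 * a * n + a * k * r' + b)) =
        k * pv a b c n * (2 * a * n + b) + a * k ^ 2 * r' * pv a b c n := by
      rw [hr]; ring
    calc pv a b c n * (a * (k : ℤ) ^ 2 * pv a b c n + q * (2 * a * k * n + q + b * k))
        = q * q * pv a b c n + q * (k * pv a b c n * (2 * a * n + b)) +
          pv a b c n * (a * (k : ℤ) ^ 2) * pv a b c n := by ring
      _ = q * q * pv a b c n + q * (k * pv a b c n * (2 * a * n + b)) +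
          pv a b c n * (a * (k : ℤ) ^ 2) * (q * r') := by rw [← hr]
      _ = q * q * pv a b c n + q * (k * pv a b c n * (2 * a * n + b) +
          a * k ^ 2 * r' * pv a b c n) := by ring
      _ = q * q * (pv a b c n + k * r' * (2 * a * n + a * k * r' + b)) := by
          rw [← h4]; ring
  have h5 := congrArg (fun t : ℤ => s t.natAbs) hid2
  simp only [Int.natAbs_mul, Int.natAbs_natCast] at h5
  rw [hH.sgn.mul, hH.sgn.mul, sign_sq hH.sgn hq.ne_zero, one_mul, e1, e2] at h5
  have h6 : s (Phi a b c ((M : ℤ), (k : ℤ))).natAbs = -1 := hcl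
  rw [h6] at h5
  have h7 : s (pv a b c n).natAbs = 1 ∨ s (pv a b c n).natAbs = -1 := by
    apply hH.sgn.val
    omega
  rw [e1] at h7
  rcases h7 with h | h <;> rw [h] at h5 <;> norm_num at h5

end Pool.Agent.Quad
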